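import Pool.Agent.MP_3fed84_gt.Flow

/-! Total differential systems dq = w(z, q) dz: curvature, leaves, radial sections and the two
holonomy estimates. -/

open Set Metric Filter Topology
open scoped ContDiff

namespace Pool.Agent.MP_3fed84_gt

variable {E P : Type} [NormedAddCommGroup E] [NormedSpace ℝ E]
  [NormedAddCommGroup P] [NormedSpace ℝ P]

/-- Horizontal derivative of a function on the total space. -/
noncomputable def hor {Y : Type} [NormedAddCommGroup Y] [NormedSpace ℝ Y]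
    (w : E × P → E →L[ℝ] P) (Φ : E × P → Y) (p : E × P) : E →L[ℝ] Y :=
  (fderiv ℝ Φ p).comp ((ContinuousLinearMap.id ℝ E).prod (w p))

/-- Curvature (the obstruction to integrability) of the system. -/
noncomputable def cur (w : E × P → E →L[ℝ] P) (p : E × P) : E →L[ℝ] E →L[ℝ] P :=
  hor w w p - (hor w w p).flip

/-- Points through which a local solution passes. -/
def Leaf (w : E × P → E →L[ℝ] P) : Set (E × P) :=
  {p | ∃ s : E → P, s p.1 = p.2 ∧ ∀ᶠ z in 𝓝 p.1, HasFDerivAt s (w (z, s z)) z}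

/-- p is reached from p₀ by a chain of horizontal arcs inside S of total length at most l. -/
inductive Conn (w : E × P → E →L[ℝ] P) (S : Set (E × P)) (p₀ : E × P) : ℝ → E × P → Prop
  | base : Conn w S p₀ 0 p₀
  | step {l : ℝ} {p : E × P} (h : Conn w S p₀ l p) (γ : ℝ → E × P) (a b lam : ℝ) (hab : a ≤ b)
      (hlam : 0 ≤ lam) (hc : ContinuousOn γ (Icc a b)) (h0 : γ a = p)
      (hS : ∀ t ∈ Icc a b, γ t ∈ S)
      (hd : ∀ t ∈ Ioo a b, ∃ v : E, ‖v‖ ≤ lam ∧ HasDerivAt γ (v, w (γ t) v) t) :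
      Conn w S p₀ (l + lam * (b - a)) (γ b)

/-- Gronwall inequality with the derivative controlled on the open interval only. -/
theorem gron_open {Y : Type} [NormedAddCommGroup Y] [NormedSpace ℝ Y] {f : ℝ → Y}
    {a b K ε : ℝ} (hab : a ≤ b) (hK : 0 ≤ K) (hε : 0 ≤ ε) (hc : ContinuousOn f (Icc a b))
    (hd : ∀ t ∈ Ioo a b, ∃ f', HasDerivAt f f' t ∧ ‖f'‖ ≤ K * ‖f t‖ + ε) :
    ‖f b‖ ≤ (‖f a‖ + ε * (b - a)) * Real.exp (K * (b - a)) := by
  rcases hab.eq_or_lt with rfl | hlt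
  · simp
  have key : ∀ a' ∈ Ioo a b, ‖f b‖ ≤ (‖f a'‖ + ε * (b - a)) * Real.exp (K * (b - a)) := by
    intro a' ha'
    have h1 := norm_le_gronwallBound_of_norm_deriv_right_le (f := f) (f' := deriv f)
      (δ := ‖f a'‖) (K := K) (ε := ε) (a := a') (b := b)
      (hc.mono (Icc_subset_Icc_left ha'.1.le))
      (fun x hx => by
        obtain ⟨f', hf', -⟩ := hd x ⟨ha'.1.trans_le hx.1, hx.2⟩
        rw [hf'.deriv]
        exact hf'.hasDerivWithinAt) le_rfl
      (fun x hx => by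
        obtain ⟨f', hf', hb⟩ := hd x ⟨ha'.1.trans_le hx.1, hx.2⟩
        rw [hf'.deriv]
        exact hb) b ⟨ha'.2.le, le_rfl⟩
    refine h1.trans ?_
    have hx : 0 ≤ b - a' := sub_nonneg.2 ha'.2.le
    have hxa : b - a' ≤ b - a := by linarith [ha'.1]
    have h2 : gronwallBound ‖f a'‖ K ε (b - a') ≤
        (‖f a'‖ + ε * (b - a')) * Real.exp (K * (b - a')) := by
      have he : 1 ≤ Real.exp (K * (b - a')) := Real.one_le_exp (mul_nonneg hK hx)
      rcases hK.eq_or_lt with rfl | hK'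
      · simp [gronwallBound_K0]
      · rw [gronwallBound_of_K_ne_0 hK'.ne']
        have h3 : Real.exp (K * (b - a')) - 1 ≤ K * (b - a') * Real.exp (K * (b - a')) := by
          have h4 := Real.add_one_le_exp (-(K * (b - a')))
          have h5 : Real.exp (-(K * (b - a'))) * Real.exp (K * (b - a')) = 1 := by
            rw [← Real.exp_add]; simp
          nlinarith [Real.exp_pos (K * (b - a'))]
        have h6 : ε / K * (Real.exp (K * (b - a')) - 1)
            ≤ ε / K * (K * (b - a') * Real.exp (K * (b - a'))) :=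
          mul_le_mul_of_nonneg_left h3 (div_nonneg hε hK)
        have h7 : ε / K * (K * (b - a') * Real.exp (K * (b - a')))
            = ε * (b - a') * Real.exp (K * (b - a')) := by field_simp
        simp only
        nlinarith
    refine h2.trans ?_
    gcongr
  have ht : Tendsto (fun a' => (‖f a'‖ + ε * (b - a)) * Real.exp (K * (b - a))) (𝓝[>] a)
      (𝓝 ((‖f a‖ + ε * (b - a)) * Real.exp (K * (b - a)))) := by
    have h1 : ContinuousWithinAt f (Ioi a) a :=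
      (hc a ⟨le_rfl, hab⟩).mono_of_mem_nhdsWithin (Icc_mem_nhdsGT hlt)
    exact ((h1.norm.tendsto).add_const _).mul_const _
  exact ge_of_tendsto ht (by filter_upwards [Ioo_mem_nhdsGT hlt] with a' ha' using key a' ha')

theorem dfst {γ : ℝ → E × P} {v : E × P} {t : ℝ} (h : HasDerivAt γ v t) :
    HasDerivAt (fun s => (γ s).1) v.1 t :=
  (ContinuousLinearMap.fst ℝ E P).hasFDerivAt.comp_hasDerivAt t h

theorem dsnd {γ : ℝ → E × P} {v : E × P} {t : ℝ} (h : HasDerivAt γ v t) :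
    HasDerivAt (fun s => (γ s).2) v.2 t :=
  (ContinuousLinearMap.snd ℝ E P).hasFDerivAt.comp_hasDerivAt t h

theorem exists_bound {X Y : Type} [TopologicalSpace X] [NormedAddCommGroup Y] {Φ : X → Y}
    {Z : Set X} (hZ : IsCompact Z) (hΦ : ContinuousOn Φ Z) : ∃ B, ∀ p ∈ Z, ‖Φ p‖ ≤ B :=
  hZ.exists_bound_of_continuousOn hΦ

theorem hor_apply {Y : Type} [NormedAddCommGroup Y] [NormedSpace ℝ Y]
    (w : E × P → E →L[ℝ] P) (Φ : E × P → Y) (p : E × P) (v : E) :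
    hor w Φ p v = fderiv ℝ Φ p (v, w p v) := rfl

theorem contDiffOn_hor {Y : Type} [NormedAddCommGroup Y] [NormedSpace ℝ Y]
    {w : E × P → E →L[ℝ] P} {O : Set (E × P)} (hO : IsOpen O) (hw : ContDiffOn ℝ ∞ w O)
    {Φ : E × P → Y} (hΦ : ContDiffOn ℝ ∞ Φ O) : ContDiffOn ℝ ∞ (hor w Φ) O := by
  have h1 : ContDiffOn ℝ ∞ (fderiv ℝ Φ) O := hΦ.fderiv_of_isOpen hO (by simp)
  have h2 : ContDiffOn ℝ ∞ (fun p => ContinuousLinearMap.inl ℝ E P +
      (ContinuousLinearMap.inr ℝ E P).comp (w p)) O :=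
    contDiffOn_const.add (contDiffOn_const.clm_comp hw)
  refine (h1.clm_comp h2).congr fun p _ => ?_
  ext v
  rw [hor_apply, ContinuousLinearMap.comp_apply]
  congr 1
  simp

theorem contDiffOn_cur {w : E × P → E →L[ℝ] P} {O : Set (E × P)} (hO : IsOpen O)
    (hw : ContDiffOn ℝ ∞ w O) : ContDiffOn ℝ ∞ (cur w) O := by
  have h1 := contDiffOn_hor hO hw hw
  have h2 : ContDiff ℝ ∞ (fun A : E →L[ℝ] E →L[ℝ] P => A.flip) :=
    IsBoundedLinearMap.contDiff
      { map_add := fun A B => ContinuousLinearMap.flip_add A B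
        map_smul := fun c A => ContinuousLinearMap.flip_smul c A
        bound := ⟨1, one_pos, fun A => by
          rw [one_mul]; exact (ContinuousLinearMap.opNorm_flip A).le⟩ }
  exact h1.sub (h2.comp_contDiffOn h1)

theorem hasFDerivAt_along {Y : Type} [NormedAddCommGroup Y] [NormedSpace ℝ Y]
    {w : E × P → E →L[ℝ] P} {Φ : E × P → Y} {s : E → P} {z : E}
    (hΦ : DifferentiableAt ℝ Φ (z, s z)) (hs : HasFDerivAt s (w (z, s z)) z) :
    HasFDerivAt (fun y => Φ (y, s y)) (hor w Φ (z, s z)) z :=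
  hΦ.hasFDerivAt.comp z ((hasFDerivAt_id z).prodMk hs)

theorem diffAt_of_contDiffOn {X Y : Type} [NormedAddCommGroup X] [NormedSpace ℝ X]
    [NormedAddCommGroup Y] [NormedSpace ℝ Y] {Φ : X → Y} {O : Set X} (hO : IsOpen O)
    (hΦ : ContDiffOn ℝ ∞ Φ O) {p : X} (hp : p ∈ O) : DifferentiableAt ℝ Φ p :=
  (hΦ.contDiffAt (hO.mem_nhds hp)).differentiableAt (by simp)

theorem cur_eq_zero_of_leaf {w : E × P → E →L[ℝ] P} {O : Set (E × P)} (hO : IsOpen O)
    (hw : ContDiffOn ℝ ∞ w O) {p : E × P} (hp : p ∈ Leaf w ∩ O) : cur w p = 0 := by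
  obtain ⟨z, q⟩ := p
  obtain ⟨⟨s, hs, hev⟩, hpO⟩ := hp
  simp only at hs hev
  subst hs
  have h1 := hasFDerivAt_along (diffAt_of_contDiffOn hO hw hpO) hev.self_of_nhds
  ext a b
  have := second_derivative_symmetric_of_eventually_of_real hev h1 a b
  simp [cur, this]

theorem hor_eq_zero_of_leaf {Y : Type} [NormedAddCommGroup Y] [NormedSpace ℝ Y]
    {w : E × P → E →L[ℝ] P} {O : Set (E × P)} (hO : IsOpen O) {Φ : E × P → Y}
    (hΦ : ContDiffOn ℝ ∞ Φ O) (h0 : ∀ p ∈ Leaf w ∩ O, Φ p = 0) {p : E × P}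
    (hp : p ∈ Leaf w ∩ O) : hor w Φ p = 0 := by
  obtain ⟨z, q⟩ := p
  obtain ⟨⟨s, hs, hev⟩, hpO⟩ := hp
  simp only at hs hev
  subst hs
  have h1 := hasFDerivAt_along (diffAt_of_contDiffOn hO hΦ hpO) hev.self_of_nhds
  have hc : ContinuousAt (fun y => (y, s y)) z :=
    continuousAt_id.prodMk hev.self_of_nhds.continuousAt
  have h2 : (fun y => Φ (y, s y)) =ᶠ[𝓝 z] fun _ => 0 := by
    filter_upwards [hev.eventually_nhds, hc.preimage_mem_nhds (hO.mem_nhds hpO)] with y hy hyO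
    exact h0 _ ⟨⟨s, rfl, hy⟩, hyO⟩
  exact h1.unique ((hasFDerivAt_const (0 : Y) z).congr_of_eventuallyEq h2)

theorem eq_zero_of_closure {X Y : Type} [TopologicalSpace X] [NormedAddCommGroup Y]
    {Φ : X → Y} {S O : Set X} (hO : IsOpen O) (hΦ : ContinuousOn Φ O) (h0 : ∀ p ∈ S, Φ p = 0)
    {p : X} (hp : p ∈ closure S) (hpO : p ∈ O) : Φ p = 0 := by
  have h1 : ContinuousWithinAt Φ S p := (hΦ.continuousAt (hO.mem_nhds hpO)).continuousWithinAt
  have h2 := h1.mem_closure_image hp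
  have h3 : Φ '' S ⊆ {0} := by
    rintro _ ⟨y, hy, rfl⟩
    exact h0 y hy
  simpa using closure_mono h3 h2

theorem exists_lip {X Y : Type} [NormedAddCommGroup X] [NormedSpace ℝ X]
    [NormedAddCommGroup Y] [NormedSpace ℝ Y] {Φ : X → Y} {O Z : Set X} (hO : IsOpen O)
    (hΦ : ContDiffOn ℝ ∞ Φ O) (hZc : IsCompact Z) (hZv : Convex ℝ Z) (hZ : Z ⊆ O) :
    ∃ L ≥ 0, (∀ p ∈ Z, ‖fderiv ℝ Φ p‖ ≤ L) ∧ ∀ p ∈ Z, ∀ p' ∈ Z, ‖Φ p' - Φ p‖ ≤ L * ‖p' - p‖ := by
  have h1 : ContDiffOn ℝ ∞ (fderiv ℝ Φ) O := hΦ.fderiv_of_isOpen hO (by simp)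
  obtain ⟨L, hL⟩ := hZc.exists_bound_of_continuousOn (h1.continuousOn.mono hZ)
  refine ⟨max L 0, le_max_right _ _, fun p hp => (hL p hp).trans (le_max_left _ _),
    fun p hp p' hp' => ?_⟩
  exact hZv.norm_image_sub_le_of_norm_fderiv_le
    (fun x hx => diffAt_of_contDiffOn hO hΦ (hZ hx))
    (fun x hx => (hL x hx).trans (le_max_left _ _)) hp hp'

/-- Radial sections. -/
def Rad (w : E × P → E →L[ℝ] P) (Q : Set P) (δ : ℝ) (σ : E → P) : Prop :=
  ContDiffOn ℝ ∞ σ (ball 0 δ) ∧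
    ∀ z ∈ ball (0 : E) δ, σ z ∈ Q ∧ fderiv ℝ σ z z = w (z, σ z) z

theorem smul_mem_ball_zero {δ t : ℝ} {z : E} (hz : z ∈ ball (0 : E) δ) (ht : t ∈ Icc (0 : ℝ) 1) :
    t • z ∈ ball (0 : E) δ := by
  rw [mem_ball_zero_iff] at hz ⊢
  rw [norm_smul, Real.norm_of_nonneg ht.1]
  nlinarith [norm_nonneg z, ht.1, ht.2]

theorem norm_smul_le_self {t : ℝ} (z : E) (ht : t ∈ Icc (0 : ℝ) 1) : ‖t • z‖ ≤ ‖z‖ := by
  rw [norm_smul, Real.norm_of_nonneg ht.1]
  nlinarith [norm_nonneg z, ht.1, ht.2]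

theorem Rad.mem {w : E × P → E →L[ℝ] P} {Q : Set P} {δ ρ : ℝ} {σ : E → P} (h : Rad w Q δ σ)
    (hδ : δ ≤ ρ) {z : E} (hz : z ∈ ball (0 : E) δ) : (z, σ z) ∈ closedBall (0 : E) ρ ×ˢ Q :=
  ⟨ball_subset_closedBall (ball_subset_ball hδ hz), (h.2 z hz).1⟩

theorem Rad.continuousOn_ray {w : E × P → E →L[ℝ] P} {Q : Set P} {δ : ℝ} {σ : E → P}
    (h : Rad w Q δ σ) {z : E} (hz : z ∈ ball (0 : E) δ) :
    ContinuousOn (fun t : ℝ => (t • z, σ (t • z))) (Icc 0 1) := by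
  have h1 : Continuous fun t : ℝ => t • z := by fun_prop
  exact h1.continuousOn.prodMk
    (h.1.continuousOn.comp h1.continuousOn fun t ht => smul_mem_ball_zero hz ht)

theorem Rad.hasDerivAt_ray {w : E × P → E →L[ℝ] P} {Q : Set P} {δ : ℝ} {σ : E → P}
    (h : Rad w Q δ σ) {z : E} (hz : z ∈ ball (0 : E) δ) {t : ℝ} (ht : t ∈ Ioo (0 : ℝ) 1) :
    HasDerivAt (fun t : ℝ => (t • z, σ (t • z))) (z, w (t • z, σ (t • z)) z) t := by
  have hm := smul_mem_ball_zero hz (Ioo_subset_Icc_self ht)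
  have h1 : HasDerivAt (fun t : ℝ => t • z) z t := by
    simpa using (hasDerivAt_id t).smul_const z
  have h2 := (diffAt_of_contDiffOn isOpen_ball h.1 hm).hasFDerivAt.comp_hasDerivAt t h1
  have h3 : fderiv ℝ σ (t • z) z = w (t • z, σ (t • z)) z := by
    have h4 := (h.2 _ hm).2
    rw [map_smul, map_smul] at h4
    exact smul_right_injective _ ht.1.ne' h4
  rw [h3] at h2
  exact h1.prodMk h2

theorem flat_bound {w : E × P → E →L[ℝ] P} {O : Set (E × P)} (hO : IsOpen O)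
    (hw : ContDiffOn ℝ ∞ w O) {Q : Set P} {ρ : ℝ}
    (hZc : IsCompact (closedBall (0 : E) ρ ×ˢ Q)) (hZ : closedBall (0 : E) ρ ×ˢ Q ⊆ O) (n : ℕ) :
    ∀ (Y : Type) [NormedAddCommGroup Y] [NormedSpace ℝ Y] (Φ : E × P → Y),
      ContDiffOn ℝ ∞ Φ O → (∀ p ∈ Leaf w ∩ O, Φ p = 0) →
      ∃ C ≥ 0, ∀ δ ≤ ρ, ∀ σ, Rad w Q δ σ → ((0 : E), σ 0) ∈ closure (Leaf w ∩ O) →
        ∀ z ∈ ball (0 : E) δ, ‖Φ (z, σ z)‖ ≤ C * ‖z‖ ^ n := by
  induction n with
  | zero =>
    intro Y _ _ Φ hΦ _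
    obtain ⟨C, hC⟩ := hZc.exists_bound_of_continuousOn (hΦ.continuousOn.mono hZ)
    refine ⟨max C 0, le_max_right _ _, fun δ hδ σ hσ _ z hz => ?_⟩
    rw [pow_zero, mul_one]
    exact (hC _ (hσ.mem hδ hz)).trans (le_max_left _ _)
  | succ n ih =>
    intro Y _ _ Φ hΦ h0
    obtain ⟨C, hC0, hC⟩ := ih _ (hor w Φ) (contDiffOn_hor hO hw hΦ)
      (fun p hp => hor_eq_zero_of_leaf hO hΦ h0 hp)
    refine ⟨C, hC0, fun δ hδ σ hσ hcl z hz => ?_⟩
    have hmem : ∀ t ∈ Icc (0 : ℝ) 1, (t • z, σ (t • z)) ∈ O := fun t ht =>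
      hZ (hσ.mem hδ (smul_mem_ball_zero hz ht))
    have h1 := gron_open (f := fun t : ℝ => Φ (t • z, σ (t • z))) (a := 0) (b := 1) (K := 0)
      (ε := C * ‖z‖ ^ (n + 1)) zero_le_one le_rfl (by positivity)
      (hΦ.continuousOn.comp (hσ.continuousOn_ray hz) hmem) (fun t ht => by
        have ht' := Ioo_subset_Icc_self ht
        refine ⟨_, (diffAt_of_contDiffOn hO hΦ (hmem t ht')).hasFDerivAt.comp_hasDerivAt t
          (hσ.hasDerivAt_ray hz ht), ?_⟩
        rw [← hor_apply, zero_mul, zero_add, pow_succ, ← mul_assoc]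
        refine (ContinuousLinearMap.le_opNorm _ _).trans ?_
        refine mul_le_mul_of_nonneg_right ((hC δ hδ σ hσ hcl _
          (smul_mem_ball_zero hz ht')).trans ?_) (norm_nonneg _)
        have := norm_smul_le_self z ht'
        gcongr)
    have h2 : Φ (0, σ 0) = 0 := by
      have := hmem 0 ⟨le_rfl, zero_le_one⟩
      rw [zero_smul] at this
      exact eq_zero_of_closure hO hΦ.continuousOn h0 hcl this
    simpa [h2] using h1

theorem defect_deriv {w : E × P → E →L[ℝ] P} {O : Set (E × P)} (hO : IsOpen O)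
    (hw : ContDiffOn ℝ ∞ w O) {Q : Set P} {δ : ℝ} {σ : E → P} (hσ : Rad w Q δ σ) {u : E}
    (hu : u ∈ ball (0 : E) δ) (huO : (u, σ u) ∈ O) :
    ∃ D' : E →L[ℝ] E →L[ℝ] P, HasFDerivAt (fun y => fderiv ℝ σ y - w (y, σ y)) D' u ∧
      ∀ X, D' u X = -((fderiv ℝ σ u - w (u, σ u)) X) + cur w (u, σ u) X u +
        fderiv ℝ w (u, σ u) (0, (fderiv ℝ σ u - w (u, σ u)) X) u := by
  have h1 : ContDiffOn ℝ ∞ (fderiv ℝ σ) (ball 0 δ) := hσ.1.fderiv_of_isOpen isOpen_ball (by simp)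
  have hσ' := (diffAt_of_contDiffOn isOpen_ball hσ.1 hu).hasFDerivAt
  have hσ'' := (diffAt_of_contDiffOn isOpen_ball h1 hu).hasFDerivAt
  have hw' := (diffAt_of_contDiffOn hO hw huO).hasFDerivAt.comp u ((hasFDerivAt_id u).prodMk hσ')
  have hD := hσ''.sub hw'
  refine ⟨_, hD, fun X => ?_⟩
  have hsym : fderiv ℝ (fderiv ℝ σ) u u X = fderiv ℝ (fderiv ℝ σ) u X u := by
    refine second_derivative_symmetric_of_eventually_of_real (f := σ) ?_ hσ'' u X
    filter_upwards [isOpen_ball.mem_nhds hu] with y hy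
    exact (diffAt_of_contDiffOn isOpen_ball hσ.1 hy).hasFDerivAt
  have hz : (fun y => (fderiv ℝ σ y - w (y, σ y)) y) =ᶠ[𝓝 u] fun _ => 0 := by
    filter_upwards [isOpen_ball.mem_nhds hu] with y hy
    simp [(hσ.2 y hy).2]
  have h2 := (hD.clm_apply (hasFDerivAt_id u)).unique
    ((hasFDerivAt_const (0 : P) u).congr_of_eventuallyEq hz)
  have h3 := congrArg (fun L : E →L[ℝ] P => L X) h2
  have h4 : fderiv ℝ σ u u = w (u, σ u) u := (hσ.2 u hu).2
  have h5 : ((X, fderiv ℝ σ u X) : E × P) =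
      (X, w (u, σ u) X) + (0, (fderiv ℝ σ u - w (u, σ u)) X) := by simp
  simp only [add_apply, ContinuousLinearMap.comp_apply,
    ContinuousLinearMap.flip_apply, sub_apply, ContinuousLinearMap.id_apply,
    ContinuousLinearMap.prod_apply, id, zero_apply, Pi.sub_apply,
    Function.comp] at h3 ⊢
  rw [h5, map_add] at h3
  simp only [cur, sub_apply, ContinuousLinearMap.flip_apply, hor_apply, add_apply] at h3 ⊢
  rw [hsym, h4]
  linear_combination (norm := abel) h3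

theorem defect_ray {w : E × P → E →L[ℝ] P} {O : Set (E × P)} (hO : IsOpen O)
    (hw : ContDiffOn ℝ ∞ w O) {Q : Set P} {δ : ℝ} {σ : E → P} (hσ : Rad w Q δ σ) {z : E} {t : ℝ}
    (hu : t • z ∈ ball (0 : E) δ) (huO : (t • z, σ (t • z)) ∈ O) (X : E) :
    HasDerivAt (fun t : ℝ => t • (fderiv ℝ σ (t • z) - w (t • z, σ (t • z))) X)
      (t • cur w (t • z, σ (t • z)) X z + fderiv ℝ w (t • z, σ (t • z))
        (0, t • (fderiv ℝ σ (t • z) - w (t • z, σ (t • z))) X) z) t := by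
  obtain ⟨D', hD', hD⟩ := defect_deriv hO hw hσ hu huO
  have h3 : HasDerivAt (fun t : ℝ => t • z) z t := by
    simpa using (hasDerivAt_id t).smul_const z
  have h4 : HasDerivAt (fun t : ℝ => (fderiv ℝ σ (t • z) - w (t • z, σ (t • z))) X) (D' z X) t := by
    have h5 := hD'.comp_hasDerivAt t h3
    exact (ContinuousLinearMap.apply ℝ P X).hasFDerivAt.comp_hasDerivAt t h5
  refine ((hasDerivAt_id t).smul h4).congr_deriv ?_
  have h6 := hD X
  generalize (fderiv ℝ σ (t • z) - w (t • z, σ (t • z))) X = V at h6 ⊢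
  have h7 : ((0 : E), t • V) = t • ((0 : E), V) := by simp
  rw [map_smul, smul_apply, map_smul, map_smul] at h6
  rw [id, h6, h7, map_smul, smul_apply, one_smul]
  abel

theorem defect_bound {w : E × P → E →L[ℝ] P} {O : Set (E × P)} (hO : IsOpen O)
    (hw : ContDiffOn ℝ ∞ w O) {Q : Set P} {ρ L : ℝ} (hL0 : 0 ≤ L)
    (hZ : closedBall (0 : E) ρ ×ˢ Q ⊆ O)
    (hL : ∀ p ∈ closedBall (0 : E) ρ ×ˢ Q, ‖fderiv ℝ w p‖ ≤ L) {δ : ℝ} (hδ : δ ≤ ρ) {σ : E → P}
    (hσ : Rad w Q δ σ) {z : E} (hz : z ∈ ball (0 : E) δ) {M : ℝ} (hM0 : 0 ≤ M)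
    (hM : ∀ t ∈ Icc (0 : ℝ) 1, ‖cur w (t • z, σ (t • z))‖ ≤ M) :
    ‖fderiv ℝ σ z - w (z, σ z)‖ ≤ Real.exp (L * ρ) * ‖z‖ * M := by
  refine ContinuousLinearMap.opNorm_le_bound _ (by positivity) fun X => ?_
  have hzρ : ‖z‖ ≤ ρ := (mem_ball_zero_iff.1 hz).le.trans hδ
  have hmem : ∀ t ∈ Icc (0 : ℝ) 1, (t • z, σ (t • z)) ∈ closedBall (0 : E) ρ ×ˢ Q := fun t ht =>
    hσ.mem hδ (smul_mem_ball_zero hz ht)
  have hder := fun t (ht : t ∈ Icc (0 : ℝ) 1) =>
    defect_ray hO hw hσ (smul_mem_ball_zero hz ht) (hZ (hmem t ht)) X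
  have h2 := gron_open
    (f := fun t : ℝ => t • (fderiv ℝ σ (t • z) - w (t • z, σ (t • z))) X) (a := 0) (b := 1)
    (K := L * ρ) (ε := M * ‖X‖ * ‖z‖) zero_le_one
    (mul_nonneg hL0 ((norm_nonneg _).trans hzρ)) (by positivity)
    (fun t ht => (hder t ht).continuousAt.continuousWithinAt)
    (fun t ht => by
      have ht' := Ioo_subset_Icc_self ht
      refine ⟨_, hder t ht', ?_⟩
      have hLp := hL _ (hmem t ht')
      have hMp := hM t ht'
      generalize (fderiv ℝ σ (t • z) - w (t • z, σ (t • z))) X = V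
      generalize (t • z, σ (t • z)) = p at hLp hMp ⊢
      refine (norm_add_le _ _).trans ?_
      rw [add_comm]
      refine add_le_add ?_ ?_
      · refine ((fderiv ℝ w p).le_opNorm₂ _ _).trans ?_
        have h9 : ‖((0 : E), t • V)‖ = ‖t • V‖ := by simp [Prod.norm_def]
        rw [h9, mul_right_comm]
        exact mul_le_mul_of_nonneg_right (mul_le_mul hLp hzρ (norm_nonneg _) hL0) (norm_nonneg _)
      · rw [norm_smul, Real.norm_of_nonneg ht'.1]
        refine (mul_le_of_le_one_left (norm_nonneg _) ht'.2).trans ?_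
        refine ((cur w p).le_opNorm₂ _ _).trans ?_
        exact mul_le_mul_of_nonneg_right (mul_le_mul_of_nonneg_right hMp (norm_nonneg _))
          (norm_nonneg _))
  simp only [one_smul, zero_smul, norm_zero, sub_zero, mul_one, zero_add] at h2
  refine h2.trans (le_of_eq ?_)
  ring

theorem Conn.mem {w : E × P → E →L[ℝ] P} {S : Set (E × P)} {p₀ p : E × P} {l : ℝ}
    (h : Conn w S p₀ l p) (h₀ : p₀ ∈ S) : p ∈ S := by
  induction h with
  | base => exact h₀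
  | step _ γ a b lam hab _ _ _ hS _ _ => exact hS b ⟨hab, le_rfl⟩

theorem tracking {w : E × P → E →L[ℝ] P} {Q : Set P} {ρ L : ℝ} (hL0 : 0 ≤ L)
    (hL : ∀ p ∈ closedBall (0 : E) ρ ×ˢ Q, ∀ p' ∈ closedBall (0 : E) ρ ×ˢ Q,
      ‖w p' - w p‖ ≤ L * ‖p' - p‖) {δ : ℝ} (hδ : δ ≤ ρ) {σ : E → P}
    (hσ : Rad w Q δ σ) {U : Set E} (hU : U ⊆ ball 0 δ) {D : ℝ} (hD0 : 0 ≤ D)
    (hD : ∀ z ∈ U, ‖fderiv ℝ σ z - w (z, σ z)‖ ≤ D) {l : ℝ} {p : E × P}
    (h : Conn w (U ×ˢ Q) (0, σ 0) l p) :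
    0 ≤ l ∧ ‖p.2 - σ p.1‖ ≤ D * l * Real.exp (L * l) := by
  induction h with
  | base => simp
  | @step l p _ γ a b lam hab hlam hc h0 hS hd ih =>
    obtain ⟨hl, ih⟩ := ih
    have hba : 0 ≤ lam * (b - a) := mul_nonneg hlam (sub_nonneg.2 hab)
    refine ⟨add_nonneg hl hba, ?_⟩
    have h1 := gron_open (f := fun t => (γ t).2 - σ (γ t).1) (K := L * lam) (ε := D * lam) hab
      (mul_nonneg hL0 hlam) (mul_nonneg hD0 hlam)
      (hc.snd.sub (hσ.1.continuousOn.comp hc.fst fun t ht => hU (hS t ht).1))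
      (fun t ht => by
        obtain ⟨v, hv, hγ⟩ := hd t ht
        have ht' := Ioo_subset_Icc_self ht
        have hz := hU (hS t ht').1
        have h2 := (dsnd hγ).sub
          ((diffAt_of_contDiffOn isOpen_ball hσ.1 hz).hasFDerivAt.comp_hasDerivAt t (dfst hγ))
        refine ⟨_, h2, ?_⟩
        have h3 : w (γ t) v - fderiv ℝ σ (γ t).1 v = (w (γ t) - w ((γ t).1, σ (γ t).1)) v
            - (fderiv ℝ σ (γ t).1 - w ((γ t).1, σ (γ t).1)) v := by simp
        simp only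
        rw [h3]
        refine (norm_sub_le _ _).trans (add_le_add ?_ ?_)
        · refine (ContinuousLinearMap.le_opNorm _ _).trans ?_
          have h4 := hL _ (hσ.mem hδ hz) (γ t)
            ⟨ball_subset_closedBall (ball_subset_ball hδ hz), (hS t ht').2⟩
          have h5 : ‖γ t - ((γ t).1, σ (γ t).1)‖ = ‖(γ t).2 - σ (γ t).1‖ := by
            simp [Prod.norm_def]
          rw [h5] at h4
          rw [mul_right_comm]
          gcongr
        · refine (ContinuousLinearMap.le_opNorm _ _).trans ?_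
          have := hD _ (hS t ht').1
          gcongr)
    refine h1.trans ?_
    simp only [h0]
    have h2 : 1 ≤ Real.exp (L * l) := Real.one_le_exp (mul_nonneg hL0 hl)
    have h3 : D * lam * (b - a) ≤ D * (lam * (b - a)) * Real.exp (L * l) := by
      rw [mul_assoc]
      exact le_mul_of_one_le_right (mul_nonneg hD0 hba) h2
    calc _ ≤ (D * l * Real.exp (L * l) + D * (lam * (b - a)) * Real.exp (L * l)) *
          Real.exp (L * lam * (b - a)) := by gcongr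
      _ = _ := by rw [mul_add L, Real.exp_add, mul_assoc L]; ring

variable [FiniteDimensional ℝ E] [FiniteDimensional ℝ P]

omit [FiniteDimensional ℝ E] [FiniteDimensional ℝ P] in
/-- Two local solutions with the same value agree near the point. -/
theorem leaf_unique {w : E × P → E →L[ℝ] P} {s₁ s₂ : E → P} {z₀ : E}
    (hw : ContDiffAt ℝ 1 w (z₀, s₁ z₀))
    (h₁ : ∀ᶠ z in 𝓝 z₀, HasFDerivAt s₁ (w (z, s₁ z)) z)
    (h₂ : ∀ᶠ z in 𝓝 z₀, HasFDerivAt s₂ (w (z, s₂ z)) z) (h : s₁ z₀ = s₂ z₀) :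
    s₁ =ᶠ[𝓝 z₀] s₂ := by
  obtain ⟨U, hU, hUo, hU0⟩ := _root_.eventually_nhds_iff.1 (hw.eventually (by simp))
  have hwU : ContDiffOn ℝ 1 w U := fun p hp => (hU p hp).contDiffWithinAt
  have hc : ContinuousAt (fun y => (y, s₁ y)) z₀ :=
    continuousAt_id.prodMk h₁.self_of_nhds.continuousAt
  obtain ⟨r, hr, hball⟩ := Metric.eventually_nhds_iff_ball.1
    (h₁.and (h₂.and (hc.preimage_mem_nhds (hUo.mem_nhds hU0))))
  filter_upwards [ball_mem_nhds z₀ (half_pos hr)] with z hz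
  set v := z - z₀ with hv
  have hv' : ‖v‖ < r / 2 := by rwa [mem_ball, dist_eq_norm] at hz
  have hin : ∀ t ∈ Ioo (-2 : ℝ) 2, z₀ + t • v ∈ ball z₀ r := by
    intro t ht
    rw [mem_ball, dist_eq_norm, add_sub_cancel_left, norm_smul, Real.norm_eq_abs]
    have h1 : |t| ≤ 2 := abs_le.2 ⟨ht.1.le, ht.2.le⟩
    nlinarith [abs_nonneg t, norm_nonneg v]
  have hl : ∀ t : ℝ, HasDerivAt (fun t : ℝ => z₀ + t • v) v t := fun t => by
    simpa using ((hasDerivAt_id t).smul_const v).const_add z₀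
  have key := ode_unique_on (f := fun p : E × P => (v, w p v)) hUo
    (contDiffOn_const.prodMk (hwU.clm_apply contDiffOn_const))
    (y₁ := fun t : ℝ => (z₀ + t • v, s₁ (z₀ + t • v)))
    (y₂ := fun t : ℝ => (z₀ + t • v, s₂ (z₀ + t • v))) (s := Ioo (-2) 2) isPreconnected_Ioo
    isOpen_Ioo
    (fun t ht => ⟨(hball _ (hin t ht)).2.2,
      (hl t).prodMk ((hball _ (hin t ht)).1.comp_hasDerivAt t (hl t))⟩)
    (fun t ht => (hl t).prodMk ((hball _ (hin t ht)).2.1.comp_hasDerivAt t (hl t)))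
    (t₀ := 0) ⟨by norm_num, by norm_num⟩ (by simp [h])
  have := congrArg Prod.snd (key (show (1 : ℝ) ∈ Ioo (-2 : ℝ) 2 from ⟨by norm_num, by norm_num⟩))
  simpa [hv] using this

/-- Existence of radial sections, uniformly in the initial value. -/
theorem exists_radial {w : E × P → E →L[ℝ] P} {O : Set (E × P)} (hO : IsOpen O)
    (hw : ContDiffOn ℝ ∞ w O) {q₁ : P} (h : ((0 : E), q₁) ∈ O) {W : Set P} (hW : W ∈ 𝓝 q₁) :
    ∃ δ > 0, ∀ q ∈ ball q₁ δ, ∃ σ : E → P, ContDiffOn ℝ ∞ σ (ball 0 δ) ∧ σ 0 = q ∧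
      ∀ z ∈ ball (0 : E) δ, σ z ∈ W ∧ (z, σ z) ∈ O ∧ fderiv ℝ σ z z = w (z, σ z) z := by
  set F : E × E × P → E × E × P := fun x => (x.2.1, 0, w (x.1, x.2.2) x.2.1) with hF
  set U : Set (E × E × P) := (fun x => (x.1, x.2.2)) ⁻¹' (O ∩ univ ×ˢ interior W) with hU
  have hpr : ContDiff ℝ ∞ (fun x : E × E × P => (x.1, x.2.2)) := by fun_prop
  have hUo : IsOpen U :=
    (hO.inter (isOpen_univ.prod isOpen_interior)).preimage hpr.continuous
  have hFU : ContDiffOn ℝ ∞ F U :=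
    (contDiffOn_fst.comp contDiffOn_snd (mapsTo_univ _ _)).prodMk (contDiffOn_const.prodMk
      ((hw.comp hpr.contDiffOn fun x hx => hx.1).clm_apply
        (contDiffOn_fst.comp contDiffOn_snd (mapsTo_univ _ _))))
  obtain ⟨d, hd, φ, hφ, hfl⟩ := exists_flow hUo hFU (x₀ := (0, 0, q₁))
    ⟨h, mem_univ _, mem_interior_iff_mem_nhds.2 hW⟩
  set T := d / 2 with hT
  have hT0 : 0 < T := half_pos hd
  have hTb : T ∈ ball (0 : ℝ) d := by
    rw [mem_ball_zero_iff, Real.norm_of_nonneg hT0.le]; linarith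
  have hxb : ∀ (z : E) (q : P), ‖z‖ < d → q ∈ ball q₁ d →
      ((0 : E), z, q) ∈ ball ((0 : E), (0 : E), q₁) d := by
    intro z q hz hq
    rw [← ball_prod_same, ← ball_prod_same]
    exact ⟨mem_ball_self hd, mem_ball_zero_iff.2 hz, hq⟩
  have hlin : ∀ (z : E) (q : P), ‖z‖ < d → q ∈ ball q₁ d → ∀ t ∈ ball (0 : ℝ) d,
      (φ (t, (0, z, q))).1 = t • z ∧ (φ (t, (0, z, q))).2.1 = z := by
    intro z q hz hq t ht
    obtain ⟨h0, h1⟩ := hfl _ (hxb z q hz hq)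
    have key := ode_unique_on (f := fun p : E × E => (p.2, (0 : E))) isOpen_univ
      (by fun_prop)
      (y₁ := fun t : ℝ => ((φ (t, (0, z, q))).1, (φ (t, (0, z, q))).2.1))
      (y₂ := fun t : ℝ => (t • z, z)) (s := ball 0 d) (convex_ball _ _).isPreconnected
      isOpen_ball
      (fun t ht => ⟨mem_univ _, (dfst (h1 t ht).2).prodMk (dfst (dsnd (h1 t ht).2))⟩)
      (fun t _ => HasDerivAt.prodMk (by simpa using (hasDerivAt_id t).smul_const z)
        (hasDerivAt_const t z))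
      (t₀ := 0) (mem_ball_self hd) (by simp [h0])
    exact Prod.ext_iff.1 (key ht)
  have hscale : ∀ (z : E) (q : P) (s : ℝ), ‖z‖ < d → ‖s • z‖ < d → |s| < 3 / 2 →
      q ∈ ball q₁ d → (φ (T, (0, s • z, q))).2.2 = (φ (s * T, (0, z, q))).2.2 := by
    intro z q s hz hsz hs hq
    obtain ⟨h0, h1⟩ := hfl _ (hxb z q hz hq)
    obtain ⟨h0', h1'⟩ := hfl _ (hxb (s • z) q hsz hq)
    have hsub : ball (0 : ℝ) (2 * d / 3) ⊆ ball 0 d := ball_subset_ball (by linarith)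
    have hst : ∀ t ∈ ball (0 : ℝ) (2 * d / 3), s * t ∈ ball (0 : ℝ) d := by
      intro t ht
      rw [mem_ball_zero_iff, Real.norm_eq_abs] at ht ⊢
      rw [abs_mul]
      nlinarith [abs_nonneg s, abs_nonneg t]
    have key := ode_unique_on hUo (hFU.of_le (by simp))
      (y₁ := fun t : ℝ => φ (t, (0, s • z, q)))
      (y₂ := fun t : ℝ => ((φ (s * t, (0, z, q))).1, s • (φ (s * t, (0, z, q))).2.1,
        (φ (s * t, (0, z, q))).2.2)) (s := ball 0 (2 * d / 3)) (convex_ball _ _).isPreconnected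
      isOpen_ball (fun t ht => h1' t (hsub ht))
      (fun t ht => by
        have h2 : HasDerivAt (fun t : ℝ => s * t) s t := by
          simpa using (hasDerivAt_id t).const_mul s
        have h3 := (h1 _ (hst t ht)).2.scomp t h2
        refine ((dfst h3).prodMk (((dfst (dsnd h3)).const_smul s).prodMk
          (dsnd (dsnd h3)))).congr_deriv ?_
        simp [hF])
      (t₀ := 0) (mem_ball_self (by positivity)) (by simp [h0, h0'])
    have := key (show T ∈ ball (0 : ℝ) (2 * d / 3) by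
      rw [mem_ball_zero_iff, Real.norm_of_nonneg hT0.le]; linarith)
    exact congrArg (fun x => x.2.2) this
  refine ⟨min d (d * T), lt_min hd (mul_pos hd hT0), fun q hq => ?_⟩
  have hq' : q ∈ ball q₁ d := ball_subset_ball (min_le_left _ _) hq
  have hzb : ∀ u ∈ ball (0 : E) (min d (d * T)), ‖T⁻¹ • u‖ < d := by
    intro u hu
    rw [mem_ball_zero_iff, lt_min_iff] at hu
    rw [norm_smul, norm_inv, Real.norm_of_nonneg hT0.le, inv_mul_lt_iff₀ hT0, mul_comm]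
    exact hu.2
  have hσ : ContDiffOn ℝ ∞ (fun u : E => (φ (T, (0, T⁻¹ • u, q))).2.2)
      (ball 0 (min d (d * T))) := by
    have h1 : ContDiff ℝ ∞ (fun u : E => (T, ((0 : E), T⁻¹ • u, q))) := by fun_prop
    exact (hφ.comp h1.contDiffOn fun u hu => ⟨hTb, hxb _ _ (hzb u hu) hq'⟩).snd.snd
  refine ⟨fun u => (φ (T, (0, T⁻¹ • u, q))).2.2, hσ, ?_, fun u hu => ?_⟩
  · have h1 := hscale 0 q 0 (by simpa using hd) (by simpa using hd) (by norm_num) hq'
    have h2 := (hfl _ (hxb 0 q (by simpa using hd) hq')).1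
    simp only [smul_zero, zero_mul] at h1 ⊢
    rw [h1, h2]
  · obtain ⟨h1, h2⟩ := (hfl _ (hxb _ q (hzb u hu) hq')).2 T hTb
    obtain ⟨h3, h4⟩ := hlin _ q (hzb u hu) hq' T hTb
    rw [smul_inv_smul₀ hT0.ne'] at h3
    have h5 : (u, (φ (T, (0, T⁻¹ • u, q))).2.2) ∈ O := by
      have := h1.1
      simp only at this
      rwa [h3] at this
    refine ⟨interior_subset h1.2.2, h5, ?_⟩
    have h6 : HasDerivAt (fun s : ℝ => s • u) u 1 := by
      simpa using (hasDerivAt_id (1 : ℝ)).smul_const u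
    have h7 := (diffAt_of_contDiffOn isOpen_ball hσ hu).hasFDerivAt.comp_hasDerivAt_of_eq 1 h6
      (one_smul _ _).symm
    have h8 : HasDerivAt (fun s : ℝ => s * T) T 1 := by
      simpa using (hasDerivAt_id (1 : ℝ)).mul_const T
    have h9 := dsnd (dsnd (h2.scomp_of_eq 1 h8 (one_mul _).symm))
    have h10 : ((fun u : E => (φ (T, (0, T⁻¹ • u, q))).2.2) ∘ fun s : ℝ => s • u) =ᶠ[𝓝 1]
        fun s : ℝ => (φ (s * T, (0, T⁻¹ • u, q))).2.2 := by
      have c1 : Continuous fun s : ℝ => ‖s • T⁻¹ • u‖ := by fun_prop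
      have e1 : ∀ᶠ s : ℝ in 𝓝 1, ‖s • T⁻¹ • u‖ < d :=
        c1.continuousAt.eventually_lt continuousAt_const (by simpa using hzb u hu)
      have e2 : ∀ᶠ s : ℝ in 𝓝 1, |s| < 3 / 2 :=
        continuous_abs.continuousAt.eventually_lt continuousAt_const (by norm_num)
      filter_upwards [e1, e2] with s hs1 hs2
      have := hscale _ q s (hzb u hu) hs1 hs2 hq'
      simp only [Function.comp]
      rw [smul_comm, this]
    have h11 := h7.unique (h9.congr_of_eventuallyEq h10)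
    rw [h11]
    simp only [hF, Prod.smul_snd, h3, h4, map_smul, smul_inv_smul₀ hT0.ne']

/-- Filling: if every point of a small star-shaped neighbourhood U of 0 carries a limit of leaf
points that is joined to (0, q₀) by a short horizontal chain over U, then a leaf passes through
(0, q₀), and it contains the ends of all short horizontal chains over U. -/
theorem fill {w : E × P → E →L[ℝ] P} {O : Set (E × P)} (hO : IsOpen O)
    (hw : ContDiffOn ℝ ∞ w O) {Q : Set P} (hQc : IsCompact Q) (hQv : Convex ℝ Q) {ρ : ℝ}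
    (hρ : 0 < ρ) (hZ : closedBall (0 : E) ρ ×ˢ Q ⊆ O) {q₀ : P} (hq₀ : Q ∈ 𝓝 q₀) (C : ℝ) :
    ∃ τ₀ > 0, ∀ τ, 0 < τ → τ ≤ τ₀ → ∀ U : Set E, U ⊆ closedBall 0 τ → U ∈ 𝓝 (0 : E) →
      (∀ z ∈ U, ∀ s ∈ Icc (0 : ℝ) 1, s • z ∈ U) →
      (∀ z ∈ U, ∃ q l, l ≤ C * τ ∧ (z, q) ∈ closure (Leaf w ∩ O) ∧
        Conn w (U ×ˢ Q) (0, q₀) l (z, q)) →
      ∃ σ : E → P, σ 0 = q₀ ∧
        (∀ᶠ z in 𝓝 (0 : E), ContDiffAt ℝ ∞ σ z ∧ HasFDerivAt σ (w (z, σ z)) z) ∧
        ∀ z q l, l ≤ C * τ → Conn w (U ×ˢ Q) (0, q₀) l (z, q) → q = σ z := by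
  have hq₀Q : q₀ ∈ Q := mem_of_mem_nhds hq₀
  have hZc : IsCompact (closedBall (0 : E) ρ ×ˢ Q) := (isCompact_closedBall _ _).prod hQc
  have hZv : Convex ℝ (closedBall (0 : E) ρ ×ˢ Q) := (convex_closedBall _ _).prod hQv
  obtain ⟨d, hd, hrad⟩ := exists_radial hO hw (hZ ⟨mem_closedBall_self hρ.le, hq₀Q⟩) hq₀
  obtain ⟨σ, hσ1, hσ0, hσ2⟩ := hrad q₀ (mem_ball_self hd)
  set δ := min d ρ with hδ
  have hδ0 : 0 < δ := lt_min hd hρ
  have hσ : Rad w Q δ σ := ⟨hσ1.mono (ball_subset_ball (min_le_left _ _)), fun z hz =>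
    ⟨(hσ2 z (ball_subset_ball (min_le_left _ _) hz)).1,
      (hσ2 z (ball_subset_ball (min_le_left _ _) hz)).2.2⟩⟩
  obtain ⟨L, hL0, hL1, hL2⟩ := exists_lip hO hw hZc hZv hZ
  have hcur := contDiffOn_cur hO hw
  obtain ⟨L', hL0', -, hL2'⟩ := exists_lip hO hcur hZc hZv hZ
  obtain ⟨B, hB⟩ := exists_bound hZc (hcur.continuousOn.mono hZ)
  set C' := max C 0 with hC'
  have hC0 : 0 ≤ C' := le_max_right _ _
  set κ := L' * Real.exp (L * ρ) * C' * Real.exp (L * C') with hκ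
  have hκ0 : 0 ≤ κ := by positivity
  refine ⟨min (δ / 2) (min 1 (1 / (2 * (κ + 1)))), by positivity, ?_⟩
  intro τ hτ hτ₀ U hU hU0 hstar hfill
  have hτδ : τ < δ := (hτ₀.trans (min_le_left _ _)).trans_lt (half_lt_self hδ0)
  have hτ1 : τ ≤ 1 := hτ₀.trans ((min_le_right _ _).trans (min_le_left _ _))
  have hτκ : τ * (2 * (κ + 1)) ≤ 1 :=
    (le_div_iff₀ (by positivity)).1 (hτ₀.trans ((min_le_right _ _).trans (min_le_right _ _)))
  have hUb : U ⊆ ball 0 δ := hU.trans (closedBall_subset_ball hτδ)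
  have h0U : (0 : E) ∈ U := mem_of_mem_nhds hU0
  have hbdd : BddAbove ((fun z => ‖cur w (z, σ z)‖) '' U) := by
    refine ⟨B, ?_⟩
    rintro _ ⟨z, hz, rfl⟩
    exact hB _ (hσ.mem (min_le_right _ _) (hUb hz))
  set M := sSup ((fun z => ‖cur w (z, σ z)‖) '' U) with hM
  have hMle : ∀ z ∈ U, ‖cur w (z, σ z)‖ ≤ M := fun z hz => le_csSup hbdd ⟨z, hz, rfl⟩
  have hM0 : 0 ≤ M := (ContinuousLinearMap.opNorm_nonneg _).trans (hMle 0 h0U)
  have hdef : ∀ z ∈ U, ‖fderiv ℝ σ z - w (z, σ z)‖ ≤ Real.exp (L * ρ) * τ * M := by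
    intro z hz
    refine (defect_bound hO hw hL0 hZ hL1 (min_le_right _ _) hσ (hUb hz) hM0
      fun t ht => hMle _ (hstar z hz t ht)).trans ?_
    have := mem_closedBall_zero_iff.1 (hU hz)
    gcongr
  have htr : ∀ z q l, l ≤ C * τ → Conn w (U ×ˢ Q) (0, q₀) l (z, q) →
      ‖q - σ z‖ ≤ Real.exp (L * ρ) * τ * M * C' * Real.exp (L * C') := by
    intro z q l hl hc
    rw [← hσ0] at hc
    obtain ⟨hl0, h1⟩ := tracking hL0 hL2 (min_le_right _ _) hσ hUb (by positivity) hdef hc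
    have hl' : l ≤ C' := hl.trans ((mul_le_mul_of_nonneg_right (le_max_left _ _) hτ.le).trans
      (mul_le_of_le_one_right hC0 hτ1))
    refine h1.trans ?_
    gcongr
  have hMM : M ≤ M / 2 := by
    refine csSup_le (Nonempty.image _ ⟨0, h0U⟩) ?_
    rintro _ ⟨z, hz, rfl⟩
    obtain ⟨q, l, hl, hcl, hc⟩ := hfill z hz
    have hzq : (z, q) ∈ closedBall (0 : E) ρ ×ˢ Q :=
      ⟨(hσ.mem (min_le_right _ _) (hUb hz)).1, (hc.mem ⟨h0U, hq₀Q⟩).2⟩
    have h1 : cur w (z, q) = 0 := eq_zero_of_closure hO hcur.continuousOn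
      (fun p hp => cur_eq_zero_of_leaf hO hw hp) hcl (hZ hzq)
    have h2 := hL2' _ hzq _ (hσ.mem (min_le_right _ _) (hUb hz))
    have h3 : ‖((z, σ z) : E × P) - (z, q)‖ = ‖q - σ z‖ := by
      rw [norm_sub_rev]; simp [Prod.norm_def]
    rw [h1, sub_zero, h3] at h2
    have h4 := htr z q l hl hc
    calc ‖cur w (z, σ z)‖ ≤ L' * (Real.exp (L * ρ) * τ * M * C' * Real.exp (L * C')) :=
          h2.trans (mul_le_mul_of_nonneg_left h4 hL0')
      _ = τ * κ * M := by rw [hκ]; ring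
      _ ≤ M / 2 := by nlinarith
  have hMz : M = 0 := by linarith
  refine ⟨σ, hσ0, ?_, fun z q l hl hc => ?_⟩
  · filter_upwards [hU0] with z hz
    refine ⟨hσ.1.contDiffAt (isOpen_ball.mem_nhds (hUb hz)), ?_⟩
    have h1 := hdef z hz
    rw [hMz, mul_zero, norm_le_zero_iff, sub_eq_zero] at h1
    rw [← h1]
    exact (diffAt_of_contDiffOn isOpen_ball hσ.1 (hUb hz)).hasFDerivAt
  · have h1 := htr z q l hl hc
    rw [hMz, mul_zero, zero_mul, zero_mul, norm_le_zero_iff, sub_eq_zero] at h1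
    exact h1

/-- Holonomy of short loops based at limits of leaf points is small to every order. -/
theorem hold {w : E × P → E →L[ℝ] P} {O : Set (E × P)} (hO : IsOpen O)
    (hw : ContDiffOn ℝ ∞ w O) {Q : Set P} (hQc : IsCompact Q) (hQv : Convex ℝ Q) {ρ : ℝ}
    (hρ : 0 < ρ) (hZ : closedBall (0 : E) ρ ×ˢ Q ⊆ O) {q₁ : P} (hq₁ : Q ∈ 𝓝 q₁) (n : ℕ) :
    ∃ δ > 0, ∃ C ≥ 0, ∀ q ∈ ball q₁ δ, ((0 : E), q) ∈ closure (Leaf w ∩ O) →
      ∀ r l q', 0 ≤ r → r ≤ δ → l ≤ 1 →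
        Conn w (closedBall (0 : E) r ×ˢ Q) (0, q) l (0, q') → ‖q' - q‖ ≤ C * l * r ^ n := by
  have hq₁Q : q₁ ∈ Q := mem_of_mem_nhds hq₁
  have hZc : IsCompact (closedBall (0 : E) ρ ×ˢ Q) := (isCompact_closedBall _ _).prod hQc
  have hZv : Convex ℝ (closedBall (0 : E) ρ ×ˢ Q) := (convex_closedBall _ _).prod hQv
  obtain ⟨d, hd, hrad⟩ := exists_radial hO hw (hZ ⟨mem_closedBall_self hρ.le, hq₁Q⟩) hq₁
  set δ := min d ρ with hδ
  have hδ0 : 0 < δ := lt_min hd hρ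
  obtain ⟨L, hL0, hL1, hL2⟩ := exists_lip hO hw hZc hZv hZ
  obtain ⟨C, hC0, hC⟩ := flat_bound hO hw hZc hZ n _ (cur w) (contDiffOn_cur hO hw)
    (fun p hp => cur_eq_zero_of_leaf hO hw hp)
  refine ⟨δ / 2, half_pos hδ0, Real.exp (L * ρ) * ρ * C * Real.exp L, by positivity, ?_⟩
  intro q hq hcl r l q' hr hrδ hl hc
  obtain ⟨σ, hσ1, hσ0, hσ2⟩ := hrad q
    (ball_subset_ball ((half_le_self hδ0.le).trans (min_le_left _ _)) hq)
  have hσ : Rad w Q δ σ := ⟨hσ1.mono (ball_subset_ball (min_le_left _ _)), fun z hz =>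
    ⟨(hσ2 z (ball_subset_ball (min_le_left _ _) hz)).1,
      (hσ2 z (ball_subset_ball (min_le_left _ _) hz)).2.2⟩⟩
  have hUb : closedBall (0 : E) r ⊆ ball 0 δ :=
    closedBall_subset_ball (hrδ.trans_lt (half_lt_self hδ0))
  subst hσ0
  have hdef : ∀ z ∈ closedBall (0 : E) r,
      ‖fderiv ℝ σ z - w (z, σ z)‖ ≤ Real.exp (L * ρ) * ρ * (C * r ^ n) := by
    intro z hz
    have hzr := mem_closedBall_zero_iff.1 hz
    refine (defect_bound hO hw hL0 hZ hL1 (min_le_right _ _) hσ (hUb hz)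
      (M := C * r ^ n) (by positivity) fun t ht => ?_).trans ?_
    · refine (hC δ (min_le_right _ _) σ hσ hcl _ (smul_mem_ball_zero (hUb hz) ht)).trans ?_
      have := (norm_smul_le_self z ht).trans hzr
      gcongr
    · have : ‖z‖ ≤ ρ := (mem_ball_zero_iff.1 (hUb hz)).le.trans (min_le_right _ _)
      gcongr
  obtain ⟨hl0, h1⟩ := tracking hL0 hL2 (min_le_right _ _) hσ hUb (by positivity) hdef hc
  refine h1.trans ?_
  have h2 : Real.exp (L * l) ≤ Real.exp L :=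
    Real.exp_le_exp.2 (mul_le_of_le_one_right hL0 hl)
  calc Real.exp (L * ρ) * ρ * (C * r ^ n) * l * Real.exp (L * l)
      ≤ Real.exp (L * ρ) * ρ * (C * r ^ n) * l * Real.exp L := by gcongr
    _ = _ := by ring

end Pool.Agent.MP_3fed84_gt
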