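import Pool.Agent.MP_3fed84_gt.Flow

/-! Auxiliary analytic lemmas: local quotients of maps and crossing of singular times. -/

open Set Metric Filter Topology
open scoped ContDiff

namespace Pool.Agent.MP_3fed84_gt.PairAux

section

variable {E : Type} [NormedAddCommGroup E] [NormedSpace ℝ E] [FiniteDimensional ℝ E]

theorem isInvertible_of_injective {D : E →L[ℝ] E} (h : Function.Injective D) :
    D.IsInvertible := by
  have hs : Function.Surjective (D : E →ₗ[ℝ] E) := LinearMap.injective_iff_surjective.1 h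
  refine ⟨(LinearEquiv.ofBijective (D : E →ₗ[ℝ] E) ⟨h, hs⟩).toContinuousLinearEquiv, ?_⟩
  ext a
  simp

/-- Near a regular point of B₁ the map B₂ factors through B₁. -/
theorem local_quot {B₁ B₂ : E → E} {x : E}
    (hs : ∀ᶠ y in 𝓝 x, ContDiffAt ℝ ∞ B₁ y ∧ ContDiffAt ℝ ∞ B₂ y)
    (hr : Function.Injective (fderiv ℝ B₁ x)) :
    map B₁ (𝓝 x) = 𝓝 (B₁ x) ∧ ∃ f : E → E, ∀ᶠ y in 𝓝 x, ContDiffAt ℝ ∞ f (B₁ y) ∧
      f (B₁ y) = B₂ y ∧ (fderiv ℝ f (B₁ y)).comp (fderiv ℝ B₁ y) = fderiv ℝ B₂ y ∧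
      Function.Injective (fderiv ℝ B₁ y) := by
  have : CompleteSpace E := FiniteDimensional.complete ℝ E
  have h1 := hs.self_of_nhds.1
  obtain ⟨D, hD⟩ := isInvertible_of_injective hr
  have hd : HasFDerivAt B₁ (D : E →L[ℝ] E) x := by
    rw [hD]; exact (h1.differentiableAt (by simp)).hasFDerivAt
  have hn : (∞ : WithTop ℕ∞) ≠ 0 := by simp
  set φ := h1.toOpenPartialHomeomorph B₁ hd hn with hφ
  have hφc : (φ : E → E) = B₁ := rfl
  have hxs : x ∈ φ.source := h1.mem_toOpenPartialHomeomorph_source hd hn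
  refine ⟨by rw [← hφc]; exact φ.map_nhds_eq hxs, B₂ ∘ φ.symm, ?_⟩
  have hinj : ∀ᶠ y in 𝓝 x, Function.Injective (fderiv ℝ B₁ y) := by
    have hc : ContinuousAt (fderiv ℝ B₁) x :=
      (h1.fderiv_right (m := 0) (by simp)).continuousAt
    exact hc.eventually (ContinuousLinearMap.isOpen_injective.mem_nhds hr)
  have hsrc : ∀ᶠ y in 𝓝 x, y ∈ φ.source := φ.open_source.mem_nhds hxs
  filter_upwards [hs, hinj, hsrc] with y hy hyi hys
  have hl : φ.symm (B₁ y) = y := by rw [← hφc]; exact φ.left_inv hys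
  obtain ⟨Dy, hDy⟩ := isInvertible_of_injective hyi
  have hdy : HasFDerivAt B₁ (Dy : E →L[ℝ] E) y := by
    rw [hDy]; exact (hy.1.differentiableAt (by simp)).hasFDerivAt
  have hsy : ContDiffAt ℝ ∞ φ.symm (B₁ y) := by
    apply φ.contDiffAt_symm (f₀' := Dy) (by rw [← hφc]; exact φ.map_source hys)
    · rw [hl]; exact hdy
    · rw [hl]; exact hy.1
  have hf : ContDiffAt ℝ ∞ (B₂ ∘ φ.symm) (B₁ y) := by
    apply ContDiffAt.comp _ _ hsy
    rw [hl]; exact hy.2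
  refine ⟨hf, by simp [hl], ?_, hyi⟩
  rw [← fderiv_comp y (hf.differentiableAt (by simp)) (hy.1.differentiableAt (by simp))]
  apply Filter.EventuallyEq.fderiv_eq
  filter_upwards [φ.open_source.mem_nhds hys] with z hz
  have : φ.symm (B₁ z) = z := by rw [← hφc]; exact φ.left_inv hz
  simp [this]

end

theorem hasDerivAt_fst {X Y : Type} [NormedAddCommGroup X] [NormedSpace ℝ X]
    [NormedAddCommGroup Y] [NormedSpace ℝ Y] {γ : ℝ → X × Y} {v : X × Y} {t : ℝ}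
    (h : HasDerivAt γ v t) : HasDerivAt (fun s => (γ s).1) v.1 t :=
  (ContinuousLinearMap.fst ℝ X Y).hasFDerivAt.comp_hasDerivAt t h

theorem hasDerivAt_snd {X Y : Type} [NormedAddCommGroup X] [NormedSpace ℝ X]
    [NormedAddCommGroup Y] [NormedSpace ℝ Y] {γ : ℝ → X × Y} {v : X × Y} {t : ℝ}
    (h : HasDerivAt γ v t) : HasDerivAt (fun s => (γ s).2) v.2 t :=
  (ContinuousLinearMap.snd ℝ X Y).hasFDerivAt.comp_hasDerivAt t h

section

variable {P : Type} [NormedAddCommGroup P] [NormedSpace ℝ P] [FiniteDimensional ℝ P]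

/-- The fundamental solution of a linear differential equation. -/
theorem exists_fund {L : ℝ → P →L[ℝ] P} {t₀ : ℝ} (hL : ∀ᶠ t in 𝓝 t₀, ContDiffAt ℝ ∞ L t) :
    ∃ δ > 0, ∃ Φ : ℝ → P →L[ℝ] P, Φ t₀ = ContinuousLinearMap.id ℝ P ∧
      (∀ t ∈ ball t₀ δ, ∀ a, HasDerivAt (fun s => Φ s a) (L t (Φ t a)) t) ∧
      ∀ (s : Set ℝ) (y : ℝ → P), IsOpen s → IsPreconnected s → s ⊆ ball t₀ δ → s.Nonempty →
        (∀ t ∈ s, HasDerivAt y (L t (y t)) t) → ∃ a, ∀ t ∈ s, y t = Φ t a := by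
  obtain ⟨I, hI, hIo, hI0⟩ := _root_.eventually_nhds_iff.1 hL
  have hLI : ContDiffOn ℝ ∞ L I := fun t ht => (hI t ht).contDiffWithinAt
  -- the flow of the operator equation
  set f : ℝ × (P →L[ℝ] P) → ℝ × (P →L[ℝ] P) := fun p => (1, (L p.1).comp p.2) with hf
  have hU : IsOpen (I ×ˢ (univ : Set (P →L[ℝ] P))) := hIo.prod isOpen_univ
  have hfs : ContDiffOn ℝ ∞ f (I ×ˢ univ) := by
    refine contDiffOn_const.prodMk (ContDiffOn.clm_comp ?_ contDiffOn_snd)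
    exact hLI.comp contDiffOn_fst fun p hp => hp.1
  obtain ⟨δ, hδ, φ, -, hφ⟩ := exists_flow hU hfs
    (x₀ := (t₀, ContinuousLinearMap.id ℝ P)) ⟨hI0, mem_univ _⟩
  obtain ⟨hφ0, hφ1⟩ := hφ _ (mem_ball_self hδ)
  set x₀ : ℝ × (P →L[ℝ] P) := (t₀, ContinuousLinearMap.id ℝ P) with hx₀
  have hτ : ∀ s ∈ ball (0 : ℝ) δ, (φ (s, x₀)).1 = t₀ + s := by
    have hd : ∀ s ∈ ball (0 : ℝ) δ, HasDerivAt (fun s => (φ (s, x₀)).1 - s) 0 s := by
      intro s hs
      have h1 : HasDerivAt (fun s => (φ (s, x₀)).1) 1 s := hasDerivAt_fst (hφ1 s hs).2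
      simpa using h1.fun_sub (hasDerivAt_id' s)
    intro s hs
    have := (convex_ball (0 : ℝ) δ).is_const_of_fderivWithin_eq_zero (𝕜 := ℝ)
      (f := fun s => (φ (s, x₀)).1 - s)
      (fun r hr => (hd r hr).differentiableAt.differentiableWithinAt)
      (fun r hr => by
        rw [fderivWithin_of_isOpen isOpen_ball hr, (hd r hr).hasFDerivAt.fderiv]; simp)
      hs (mem_ball_self hδ)
    simp only [hφ0] at this
    have h0 : x₀.1 = t₀ := rfl
    linarith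
  set Φ : ℝ → P →L[ℝ] P := fun t => (φ (t - t₀, x₀)).2 with hΦ
  have hmem : ∀ t ∈ ball t₀ δ, t - t₀ ∈ ball (0 : ℝ) δ := by
    intro t ht
    simpa [Real.dist_eq] using ht
  have hΦd : ∀ t ∈ ball t₀ δ, t ∈ I ∧ HasDerivAt Φ ((L t).comp (Φ t)) t := by
    intro t ht
    have h1 := hφ1 _ (hmem t ht)
    have h2 := hτ _ (hmem t ht)
    rw [add_sub_cancel] at h2
    refine ⟨by rw [← h2]; exact h1.1.1, ?_⟩
    have h3 := HasDerivAt.comp_sub_const t t₀ (hasDerivAt_snd h1.2)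
    simpa [hf, h2, hΦ] using h3
  have hΦ0 : Φ t₀ = ContinuousLinearMap.id ℝ P := by
    simp only [hΦ, sub_self, hφ0]
    rfl
  have hinj : ∀ᶠ t in 𝓝 t₀, Function.Injective (Φ t) := by
    have hc : ContinuousAt Φ t₀ := (hΦd t₀ (mem_ball_self hδ)).2.continuousAt
    refine hc.eventually (ContinuousLinearMap.isOpen_injective.mem_nhds ?_)
    show Function.Injective (Φ t₀)
    rw [hΦ0]
    exact Function.injective_id
  obtain ⟨ε, hε, hinj'⟩ := Metric.eventually_nhds_iff_ball.1 hinj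
  have hda : ∀ t ∈ ball t₀ δ, ∀ a, HasDerivAt (fun s => Φ s a) (L t (Φ t a)) t := by
    intro t ht a
    simpa using (hΦd t ht).2.clm_apply (hasDerivAt_const t a)
  refine ⟨min δ ε, lt_min hδ hε, Φ, hΦ0, fun t ht => hda t (ball_subset_ball (min_le_left _ _) ht),
    ?_⟩
  rintro s y hso hsc hs ⟨t₁, ht₁⟩ hy
  have hs1 : s ⊆ ball t₀ δ := hs.trans (ball_subset_ball (min_le_left _ _))
  have hs2 : s ⊆ ball t₀ ε := hs.trans (ball_subset_ball (min_le_right _ _))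
  obtain ⟨a, ha⟩ := (isInvertible_of_injective (hinj' t₁ (hs2 ht₁))).surjective (y t₁)
  refine ⟨a, ?_⟩
  set g : ℝ × P → ℝ × P := fun p => (1, L p.1 p.2) with hg
  have hgs : ContDiffOn ℝ 1 g (I ×ˢ univ) := by
    refine contDiffOn_const.prodMk (ContDiffOn.clm_apply ?_ contDiffOn_snd)
    exact (hLI.of_le (by simp)).comp contDiffOn_fst fun p hp => hp.1
  have := ode_unique_on (hIo.prod isOpen_univ) hgs (y₁ := fun t => (t, y t))
    (y₂ := fun t => (t, Φ t a)) hsc hso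
    (fun t ht => ⟨⟨(hΦd t (hs1 ht)).1, mem_univ _⟩, (hasDerivAt_id t).prodMk (hy t ht)⟩)
    (fun t ht => (hasDerivAt_id t).prodMk (hda t (hs1 ht) a)) ht₁ (by simp [ha])
  intro t ht
  exact congrArg Prod.snd (this ht)

end

section

variable {E : Type} [NormedAddCommGroup E] [NormedSpace ℝ E] [FiniteDimensional ℝ E]

omit [FiniteDimensional ℝ E] in
/-- A function differentiable at t₀ that vanishes frequently on the punctured neighbourhood has a
double zero at t₀. -/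
theorem double_zero {Z : ℝ → E} {Z' : E} {t₀ : ℝ} (hZ : HasDerivAt Z Z' t₀) {l : Filter ℝ}
    [l.NeBot] (hl : l ≤ 𝓝[≠] t₀) (h : ∀ᶠ t in l, Z t = 0) : Z t₀ = 0 ∧ Z' = 0 := by
  have h0 : Z t₀ = 0 :=
    tendsto_nhds_unique (hZ.continuousAt.tendsto.mono_left (hl.trans nhdsWithin_le_nhds))
      (tendsto_const_nhds.congr' (h.mono fun t ht => ht.symm))
  refine ⟨h0, ?_⟩
  have h1 := (hasDerivAt_iff_tendsto_slope.1 hZ).mono_left hl
  refine tendsto_nhds_unique h1 (tendsto_const_nhds.congr' (h.mono fun t ht => ?_))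
  simp [slope, ht, h0]

/-- The quotient of two operator curves extends across an isolated degenerate time as a solution
of the linear equation that it satisfies at the regular times. -/
theorem cross_abs {D₁ D₂ Ah : ℝ → E →L[ℝ] E} {t₀ : ℝ} (hD₁ : DifferentiableAt ℝ D₁ t₀)
    (hD₂ : DifferentiableAt ℝ D₂ t₀) {κ : ℝ} (hκ : 0 < κ)
    (hlow : ∀ᶠ t in 𝓝 t₀, ∀ η, κ * |t - t₀| * ‖η‖ ≤ ‖D₁ t η‖)
    {L : ℝ → (E →L[ℝ] E) →L[ℝ] (E →L[ℝ] E)} (hL : ∀ᶠ t in 𝓝 t₀, ContDiffAt ℝ ∞ L t)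
    (hA : ∀ᶠ t in 𝓝[≠] t₀, HasDerivAt Ah (L t (Ah t)) t ∧ (Ah t).comp (D₁ t) = D₂ t) :
    ∃ A : ℝ → E →L[ℝ] E, (∀ᶠ t in 𝓝 t₀, HasDerivAt A (L t (A t)) t ∧ (A t).comp (D₁ t) = D₂ t) ∧
      ∀ᶠ t in 𝓝[≠] t₀, A t = Ah t := by
  obtain ⟨δ, hδ, Φ, hΦ0, hΦd, hΦu⟩ := exists_fund hL
  obtain ⟨ε, hε, hA'⟩ := Metric.eventually_nhds_iff_ball.1 (eventually_nhdsWithin_iff.1 hA)
  set r := min δ ε with hr
  have hr0 : 0 < r := lt_min hδ hε
  have hb1 : ∀ t, |t - t₀| < r → t ∈ ball t₀ δ := fun t ht => by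
    rw [mem_ball, Real.dist_eq]; exact ht.trans_le (min_le_left _ _)
  have hb2 : ∀ t, |t - t₀| < r → t ∈ ball t₀ ε := fun t ht => by
    rw [mem_ball, Real.dist_eq]; exact ht.trans_le (min_le_right _ _)
  have hlft : ∀ t ∈ Ioo (t₀ - r) t₀, |t - t₀| < r ∧ t ≠ t₀ := fun t ht =>
    ⟨abs_lt.2 ⟨by linarith [ht.1], by linarith [ht.2]⟩, ht.2.ne⟩
  have hrgt : ∀ t ∈ Ioo t₀ (t₀ + r), |t - t₀| < r ∧ t ≠ t₀ := fun t ht =>
    ⟨abs_lt.2 ⟨by linarith [ht.1], by linarith [ht.2]⟩, ht.1.ne'⟩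
  obtain ⟨a, ha⟩ := hΦu (Ioo (t₀ - r) t₀) Ah isOpen_Ioo isPreconnected_Ioo
    (fun t ht => hb1 t (hlft t ht).1) (nonempty_Ioo.2 (by linarith))
    (fun t ht => (hA' t (hb2 t (hlft t ht).1) (hlft t ht).2).1)
  obtain ⟨b, hb⟩ := hΦu (Ioo t₀ (t₀ + r)) Ah isOpen_Ioo isPreconnected_Ioo
    (fun t ht => hb1 t (hrgt t ht).1) (nonempty_Ioo.2 (by linarith))
    (fun t ht => (hA' t (hb2 t (hrgt t ht).1) (hrgt t ht).2).1)
  have hel : ∀ᶠ t in 𝓝[<] t₀, t ∈ Ioo (t₀ - r) t₀ := Ioo_mem_nhdsLT (by linarith)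
  have her : ∀ᶠ t in 𝓝[>] t₀, t ∈ Ioo t₀ (t₀ + r) := Ioo_mem_nhdsGT (by linarith)
  have hZ : ∀ a : E →L[ℝ] E, DifferentiableAt ℝ (fun t => D₂ t - (Φ t a).comp (D₁ t)) t₀ :=
    fun a => hD₂.sub ((hΦd t₀ (mem_ball_self hδ) a).differentiableAt.clm_comp hD₁)
  have hZa := double_zero (hZ a).hasDerivAt (nhdsLT_le_nhdsNE t₀) (hel.mono fun t ht => by
    rw [← ha t ht, (hA' t (hb2 t (hlft t ht).1) (hlft t ht).2).2, sub_self])
  have hZb := double_zero (hZ b).hasDerivAt (nhdsGT_le_nhdsNE t₀) (her.mono fun t ht => by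
    rw [← hb t ht, (hA' t (hb2 t (hrgt t ht).1) (hrgt t ht).2).2, sub_self])
  -- the difference of the two extensions
  set W : ℝ → E →L[ℝ] E := fun t => (Φ t (b - a)).comp (D₁ t) with hW
  have hWe : W = fun t => (D₂ t - (Φ t a).comp (D₁ t)) - (D₂ t - (Φ t b).comp (D₁ t)) := by
    funext t
    simp only [hW, map_sub, ContinuousLinearMap.sub_comp]
    abel
  have hW0 : W t₀ = 0 := by rw [hWe]; simp only [hZa.1, hZb.1, sub_self]
  have hWd : HasDerivAt W 0 t₀ := by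
    have := (hZ a).hasDerivAt.sub (hZ b).hasDerivAt
    rw [hZa.2, hZb.2, sub_self] at this
    rw [hWe]; exact this
  have hab : b - a = 0 := by
    have hc : Tendsto (fun t => Φ t (b - a)) (𝓝[≠] t₀) (𝓝 (b - a)) := by
      have := (hΦd t₀ (mem_ball_self hδ) (b - a)).continuousAt.tendsto
      rw [hΦ0] at this
      exact this.mono_left nhdsWithin_le_nhds
    refine tendsto_nhds_unique hc ?_
    rw [NormedAddGroup.tendsto_nhds_zero]
    intro η hη
    have h1 := (hasDerivAt_iff_isLittleO.1 hWd).bound (c := κ * η / 2) (by positivity)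
    filter_upwards [nhdsWithin_le_nhds h1, nhdsWithin_le_nhds hlow, self_mem_nhdsWithin]
      with t ht hl hne
    have hpos : 0 < |t - t₀| := abs_pos.2 (sub_ne_zero.2 hne)
    have hinj : Function.Injective (D₁ t) := by
      rw [injective_iff_map_eq_zero]
      intro ξ hξ
      have := hl ξ
      rw [hξ, norm_zero] at this
      have h3 : ‖ξ‖ ≤ 0 := by
        by_contra h4
        have := mul_pos (mul_pos hκ hpos) (not_le.1 h4)
        linarith
      exact norm_le_zero_iff.1 h3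
    rw [hW0, smul_zero, sub_zero, sub_zero, Real.norm_eq_abs] at ht
    refine lt_of_le_of_lt (ContinuousLinearMap.opNorm_le_bound _ (M := η / 2) (by positivity) ?_)
      (by linarith)
    intro ζ
    obtain ⟨ξ, rfl⟩ := (isInvertible_of_injective hinj).surjective ζ
    calc ‖Φ t (b - a) (D₁ t ξ)‖ = ‖W t ξ‖ := rfl
      _ ≤ ‖W t‖ * ‖ξ‖ := (W t).le_opNorm ξ
      _ ≤ κ * η / 2 * |t - t₀| * ‖ξ‖ := by gcongr
      _ = η / 2 * (κ * |t - t₀| * ‖ξ‖) := by ring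
      _ ≤ η / 2 * ‖D₁ t ξ‖ := by gcongr; exact hl ξ
  have hba : b = a := sub_eq_zero.1 hab
  subst hba
  have hne : ∀ᶠ t in 𝓝[≠] t₀, Φ t b = Ah t := by
    rw [← nhdsLT_sup_nhdsGT, eventually_sup]
    exact ⟨hel.mono fun t ht => (ha t ht).symm, her.mono fun t ht => (hb t ht).symm⟩
  refine ⟨fun t => Φ t b, ?_, hne⟩
  have h2 : ∀ᶠ t in 𝓝 t₀, (Φ t b).comp (D₁ t) = D₂ t := by
    rw [← nhdsNE_sup_pure, eventually_sup, eventually_pure]
    refine ⟨?_, (sub_eq_zero.1 hZa.1).symm⟩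
    filter_upwards [hne, hA] with t h1 h2
    rw [h1, h2.2]
  filter_upwards [h2, ball_mem_nhds t₀ hδ] with t h1 h3
  exact ⟨hΦd t h3 b, h1⟩

end

end Pool.Agent.MP_3fed84_gt.PairAux
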