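import Pool.Agent.MP_3fed84_gt.Ray
import Pool.Agent.MP_3fed84_gt.PairAux

/-! Two exponential maps with the same pulled back metric. -/

open Set Metric Filter Topology
open scoped ContDiff RealInnerProductSpace

namespace Pool.Agent.MP_3fed84_gt

open PairAux

variable {E : Type} [NormedAddCommGroup E] [InnerProductSpace ℝ E] [FiniteDimensional ℝ E]
  {M N : Type} [TopologicalSpace M] [TopologicalSpace N]

structure Pair (𝒜 : Atlas E M) (ℬ : Atlas E N) (e₁ : E → M) (e₂ : E → N) : Prop where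
  ex₁ : Ex 𝒜 e₁
  ex₂ : Ex ℬ e₂
  eq : ∀ c ∈ 𝒜.S, ∀ c' ∈ ℬ.S, ∀ x, e₁ x ∈ c.ψ.source → e₂ x ∈ c'.ψ.source → ∀ a b,
    c'.G (c'.ψ (e₂ x)) (fderiv ℝ (c'.ψ ∘ e₂) x a) (fderiv ℝ (c'.ψ ∘ e₂) x b)
      = c.G (c.ψ (e₁ x)) (fderiv ℝ (c.ψ ∘ e₁) x a) (fderiv ℝ (c.ψ ∘ e₁) x b)

variable {𝒜 : Atlas E M} {ℬ : Atlas E N} {e₁ : E → M} {e₂ : E → N}

theorem Pair.symm (h : Pair 𝒜 ℬ e₁ e₂) : Pair ℬ 𝒜 e₂ e₁ :=
  ⟨h.ex₂, h.ex₁, fun c hc c' hc' x hx hx' a b => (h.eq c' hc' c hc x hx' hx a b).symm⟩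

/-- F intertwines the two exponential maps near x. -/
def Agree (e₁ : E → M) (e₂ : E → N) (F : M → N) (x : E) : Prop := F ∘ e₁ =ᶠ[𝓝 x] e₂

theorem Agree.eventually {F : M → N} {x : E} (h : Agree e₁ e₂ F x) :
    ∀ᶠ y in 𝓝 x, Agree e₁ e₂ F y :=
  Filter.EventuallyEq.eventuallyEq_nhds h

theorem Agree.eq {F : M → N} {x : E} (h : Agree e₁ e₂ F x) : F (e₁ x) = e₂ x :=
  Filter.EventuallyEq.eq_of_nhds h

/-- A local isometry intertwining the exponential maps exists near x. -/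
def Good (𝒜 : Atlas E M) (ℬ : Atlas E N) (e₁ : E → M) (e₂ : E → N) (x : E) : Prop :=
  ∃ F, LI 𝒜 ℬ F (e₁ x) ∧ Agree e₁ e₂ F x

omit [FiniteDimensional ℝ E] in
theorem Ex.eventually_source (h : Ex 𝒜 e₁) {c : Chart E M} {x : E} (hx : e₁ x ∈ c.ψ.source) :
    ∀ᶠ y in 𝓝 x, e₁ y ∈ c.ψ.source :=
  h.cont.continuousAt.eventually (c.ψ.open_source.mem_nhds hx)

/-- The coordinate form of the intertwining isometry near a regular point. -/
theorem Pair.local_iso (h : Pair 𝒜 ℬ e₁ e₂) {c : Chart E M} (hc : c ∈ 𝒜.S) {c' : Chart E N}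
    (hc' : c' ∈ ℬ.S) {x : E} (hx : e₁ x ∈ c.ψ.source) (hx' : e₂ x ∈ c'.ψ.source)
    (hr : Function.Injective (fderiv ℝ (c.ψ ∘ e₁) x)) :
    ∃ f : E → E, (∀ᶠ z in 𝓝 (c.ψ (e₁ x)), ContDiffAt ℝ ∞ f z ∧ IsoAt c.G c'.G f z) ∧
      ∀ᶠ y in 𝓝 x, f (c.ψ (e₁ y)) = c'.ψ (e₂ y) ∧
        (fderiv ℝ f (c.ψ (e₁ y))).comp (fderiv ℝ (c.ψ ∘ e₁) y) = fderiv ℝ (c'.ψ ∘ e₂) y ∧
        Function.Injective (fderiv ℝ (c.ψ ∘ e₁) y) := by
  have h1 := h.ex₁.eventually_source hx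
  have h2 := h.ex₂.eventually_source hx'
  obtain ⟨hmap, f, hf⟩ := local_quot (B₁ := c.ψ ∘ e₁) (B₂ := c'.ψ ∘ e₂) (x := x)
    ((h1.and h2).mono fun y hy => ⟨h.ex₁.sm c hc y hy.1, h.ex₂.sm c' hc' y hy.2⟩) hr
  refine ⟨f, ?_, hf.mono fun y hy => hy.2⟩
  have hmap' : map (c.ψ ∘ e₁) (𝓝 x) = 𝓝 (c.ψ (e₁ x)) := hmap
  rw [← hmap', eventually_map]
  filter_upwards [hf, h1, h2] with y hy hy1 hy2
  refine ⟨hy.1, fun a b => ?_⟩
  obtain ⟨a', rfl⟩ := (isInvertible_of_injective hy.2.2.2).surjective a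
  obtain ⟨b', rfl⟩ := (isInvertible_of_injective hy.2.2.2).surjective b
  have e1 := congrArg (fun T : E →L[ℝ] E => T a') hy.2.2.1
  have e2 := congrArg (fun T : E →L[ℝ] E => T b') hy.2.2.1
  simp only [ContinuousLinearMap.comp_apply] at e1 e2
  rw [e1, e2, hy.2.1]
  exact h.eq c hc c' hc' y hy1 hy2 a' b'

/-- The exponential map is open at regular points. -/
theorem Ex.map_nhds (h : Ex 𝒜 e₁) {c : Chart E M} (hc : c ∈ 𝒜.S) {x : E}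
    (hx : e₁ x ∈ c.ψ.source) (hr : Function.Injective (fderiv ℝ (c.ψ ∘ e₁) x)) :
    map e₁ (𝓝 x) = 𝓝 (e₁ x) := by
  have h1 := h.eventually_source hx
  obtain ⟨hmap, -⟩ := local_quot (B₁ := c.ψ ∘ e₁) (B₂ := c.ψ ∘ e₁) (x := x)
    (h1.mono fun y hy => ⟨h.sm c hc y hy, h.sm c hc y hy⟩) hr
  have hmap' : map (c.ψ ∘ e₁) (𝓝 x) = 𝓝 (c.ψ (e₁ x)) := hmap
  rw [← c.ψ.symm_map_nhds_eq hx, ← hmap', map_map]
  exact map_congr (h1.mono fun y hy => (c.ψ.left_inv hy).symm)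

omit [FiniteDimensional ℝ E] in
theorem Ex.injective_zero (h : Ex 𝒜 e₁) {c : Chart E M} (hc : c ∈ 𝒜.S)
    (hx : e₁ 0 ∈ c.ψ.source) : Function.Injective (fderiv ℝ (c.ψ ∘ e₁) 0) := by
  rw [injective_iff_map_eq_zero]
  intro a ha
  have := h.iso0 c hc hx a a
  rw [ha] at this
  simp only [map_zero] at this
  exact inner_self_eq_zero.1 this.symm

/-- Times close to a given time on a ray are regular. -/
theorem Ex.eventually_regular (h : Ex 𝒜 e₁) {c : Chart E M} (hc : c ∈ 𝒜.S) {θ : E} {t₀ : ℝ}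
    (hx : e₁ (t₀ • θ) ∈ c.ψ.source) :
    ∀ᶠ t in 𝓝[≠] t₀, Function.Injective (fderiv ℝ (c.ψ ∘ e₁) (t • θ)) := by
  by_cases hθ : θ = 0
  · subst hθ
    simp only [smul_zero] at hx ⊢
    exact Eventually.of_forall fun _ => h.injective_zero hc hx
  obtain ⟨κ, hκ, hlow⟩ := h.lower hc hx hθ
  filter_upwards [nhdsWithin_le_nhds hlow, self_mem_nhdsWithin] with t hl hne
  have hpos : 0 < |t - t₀| := abs_pos.2 (sub_ne_zero.2 hne)
  rw [injective_iff_map_eq_zero]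
  intro ξ hξ
  have := hl ξ
  rw [hξ, norm_zero] at this
  have h3 : ‖ξ‖ ≤ 0 := by
    by_contra h4
    have := mul_pos (mul_pos hκ hpos) (not_le.1 h4)
    linarith
  exact norm_le_zero_iff.1 h3

/-- Regular points are good. -/
theorem Pair.good_of_regular (h : Pair 𝒜 ℬ e₁ e₂) {c : Chart E M} (hc : c ∈ 𝒜.S) {x : E}
    (hx : e₁ x ∈ c.ψ.source) (hr : Function.Injective (fderiv ℝ (c.ψ ∘ e₁) x)) :
    Good 𝒜 ℬ e₁ e₂ x := by
  obtain ⟨c', hc', hn⟩ := ℬ.norm (e₂ x)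
  have hx' := hn.1
  obtain ⟨f, hf, hg⟩ := h.local_iso hc hc' hx hx' hr
  refine ⟨c'.ψ.symm ∘ f ∘ c.ψ, (LI.of_coord hc hc' hx ?_ hf).1, ?_⟩
  · rw [hg.self_of_nhds.1]; exact c'.ψ.map_source hx'
  · filter_upwards [hg, h.ex₂.eventually_source hx'] with y hy hy2
    simp only [Function.comp_apply]
    rw [hy.1, c'.ψ.left_inv hy2]

theorem Pair.good_zero (h : Pair 𝒜 ℬ e₁ e₂) : Good 𝒜 ℬ e₁ e₂ 0 := by
  obtain ⟨c, hc, hn⟩ := 𝒜.norm (e₁ 0)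
  exact h.good_of_regular hc hn.1 (h.ex₁.injective_zero hc hn.1)

/-- The germ of the intertwining isometry is unique. -/
theorem Pair.germ_unique [T2Space N] (h : Pair 𝒜 ℬ e₁ e₂) {F F' : M → N} {x : E}
    (hF : LI 𝒜 ℬ F (e₁ x)) (hF' : LI 𝒜 ℬ F' (e₁ x)) (ha : Agree e₁ e₂ F x)
    (ha' : Agree e₁ e₂ F' x) : F =ᶠ[𝓝 (e₁ x)] F' := by
  obtain ⟨c, hc, hn⟩ := 𝒜.norm (e₁ x)
  have hx := hn.1
  refine hF.eq_of_frequently hF' ?_
  have ht : Tendsto (fun t : ℝ => t • x) (𝓝[≠] 1) (𝓝 x) := by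
    have : Tendsto (fun t : ℝ => t • x) (𝓝 1) (𝓝 ((1 : ℝ) • x)) :=
      (continuous_id.smul continuous_const).tendsto 1
    rw [one_smul] at this
    exact this.mono_left nhdsWithin_le_nhds
  have ht' : Tendsto (fun t : ℝ => e₁ (t • x)) (𝓝[≠] 1) (𝓝 (e₁ x)) :=
    (h.ex₁.cont.tendsto x).comp ht
  refine ht'.frequently (Eventually.frequently ?_)
  have hreg := h.ex₁.eventually_regular hc (θ := x) (t₀ := 1) (by rwa [one_smul])
  filter_upwards [hreg, ht.eventually ha.eventually, ht.eventually ha'.eventually,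
    ht.eventually (h.ex₁.eventually_source hx)] with t h1 h2 h3 h4
  rw [← h.ex₁.map_nhds hc h4 h1]
  exact h2.trans h3.symm

/-- Agreement propagates outwards along rays. -/
theorem Pair.agree_ray [T2Space N] (h : Pair 𝒜 ℬ e₁ e₂) {F : M → N} {x : E} {t₀ : ℝ}
    (ht₀ : t₀ ≤ 1) (ha : Agree e₁ e₂ F (t₀ • x))
    (hF : ∀ t ∈ Icc t₀ 1, LI 𝒜 ℬ F (e₁ (t • x))) : Agree e₁ e₂ F x := by
  have h1 : ∀ᶠ y in 𝓝 x, ∀ t ∈ Icc t₀ 1, LI 𝒜 ℬ F (e₁ (t • y)) := by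
    refine isCompact_Icc.eventually_forall_of_forall_eventually fun t ht => ?_
    have hc : Continuous fun z : E × ℝ => e₁ (z.2 • z.1) :=
      h.ex₁.cont.comp (continuous_snd.smul continuous_fst)
    exact (hc.tendsto (x, t)).eventually (hF t ht).eventually
  have h2 : ∀ᶠ y in 𝓝 x, Agree e₁ e₂ F (t₀ • y) :=
    ((continuous_const_smul t₀).tendsto x).eventually ha.eventually
  filter_upwards [h1, h2] with y hy1 hy2
  have h3 := GeoAt.unique (𝒜 := ℬ) (γ₁ := F ∘ fun s : ℝ => e₁ (s • y))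
    (γ₂ := fun s : ℝ => e₂ (s • y)) (s := Icc t₀ 1) isPreconnected_Icc
    (fun t ht => (h.ex₁.geo y t).push (hy1 t ht)) (fun t _ => h.ex₂.geo y t)
    (t₀ := t₀) ⟨le_rfl, ht₀⟩
    (((continuous_id.smul continuous_const).tendsto t₀).eventually hy2) 1 ⟨ht₀, le_rfl⟩
  simpa using h3.eq_of_nhds

/-- The quotient of the two differentials. -/
noncomputable def quot (B₁ B₂ : E → E) (y : E) : E →L[ℝ] E :=
  (fderiv ℝ B₂ y).comp (fderiv ℝ B₁ y).inverse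

/-- The limit of the quotient along the ray. -/
noncomputable def quotLim (B₁ B₂ : E → E) (x : E) : E →L[ℝ] E :=
  limUnder (𝓝[≠] (1 : ℝ)) fun r => quot B₁ B₂ (r • x)

theorem eq_quot {B₁ B₂ : E → E} {y : E} {T : E →L[ℝ] E}
    (hr : Function.Injective (fderiv ℝ B₁ y)) (hT : T.comp (fderiv ℝ B₁ y) = fderiv ℝ B₂ y) :
    T = quot B₁ B₂ y := by
  rw [quot, ← hT, ContinuousLinearMap.comp_assoc, (isInvertible_of_injective hr).self_comp_inverse,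
    ContinuousLinearMap.comp_id]

theorem quot_comp {B₁ B₂ : E → E} {y : E} (hr : Function.Injective (fderiv ℝ B₁ y)) :
    (quot B₁ B₂ y).comp (fderiv ℝ B₁ y) = fderiv ℝ B₂ y := by
  rw [quot, ContinuousLinearMap.comp_assoc, (isInvertible_of_injective hr).inverse_comp_self,
    ContinuousLinearMap.comp_id]

omit [FiniteDimensional ℝ E] in
theorem quotLim_eq {B₁ B₂ : E → E} {θ : E} {s : ℝ} (hs : s ≠ 0) {A : ℝ → E →L[ℝ] E}
    (hA : ContinuousAt A s) (h : ∀ᶠ r in 𝓝[≠] s, A r = quot B₁ B₂ (r • θ)) :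
    quotLim B₁ B₂ (s • θ) = A s := by
  have ht : Tendsto (fun r : ℝ => r * s) (𝓝[≠] 1) (𝓝[≠] s) := by
    refine tendsto_nhdsWithin_iff.2 ⟨?_, ?_⟩
    · have : Tendsto (fun r : ℝ => r * s) (𝓝 1) (𝓝 (1 * s)) :=
        (continuous_id.mul continuous_const).tendsto 1
      rw [one_mul] at this
      exact this.mono_left nhdsWithin_le_nhds
    · filter_upwards [self_mem_nhdsWithin] with r hr h1
      exact hr (mul_right_cancel₀ hs (h1.trans (one_mul s).symm))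
  refine Tendsto.limUnder_eq ?_
  refine ((hA.tendsto.mono_left nhdsWithin_le_nhds).comp ht).congr' ?_
  filter_upwards [ht.eventually h] with r hr
  simp only [Function.comp_apply, hr, mul_smul]

/-- The right-hand side of the transport equation. -/
noncomputable def trans (Γ Γ' : E → E →L[ℝ] E →L[ℝ] E) (z u n v : E) :
    (E →L[ℝ] E) →L[ℝ] (E →L[ℝ] E) :=
  (ContinuousLinearMap.compL ℝ E E E).flip (Γ z u)
    - (ContinuousLinearMap.compL ℝ E E E).flip.flip (Γ' n v)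

omit [FiniteDimensional ℝ E] in
theorem trans_apply (Γ Γ' : E → E →L[ℝ] E →L[ℝ] E) (z u n v : E) (A : E →L[ℝ] E) :
    trans Γ Γ' z u n v A = A.comp (Γ z u) - (Γ' n v).comp A := by
  simp [trans]

omit [FiniteDimensional ℝ E] in
theorem Ex.contDiffAt_ray (h : Ex 𝒜 e₁) {c : Chart E M} (hc : c ∈ 𝒜.S) {θ : E} {t : ℝ}
    (ht : e₁ (t • θ) ∈ c.ψ.source) :
    ContDiffAt ℝ ∞ (fun s : ℝ => c.ψ (e₁ (s • θ))) t ∧
      ContDiffAt ℝ ∞ (fun s : ℝ => fderiv ℝ (c.ψ ∘ e₁) (s • θ)) t := by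
  have h0 : ContDiffAt ℝ ∞ (fun s : ℝ => s • θ) t := contDiffAt_id.smul contDiffAt_const
  exact ⟨ContDiffAt.comp (g := c.ψ ∘ e₁) t (h.sm c hc _ ht) h0,
    ((h.sm c hc _ ht).fderiv_right (m := ∞) (by simp)).comp t h0⟩

/-- At a regular time the quotient is the differential of a local isometry. -/
theorem Pair.quot_regular (h : Pair 𝒜 ℬ e₁ e₂) {c : Chart E M} (hc : c ∈ 𝒜.S) {c' : Chart E N}
    (hc' : c' ∈ ℬ.S) {θ : E} {t : ℝ} (hx : e₁ (t • θ) ∈ c.ψ.source)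
    (hx' : e₂ (t • θ) ∈ c'.ψ.source) (hr : Function.Injective (fderiv ℝ (c.ψ ∘ e₁) (t • θ))) :
    HasDerivAt (fun s : ℝ => quot (c.ψ ∘ e₁) (c'.ψ ∘ e₂) (s • θ))
      (trans c.Γ c'.Γ (c.ψ (e₁ (t • θ))) (fderiv ℝ (c.ψ ∘ e₁) (t • θ) θ) (c'.ψ (e₂ (t • θ)))
        (fderiv ℝ (c'.ψ ∘ e₂) (t • θ) θ) (quot (c.ψ ∘ e₁) (c'.ψ ∘ e₂) (t • θ))) t ∧
    (∀ a b, c'.G (c'.ψ (e₂ (t • θ))) (quot (c.ψ ∘ e₁) (c'.ψ ∘ e₂) (t • θ) a)
      (quot (c.ψ ∘ e₁) (c'.ψ ∘ e₂) (t • θ) b) = c.G (c.ψ (e₁ (t • θ))) a b) ∧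
    (c.ψ (e₁ (t • θ)), (c'.ψ (e₂ (t • θ)), quot (c.ψ ∘ e₁) (c'.ψ ∘ e₂) (t • θ))) ∈
      Leaf (rol c.Γ c'.Γ) := by
  obtain ⟨f, hf, hg⟩ := h.local_iso hc hc' hx hx' hr
  have hz : c.ψ (e₁ (t • θ)) ∈ c.ψ.target := c.ψ.map_source hx
  have hfz : f (c.ψ (e₁ (t • θ))) = c'.ψ (e₂ (t • θ)) := hg.self_of_nhds.1
  have hz' : f (c.ψ (e₁ (t • θ))) ∈ c'.ψ.target := by rw [hfz]; exact c'.ψ.map_source hx'
  have hq : ∀ᶠ y in 𝓝 (t • θ), fderiv ℝ f (c.ψ (e₁ y)) = quot (c.ψ ∘ e₁) (c'.ψ ∘ e₂) y :=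
    hg.mono fun y hy => eq_quot hy.2.2 hy.2.1
  have hjet : ∀ᶠ z in 𝓝 (c.ψ (e₁ (t • θ))),
      HasFDerivAt (fun z => (f z, fderiv ℝ f z)) (rol c.Γ c'.Γ (z, (f z, fderiv ℝ f z))) z := by
    filter_upwards [hf, hf.eventually_nhds, c.ψ.open_target.mem_nhds hz,
      hf.self_of_nhds.1.continuousAt.eventually (c'.ψ.open_target.mem_nhds hz')]
      with z h1 h2 h3 h4
    exact jet_hasFDerivAt c.chr c'.chr h3 h4 (h1.1.of_le (WithTop.coe_le_coe.2 (le_top (a := (2 : ℕ∞)))))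
      (h2.mono fun w hw => hw.2)
  refine ⟨?_, fun a b => ?_, ?_⟩
  · have h1 := hasDerivAt_snd (hjet.self_of_nhds.comp_hasDerivAt t (h.ex₁.hasDerivAt_ray hc hx))
    rw [rol_apply, hq.self_of_nhds, hfz] at h1
    have h2 : quot (c.ψ ∘ e₁) (c'.ψ ∘ e₂) (t • θ) (fderiv ℝ (c.ψ ∘ e₁) (t • θ) θ)
        = fderiv ℝ (c'.ψ ∘ e₂) (t • θ) θ := by
      rw [← quot_comp (B₂ := c'.ψ ∘ e₂) hr]; rfl
    rw [h2] at h1
    rw [trans_apply]
    refine h1.congr_of_eventuallyEq ?_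
    filter_upwards [((continuous_id.smul continuous_const).tendsto t).eventually hq] with s hs
    exact hs.symm
  · have := hf.self_of_nhds.2 a b
    rwa [hq.self_of_nhds, hfz] at this
  · exact ⟨fun z => (f z, fderiv ℝ f z), by simp only [hfz, hq.self_of_nhds], hjet⟩

/-- The key local statement along a ray. -/
theorem Pair.key (h : Pair 𝒜 ℬ e₁ e₂) {c : Chart E M} (hc : c ∈ 𝒜.S) {c' : Chart E N}
    (hc' : c' ∈ ℬ.S) {θ : E} {t : ℝ} (h0 : t • θ ≠ 0) (hx : e₁ (t • θ) ∈ c.ψ.source)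
    (hx' : e₂ (t • θ) ∈ c'.ψ.source) :
    HasDerivAt (fun s : ℝ => quotLim (c.ψ ∘ e₁) (c'.ψ ∘ e₂) (s • θ))
      (trans c.Γ c'.Γ (c.ψ (e₁ (t • θ))) (fderiv ℝ (c.ψ ∘ e₁) (t • θ) θ) (c'.ψ (e₂ (t • θ)))
        (fderiv ℝ (c'.ψ ∘ e₂) (t • θ) θ) (quotLim (c.ψ ∘ e₁) (c'.ψ ∘ e₂) (t • θ))) t ∧
    (quotLim (c.ψ ∘ e₁) (c'.ψ ∘ e₂) (t • θ)).comp (fderiv ℝ (c.ψ ∘ e₁) (t • θ))
      = fderiv ℝ (c'.ψ ∘ e₂) (t • θ) ∧
    ∀ᶠ s in 𝓝[≠] t, quotLim (c.ψ ∘ e₁) (c'.ψ ∘ e₂) (s • θ)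
      = quot (c.ψ ∘ e₁) (c'.ψ ∘ e₂) (s • θ) := by
  have hθ : θ ≠ 0 := fun h1 => h0 (by rw [h1, smul_zero])
  have ht : t ≠ 0 := fun h1 => h0 (by rw [h1, zero_smul])
  have hray : Tendsto (fun s : ℝ => s • θ) (𝓝 t) (𝓝 (t • θ)) :=
    (continuous_id.smul continuous_const).tendsto t
  have hs1 := hray.eventually (h.ex₁.eventually_source hx)
  have hs2 := hray.eventually (h.ex₂.eventually_source hx')
  obtain ⟨κ, hκ, hlow⟩ := h.ex₁.lower hc hx hθ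
  have hreg := h.ex₁.eventually_regular hc hx
  obtain ⟨A, hA, hAq⟩ := cross_abs (D₁ := fun s : ℝ => fderiv ℝ (c.ψ ∘ e₁) (s • θ))
    (D₂ := fun s : ℝ => fderiv ℝ (c'.ψ ∘ e₂) (s • θ))
    (Ah := fun s : ℝ => quot (c.ψ ∘ e₁) (c'.ψ ∘ e₂) (s • θ)) (t₀ := t)
    (L := fun s : ℝ => trans c.Γ c'.Γ (c.ψ (e₁ (s • θ))) (fderiv ℝ (c.ψ ∘ e₁) (s • θ) θ)
      (c'.ψ (e₂ (s • θ))) (fderiv ℝ (c'.ψ ∘ e₂) (s • θ) θ))
    ((h.ex₁.contDiffAt_ray hc hx).2.differentiableAt (by simp))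
    ((h.ex₂.contDiffAt_ray hc' hx').2.differentiableAt (by simp)) hκ hlow
    (by
      filter_upwards [hs1, hs2] with s h1 h2
      obtain ⟨a1, a2⟩ := h.ex₁.contDiffAt_ray hc h1
      obtain ⟨b1, b2⟩ := h.ex₂.contDiffAt_ray hc' h2
      have g1 : ContDiffAt ℝ ∞ c.Γ (c.ψ (e₁ (s • θ))) :=
        c.chr.smΓ.contDiffAt (c.ψ.open_target.mem_nhds (c.ψ.map_source h1))
      have g2 : ContDiffAt ℝ ∞ c'.Γ (c'.ψ (e₂ (s • θ))) :=
        c'.chr.smΓ.contDiffAt (c'.ψ.open_target.mem_nhds (c'.ψ.map_source h2))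
      have k1 := (g1.comp s a1).clm_apply (a2.clm_apply (contDiffAt_const (c := θ)))
      have k2 := (g2.comp s b1).clm_apply (b2.clm_apply (contDiffAt_const (c := θ)))
      exact ((contDiffAt_const (c := (ContinuousLinearMap.compL ℝ E E E).flip)).clm_apply k1).sub
        ((contDiffAt_const (c := (ContinuousLinearMap.compL ℝ E E E).flip.flip)).clm_apply k2))
    (by
      filter_upwards [hreg, nhdsWithin_le_nhds hs1, nhdsWithin_le_nhds hs2] with s h1 h2 h3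
      exact ⟨(h.quot_regular hc hc' h2 h3 h1).1, quot_comp h1⟩)
  have hlim : ∀ᶠ s in 𝓝 t, quotLim (c.ψ ∘ e₁) (c'.ψ ∘ e₂) (s • θ) = A s := by
    have h1 := (eventually_nhdsWithin_iff.1 hAq).eventually_nhds
    filter_upwards [h1, hA, isOpen_ne.mem_nhds ht] with s h2 h3 h4
    refine quotLim_eq h4 h3.1.continuousAt ?_
    by_cases hst : s = t
    · subst hst; exact hAq
    · filter_upwards [nhdsWithin_le_nhds h2, nhdsWithin_le_nhds (isOpen_ne.mem_nhds hst)]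
        with r h5 h6
      exact h5 h6
  refine ⟨?_, ?_, ?_⟩
  · rw [hlim.self_of_nhds]
    exact hA.self_of_nhds.1.congr_of_eventuallyEq hlim
  · rw [hlim.self_of_nhds]
    exact hA.self_of_nhds.2
  · filter_upwards [nhdsWithin_le_nhds hlim, hAq] with s h1 h2
    rw [h1, h2]

/-- The transported linear isometry exists across conjugate points. -/
theorem Pair.crossing (h : Pair 𝒜 ℬ e₁ e₂) {c : Chart E M} (hc : c ∈ 𝒜.S) {c' : Chart E N}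
    (hc' : c' ∈ ℬ.S) : ∃ A : E → E →L[ℝ] E,
      (∀ x, x ≠ 0 → e₁ x ∈ c.ψ.source → e₂ x ∈ c'.ψ.source →
        (∀ a b, c'.G (c'.ψ (e₂ x)) (A x a) (A x b) = c.G (c.ψ (e₁ x)) a b) ∧
        (c.ψ (e₁ x), (c'.ψ (e₂ x), A x)) ∈
          closure (Leaf (rol c.Γ c'.Γ) ∩ c.ψ.target ×ˢ (c'.ψ.target ×ˢ univ)) ∧
        ∀ F, LI 𝒜 ℬ F (e₁ x) → Agree e₁ e₂ F x → A x = fderiv ℝ (c.ex c' F) (c.ψ (e₁ x))) ∧
      ∀ (θ : E) (t : ℝ), t • θ ≠ 0 → e₁ (t • θ) ∈ c.ψ.source → e₂ (t • θ) ∈ c'.ψ.source →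
        HasDerivAt (fun s : ℝ => (c.ψ (e₁ (s • θ)), (c'.ψ (e₂ (s • θ)), A (s • θ))))
          (fderiv ℝ (c.ψ ∘ e₁) (t • θ) θ,
            rol c.Γ c'.Γ (c.ψ (e₁ (t • θ)), (c'.ψ (e₂ (t • θ)), A (t • θ)))
              (fderiv ℝ (c.ψ ∘ e₁) (t • θ) θ)) t := by
  refine ⟨quotLim (c.ψ ∘ e₁) (c'.ψ ∘ e₂), fun x hx0 hx hx' => ?_, fun θ t h0 hx hx' => ?_⟩
  · have hx1 : e₁ ((1 : ℝ) • x) ∈ c.ψ.source := by rwa [one_smul]
    have hx2 : e₂ ((1 : ℝ) • x) ∈ c'.ψ.source := by rwa [one_smul]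
    obtain ⟨k1, -, k3⟩ := h.key hc hc' (θ := x) (t := 1) (by rwa [one_smul]) hx1 hx2
    have hray : Tendsto (fun s : ℝ => s • x) (𝓝[≠] 1) (𝓝 x) := by
      have : Tendsto (fun t : ℝ => t • x) (𝓝 1) (𝓝 ((1 : ℝ) • x)) :=
        (continuous_id.smul continuous_const).tendsto 1
      rw [one_smul] at this
      exact this.mono_left nhdsWithin_le_nhds
    have hs1 := hray.eventually (h.ex₁.eventually_source hx)
    have hs2 := hray.eventually (h.ex₂.eventually_source hx')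
    have hreg := h.ex₁.eventually_regular hc hx1
    have tA : Tendsto (fun s : ℝ => quot (c.ψ ∘ e₁) (c'.ψ ∘ e₂) (s • x)) (𝓝[≠] 1)
        (𝓝 (quotLim (c.ψ ∘ e₁) (c'.ψ ∘ e₂) x)) := by
      have := k1.continuousAt.tendsto
      rw [one_smul] at this
      exact (this.mono_left nhdsWithin_le_nhds).congr' k3
    have t1 : Tendsto (fun s : ℝ => c.ψ (e₁ (s • x))) (𝓝[≠] 1) (𝓝 (c.ψ (e₁ x))) :=
      (h.ex₁.sm c hc x hx).continuousAt.tendsto.comp hray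
    have t2 : Tendsto (fun s : ℝ => c'.ψ (e₂ (s • x))) (𝓝[≠] 1) (𝓝 (c'.ψ (e₂ x))) :=
      (h.ex₂.sm c' hc' x hx').continuousAt.tendsto.comp hray
    have hq : ∀ᶠ s : ℝ in 𝓝[≠] 1, _ := (hreg.and (hs1.and hs2)).mono fun s hs =>
      (h.quot_regular hc hc' hs.2.1 hs.2.2 hs.1).2
    refine ⟨fun a b => ?_, ?_, fun F hF ha => ?_⟩
    · have g1 : ContinuousAt c.G (c.ψ (e₁ x)) :=
        (c.chr.smG.contDiffAt (c.ψ.open_target.mem_nhds (c.ψ.map_source hx))).continuousAt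
      have g2 : ContinuousAt c'.G (c'.ψ (e₂ x)) :=
        (c'.chr.smG.contDiffAt (c'.ψ.open_target.mem_nhds (c'.ψ.map_source hx'))).continuousAt
      have ev : ∀ {X Y : Type} [NormedAddCommGroup X] [NormedSpace ℝ X] [NormedAddCommGroup Y]
          [NormedSpace ℝ Y] {T : ℝ → X →L[ℝ] Y} {T₀ : X →L[ℝ] Y} {v : ℝ → X} {v₀ : X},
          Tendsto T (𝓝[≠] 1) (𝓝 T₀) → Tendsto v (𝓝[≠] 1) (𝓝 v₀) →
          Tendsto (fun s => T s (v s)) (𝓝[≠] 1) (𝓝 (T₀ v₀)) := fun hT hv =>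
        (isBoundedBilinearMap_apply.continuous.tendsto _).comp (hT.prodMk_nhds hv)
      exact tendsto_nhds_unique
        (ev (ev (g2.tendsto.comp t2) (ev tA tendsto_const_nhds)) (ev tA tendsto_const_nhds))
        ((ev (ev (g1.tendsto.comp t1) tendsto_const_nhds) tendsto_const_nhds).congr'
          (hq.mono fun s hs => (hs.1 a b).symm))
    · refine mem_closure_of_tendsto (t1.prodMk_nhds (t2.prodMk_nhds tA)) ?_
      filter_upwards [hq, hs1, hs2] with s h1 h2 h3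
      exact ⟨h1.2, c.ψ.map_source h2, c'.ψ.map_source h3, mem_univ _⟩
    · have hco := hF.coord hc hc' hx (by rwa [ha.eq])
      have g : ContinuousAt (fderiv ℝ (c.ex c' F)) (c.ψ (e₁ x)) :=
        (hco.self_of_nhds.2.2.1.fderiv_right (m := 0) (by simp)).continuousAt
      refine tendsto_nhds_unique tA ((g.tendsto.comp t1).congr' ?_)
      have hev : ∀ᶠ y in 𝓝 x, c.ex c' F ∘ (c.ψ ∘ e₁) =ᶠ[𝓝 y] c'.ψ ∘ e₂ := by
        refine Filter.EventuallyEq.eventuallyEq_nhds ?_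
        filter_upwards [ha, h.ex₁.eventually_source hx] with y h1 h2
        simp only [Chart.ex, Function.comp_apply, c.ψ.left_inv h2] at h1 ⊢
        rw [h1]
      filter_upwards [hreg, hs1, hray.eventually hev, t1.eventually hco] with s h1 h2 h3 h4
      refine eq_quot h1 ?_
      rw [← h3.fderiv_eq]
      exact (fderiv_comp (s • x) (h4.2.2.1.differentiableAt (by simp))
        ((h.ex₁.sm c hc _ h2).differentiableAt (by simp))).symm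
  · obtain ⟨k1, k2, -⟩ := h.key hc hc' h0 hx hx'
    have h2 : quotLim (c.ψ ∘ e₁) (c'.ψ ∘ e₂) (t • θ) (fderiv ℝ (c.ψ ∘ e₁) (t • θ) θ)
        = fderiv ℝ (c'.ψ ∘ e₂) (t • θ) θ := by
      rw [← k2]; rfl
    rw [rol_apply, h2, ← trans_apply]
    exact (h.ex₁.hasDerivAt_ray hc hx).prodMk ((h.ex₂.hasDerivAt_ray hc' hx').prodMk k1)

end Pool.Agent.MP_3fed84_gt
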