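import Pool.Agent.MP_3fed84_gt.Defs
import Pool.Agent.MP_3fed84_gt.Pair

/-! From Mathlib manifolds to atlases of coordinate metrics. -/

open Set Metric Filter Topology
open scoped Manifold ContDiff RealInnerProductSpace

namespace Pool.Agent.MP_3fed84_gt

section Aux

variable {E : Type} [NormedAddCommGroup E] [NormedSpace ℝ E]
  {M : Type} [TopologicalSpace M] [ChartedSpace E M]
  {X : Type} [TopologicalSpace X] [ChartedSpace E X]
  {Y : Type} [TopologicalSpace Y] [ChartedSpace E Y]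

/-- The differential as an operator on the model space. -/
noncomputable def dE (f : X → M) (x : X) : E →L[ℝ] E := mfderiv 𝓘(ℝ, E) 𝓘(ℝ, E) f x

theorem dE_comp {f : Y → M} {h : X → Y} {x : X} (hf : MDifferentiableAt 𝓘(ℝ, E) 𝓘(ℝ, E) f (h x))
    (hh : MDifferentiableAt 𝓘(ℝ, E) 𝓘(ℝ, E) h x) :
    dE (E := E) (f ∘ h) x = (dE (E := E) f (h x)).comp (dE (E := E) h x) :=
  mfderiv_comp x hf hh

theorem dE_congr {f f' : X → M} {x : X} (h : f =ᶠ[𝓝 x] f') :
    dE (E := E) f x = dE (E := E) f' x :=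
  h.mfderiv_eq

theorem dE_eq_fderiv (f : E → E) (x : E) : dE (E := E) f x = fderiv ℝ f x :=
  mfderiv_eq_fderiv

theorem dE_id (x : X) : dE (E := E) (id : X → X) x = ContinuousLinearMap.id ℝ E :=
  mfderiv_id

variable [IsManifold 𝓘(ℝ, E) ∞ M]

/-- The metric as a bilinear form on the model space. -/
noncomputable def ipE (g : RiemMetric E M) (x : M) : E →L[ℝ] E →L[ℝ] ℝ := g.inner x

theorem pullback_eq (g : RiemMetric E M) (f : X → M) (x : X) (a b : E) :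
    pullback g f x a b = ipE g (f x) (dE (E := E) f x a) (dE (E := E) f x b) := rfl

theorem coef_eq (g : RiemMetric E M) (x : M) (y a b : E) :
    coef g x y a b = ipE g ((chartAt E x).symm y) (dE (E := E) (chartAt E x).symm y a)
      (dE (E := E) (chartAt E x).symm y b) := rfl

theorem pullback_id (g : RiemMetric E M) (x : M) (a b : E) :
    pullback g (id : M → M) x a b = ip g x a b := by
  rw [pullback_eq, dE_id]
  rfl

theorem cm_chart {x m : M} (hm : m ∈ (chartAt E x).source) :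
    ContMDiffAt 𝓘(ℝ, E) 𝓘(ℝ, E) ∞ (chartAt E x) m :=
  (contMDiffOn_chart m hm).contMDiffAt ((chartAt E x).open_source.mem_nhds hm)

theorem cm_chart_symm {x : M} {y : E} (hy : y ∈ (chartAt E x).target) :
    ContMDiffAt 𝓘(ℝ, E) 𝓘(ℝ, E) ∞ (chartAt E x).symm y :=
  (contMDiffOn_chart_symm y hy).contMDiffAt ((chartAt E x).open_target.mem_nhds hy)

/-- The pulled back metric computed in a chart of the target. -/
theorem pullback_chart (g : RiemMetric E M) {f : X → M} {x : X}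
    (hf : MDifferentiableAt 𝓘(ℝ, E) 𝓘(ℝ, E) f x) {m : M} (hx : f x ∈ (chartAt E m).source)
    (a b : E) : pullback g f x a b = coef g m (chartAt E m (f x))
      (dE (E := E) (chartAt E m ∘ f) x a) (dE (E := E) (chartAt E m ∘ f) x b) := by
  have h1 : f =ᶠ[𝓝 x] (chartAt E m).symm ∘ (chartAt E m ∘ f) := by
    filter_upwards [hf.continuousAt.eventually ((chartAt E m).open_source.mem_nhds hx)] with z hz
    exact ((chartAt E m).left_inv hz).symm
  have h2 : MDifferentiableAt 𝓘(ℝ, E) 𝓘(ℝ, E) (chartAt E m ∘ f) x :=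
    ((cm_chart hx).mdifferentiableAt (by simp)).comp x hf
  have h3 : MDifferentiableAt 𝓘(ℝ, E) 𝓘(ℝ, E) (chartAt E m).symm ((chartAt E m ∘ f) x) :=
    (cm_chart_symm ((chartAt E m).map_source hx)).mdifferentiableAt (by simp)
  rw [pullback_eq, coef_eq, dE_congr h1, dE_comp h3 h2, (chartAt E m).left_inv hx]
  rfl

/-- The image of a constant vector field under a smooth map is a smooth map to the tangent
bundle. -/
theorem cm_section {f : E → M} {y : E} (hf : ContMDiffAt 𝓘(ℝ, E) 𝓘(ℝ, E) ∞ f y) (a : E) :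
    ContMDiffAt 𝓘(ℝ, E) (𝓘(ℝ, E).prod 𝓘(ℝ, E)) ∞
      (fun z => Bundle.TotalSpace.mk' E (E := fun x : M => TangentSpace 𝓘(ℝ, E) x) (f z)
        (mfderiv 𝓘(ℝ, E) 𝓘(ℝ, E) f z a)) y := by
  have hv : ContMDiffAt 𝓘(ℝ, E) (𝓘(ℝ, E).prod 𝓘(ℝ, E)) ∞
      (fun z : E => Bundle.TotalSpace.mk' E (E := fun x : E => TangentSpace 𝓘(ℝ, E) x) z a) y :=
    (contMDiffAt_vectorSpace_iff_contDiffAt (V := fun _ => a)).2 contDiffAt_const
  have hϕ := hf.mfderiv_const (m := ∞) (by simp)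
  exact ContMDiffAt.clm_apply_of_inCoordinates (b₁ := fun z : E => z) (b₂ := f) hϕ hv hf

theorem contDiffAt_pullback (g : RiemMetric E M) {f : E → M} {y : E}
    (hf : ContMDiffAt 𝓘(ℝ, E) 𝓘(ℝ, E) ∞ f y) (a b : E) :
    ContDiffAt ℝ ∞ (fun z => pullback g f z a b) y := by
  have h1 : ContMDiffAt 𝓘(ℝ, E) (𝓘(ℝ, E).prod 𝓘(ℝ, ℝ)) ∞
      (fun z => Bundle.TotalSpace.mk' ℝ (E := Bundle.Trivial M ℝ) (f z)
        (g.inner (f z) (mfderiv 𝓘(ℝ, E) 𝓘(ℝ, E) f z a) (mfderiv 𝓘(ℝ, E) 𝓘(ℝ, E) f z b))) y := by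
    apply ContMDiffAt.clm_bundle_apply₂ (F₁ := E) (F₂ := E)
    · exact ContMDiffAt.comp y g.contMDiff.contMDiffAt hf
    · exact cm_section hf a
    · exact cm_section hf b
  simp only [Bundle.contMDiffAt_totalSpace] at h1
  exact contMDiffAt_iff_contDiffAt.1 h1.2

theorem pullback_linear (g : RiemMetric E M) {e : E → M} (J : E ≃L[ℝ] E) {x : E}
    (he : MDifferentiableAt 𝓘(ℝ, E) 𝓘(ℝ, E) (e ∘ J) x) (a b : E) :
    pullback g (e ∘ J) x a b = pullback g e (J x) (J a) (J b) := by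
  have h0 : e = (e ∘ J) ∘ J.symm := by
    funext z
    simp
  have h1 : MDifferentiableAt 𝓘(ℝ, E) 𝓘(ℝ, E) e (J x) := by
    rw [h0]
    refine MDifferentiableAt.comp (J x) ?_ J.symm.mdifferentiableAt
    simpa using he
  rw [pullback_eq, pullback_eq, dE_comp h1 J.mdifferentiableAt, dE_eq_fderiv, J.fderiv]
  rfl

end Aux

variable {E : Type} [NormedAddCommGroup E] [InnerProductSpace ℝ E] [FiniteDimensional ℝ E]
  {M : Type} [TopologicalSpace M] [ChartedSpace E M] [IsManifold 𝓘(ℝ, E) ∞ M]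
  {N : Type} [TopologicalSpace N] [ChartedSpace E N] [IsManifold 𝓘(ℝ, E) ∞ N]

/-- The atlas contains every preferred chart, with the coefficients of g. -/
def Models (g : RiemMetric E M) (𝒜 : Atlas E M) : Prop :=
  ∀ x : M, ∃ c ∈ 𝒜.S, c.ψ = chartAt E x ∧ ∀ y a b, c.G y a b = coef g x y a b

theorem exists_model_chart (g : RiemMetric E M) (x : M) :
    ∃ c : Chart E M, c.ψ = chartAt E x ∧ ∀ y a b, c.G y a b = coef g x y a b := by
  let G : E → E →L[ℝ] E →L[ℝ] ℝ := fun y =>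
    (ipE g ((chartAt E x).symm y)).bilinearComp (dE (E := E) (chartAt E x).symm y)
      (dE (E := E) (chartAt E x).symm y)
  have hG : ∀ y a b, G y a b = coef g x y a b := fun y a b => rfl
  have hsm : ContDiffOn ℝ ∞ G (chartAt E x).target := by
    refine contDiffOn_clm_apply.2 fun a => contDiffOn_clm_apply.2 fun b y hy => ?_
    exact (contDiffAt_pullback g (cm_chart_symm hy) a b).contDiffWithinAt
  obtain ⟨Γ, hΓ⟩ := exists_chr (chartAt E x).open_target hsm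
    (fun y _ a b => g.symm _ _ _) (fun y hy a ha => by
      refine g.pos _ _ fun h0 => ha ?_
      have hinj := (mdifferentiable_chart (I := 𝓘(ℝ, E)) x).symm.mfderiv_injective hy
      exact hinj (h0.trans (map_zero _).symm))
  exact ⟨⟨chartAt E x, G, Γ, hΓ⟩, rfl, hG⟩

theorem exists_models (g : RiemMetric E M) : ∃ 𝒜 : Atlas E M, Models g 𝒜 := by
  obtain ⟨𝒜, h𝒜⟩ := exists_atlas
    {c : Chart E M | ∃ x, c.ψ = chartAt E x ∧ ∀ y a b, c.G y a b = coef g x y a b}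
    (fun m => by
      obtain ⟨c, hc⟩ := exists_model_chart g m
      exact ⟨c, ⟨m, hc⟩, by rw [hc.1]; exact mem_chart_source E m⟩)
    (by
      rintro c ⟨x, hψ, hG⟩ c' ⟨x', hψ', hG'⟩ m hm hm'
      have hex : c.ex c' id = chartAt E x' ∘ (chartAt E x).symm := by
        rw [Chart.ex, hψ, hψ']
        rfl
      rw [hψ] at hm
      rw [hψ'] at hm'
      have h1 := cm_chart_symm ((chartAt E x).map_source hm)
      have h2 : (chartAt E x).symm (chartAt E x m) ∈ (chartAt E x').source := by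
        rwa [(chartAt E x).left_inv hm]
      rw [LocIso, hex, hψ]
      refine ⟨contMDiffAt_iff_contDiffAt.1 ((cm_chart h2).comp _ h1), fun a b => ?_⟩
      rw [hG, hG', ← dE_eq_fderiv]
      exact (pullback_chart g (h1.mdifferentiableAt (by simp)) h2 a b).symm)
  refine ⟨𝒜, fun x => ?_⟩
  obtain ⟨c, hc⟩ := exists_model_chart g x
  exact ⟨c, h𝒜 ⟨x, hc⟩, hc⟩

theorem IsGeodesic.geoAt {g : RiemMetric E M} {𝒜 : Atlas E M} (h𝒜 : Models g 𝒜) {γ : ℝ → M}
    (h : IsGeodesic g γ) (t : ℝ) : GeoAt 𝒜 γ t := by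
  obtain ⟨c, hc, hψ, hG⟩ := h𝒜 (γ t)
  have hcont : Continuous γ := h.smooth.continuous
  have h1 : ∀ᶠ s in 𝓝 t, γ s ∈ (chartAt E (γ t)).source :=
    hcont.continuousAt.eventually ((chartAt E (γ t)).open_source.mem_nhds (mem_chart_source E _))
  refine ⟨c, hc, deriv (c.ψ ∘ γ), ?_, cgeo_of_euler c.chr ?_⟩
  · filter_upwards [h1] with s hs
    exact ⟨hcont.continuousAt, hψ ▸ hs⟩
  · filter_upwards [h1] with s hs
    have h2 : ContDiffAt ℝ ∞ (chartAt E (γ t) ∘ γ) s :=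
      contMDiffAt_iff_contDiffAt.1 ((cm_chart hs).comp s (h.smooth s))
    simp only [hG]
    rw [hψ]
    exact ⟨(chartAt E (γ t)).map_source hs, h2.of_le (by norm_cast), h.equation (γ t) s hs⟩

theorem ex_of_isExp [T2Space M] {g : RiemMetric E M} {𝒜 : Atlas E M} (h𝒜 : Models g 𝒜) {p : M}
    {e : E → M} (he : IsExp g p e) (J : E ≃L[ℝ] E) (hJ : ∀ a b : E, ip g p (J a) (J b) = ⟪a, b⟫) :
    Ex 𝒜 (e ∘ J) := by
  obtain ⟨c, hc, hψ, hG⟩ := h𝒜 p
  have h0 : (e ∘ J) 0 = p := by simp [he.zero]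
  have hp : p ∈ (chartAt E p).source := mem_chart_source E p
  refine ex_of_rays (fun x t => ?_) hc (by rw [h0, hψ]; exact hp)
    ((dE (E := E) (chartAt E p) p).comp (J : E →L[ℝ] E)) (fun a b => ?_) (fun x => ?_)
  · simpa using (he.geodesic (J x)).geoAt h𝒜 t
  · rw [h0, hG, hψ, ← hJ, ← pullback_id,
      pullback_chart g (f := id) mdifferentiableAt_id (m := p) hp]
    rfl
  · have h1 : MDifferentiableAt 𝓘(ℝ, ℝ) 𝓘(ℝ, E) (fun t : ℝ => e (t • J x)) 0 :=
      ((he.geodesic (J x)).smooth 0).mdifferentiableAt (by simp)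
    have h2 : e ((0 : ℝ) • J x) = p := by simp [he.zero]
    have h3 : HasMFDerivAt 𝓘(ℝ, E) 𝓘(ℝ, E) (chartAt E p) (e ((0 : ℝ) • J x))
        (dE (E := E) (chartAt E p) p) := by
      rw [h2]
      exact ((cm_chart hp).mdifferentiableAt (by simp)).hasMFDerivAt
    let D : ℝ →L[ℝ] E := mfderiv 𝓘(ℝ, ℝ) 𝓘(ℝ, E) (fun t : ℝ => e (t • J x)) 0
    have h4' : HasFDerivAt (chartAt E p ∘ fun t : ℝ => e (t • J x))
        ((dE (E := E) (chartAt E p) p).comp D) 0 := hasMFDerivAt_iff_hasFDerivAt.1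
      (HasMFDerivAt.comp (f := fun t : ℝ => e (t • J x)) 0 h3 h1.hasMFDerivAt)
    have h4 := h4'.hasDerivAt
    have h5 : dE (E := E) (chartAt E p) p (velocity (E := E) (fun t : ℝ => e (t • J x)) 0)
        = ((dE (E := E) (chartAt E p) p).comp (J : E →L[ℝ] E)) x := by
      rw [he.init]
      rfl
    rw [hψ, ← h5]
    simp only [Function.comp_apply, map_smul]
    exact h4

/-- The coordinate form of the pulled back metric does not depend on the chart. -/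
theorem Ex.chart_indep {𝒜 : Atlas E M} {e : E → M} (h : Ex 𝒜 e) {c c' : Chart E M} (hc : c ∈ 𝒜.S)
    (hc' : c' ∈ 𝒜.S) {x : E} (hx : e x ∈ c.ψ.source) (hx' : e x ∈ c'.ψ.source) (a b : E) :
    c'.G (c'.ψ (e x)) (fderiv ℝ (c'.ψ ∘ e) x a) (fderiv ℝ (c'.ψ ∘ e) x b)
      = c.G (c.ψ (e x)) (fderiv ℝ (c.ψ ∘ e) x a) (fderiv ℝ (c.ψ ∘ e) x b) := by
  obtain ⟨h1, h2⟩ := 𝒜.compat c hc c' hc' (e x) hx hx'
  have h3 : c'.ψ ∘ e =ᶠ[𝓝 x] c.ex c' id ∘ (c.ψ ∘ e) := by
    filter_upwards [h.cont.continuousAt.eventually (c.ψ.open_source.mem_nhds hx)] with z hz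
    simp only [Chart.ex, Function.comp_apply, id, c.ψ.left_inv hz]
  have h4 : c'.ψ (e x) = c.ex c' id (c.ψ (e x)) := h3.eq_of_nhds
  rw [h3.fderiv_eq, fderiv_comp x (h1.differentiableAt (by simp))
    ((h.sm c hc x hx).differentiableAt (by simp)), h4]
  exact h2 _ _

theorem Ex.mdiff {g : RiemMetric E M} {𝒜 : Atlas E M} (h𝒜 : Models g 𝒜) {e : E → M}
    (h : Ex 𝒜 e) (x : E) : MDifferentiableAt 𝓘(ℝ, E) 𝓘(ℝ, E) e x := by
  obtain ⟨c, hc, hψ, -⟩ := h𝒜 (e x)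
  have hx : e x ∈ (chartAt E (e x)).source := mem_chart_source E _
  have h1 := h.sm c hc x (hψ ▸ hx)
  rw [hψ] at h1
  have h2 : e =ᶠ[𝓝 x] (chartAt E (e x)).symm ∘ (chartAt E (e x) ∘ e) := by
    filter_upwards [h.cont.continuousAt.eventually ((chartAt E (e x)).open_source.mem_nhds hx)]
      with z hz
    exact ((chartAt E (e x)).left_inv hz).symm
  refine MDifferentiableAt.congr_of_eventuallyEq ?_ h2
  exact ((cm_chart_symm ((chartAt E (e x)).map_source hx)).mdifferentiableAt (by simp)).comp x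
    (h1.differentiableAt (by simp)).mdifferentiableAt

theorem Ex.pullback_eq {g : RiemMetric E M} {𝒜 : Atlas E M} (h𝒜 : Models g 𝒜) {e : E → M}
    (h : Ex 𝒜 e) {c : Chart E M} (hc : c ∈ 𝒜.S) {x : E} (hx : e x ∈ c.ψ.source) (a b : E) :
    c.G (c.ψ (e x)) (fderiv ℝ (c.ψ ∘ e) x a) (fderiv ℝ (c.ψ ∘ e) x b) = pullback g e x a b := by
  obtain ⟨c₀, hc₀, hψ, hG⟩ := h𝒜 (e x)
  have hx₀ : e x ∈ (chartAt E (e x)).source := mem_chart_source E _
  rw [h.chart_indep hc₀ hc (hψ ▸ hx₀) hx, hG, hψ, pullback_chart g (h.mdiff h𝒜 x) hx₀,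
    dE_eq_fderiv]

theorem pair_of_pullback {g : RiemMetric E M} {k : RiemMetric E N} {𝒜 : Atlas E M}
    {ℬ : Atlas E N} (h𝒜 : Models g 𝒜) (hℬ : Models k ℬ) {e₁ : E → M} {e₂ : E → N}
    (J L : E ≃L[ℝ] E) (h₁ : Ex 𝒜 (e₁ ∘ J)) (h₂ : Ex ℬ (e₂ ∘ (J.trans L)))
    (hh : ∀ x a b : E, pullback k e₂ (L x) (L a) (L b) = pullback g e₁ x a b) :
    Pair 𝒜 ℬ (e₁ ∘ J) (e₂ ∘ (J.trans L)) := by
  refine ⟨h₁, h₂, fun c hc c' hc' x hx hx' a b => ?_⟩
  rw [h₁.pullback_eq h𝒜 hc hx, h₂.pullback_eq hℬ hc' hx', pullback_linear g J (h₁.mdiff h𝒜 x),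
    pullback_linear k (J.trans L) (h₂.mdiff hℬ x), ← hh]
  rfl

theorem contMDiff_of_li {g : RiemMetric E M} {k : RiemMetric E N} {𝒜 : Atlas E M}
    {ℬ : Atlas E N} (h𝒜 : Models g 𝒜) (hℬ : Models k ℬ) {F : M → N} (hF : ∀ m, LI0 𝒜 ℬ F m) :
    ContMDiff 𝓘(ℝ, E) 𝓘(ℝ, E) ∞ F ∧ ∀ (m : M) (a b : E), pullback k F m a b = ip g m a b := by
  have key : ∀ m, ContMDiffAt 𝓘(ℝ, E) 𝓘(ℝ, E) ∞ F m ∧
      ∀ a b : E, pullback k F m a b = ip g m a b := by
    intro m
    obtain ⟨c, hc, hψ, hG⟩ := h𝒜 m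
    obtain ⟨c', hc', hψ', hG'⟩ := hℬ (F m)
    have hm : m ∈ (chartAt E m).source := mem_chart_source E _
    have hm' : F m ∈ (chartAt E (F m)).source := mem_chart_source E _
    obtain ⟨h1, h2⟩ := (hF m).2 c hc c' hc' (hψ ▸ hm) (hψ' ▸ hm')
    have hex : chartAt E (F m) ∘ F =ᶠ[𝓝 m] c.ex c' F ∘ chartAt E m := by
      filter_upwards [(chartAt E m).open_source.mem_nhds hm] with z hz
      simp only [Chart.ex, Function.comp_apply, hψ, hψ', (chartAt E m).left_inv hz]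
    rw [hψ] at h1 h2
    have h3 : ContMDiffAt 𝓘(ℝ, E) 𝓘(ℝ, E) ∞ (chartAt E (F m) ∘ F) m :=
      (h1.contMDiffAt.comp m (cm_chart hm)).congr_of_eventuallyEq hex
    have h4 : F =ᶠ[𝓝 m] (chartAt E (F m)).symm ∘ (chartAt E (F m) ∘ F) := by
      filter_upwards [(hF m).1.eventually ((chartAt E (F m)).open_source.mem_nhds hm')] with z hz
      exact ((chartAt E (F m)).left_inv hz).symm
    have h5 : ContMDiffAt 𝓘(ℝ, E) 𝓘(ℝ, E) ∞ F m :=
      ((cm_chart_symm ((chartAt E (F m)).map_source hm')).comp m h3).congr_of_eventuallyEq h4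
    refine ⟨h5, fun a b => ?_⟩
    have h6 : chartAt E (F m) (F m) = c.ex c' F (chartAt E m m) := hex.eq_of_nhds
    rw [pullback_chart k (h5.mdifferentiableAt (by simp)) hm', ← hG', dE_congr hex,
      dE_comp (h1.differentiableAt (by simp)).mdifferentiableAt
        ((cm_chart hm).mdifferentiableAt (by simp)), dE_eq_fderiv, h6, ← pullback_id,
      pullback_chart g (f := id) mdifferentiableAt_id (m := m) hm, ← hG]
    exact h2 _ _
  exact ⟨fun m => (key m).1, fun m => (key m).2⟩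

end Pool.Agent.MP_3fed84_gt
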