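import Pool.Agent.MP_3fed84_gt.Coord

/-! Riemannian manifolds as atlases of coordinate metrics; local isometries and geodesics. -/

open Set Metric Filter Topology
open scoped ContDiff RealInnerProductSpace

set_option linter.unusedSectionVars false

namespace Pool.Agent.MP_3fed84_gt

variable {E : Type} [NormedAddCommGroup E] [InnerProductSpace ℝ E] [FiniteDimensional ℝ E]

/-- A chart together with the coefficients of the metric and the Christoffel symbols. -/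
structure Chart (E : Type) [NormedAddCommGroup E] [InnerProductSpace ℝ E]
    (M : Type) [TopologicalSpace M] where
  ψ : OpenPartialHomeomorph M E
  G : E → E →L[ℝ] E →L[ℝ] ℝ
  Γ : E → E →L[ℝ] E →L[ℝ] E
  chr : Chr ψ.target G Γ

variable {M N K : Type} [TopologicalSpace M] [TopologicalSpace N] [TopologicalSpace K]

/-- The coordinate expression of F. -/
def Chart.ex (c : Chart E M) (c' : Chart E N) (F : M → N) : E → E := c'.ψ ∘ F ∘ c.ψ.symm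

/-- The coordinate expression of F is smooth and isometric at m. -/
def LocIso (c : Chart E M) (c' : Chart E N) (F : M → N) (m : M) : Prop :=
  ContDiffAt ℝ ∞ (c.ex c' F) (c.ψ m) ∧ IsoAt c.G c'.G (c.ex c' F) (c.ψ m)

/-- The chart is centred and orthonormal at m. -/
def Chart.NormAt (c : Chart E M) (m : M) : Prop :=
  m ∈ c.ψ.source ∧ c.ψ m = 0 ∧ ∀ a b, c.G 0 a b = ⟪a, b⟫

structure Atlas (E : Type) [NormedAddCommGroup E] [InnerProductSpace ℝ E]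
    (M : Type) [TopologicalSpace M] where
  S : Set (Chart E M)
  norm : ∀ m, ∃ c ∈ S, c.NormAt m
  compat : ∀ c ∈ S, ∀ c' ∈ S, ∀ m ∈ c.ψ.source, m ∈ c'.ψ.source → LocIso c c' id m

omit [FiniteDimensional ℝ E] in
theorem IsoAt.congr {G G' : E → E →L[ℝ] E →L[ℝ] ℝ} {f f' : E → E} {y : E} (h : IsoAt G G' f y)
    (he : f =ᶠ[𝓝 y] f') : IsoAt G G' f' y := by
  intro a b
  rw [← he.fderiv_eq, ← he.eq_of_nhds]
  exact h a b

omit [FiniteDimensional ℝ E] in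
theorem IsoAt.comp {G G' G'' : E → E →L[ℝ] E →L[ℝ] ℝ} {f g : E → E} {y : E} (h : IsoAt G G' f y)
    (h' : IsoAt G' G'' g (f y)) (hf : DifferentiableAt ℝ f y) (hg : DifferentiableAt ℝ g (f y)) :
    IsoAt G G'' (g ∘ f) y := by
  intro a b
  rw [fderiv_comp y hg hf]
  exact (h' _ _).trans (h a b)

omit [FiniteDimensional ℝ E] in
theorem Chart.ex_apply (c : Chart E M) (c' : Chart E N) (F : M → N) {m : M}
    (hm : m ∈ c.ψ.source) : c.ex c' F (c.ψ m) = c'.ψ (F m) := by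
  simp only [Chart.ex, Function.comp, c.ψ.left_inv hm]

omit [FiniteDimensional ℝ E] in
theorem CGeo.congr {Γ : E → E →L[ℝ] E →L[ℝ] E} {c c' u : ℝ → E} {t : ℝ} (h : CGeo Γ c u t)
    (he : c =ᶠ[𝓝 t] c') : CGeo Γ c' u t := by
  filter_upwards [h, he.eventuallyEq_nhds] with s h1 h2
  exact ⟨h1.1.congr_of_eventuallyEq h2.symm, h2.eq_of_nhds ▸ h1.2⟩

omit [FiniteDimensional ℝ E] in
theorem LocIso.comp {c : Chart E M} {c' : Chart E N} {c'' : Chart E K} {F : M → N} {F' : N → K}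
    {m : M} (h : LocIso c c' F m) (h' : LocIso c' c'' F' (F m)) (hF : ContinuousAt F m)
    (hm : m ∈ c.ψ.source) (hm' : F m ∈ c'.ψ.source) : LocIso c c'' (F' ∘ F) m := by
  have he : (c'.ex c'' F') ∘ (c.ex c' F) =ᶠ[𝓝 (c.ψ m)] c.ex c'' (F' ∘ F) := by
    filter_upwards [(hF.tendsto.comp (c.ψ.tendsto_symm hm)).eventually
      (c'.ψ.open_source.mem_nhds hm')] with z hz
    simp only [Chart.ex, Function.comp] at hz ⊢
    rw [c'.ψ.left_inv hz]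
  have e := c.ex_apply c' F hm
  have h1 : ContDiffAt ℝ ∞ (c'.ex c'' F') (c.ex c' F (c.ψ m)) := e ▸ h'.1
  have h2 : IsoAt c'.G c''.G (c'.ex c'' F') (c.ex c' F (c.ψ m)) := e ▸ h'.2
  exact ⟨(h1.comp _ h.1).congr_of_eventuallyEq he.symm,
    (h.2.comp h2 (h.1.differentiableAt (by simp)) (h1.differentiableAt (by simp))).congr he⟩

omit [FiniteDimensional ℝ E] in
theorem LocIso.congr {c : Chart E M} {c' : Chart E N} {F F' : M → N} {m : M}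
    (h : LocIso c c' F m) (hF : F =ᶠ[𝓝 m] F') (hm : m ∈ c.ψ.source) : LocIso c c' F' m := by
  have he : c.ex c' F =ᶠ[𝓝 (c.ψ m)] c.ex c' F' := by
    filter_upwards [(c.ψ.tendsto_symm hm).eventually hF] with z hz
    simp only [Chart.ex, Function.comp, hz]
  exact ⟨h.1.congr_of_eventuallyEq he.symm, h.2.congr he⟩

/-- Every chart can be centred and normalised at a given point. -/
theorem Chart.exists_norm (c : Chart E M) {m : M} (hm : m ∈ c.ψ.source) :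
    ∃ c' : Chart E M, c'.NormAt m ∧ c'.ψ.source = c.ψ.source ∧
      ∀ m' ∈ c.ψ.source, LocIso c c' id m' ∧ LocIso c' c id m' := by
  have hy := c.ψ.map_source hm
  obtain ⟨J, hJ⟩ := exists_normalize (c.G (c.ψ m)) (c.chr.symm _ hy) (c.chr.pos _ hy)
  set y₀ := c.ψ m with hy₀
  let A : E ≃ₜ E := (Homeomorph.subRight y₀).trans J.symm.toHomeomorph
  have hA : ∀ y, A y = J.symm (y - y₀) := fun _ => rfl
  have hA' : ∀ z, A.symm z = J z + y₀ := fun _ => rfl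
  have dA : ∀ y, HasFDerivAt A (J.symm : E →L[ℝ] E) y := fun y => by
    have := (J.symm : E →L[ℝ] E).hasFDerivAt.comp y ((hasFDerivAt_id y).sub_const y₀)
    rw [ContinuousLinearMap.comp_id] at this
    exact this
  have dA' : ∀ z, HasFDerivAt A.symm (J : E →L[ℝ] E) z := fun z =>
    (J : E →L[ℝ] E).hasFDerivAt.add_const y₀
  have sA : ContDiff ℝ ∞ A := J.symm.contDiff.comp (contDiff_id.sub contDiff_const)
  have sA' : ContDiff ℝ ∞ A.symm := J.contDiff.add contDiff_const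
  let ψ' := c.ψ.transHomeomorph A
  have ht : ∀ z, z ∈ ψ'.target ↔ A.symm z ∈ c.ψ.target := fun z => Iff.rfl
  let G' : E → E →L[ℝ] E →L[ℝ] ℝ := fun z =>
    ((ContinuousLinearMap.compL ℝ E E ℝ).flip (J : E →L[ℝ] E)).comp
      ((c.G (A.symm z)).comp (J : E →L[ℝ] E))
  have hG' : ∀ z a b, G' z a b = c.G (A.symm z) (J a) (J b) := fun _ _ _ => rfl
  obtain ⟨Γ', hΓ'⟩ := exists_chr (G := G') ψ'.open_target
    (contDiffOn_const.clm_comp ((c.chr.smG.comp sA'.contDiffOn fun z hz => (ht z).1 hz).clm_comp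
      contDiffOn_const))
    (fun z hz a b => by rw [hG', hG']; exact c.chr.symm _ ((ht z).1 hz) _ _)
    (fun z hz a ha => by
      rw [hG']; exact c.chr.pos _ ((ht z).1 hz) _ (by simpa using ha))
  refine ⟨⟨ψ', G', Γ', hΓ'⟩, ⟨hm, ?_, fun a b => ?_⟩, rfl, fun m' hm' => ⟨?_, ?_⟩⟩
  · change A (c.ψ m) = 0
    rw [hA, sub_self, map_zero]
  · change G' 0 a b = _
    rw [hG', hA', map_zero, zero_add, hJ]
  · have he : (A : E → E) =ᶠ[𝓝 (c.ψ m')] c.ex ⟨ψ', G', Γ', hΓ'⟩ id := by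
      filter_upwards [c.ψ.eventually_right_inverse' hm'] with z hz
      change A z = A (c.ψ (c.ψ.symm z))
      rw [hz]
    refine ⟨sA.contDiffAt.congr_of_eventuallyEq he.symm, IsoAt.congr (fun a b => ?_) he⟩
    change G' _ _ _ = _
    rw [hG', (dA _).fderiv, A.symm_apply_apply]
    simp
  · have he : (A.symm : E → E) =ᶠ[𝓝 (ψ' m')] Chart.ex ⟨ψ', G', Γ', hΓ'⟩ c id := by
      filter_upwards [ψ'.open_target.mem_nhds (ψ'.map_source hm')] with z hz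
      change A.symm z = c.ψ (c.ψ.symm (A.symm z))
      rw [c.ψ.right_inv ((ht z).1 hz)]
    refine ⟨sA'.contDiffAt.congr_of_eventuallyEq he.symm, IsoAt.congr (fun a b => ?_) he⟩
    change _ = G' _ _ _
    rw [hG', (dA' _).fderiv]
    rfl

/-- An atlas without normalised charts extends to one with them. -/
theorem exists_atlas (S : Set (Chart E M)) (hcov : ∀ m, ∃ c ∈ S, m ∈ c.ψ.source)
    (hcompat : ∀ c ∈ S, ∀ c' ∈ S, ∀ m ∈ c.ψ.source, m ∈ c'.ψ.source → LocIso c c' id m) :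
    ∃ 𝒜 : Atlas E M, S ⊆ 𝒜.S := by
  refine ⟨⟨{c' | ∃ c ∈ S, c'.ψ.source = c.ψ.source ∧
    ∀ m' ∈ c.ψ.source, LocIso c c' id m' ∧ LocIso c' c id m'}, fun m => ?_, ?_⟩,
    fun c hc => ⟨c, hc, rfl, fun m hm => ⟨hcompat c hc c hc m hm hm, hcompat c hc c hc m hm hm⟩⟩⟩
  · obtain ⟨c, hc, hm⟩ := hcov m
    obtain ⟨c', h1, h2, h3⟩ := c.exists_norm hm
    exact ⟨c', ⟨c, hc, h2, h3⟩, h1⟩
  · rintro c₁' ⟨c₁, h₁, e₁, k₁⟩ c₂' ⟨c₂, h₂, e₂, k₂⟩ m hm₁ hm₂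
    have m₁ : m ∈ c₁.ψ.source := e₁ ▸ hm₁
    have m₂ : m ∈ c₂.ψ.source := e₂ ▸ hm₂
    exact ((k₁ m m₁).2.comp (hcompat c₁ h₁ c₂ h₂ m m₁ m₂) continuousAt_id hm₁ m₁).comp
      (F' := id) (k₂ m m₂).1 continuousAt_id hm₁ m₂

/-- F is continuous at m and isometric at m in every pair of charts. -/
def LI0 (𝒜 : Atlas E M) (ℬ : Atlas E N) (F : M → N) (m : M) : Prop :=
  ContinuousAt F m ∧ ∀ c ∈ 𝒜.S, ∀ c' ∈ ℬ.S, m ∈ c.ψ.source → F m ∈ c'.ψ.source → LocIso c c' F m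

/-- F is a local isometry near m. -/
def LI (𝒜 : Atlas E M) (ℬ : Atlas E N) (F : M → N) (m : M) : Prop :=
  ∀ᶠ m' in 𝓝 m, LI0 𝒜 ℬ F m'

variable {𝒜 : Atlas E M} {ℬ : Atlas E N}

theorem LI0.of_chart {F : M → N} {m : M} (hF : ContinuousAt F m) {c : Chart E M} (hc : c ∈ 𝒜.S)
    {c' : Chart E N} (hc' : c' ∈ ℬ.S) (hm : m ∈ c.ψ.source) (hm' : F m ∈ c'.ψ.source)
    (h : LocIso c c' F m) : LI0 𝒜 ℬ F m := by
  refine ⟨hF, fun c₁ hc₁ c₁' hc₁' hm₁ hm₁' => ?_⟩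
  exact ((𝒜.compat c₁ hc₁ c hc m hm₁ hm).comp (F' := F) h continuousAt_id hm₁ hm).comp
    (F' := id) (ℬ.compat c' hc' c₁' hc₁' (F m) hm' hm₁') hF hm₁ hm'

theorem LI.eventually {F : M → N} {m : M} (h : LI 𝒜 ℬ F m) : ∀ᶠ m' in 𝓝 m, LI 𝒜 ℬ F m' :=
  eventually_eventually_nhds.2 h

theorem LI.continuousAt {F : M → N} {m : M} (h : LI 𝒜 ℬ F m) : ContinuousAt F m :=
  h.self_of_nhds.1

theorem LI.congr {F F' : M → N} {m : M} (h : LI 𝒜 ℬ F m) (hF : F =ᶠ[𝓝 m] F') :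
    LI 𝒜 ℬ F' m := by
  filter_upwards [h, hF.eventuallyEq_nhds] with m' h1 h2
  exact ⟨h1.1.congr h2, fun c hc c' hc' hm hm' =>
    (h1.2 c hc c' hc' hm (h2.eq_of_nhds ▸ hm')).congr h2 hm⟩

/-- The coordinate form of a local isometry. -/
theorem LI.coord {F : M → N} {m : M} (h : LI 𝒜 ℬ F m) {c : Chart E M} (hc : c ∈ 𝒜.S)
    {c' : Chart E N} (hc' : c' ∈ ℬ.S) (hm : m ∈ c.ψ.source) (hm' : F m ∈ c'.ψ.source) :
    ∀ᶠ z in 𝓝 (c.ψ m), z ∈ c.ψ.target ∧ c.ex c' F z ∈ c'.ψ.target ∧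
      ContDiffAt ℝ ∞ (c.ex c' F) z ∧ IsoAt c.G c'.G (c.ex c' F) z := by
  have ht := c.ψ.tendsto_symm hm
  filter_upwards [ht.eventually h, ht.eventually (h.continuousAt.eventually
    (c'.ψ.open_source.mem_nhds hm')), c.ψ.open_target.mem_nhds (c.ψ.map_source hm)]
    with z h1 h2 h3
  have h4 := h1.2 c hc c' hc' (c.ψ.map_target h3) h2
  rw [LocIso, c.ψ.right_inv h3] at h4
  exact ⟨h3, c'.ψ.map_source h2, h4⟩

/-- A local isometry built from a coordinate map. -/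
theorem LI.of_coord {c : Chart E M} (hc : c ∈ 𝒜.S) {c' : Chart E N} (hc' : c' ∈ ℬ.S) {m : M}
    (hm : m ∈ c.ψ.source) {f : E → E} (hf' : f (c.ψ m) ∈ c'.ψ.target)
    (hf : ∀ᶠ z in 𝓝 (c.ψ m), ContDiffAt ℝ ∞ f z ∧ IsoAt c.G c'.G f z) :
    LI 𝒜 ℬ (c'.ψ.symm ∘ f ∘ c.ψ) m ∧ c.ex c' (c'.ψ.symm ∘ f ∘ c.ψ) =ᶠ[𝓝 (c.ψ m)] f := by
  have hfc : ContinuousAt f (c.ψ m) := hf.self_of_nhds.1.continuousAt
  have he : c.ex c' (c'.ψ.symm ∘ f ∘ c.ψ) =ᶠ[𝓝 (c.ψ m)] f := by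
    filter_upwards [c.ψ.eventually_right_inverse' hm,
      hfc.eventually (c'.ψ.open_target.mem_nhds hf')] with z h1 h2
    simp only [Chart.ex, Function.comp, h1, c'.ψ.right_inv h2]
  refine ⟨?_, he⟩
  have ht := (c.ψ.continuousAt hm).tendsto
  filter_upwards [ht.eventually hf, ht.eventually he.eventuallyEq_nhds,
    ht.eventually (hfc.eventually (c'.ψ.open_target.mem_nhds hf')),
    c.ψ.open_source.mem_nhds hm] with m' h1 h2 h3 h4
  refine LI0.of_chart ?_ hc hc' h4 (c'.ψ.map_target h3)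
    ⟨h1.1.congr_of_eventuallyEq h2, h1.2.congr h2.symm⟩
  exact ContinuousAt.comp (c'.ψ.continuousAt_symm h3)
    (ContinuousAt.comp h1.1.continuousAt (c.ψ.continuousAt h4))

/-- A local isometry is determined near a point by its 1-jet there. -/
theorem LI.eq_of_jet {F F' : M → N} {m : M} (h : LI 𝒜 ℬ F m) (h' : LI 𝒜 ℬ F' m) {c : Chart E M}
    (hc : c ∈ 𝒜.S) {c' : Chart E N} (hc' : c' ∈ ℬ.S) (hm : m ∈ c.ψ.source)
    (hm' : F m ∈ c'.ψ.source) (h0 : F m = F' m)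
    (h1 : fderiv ℝ (c.ex c' F) (c.ψ m) = fderiv ℝ (c.ex c' F') (c.ψ m)) : F =ᶠ[𝓝 m] F' := by
  have hm'' : F' m ∈ c'.ψ.source := h0 ▸ hm'
  have k := h.coord hc hc' hm hm'
  have k' := h'.coord hc hc' hm hm''
  have jet : ∀ {f : E → E}, (∀ᶠ z in 𝓝 (c.ψ m), z ∈ c.ψ.target ∧ f z ∈ c'.ψ.target ∧
      ContDiffAt ℝ ∞ f z ∧ IsoAt c.G c'.G f z) → ∀ᶠ z in 𝓝 (c.ψ m),
      HasFDerivAt (fun z => (f z, fderiv ℝ f z)) (rol c.Γ c'.Γ (z, (f z, fderiv ℝ f z))) z := by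
    intro f hf
    filter_upwards [hf.eventually_nhds] with z hz
    exact jet_hasFDerivAt c.chr c'.chr hz.self_of_nhds.1 hz.self_of_nhds.2.1
      (hz.self_of_nhds.2.2.1.of_le ENat.LEInfty.out) (hz.mono fun _ h => h.2.2.2)
  have hw : ContDiffAt ℝ 1 (rol c.Γ c'.Γ)
      (c.ψ m, (c.ex c' F (c.ψ m), fderiv ℝ (c.ex c' F) (c.ψ m))) :=
    ((rol_smooth c.chr c'.chr).contDiffAt
      ((c.chr.opn.prod (c'.chr.opn.prod isOpen_univ)).mem_nhds
        ⟨k.self_of_nhds.1, k.self_of_nhds.2.1, mem_univ _⟩)).of_le (by exact_mod_cast le_top)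
  have hu := leaf_unique (s₁ := fun z => (c.ex c' F z, fderiv ℝ (c.ex c' F) z))
    (s₂ := fun z => (c.ex c' F' z, fderiv ℝ (c.ex c' F') z)) hw (jet k) (jet k')
    (by rw [h1, c.ex_apply c' F hm, c.ex_apply c' F' hm, h0])
  filter_upwards [(c.ψ.continuousAt hm).tendsto.eventually hu, c.ψ.open_source.mem_nhds hm,
    h.continuousAt.eventually (c'.ψ.open_source.mem_nhds hm'),
    h'.continuousAt.eventually (c'.ψ.open_source.mem_nhds hm'')] with x a1 a2 a3 a4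
  have a5 := congrArg Prod.fst a1
  simp only [c.ex_apply c' _ a2] at a5
  exact c'.ψ.injOn a3 a4 a5

/-- Identity principle: two local isometries whose germs agree at points accumulating at m
have the same germ at m. -/
theorem LI.eq_of_frequently [T2Space N] {F F' : M → N} {m : M} (h : LI 𝒜 ℬ F m)
    (h' : LI 𝒜 ℬ F' m) (hfr : ∃ᶠ m' in 𝓝 m, F =ᶠ[𝓝 m'] F') : F =ᶠ[𝓝 m] F' := by
  obtain ⟨c, hc, hm, -⟩ := 𝒜.norm m
  obtain ⟨c', hc', hm', -⟩ := ℬ.norm (F m)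
  have h0 : F m = F' m := tendsto_nhds_unique_of_frequently_eq h.continuousAt h'.continuousAt
    (hfr.mono fun _ hx => hx.eq_of_nhds)
  refine h.eq_of_jet h' hc hc' hm hm' h0 ?_
  have k := (h.coord hc hc' hm hm').self_of_nhds.2.2.1.continuousAt_fderiv (by simp)
  have k' := (h'.coord hc hc' hm (h0 ▸ hm')).self_of_nhds.2.2.1.continuousAt_fderiv (by simp)
  refine tendsto_nhds_unique_of_frequently_eq (k.tendsto.comp (c.ψ.continuousAt hm).tendsto)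
    (k'.tendsto.comp (c.ψ.continuousAt hm).tendsto) ?_
  refine (hfr.and_eventually (c.ψ.open_source.mem_nhds hm)).mono fun x hx => ?_
  refine Filter.EventuallyEq.fderiv_eq ?_
  filter_upwards [(c.ψ.tendsto_symm hx.2).eventually hx.1] with z hz
  simp only [Chart.ex, Function.comp, hz]

/-- γ is a geodesic near time t. -/
def GeoAt (𝒜 : Atlas E M) (γ : ℝ → M) (t : ℝ) : Prop :=
  ∃ c ∈ 𝒜.S, ∃ u : ℝ → E, (∀ᶠ s in 𝓝 t, ContinuousAt γ s ∧ γ s ∈ c.ψ.source) ∧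
    CGeo c.Γ (c.ψ ∘ γ) u t

theorem GeoAt.continuousAt {γ : ℝ → M} {t : ℝ} (h : GeoAt 𝒜 γ t) : ContinuousAt γ t := by
  obtain ⟨c, -, u, h, -⟩ := h
  exact h.self_of_nhds.1

theorem GeoAt.eventually {γ : ℝ → M} {t : ℝ} (h : GeoAt 𝒜 γ t) : ∀ᶠ s in 𝓝 t, GeoAt 𝒜 γ s := by
  obtain ⟨c, hc, u, h1, h2⟩ := h
  filter_upwards [h1.eventually_nhds, Filter.Eventually.eventually_nhds h2] with s k1 k2
  exact ⟨c, hc, u, k1, k2⟩

theorem GeoAt.congr {γ γ' : ℝ → M} {t : ℝ} (h : GeoAt 𝒜 γ t) (he : γ =ᶠ[𝓝 t] γ') :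
    GeoAt 𝒜 γ' t := by
  obtain ⟨c, hc, u, h1, h2⟩ := h
  refine ⟨c, hc, u, ?_, h2.congr (he.fun_comp c.ψ)⟩
  filter_upwards [h1, he.eventuallyEq_nhds] with s k1 k2
  exact ⟨k1.1.congr k2, k2.eq_of_nhds ▸ k1.2⟩

theorem LI.id (𝒜 : Atlas E M) (m : M) : LI 𝒜 𝒜 id m :=
  Eventually.of_forall fun m' => ⟨continuousAt_id, fun c hc c' hc' h h' =>
    𝒜.compat c hc c' hc' m' h h'⟩

theorem GeoAt.push_chart {γ : ℝ → M} {t : ℝ} (h : GeoAt 𝒜 γ t) {F : M → N}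
    (hF : LI 𝒜 ℬ F (γ t)) {c' : Chart E N} (hc' : c' ∈ ℬ.S) (ht : F (γ t) ∈ c'.ψ.source) :
    ∃ u, CGeo c'.Γ (c'.ψ ∘ F ∘ γ) u t := by
  obtain ⟨c, hc, u, h1, h2⟩ := h
  have k := hF.coord hc hc' h1.self_of_nhds.2 ht
  refine ⟨_, (h2.push c.chr c'.chr (f := c.ex c' F) k.self_of_nhds.1 k.self_of_nhds.2.1
    (k.mono fun z hz => ⟨hz.2.2.1.of_le ENat.LEInfty.out, hz.2.2.2⟩)).congr ?_⟩
  filter_upwards [h1] with s hs
  exact c.ex_apply c' F hs.2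

/-- A geodesic solves the geodesic equation in every chart. -/
theorem GeoAt.chart {γ : ℝ → M} {t : ℝ} (h : GeoAt 𝒜 γ t) {c : Chart E M} (hc : c ∈ 𝒜.S)
    (ht : γ t ∈ c.ψ.source) : ∃ u, CGeo c.Γ (c.ψ ∘ γ) u t := by
  exact h.push_chart (LI.id 𝒜 _) hc ht

theorem GeoAt.push {γ : ℝ → M} {t : ℝ} (h : GeoAt 𝒜 γ t) {F : M → N} (hF : LI 𝒜 ℬ F (γ t)) :
    GeoAt ℬ (F ∘ γ) t := by
  obtain ⟨c', hc', hm', -⟩ := ℬ.norm (F (γ t))
  obtain ⟨u, hu⟩ := h.push_chart hF hc' hm'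
  refine ⟨c', hc', u, ?_, hu⟩
  filter_upwards [h.eventually, h.continuousAt.eventually hF,
    (ContinuousAt.comp hF.continuousAt h.continuousAt).eventually
      (c'.ψ.open_source.mem_nhds hm')] with s k1 k2 k3
  exact ⟨ContinuousAt.comp k2.1 k1.continuousAt, k3⟩

/-- Affine reparametrisation. -/
theorem GeoAt.affine {γ : ℝ → M} {a b t : ℝ} (h : GeoAt 𝒜 γ (a * t + b)) :
    GeoAt 𝒜 (fun s => γ (a * s + b)) t := by
  obtain ⟨c, hc, u, h1, h2⟩ := h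
  have hl : ∀ s : ℝ, HasDerivAt (fun s => a * s + b) a s := fun s => by
    simpa using ((hasDerivAt_id s).const_mul a).add_const b
  have ht := (hl t).continuousAt.tendsto
  refine ⟨c, hc, fun s => a • u (a * s + b), ?_, ?_⟩
  · filter_upwards [ht.eventually h1] with s hs
    exact ⟨ContinuousAt.comp (f := fun s => a * s + b) hs.1 (hl s).continuousAt, hs.2⟩
  · filter_upwards [ht.eventually h2] with s hs
    refine ⟨hs.1.scomp s (hl s), ?_⟩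
    have := (hs.2.scomp s (hl s)).const_smul a
    simp only [map_smul, _root_.smul_apply, Function.comp]
    simp only [smul_neg] at this
    exact this

/-- A coordinate geodesic gives a geodesic. -/
theorem GeoAt.of_coord {c : Chart E M} (hc : c ∈ 𝒜.S) {y u : ℝ → E} {t : ℝ}
    (h : CGeo c.Γ y u t) (ht : y t ∈ c.ψ.target) : GeoAt 𝒜 (c.ψ.symm ∘ y) t := by
  have hy : ∀ᶠ s in 𝓝 t, y s ∈ c.ψ.target :=
    h.self_of_nhds.1.continuousAt.eventually (c.ψ.open_target.mem_nhds ht)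
  refine ⟨c, hc, u, ?_, h.congr ?_⟩
  · filter_upwards [h, hy] with s k1 k2
    exact ⟨ContinuousAt.comp (c.ψ.continuousAt_symm k2) k1.1.continuousAt, c.ψ.map_target k2⟩
  · filter_upwards [hy] with s hs
    exact (c.ψ.right_inv hs).symm

theorem GeoAt.unique_nhds {γ₁ γ₂ : ℝ → M} {t : ℝ} (h₁ : GeoAt 𝒜 γ₁ t) (h₂ : GeoAt 𝒜 γ₂ t)
    {c : Chart E M} (hc : c ∈ 𝒜.S) (ht : γ₁ t ∈ c.ψ.source) (h0 : γ₁ t = γ₂ t) {v : E}
    (hv₁ : HasDerivAt (c.ψ ∘ γ₁) v t) (hv₂ : HasDerivAt (c.ψ ∘ γ₂) v t) : γ₁ =ᶠ[𝓝 t] γ₂ := by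
  have ht' : γ₂ t ∈ c.ψ.source := h0 ▸ ht
  obtain ⟨u₁, k₁⟩ := h₁.chart hc ht
  obtain ⟨u₂, k₂⟩ := h₂.chart hc ht'
  have e := CGeo.unique c.chr k₁ k₂ (c.ψ.map_source ht) (congrArg c.ψ h0)
    ((k₁.self_of_nhds.1.unique hv₁).trans (hv₂.unique k₂.self_of_nhds.1))
  filter_upwards [e, h₁.continuousAt.eventually (c.ψ.open_source.mem_nhds ht),
    h₂.continuousAt.eventually (c.ψ.open_source.mem_nhds ht')] with s a1 a2 a3
  exact c.ψ.injOn a2 a3 a1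

/-- Global uniqueness of geodesics on an interval. -/
theorem GeoAt.unique [T2Space M] {γ₁ γ₂ : ℝ → M} {s : Set ℝ} (hs : IsPreconnected s)
    (h₁ : ∀ t ∈ s, GeoAt 𝒜 γ₁ t) (h₂ : ∀ t ∈ s, GeoAt 𝒜 γ₂ t) {t₀ : ℝ} (ht₀ : t₀ ∈ s)
    (h : γ₁ =ᶠ[𝓝 t₀] γ₂) : ∀ t ∈ s, γ₁ =ᶠ[𝓝 t] γ₂ := by
  refine hs.subset_of_closure_inter_subset (u := {t | γ₁ =ᶠ[𝓝 t] γ₂}) isOpen_setOfPred_eventually_nhds
    ⟨t₀, ht₀, h⟩ ?_
  rintro t ⟨ht, hts⟩
  have hfr : ∃ᶠ t' in 𝓝 t, γ₁ =ᶠ[𝓝 t'] γ₂ := mem_closure_iff_frequently.1 ht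
  have h0 : γ₁ t = γ₂ t := tendsto_nhds_unique_of_frequently_eq (h₁ t hts).continuousAt
    (h₂ t hts).continuousAt (hfr.mono fun _ hx => hx.eq_of_nhds)
  obtain ⟨c, hc, hm, -⟩ := 𝒜.norm (γ₁ t)
  obtain ⟨u₁, k₁⟩ := (h₁ t hts).chart hc hm
  obtain ⟨u₂, k₂⟩ := (h₂ t hts).chart hc (h0 ▸ hm)
  have hu : u₁ t = u₂ t := by
    refine tendsto_nhds_unique_of_frequently_eq k₁.self_of_nhds.2.continuousAt
      k₂.self_of_nhds.2.continuousAt ?_
    refine ((hfr.and_eventually k₁).and_eventually k₂).mono fun x hx => ?_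
    exact hx.1.2.1.unique (hx.2.1.congr_of_eventuallyEq (hx.1.1.fun_comp c.ψ))
  exact (h₁ t hts).unique_nhds (h₂ t hts) hc hm h0 k₁.self_of_nhds.1 (hu ▸ k₂.self_of_nhds.1)

end Pool.Agent.MP_3fed84_gt
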