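import Pool.Agent.MP_3fed84_gt.TDS

/-! Riemannian geometry in coordinates: Christoffel symbols, isometries, the rolling system. -/

set_option maxSynthPendingDepth 3
set_option linter.unusedSectionVars false

open Set Metric Filter Topology
open scoped ContDiff RealInnerProductSpace

namespace Pool.Agent.MP_3fed84_gt

variable {E : Type} [NormedAddCommGroup E] [InnerProductSpace ℝ E] [FiniteDimensional ℝ E]

/-- G is a smooth Riemannian metric on the open set U and Γ are its Christoffel symbols. -/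
structure Chr (U : Set E) (G : E → E →L[ℝ] E →L[ℝ] ℝ) (Γ : E → E →L[ℝ] E →L[ℝ] E) : Prop where
  opn : IsOpen U
  smG : ContDiffOn ℝ ∞ G U
  smΓ : ContDiffOn ℝ ∞ Γ U
  symm : ∀ y ∈ U, ∀ a b, G y a b = G y b a
  pos : ∀ y ∈ U, ∀ a, a ≠ 0 → 0 < G y a a
  symΓ : ∀ y ∈ U, ∀ a b, Γ y a b = Γ y b a
  compat : ∀ y ∈ U, ∀ a b c, fderiv ℝ G y a b c = G y (Γ y a b) c + G y b (Γ y a c)

omit [FiniteDimensional ℝ E] in
theorem eq_zero_of_pos {B : E →L[ℝ] E →L[ℝ] ℝ} (hp : ∀ a, a ≠ 0 → 0 < B a a) {v : E}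
    (h : B v v = 0) : v = 0 := by
  by_contra hv
  exact (hp v hv).ne' h

theorem exists_equiv_of_pos {B : E →L[ℝ] E →L[ℝ] ℝ} (hp : ∀ a, a ≠ 0 → 0 < B a a) :
    ∃ e : E ≃L[ℝ] (E →L[ℝ] ℝ), (e : E →L[ℝ] E →L[ℝ] ℝ) = B := by
  have hi : Function.Injective (B : E →ₗ[ℝ] E →L[ℝ] ℝ) := by
    rw [injective_iff_map_eq_zero]
    intro v hv
    refine eq_zero_of_pos hp ?_
    have : B v = 0 := hv
    simp [this]
  have hd : Module.finrank ℝ E = Module.finrank ℝ (E →L[ℝ] ℝ) :=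
    (Subspace.dual_finrank_eq (K := ℝ) (V := E)).symm.trans
      (LinearMap.toContinuousLinearMap (𝕜 := ℝ) (E := E) (F' := ℝ)).finrank_eq
  exact ⟨(LinearMap.linearEquivOfInjective _ hi hd).toContinuousLinearEquiv, by ext; rfl⟩

/-- Christoffel symbols of the first kind built from the derivative T of the metric. -/
noncomputable def koszul (T : E →L[ℝ] E →L[ℝ] E →L[ℝ] ℝ) : E →L[ℝ] E →L[ℝ] E →L[ℝ] ℝ :=
  (1 / 2 : ℝ) • (T + T.flip -
    ((ContinuousLinearMap.flipₗᵢ ℝ E E ℝ).toContinuousLinearEquiv :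
      (E →L[ℝ] E →L[ℝ] ℝ) →L[ℝ] (E →L[ℝ] E →L[ℝ] ℝ)).comp T.flip)

omit [FiniteDimensional ℝ E] in
theorem koszul_apply (T : E →L[ℝ] E →L[ℝ] E →L[ℝ] ℝ) (a b c : E) :
    koszul T a b c = (1 / 2 : ℝ) * (T a b c + T b a c - T c a b) := by
  simp [koszul]

omit [FiniteDimensional ℝ E] in
theorem fderiv_form_apply {G : E → E →L[ℝ] E →L[ℝ] ℝ} {y : E} (hG : DifferentiableAt ℝ G y)
    (b c : E) : HasFDerivAt (fun z => G z b c) (((fderiv ℝ G y).flip b).flip c) y := by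
  have h1 := (hG.hasFDerivAt.clm_apply (hasFDerivAt_const b y)).clm_apply (hasFDerivAt_const c y)
  refine h1.congr_fderiv ?_
  ext a
  simp

omit [FiniteDimensional ℝ E] in
theorem fderiv_form_symm {U : Set E} (hU : IsOpen U) {G : E → E →L[ℝ] E →L[ℝ] ℝ} {y : E}
    (hy : y ∈ U) (hG : DifferentiableAt ℝ G y) (hs : ∀ y ∈ U, ∀ a b, G y a b = G y b a)
    (a b c : E) : fderiv ℝ G y a b c = fderiv ℝ G y a c b := by
  have h1 := fderiv_form_apply hG b c
  have h2 := fderiv_form_apply hG c b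
  have h3 : (fun z => G z c b) =ᶠ[𝓝 y] fun z => G z b c := by
    filter_upwards [hU.mem_nhds hy] with z hz using hs z hz c b
  have h4 := h1.unique (h2.congr_of_eventuallyEq h3.symm)
  simpa using congrArg (fun L : E →L[ℝ] ℝ => L a) h4

theorem exists_chr {U : Set E} (hU : IsOpen U) {G : E → E →L[ℝ] E →L[ℝ] ℝ}
    (hG : ContDiffOn ℝ ∞ G U) (hs : ∀ y ∈ U, ∀ a b, G y a b = G y b a)
    (hp : ∀ y ∈ U, ∀ a, a ≠ 0 → 0 < G y a a) : ∃ Γ, Chr U G Γ := by
  have hdG : ContDiffOn ℝ ∞ (fderiv ℝ G) U := hG.fderiv_of_isOpen hU (by simp)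
  have hdiff : ∀ y ∈ U, DifferentiableAt ℝ G y := fun y hy =>
    (hG.contDiffAt (hU.mem_nhds hy)).differentiableAt (by simp)
  let Γ : E → E →L[ℝ] E →L[ℝ] E := fun y =>
    (ContinuousLinearMap.compL ℝ E (E →L[ℝ] ℝ) E (G y).inverse).comp (koszul (fderiv ℝ G y))
  have hΓ : ∀ y a b, Γ y a b = (G y).inverse (koszul (fderiv ℝ G y) a b) := fun y a b => rfl
  have hGΓ : ∀ y ∈ U, ∀ a b c, G y (Γ y a b) c = koszul (fderiv ℝ G y) a b c := by
    intro y hy a b c
    obtain ⟨e, he⟩ := exists_equiv_of_pos (hp y hy)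
    rw [hΓ, ← he]
    simp
  have hinv : ContDiffOn ℝ ∞ (fun y => (G y).inverse) U := by
    intro y hy
    obtain ⟨e, he⟩ := exists_equiv_of_pos (hp y hy)
    have h1 : ContDiffAt ℝ ∞ ContinuousLinearMap.inverse (G y) := he ▸ contDiffAt_map_inverse e
    exact h1.comp_contDiffWithinAt y (hG y hy)
  refine ⟨Γ, hU, hG, ?_, hs, hp, ?_, ?_⟩
  · refine contDiffOn_clm_apply.2 fun a => contDiffOn_clm_apply.2 fun b => ?_
    simp only [hΓ]
    refine hinv.clm_apply (contDiffOn_clm_apply.2 fun c => ?_)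
    simp only [koszul_apply]
    have h3 : ∀ a b c : E, ContDiffOn ℝ ∞ (fun y => fderiv ℝ G y a b c) U := fun a b c =>
      ((hdG.clm_apply contDiffOn_const).clm_apply contDiffOn_const).clm_apply contDiffOn_const
    exact contDiffOn_const.mul (((h3 a b c).add (h3 b a c)).sub (h3 c a b))
  · intro y hy a b
    rw [hΓ, hΓ]
    congr 1
    ext c
    rw [koszul_apply, koszul_apply, fderiv_form_symm hU hy (hdiff y hy) hs c a b]
    ring
  · intro y hy a b c
    rw [hs y hy b, hGΓ y hy, hGΓ y hy, koszul_apply, koszul_apply,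
      fderiv_form_symm hU hy (hdiff y hy) hs a c b, fderiv_form_symm hU hy (hdiff y hy) hs b a c]
    ring

/-- A positive definite symmetric form becomes the inner product after a linear change. -/
theorem exists_normalize (B : E →L[ℝ] E →L[ℝ] ℝ) (hs : ∀ a b, B a b = B b a)
    (hp : ∀ a, a ≠ 0 → 0 < B a a) : ∃ J : E ≃L[ℝ] E, ∀ a b, B (J a) (J b) = ⟪a, b⟫ := by
  let B' : LinearMap.BilinForm ℝ E := B.toLinearMap₁₂
  have hB : ∀ a b, B' a b = B a b := fun _ _ => rfl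
  obtain ⟨v, hv⟩ := LinearMap.BilinForm.exists_orthogonal_basis (B := B') ⟨fun a b => hs a b⟩
  rw [LinearMap.isOrthoᵢ_def] at hv
  have hpos : ∀ i, 0 < B (v i) (v i) := fun i => hp _ (v.ne_zero i)
  have hu : ∀ i, IsUnit (Real.sqrt (B (v i) (v i)))⁻¹ := fun i =>
    (inv_ne_zero (Real.sqrt_pos.2 (hpos i)).ne').isUnit
  let w := v.isUnitSMul hu
  let e := stdOrthonormalBasis ℝ E
  let J : E ≃ₗ[ℝ] E := e.toBasis.equiv w (Equiv.refl _)
  have hJ : ∀ i, J (e i) = (Real.sqrt (B (v i) (v i)))⁻¹ • v i := by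
    intro i
    have := e.toBasis.equiv_apply i w (Equiv.refl _)
    rw [OrthonormalBasis.coe_toBasis] at this
    rw [this]
    exact v.isUnitSMul_apply hu i
  have key : B'.comp J.toLinearMap J.toLinearMap = innerₗ E := by
    refine LinearMap.BilinForm.ext_basis e.toBasis fun i j => ?_
    simp only [LinearMap.BilinForm.comp_apply, OrthonormalBasis.coe_toBasis, LinearEquiv.coe_coe,
      hJ, innerₗ_apply_apply, map_smul, LinearMap.smul_apply, smul_eq_mul]
    by_cases hij : i = j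
    · subst hij
      rw [hB, real_inner_self_eq_norm_sq, e.orthonormal.1 i]
      have h1 := Real.mul_self_sqrt (hpos i).le
      have h2 := (Real.sqrt_pos.2 (hpos i)).ne'
      field_simp
      nlinarith
    · rw [hv i j hij, e.orthonormal.2 hij]
      simp
  refine ⟨J.toContinuousLinearEquiv, fun a b => ?_⟩
  exact congrArg (fun L : LinearMap.BilinForm ℝ E => L a b) key

/-- The differential of f at y is an isometry from G to G'. -/
def IsoAt (G G' : E → E →L[ℝ] E →L[ℝ] ℝ) (f : E → E) (y : E) : Prop :=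
  ∀ a b, G' (f y) (fderiv ℝ f y a) (fderiv ℝ f y b) = G y a b

variable {U U' : Set E} {G G' : E → E →L[ℝ] E →L[ℝ] ℝ} {Γ Γ' : E → E →L[ℝ] E →L[ℝ] E}

omit [FiniteDimensional ℝ E] in
theorem Chr.diffG (h : Chr U G Γ) {y : E} (hy : y ∈ U) : DifferentiableAt ℝ G y :=
  (h.smG.contDiffAt (h.opn.mem_nhds hy)).differentiableAt (by simp)

theorem IsoAt.surj (h : Chr U G Γ) {f : E → E} {y : E} (hy : y ∈ U) (hi : IsoAt G G' f y) :
    Function.Surjective (fderiv ℝ f y) := by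
  have hinj : Function.Injective (fderiv ℝ f y : E →ₗ[ℝ] E) := by
    rw [injective_iff_map_eq_zero]
    intro v hv
    have hv' : fderiv ℝ f y v = 0 := hv
    refine eq_zero_of_pos (h.pos y hy) ?_
    rw [← hi v v, hv']
    simp
  exact LinearMap.injective_iff_surjective.1 hinj

/-- Second derivatives of a local isometry. -/
theorem snd_deriv (h : Chr U G Γ) (h' : Chr U' G' Γ') {f : E → E} {y : E} (hy : y ∈ U)
    (hy' : f y ∈ U') (hf : ContDiffAt ℝ 2 f y) (hi : ∀ᶠ z in 𝓝 y, IsoAt G G' f z) (a b : E) :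
    fderiv ℝ (fderiv ℝ f) y a b
      = fderiv ℝ f y (Γ y a b) - Γ' (f y) (fderiv ℝ f y a) (fderiv ℝ f y b) := by
  have hf1 : HasFDerivAt f (fderiv ℝ f y) y := (hf.differentiableAt (by simp)).hasFDerivAt
  have hA : HasFDerivAt (fderiv ℝ f) (fderiv ℝ (fderiv ℝ f) y) y :=
    ((hf.fderiv_right (m := 1) (by norm_num)).differentiableAt (by simp)).hasFDerivAt
  have hsym : ∀ a b, fderiv ℝ (fderiv ℝ f) y a b = fderiv ℝ (fderiv ℝ f) y b a :=
    hf.isSymmSndFDerivAt (by simp)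
  have hi0 := hi.self_of_nhds
  set A := fderiv ℝ f y with hAdef
  set D := fderiv ℝ (fderiv ℝ f) y
  have hG' : HasFDerivAt (fun z => G' (f z)) ((fderiv ℝ G' (f y)).comp A) y :=
    (h'.diffG hy').hasFDerivAt.comp y hf1
  have key : ∀ a b c, fderiv ℝ G' (f y) (A a) (A b) (A c) + G' (f y) (D a b) (A c)
      + G' (f y) (A b) (D a c) = fderiv ℝ G y a b c := by
    intro a b c
    have h1 := (hG'.clm_apply (hA.clm_apply (hasFDerivAt_const b y))).clm_apply
      (hA.clm_apply (hasFDerivAt_const c y))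
    have h2 := fderiv_form_apply (h.diffG hy) b c
    have h3 : (fun z => G' (f z) (fderiv ℝ f z b) (fderiv ℝ f z c)) =ᶠ[𝓝 y] fun z => G z b c := by
      filter_upwards [hi] with z hz using hz b c
    have h4 := congrArg (fun L : E →L[ℝ] ℝ => L a) (h1.unique (h2.congr_of_eventuallyEq h3))
    simp only [add_apply, ContinuousLinearMap.comp_apply,
      ContinuousLinearMap.flip_apply, zero_apply, map_zero, zero_add] at h4
    rw [← h4, ← hAdef]
    ring
  set T : E → E → E := fun a b => D a b - (A (Γ y a b) - Γ' (f y) (A a) (A b)) with hT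
  have s1 : ∀ a b, T a b = T b a := by
    intro a b
    simp only [hT]
    rw [hsym a b, h.symΓ y hy a b, h'.symΓ _ hy' (A a) (A b)]
  have s2 : ∀ a b c, G' (f y) (T a b) (A c) = -G' (f y) (T a c) (A b) := by
    intro a b c
    have k := key a b c
    rw [h'.compat _ hy', h.compat _ hy, ← hi0 (Γ y a b) c, ← hi0 b (Γ y a c), ← hAdef,
      h'.symm _ hy' (A b) (D a c), h'.symm _ hy' (A b) (A (Γ y a c)),
      h'.symm _ hy' (A b) (Γ' (f y) (A a) (A c))] at k
    simp only [hT, map_sub, sub_apply]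
    linarith
  have s3 : ∀ a b c, G' (f y) (T a b) (A c) = 0 := by
    intro a b c
    have e1 := s2 a b c
    have e2 := s2 c a b
    have e3 := s2 b c a
    rw [s1 a c] at e1
    rw [s1 c b] at e2
    rw [s1 b a] at e3
    linarith
  obtain ⟨c, hc⟩ := IsoAt.surj h hy hi0 (T a b)
  have h0 : T a b = 0 := by
    refine eq_zero_of_pos (h'.pos _ hy') ?_
    have := s3 a b c
    rwa [hAdef, hc] at this
  exact sub_eq_zero.1 h0

/-- The rolling system: the total differential system satisfied by 1-jets of local isometries. -/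
noncomputable def rol (Γ Γ' : E → E →L[ℝ] E →L[ℝ] E) (p : E × (E × (E →L[ℝ] E))) :
    E →L[ℝ] (E × (E →L[ℝ] E)) :=
  p.2.2.prod ((ContinuousLinearMap.compL ℝ E E E p.2.2).comp (Γ p.1)
    - (((ContinuousLinearMap.compL ℝ E E E).flip p.2.2).comp ((Γ' p.2.1).comp p.2.2)))

omit [FiniteDimensional ℝ E] in
theorem rol_apply (z n : E) (A : E →L[ℝ] E) (X : E) :
    rol Γ Γ' (z, (n, A)) X = (A X, A.comp (Γ z X) - (Γ' n (A X)).comp A) := by
  simp [rol]

theorem rol_smooth (h : Chr U G Γ) (h' : Chr U' G' Γ') :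
    ContDiffOn ℝ ∞ (rol Γ Γ') (U ×ˢ (U' ×ˢ univ)) := by
  refine contDiffOn_clm_apply.2 fun X => ?_
  have e : (fun p : E × (E × (E →L[ℝ] E)) => rol Γ Γ' p X) = fun p =>
      (p.2.2 X, p.2.2.comp (Γ p.1 X) - (Γ' p.2.1 (p.2.2 X)).comp p.2.2) :=
    funext fun p => rol_apply p.1 p.2.1 p.2.2 X
  rw [e]
  have hA : ContDiffOn ℝ ∞ (fun p : E × (E × (E →L[ℝ] E)) => p.2.2) (U ×ˢ (U' ×ˢ univ)) :=
    (contDiff_snd.comp contDiff_snd).contDiffOn
  have h1 : ContDiffOn ℝ ∞ (fun p : E × (E × (E →L[ℝ] E)) => Γ p.1) (U ×ˢ (U' ×ˢ univ)) :=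
    h.smΓ.comp contDiff_fst.contDiffOn fun p hp => hp.1
  have h2 : ContDiffOn ℝ ∞ (fun p : E × (E × (E →L[ℝ] E)) => Γ' p.2.1) (U ×ˢ (U' ×ˢ univ)) :=
    h'.smΓ.comp (contDiff_fst.comp contDiff_snd).contDiffOn fun p hp => hp.2.1
  exact (hA.clm_apply contDiffOn_const).prodMk
    ((hA.clm_comp (h1.clm_apply contDiffOn_const)).sub
      ((h2.clm_apply (hA.clm_apply contDiffOn_const)).clm_comp hA))

/-- The 1-jet of a local isometry solves the rolling system. -/
theorem jet_hasFDerivAt (h : Chr U G Γ) (h' : Chr U' G' Γ') {f : E → E} {y : E} (hy : y ∈ U)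
    (hy' : f y ∈ U') (hf : ContDiffAt ℝ 2 f y) (hi : ∀ᶠ z in 𝓝 y, IsoAt G G' f z) :
    HasFDerivAt (fun z => (f z, fderiv ℝ f z)) (rol Γ Γ' (y, (f y, fderiv ℝ f y))) y := by
  have hf1 : HasFDerivAt f (fderiv ℝ f y) y := (hf.differentiableAt (by simp)).hasFDerivAt
  have hA : HasFDerivAt (fderiv ℝ f) (fderiv ℝ (fderiv ℝ f) y) y :=
    ((hf.fderiv_right (m := 1) (by norm_num)).differentiableAt (by simp)).hasFDerivAt
  refine (hf1.prodMk hA).congr_fderiv ?_
  refine ContinuousLinearMap.ext fun X => ?_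
  rw [rol_apply]
  refine Prod.ext rfl (ContinuousLinearMap.ext fun b => ?_)
  exact snd_deriv h h' hy hy' hf hi X b

/-- The curve c with velocity u solves the geodesic equation near t. -/
def CGeo (Γ : E → E →L[ℝ] E →L[ℝ] E) (c u : ℝ → E) (t : ℝ) : Prop :=
  ∀ᶠ s in 𝓝 t, HasDerivAt c (u s) s ∧ HasDerivAt u (-(Γ (c s) (u s) (u s))) s

/-- Local isometries map geodesics to geodesics. -/
theorem CGeo.push (h : Chr U G Γ) (h' : Chr U' G' Γ') {f : E → E} {c u : ℝ → E} {t : ℝ}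
    (hc : CGeo Γ c u t) (hy : c t ∈ U) (hy' : f (c t) ∈ U')
    (hf : ∀ᶠ z in 𝓝 (c t), ContDiffAt ℝ 2 f z ∧ IsoAt G G' f z) :
    CGeo Γ' (f ∘ c) (fun s => fderiv ℝ f (c s) (u s)) t := by
  have hct : ContinuousAt c t := hc.self_of_nhds.1.continuousAt
  have hft : ContinuousAt f (c t) := hf.self_of_nhds.1.continuousAt
  have e1 : ∀ᶠ z in 𝓝 (c t), z ∈ U ∧ f z ∈ U' ∧ ContDiffAt ℝ 2 f z ∧
      ∀ᶠ z' in 𝓝 z, IsoAt G G' f z' := by
    filter_upwards [h.opn.mem_nhds hy, hft (h'.opn.mem_nhds hy'), hf,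
      eventually_eventually_nhds.2 hf] with z a1 a2 a3 a4
    exact ⟨a1, a2, a3.1, a4.mono fun _ hz => hz.2⟩
  filter_upwards [hc, hct e1] with s hs hs'
  obtain ⟨a1, a2, a3, a4⟩ : c s ∈ U ∧ f (c s) ∈ U' ∧ ContDiffAt ℝ 2 f (c s) ∧
      ∀ᶠ z' in 𝓝 (c s), IsoAt G G' f z' := hs'
  have hf1 : HasFDerivAt f (fderiv ℝ f (c s)) (c s) :=
    (a3.differentiableAt (by simp)).hasFDerivAt
  have hA : HasFDerivAt (fderiv ℝ f) (fderiv ℝ (fderiv ℝ f) (c s)) (c s) :=
    ((a3.fderiv_right (m := 1) (by norm_num)).differentiableAt (by simp)).hasFDerivAt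
  refine ⟨hf1.comp_hasDerivAt s hs.1, ?_⟩
  refine ((hA.comp_hasDerivAt s hs.1).clm_apply hs.2).congr_deriv ?_
  rw [snd_deriv h h' a1 a2 a3 a4]
  simp only [Function.comp_apply, map_neg]
  abel

/-- Local uniqueness of geodesics. -/
theorem CGeo.unique (h : Chr U G Γ) {c₁ u₁ c₂ u₂ : ℝ → E} {t : ℝ} (h₁ : CGeo Γ c₁ u₁ t)
    (h₂ : CGeo Γ c₂ u₂ t) (hy : c₁ t ∈ U) (hc : c₁ t = c₂ t) (hu : u₁ t = u₂ t) :
    c₁ =ᶠ[𝓝 t] c₂ := by
  let F : E × E → E × E := fun p => (p.2, -(Γ p.1 p.2 p.2))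
  have hΓ : ContDiffAt ℝ 1 Γ (c₁ t) :=
    (h.smΓ.contDiffAt (h.opn.mem_nhds hy)).of_le (by exact_mod_cast le_top)
  have hF : ContDiffAt ℝ 1 F (c₁ t, u₁ t) :=
    contDiffAt_snd.prodMk (((ContDiffAt.comp (c₁ t, u₁ t) hΓ contDiffAt_fst).clm_apply
      contDiffAt_snd).clm_apply contDiffAt_snd).neg
  have := ode_unique_nhds (f := F) (y₁ := fun s => (c₁ s, u₁ s)) (y₂ := fun s => (c₂ s, u₂ s))
    (t₀ := t) hF (h₁.mono fun s hs => hs.1.prodMk hs.2) (h₂.mono fun s hs => hs.1.prodMk hs.2)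
    (Prod.ext hc hu)
  exact this.mono fun s hs => congrArg Prod.fst hs

/-- Geodesics have constant speed. -/
theorem CGeo.speed (h : Chr U G Γ) {c u : ℝ → E} {t : ℝ} (hc : CGeo Γ c u t) (hy : c t ∈ U) :
    HasDerivAt (fun s => G (c s) (u s) (u s)) 0 t := by
  obtain ⟨h1, h2⟩ := hc.self_of_nhds
  have h3 := (h.diffG hy).hasFDerivAt.comp_hasDerivAt t h1
  refine ((h3.clm_apply h2).clm_apply h2).congr_deriv ?_
  simp [h.compat _ hy]

/-- The Euler-Lagrange form of the geodesic equation gives the Christoffel form. -/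
theorem cgeo_of_euler (h : Chr U G Γ) {c : ℝ → E} {t : ℝ}
    (hc : ∀ᶠ s in 𝓝 t, c s ∈ U ∧ ContDiffAt ℝ 2 c s ∧ ∀ v : E,
      HasDerivAt (fun r => G (c r) (deriv c r) v)
        ((1 / 2) * fderiv ℝ (fun y => G y (deriv c s) (deriv c s)) (c s) v) s) :
    CGeo Γ c (deriv c) t := by
  filter_upwards [hc] with s hs
  obtain ⟨hU, hs2, hv⟩ := hs
  have h1 : HasDerivAt c (deriv c s) s := (hs2.differentiableAt (by simp)).hasDerivAt
  have h2 : HasDerivAt (deriv c) (deriv (deriv c) s) s :=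
    ((hs2.derivWithin (m := 1) (by norm_num)).differentiableAt (by simp)).hasDerivAt
  refine ⟨h1, h2.congr_deriv ?_⟩
  have h3 := (h.diffG hU).hasFDerivAt.comp_hasDerivAt s h1
  have key : ∀ v, G (c s) (deriv (deriv c) s + Γ (c s) (deriv c s) (deriv c s)) v = 0 := by
    intro v
    have h4 := ((h3.clm_apply h2).clm_apply (hasDerivAt_const s v)).unique (hv v)
    rw [(fderiv_form_apply (h.diffG hU) _ _).fderiv] at h4
    simp only [add_apply, ContinuousLinearMap.flip_apply, map_zero, add_zero,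
      Function.comp_apply, h.compat _ hU] at h4
    rw [h.symΓ _ hU v, h.symm _ hU (Γ (c s) (deriv c s) v)] at h4
    rw [map_add, add_apply]
    linarith
  exact eq_neg_of_add_eq_zero_left (eq_zero_of_pos (h.pos _ hU) (key _))

end Pool.Agent.MP_3fed84_gt
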