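import Mathlib

/-!
Geodesics, the exponential map and pulled back metrics on a smooth Riemannian manifold
(modelled on a finite dimensional space E, without boundary).  In Mathlib every tangent space
of such a manifold is, by definition, the model space E.
-/

open scoped Manifold ContDiff

namespace Pool.Agent.MP_3fed84_gt

section Types

variable (E : Type) [NormedAddCommGroup E] [NormedSpace ℝ E]
  (M : Type) [TopologicalSpace M] [ChartedSpace E M]

/-- Smooth Riemannian metrics on M. -/
abbrev RiemMetric [IsManifold 𝓘(ℝ, E) ∞ M] : Type :=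
  Bundle.ContMDiffRiemannianMetric 𝓘(ℝ, E) ∞ E (fun x : M => TangentSpace 𝓘(ℝ, E) x)

/-- Smooth diffeomorphisms from M to N. -/
abbrev Diffeo (N : Type) [TopologicalSpace N] [ChartedSpace E N] : Type :=
  M ≃ₘ^∞⟮𝓘(ℝ, E), 𝓘(ℝ, E)⟯ N

end Types

variable {E : Type} [NormedAddCommGroup E] [NormedSpace ℝ E]
  {M : Type} [TopologicalSpace M] [ChartedSpace E M]

/-- The differential at x of a map f from a manifold X to M, applied to the tangent vector a. -/
noncomputable def push {X : Type} [TopologicalSpace X] [ChartedSpace E X] (f : X → M) (x : X)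
    (a : TangentSpace 𝓘(ℝ, E) x) : TangentSpace 𝓘(ℝ, E) (f x) :=
  mfderiv 𝓘(ℝ, E) 𝓘(ℝ, E) f x a

/-- The velocity of the curve γ at time t. -/
noncomputable def velocity (γ : ℝ → M) (t : ℝ) : TangentSpace 𝓘(ℝ, E) (γ t) :=
  mfderiv 𝓘(ℝ, ℝ) 𝓘(ℝ, E) γ t (1 : ℝ)

variable [IsManifold 𝓘(ℝ, E) ∞ M]

/-- The value g(a, b) of the metric g on two tangent vectors at x. -/
noncomputable def ip (g : RiemMetric E M) (x : M) (a b : TangentSpace 𝓘(ℝ, E) x) : ℝ :=
  g.inner x a b

/-- The pullback of g along f, evaluated at x on the tangent vectors a and b. -/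
noncomputable def pullback {X : Type} [TopologicalSpace X] [ChartedSpace E X]
    (g : RiemMetric E M) (f : X → M) (x : X) (a b : TangentSpace 𝓘(ℝ, E) x) : ℝ :=
  ip g (f x) (push f x a) (push f x b)

/-- The coefficients of the metric g in the chart at x: the pullback of g along the inverse of
the chart, at the point y of the model space. -/
noncomputable def coef (g : RiemMetric E M) (x : M) (y a b : E) : ℝ :=
  pullback g (fun z : E => (chartAt E x).symm z) y a b

/-- The curve c in the model space satisfies at time t the geodesic equation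
d/dt (G_ij(c) c_i') = (1/2) (d_j G_ik)(c) c_i' c_k' of the coordinate metric G. -/
def GeodesicEquation (G : E → E → E → ℝ) (c : ℝ → E) (t : ℝ) : Prop :=
  ∀ w : E, HasDerivAt (fun s => G (c s) (deriv c s) w)
    ((1 / 2) * fderiv ℝ (fun y => G y (deriv c t) (deriv c t)) (c t) w) t

/-- A geodesic: a smooth curve satisfying the geodesic equation in every chart. -/
structure IsGeodesic (g : RiemMetric E M) (γ : ℝ → M) : Prop where
  smooth : ContMDiff 𝓘(ℝ, ℝ) 𝓘(ℝ, E) ∞ γ
  equation : ∀ (x : M) (t : ℝ), γ t ∈ (chartAt E x).source →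
    GeodesicEquation (coef g x) (fun s => chartAt E x (γ s)) t

/-- e is the exponential map of g at p, defined on the whole tangent space: for each tangent
vector v the curve t ↦ e (t v) is the geodesic through p with initial velocity v. -/
structure IsExp (g : RiemMetric E M) (p : M) (e : E → M) : Prop where
  geodesic : ∀ v : E, IsGeodesic g (fun t : ℝ => e (t • v))
  zero : e 0 = p
  init : ∀ v : E, velocity (E := E) (fun t : ℝ => e (t • v)) 0 = v

end Pool.Agent.MP_3fed84_gt
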