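import Pool.Agent.MP_3fed84_gt.Atlas

/-! The Riemannian distance, defined by duality with infinitesimally 1-Lipschitz functions. -/

open Set Metric Filter Topology
open scoped ContDiff RealInnerProductSpace

set_option linter.unusedSectionVars false

namespace Pool.Agent.MP_3fed84_gt

variable {E : Type} [NormedAddCommGroup E] [InnerProductSpace ℝ E] [FiniteDimensional ℝ E]
  {M : Type} [TopologicalSpace M]

/-- f has pointwise Lipschitz constant at most one at m, read in the chart c. -/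
def Chart.Lip (c : Chart E M) (f : M → ℝ) (m : M) : Prop :=
  m ∈ c.ψ.source ∧ ∀ lam > (1 : ℝ), ∀ᶠ y in 𝓝 (c.ψ m),
    |f (c.ψ.symm y) - f m| ≤ lam * Real.sqrt (c.G (c.ψ m) (y - c.ψ m) (y - c.ψ m))

def Atlas.Lip (𝒜 : Atlas E M) : Set (M → ℝ) := {f | ∀ m, ∃ c ∈ 𝒜.S, c.Lip f m}

noncomputable def Atlas.d (𝒜 : Atlas E M) (a b : M) : ℝ :=
  sSup {r | ∃ f ∈ 𝒜.Lip, r = f b - f a}

variable {𝒜 : Atlas E M}

/-- The curve γ has at time t a right derivative of length at most lam. -/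
def SpeedLe (𝒜 : Atlas E M) (γ : ℝ → M) (t lam : ℝ) : Prop :=
  ∃ c ∈ 𝒜.S, γ t ∈ c.ψ.source ∧ ∃ v, HasDerivWithinAt (c.ψ ∘ γ) v (Ici t) t ∧
    c.G (c.ψ (γ t)) v v ≤ lam ^ 2

theorem Chart.Lip.continuousAt {c : Chart E M} {f : M → ℝ} {m : M} (h : c.Lip f m) :
    ContinuousAt f m := by
  have h1 : Tendsto (fun y => f (c.ψ.symm y) - f m) (𝓝 (c.ψ m)) (𝓝 0) := by
    refine squeeze_zero_norm' (h.2 2 one_lt_two) ?_
    have hc : Continuous fun y : E =>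
        2 * Real.sqrt (c.G (c.ψ m) (y - c.ψ m) (y - c.ψ m)) := by fun_prop
    simpa using hc.tendsto (c.ψ m)
  have h2 := (h1.comp (c.ψ.continuousAt h.1).tendsto).add_const (f m)
  rw [zero_add] at h2
  refine h2.congr' ?_
  filter_upwards [c.ψ.eventually_left_inverse h.1] with x hx
  simp only [Function.comp, hx, sub_add_cancel]

theorem Atlas.Lip.continuous {f : M → ℝ} (hf : f ∈ 𝒜.Lip) : Continuous f :=
  continuous_iff_continuousAt.2 fun m => by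
    obtain ⟨c, -, h⟩ := hf m
    exact h.continuousAt

theorem Atlas.Lip.neg {f : M → ℝ} (hf : f ∈ 𝒜.Lip) : (fun m => -f m) ∈ 𝒜.Lip := fun m => by
  obtain ⟨c, hc, h1, h2⟩ := hf m
  refine ⟨c, hc, h1, fun lam hl => (h2 lam hl).mono fun y hy => ?_⟩
  rwa [neg_sub_neg, abs_sub_comm]

theorem Chart.lip_of_const {c : Chart E M} {f : M → ℝ} {m : M} (hm : m ∈ c.ψ.source)
    (h : ∀ᶠ x in 𝓝 m, f x = f m) : c.Lip f m := by
  refine ⟨hm, fun lam hl => ?_⟩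
  filter_upwards [(c.ψ.tendsto_symm hm).eventually h] with y hy
  rw [hy, sub_self, abs_zero]
  exact mul_nonneg (by linarith) (Real.sqrt_nonneg _)

theorem Atlas.zero_mem_Lip (𝒜 : Atlas E M) : (fun _ => (0 : ℝ)) ∈ 𝒜.Lip := fun m => by
  obtain ⟨c, hc, hm, -⟩ := 𝒜.norm m
  exact ⟨c, hc, Chart.lip_of_const hm (Eventually.of_forall fun _ => rfl)⟩

theorem Atlas.d_set_nonempty (𝒜 : Atlas E M) (a b : M) :
    {r | ∃ f ∈ 𝒜.Lip, r = f b - f a}.Nonempty := ⟨_, _, 𝒜.zero_mem_Lip, rfl⟩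

theorem SpeedLe.chart {γ : ℝ → M} {t lam : ℝ} (h : SpeedLe 𝒜 γ t lam)
    (hγ : ContinuousWithinAt γ (Ici t) t) {c' : Chart E M} (hc' : c' ∈ 𝒜.S)
    (ht' : γ t ∈ c'.ψ.source) : ∃ v, HasDerivWithinAt (c'.ψ ∘ γ) v (Ici t) t ∧
      c'.G (c'.ψ (γ t)) v v ≤ lam ^ 2 := by
  obtain ⟨c, hc, ht, v, h1, h2⟩ := h
  obtain ⟨k1, k2⟩ := 𝒜.compat c hc c' hc' _ ht ht'
  have k3 := (k1.differentiableAt (by simp)).hasFDerivAt.comp_hasDerivWithinAt t h1
  refine ⟨_, k3.congr_of_eventuallyEq ?_ (c.ex_apply c' id ht).symm, ?_⟩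
  · filter_upwards [hγ.eventually (c.ψ.open_source.mem_nhds ht)] with s hs
    exact (c.ex_apply c' id hs).symm
  · have := k2 v v
    rw [c.ex_apply c' id ht] at this
    exact this.trans_le h2

theorem Atlas.Lip.sub_le {f : M → ℝ} (hf : f ∈ 𝒜.Lip) {γ : ℝ → M} {a b lam : ℝ} (hab : a ≤ b)
    (hlam : 0 ≤ lam) (hc : ContinuousOn γ (Icc a b)) (hs : ∀ t ∈ Ico a b, SpeedLe 𝒜 γ t lam) :
    f (γ b) - f (γ a) ≤ lam * (b - a) := by
  have key := image_le_of_liminf_slope_right_le_deriv_boundary (f := fun t => f (γ t))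
    (B := fun t => f (γ a) + lam * (t - a)) (B' := fun _ => lam)
    ((Atlas.Lip.continuous hf).comp_continuousOn hc) (by simp) (by fun_prop)
    (fun x _ => by
      simpa using ((((hasDerivAt_id x).sub_const a).const_mul lam).const_add
        (f (γ a))).hasDerivWithinAt)
    (fun t ht r hr => ?_) (right_mem_Icc.2 hab)
  · linarith
  have hγ : ContinuousWithinAt γ (Ici t) t :=
    (hc t (Ico_subset_Icc_self ht)).mono_of_mem_nhdsWithin (Icc_mem_nhdsGE_of_mem ht)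
  obtain ⟨c, hcS, hm, hl⟩ := hf (γ t)
  obtain ⟨v, h1, h2⟩ := (hs t ht).chart hγ hcS hm
  set B := c.G (c.ψ (γ t)) with hB
  have hN : Real.sqrt (B v v) < r := by
    refine lt_of_le_of_lt ?_ hr
    rw [← Real.sqrt_sq hlam]
    exact Real.sqrt_le_sqrt h2
  obtain ⟨l, hl1, hl2⟩ : ∃ l > (1 : ℝ), l * Real.sqrt (B v v) < r := by
    have hcont : Tendsto (fun l : ℝ => l * Real.sqrt (B v v)) (𝓝[>] 1)
        (𝓝 (1 * Real.sqrt (B v v))) :=
      ((continuous_id.mul continuous_const).tendsto 1).mono_left nhdsWithin_le_nhds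
    rw [one_mul] at hcont
    exact ((hcont.eventually (gt_mem_nhds hN)).and self_mem_nhdsWithin).exists.imp
      fun l h => ⟨h.2, h.1⟩
  have hsl : Tendsto (slope (c.ψ ∘ γ) t) (𝓝[>] t) (𝓝 v) := by
    have := hasDerivWithinAt_iff_tendsto_slope.1 h1
    rwa [Ici_sdiff_left] at this
  have hcN : Continuous fun w : E => l * Real.sqrt (B w w) := by fun_prop
  have hγ' : Tendsto γ (𝓝[>] t) (𝓝 (γ t)) :=
    hγ.tendsto.mono_left (nhdsWithin_mono _ Ioi_subset_Ici_self)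
  refine Eventually.frequently ?_
  filter_upwards [((hcN.tendsto v).comp hsl).eventually (gt_mem_nhds hl2),
    ((c.ψ.continuousAt hm).tendsto.comp hγ').eventually (hl l hl1),
    hγ'.eventually (c.ψ.open_source.mem_nhds hm), self_mem_nhdsWithin] with z a1 a2 a3 a4
  have hz : 0 < z - t := sub_pos.2 a4
  refine lt_of_le_of_lt ?_ a1
  simp only [Function.comp, c.ψ.left_inv a3] at a2
  have e : c.ψ (γ z) - c.ψ (γ t) = (z - t) • slope (c.ψ ∘ γ) t z := by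
    rw [sub_smul_slope]; rfl
  rw [e] at a2
  simp only [map_smul, _root_.smul_apply, smul_eq_mul] at a2
  rw [← mul_assoc (z - t), Real.sqrt_mul (mul_self_nonneg _), Real.sqrt_mul_self hz.le] at a2
  rw [slope_def_field, div_le_iff₀ hz]
  have := le_abs_self (f (γ z) - f (γ t))
  simp only [Function.comp]
  linarith

theorem d_le_of_curve {γ : ℝ → M} {a b lam : ℝ} (hab : a ≤ b)
    (hlam : 0 ≤ lam) (hc : ContinuousOn γ (Icc a b)) (hs : ∀ t ∈ Ico a b, SpeedLe 𝒜 γ t lam) :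
    𝒜.d (γ a) (γ b) ≤ lam * (b - a) := by
  refine csSup_le (𝒜.d_set_nonempty _ _) ?_
  rintro _ ⟨f, hf, rfl⟩
  exact Atlas.Lip.sub_le hf hab hlam hc hs

theorem Atlas.Lip.segment_le {f : M → ℝ} (hf : f ∈ 𝒜.Lip) {c : Chart E M} (hc : c ∈ 𝒜.S)
    {y z : E} {lam : ℝ} (hlam : 0 ≤ lam)
    (h : ∀ x ∈ segment ℝ y z, x ∈ c.ψ.target ∧ c.G x (z - y) (z - y) ≤ lam ^ 2) :
    f (c.ψ.symm z) - f (c.ψ.symm y) ≤ lam := by
  have hd : ∀ t : ℝ, HasDerivAt (fun s : ℝ => y + s • (z - y)) (z - y) t := fun t => by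
    simpa using ((hasDerivAt_id t).smul_const (z - y)).const_add y
  have hm : ∀ t ∈ Icc (0 : ℝ) 1, y + t • (z - y) ∈ segment ℝ y z := fun t ht => by
    rw [segment_eq_image']
    exact ⟨t, ht, rfl⟩
  have key := Atlas.Lip.sub_le hf (γ := fun s => c.ψ.symm (y + s • (z - y))) zero_le_one hlam
    (c.ψ.continuousOn_symm.comp (by fun_prop) fun t ht => (h _ (hm t ht)).1) fun t ht => by
      obtain ⟨k1, k2⟩ := h _ (hm t (Ico_subset_Icc_self ht))
      refine ⟨c, hc, c.ψ.map_target k1, z - y, ?_, by rwa [c.ψ.right_inv k1]⟩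
      refine ((hd t).congr_of_eventuallyEq ?_).hasDerivWithinAt
      filter_upwards [(hd t).continuousAt.eventually (c.ψ.open_target.mem_nhds k1)] with s hs
      exact c.ψ.right_inv hs
  simpa using key

/-- Straight segments in a chart. -/
theorem d_le_of_segment {c : Chart E M} (hc : c ∈ 𝒜.S) {y z : E} {lam : ℝ} (hlam : 0 ≤ lam)
    (h : ∀ x ∈ segment ℝ y z, x ∈ c.ψ.target ∧ c.G x (z - y) (z - y) ≤ lam ^ 2) :
    𝒜.d (c.ψ.symm y) (c.ψ.symm z) ≤ lam := by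
  refine csSup_le (𝒜.d_set_nonempty _ _) ?_
  rintro _ ⟨f, hf, rfl⟩
  exact Atlas.Lip.segment_le hf hc hlam h

/-- Near the centre of a normalised chart the metric is close to the Euclidean one. -/
theorem Chart.NormAt.exists_ball {c : Chart E M} {m : M} (h : c.NormAt m) {lam : ℝ}
    (hlam : 1 < lam) : ∃ ρ > 0, ∀ y ∈ closedBall (0 : E) ρ, y ∈ c.ψ.target ∧
      ∀ a, c.G y a a ≤ (lam * ‖a‖) ^ 2 ∧ ‖a‖ ^ 2 ≤ lam ^ 2 * c.G y a a := by
  have h0 : (0 : E) ∈ c.ψ.target := h.2.1 ▸ c.ψ.map_source h.1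
  have hn := c.ψ.open_target.mem_nhds h0
  have hl : 1 < lam ^ 2 := by nlinarith
  have hl0 : 0 < lam ^ 2 := by linarith
  have hε : 0 < 1 - (lam ^ 2)⁻¹ := sub_pos.2 (inv_lt_one_of_one_lt₀ hl)
  have hc := (c.chr.smG.continuousOn.continuousAt hn).eventually (ball_mem_nhds _ hε)
  obtain ⟨ρ, hρ, hb⟩ := nhds_basis_closedBall.mem_iff.1 (hc.and hn)
  refine ⟨ρ, hρ, fun y hy => ⟨(hb hy).2, fun a => ?_⟩⟩
  have h1 : ‖c.G y - c.G 0‖ ≤ 1 - (lam ^ 2)⁻¹ := by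
    have := (hb hy).1
    rw [dist_eq_norm] at this
    exact this.le
  have h2 := (c.G y - c.G 0).le_of_opNorm₂_le_of_le h1 (le_refl ‖a‖) (le_refl ‖a‖)
  simp only [_root_.sub_apply, h.2.2, real_inner_self_eq_norm_sq, Real.norm_eq_abs] at h2
  rw [abs_le] at h2
  have h3 : lam ^ 2 * (lam ^ 2)⁻¹ = 1 := mul_inv_cancel₀ hl0.ne'
  have h4 : 0 ≤ ‖a‖ ^ 2 := sq_nonneg _
  have h5 : 2 - (lam ^ 2)⁻¹ ≤ lam ^ 2 := by
    have : 0 < (lam ^ 2)⁻¹ := inv_pos.2 hl0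
    nlinarith [sq_nonneg (lam ^ 2 - 1)]
  constructor
  · nlinarith [h2.2, mul_le_mul_of_nonneg_right h5 h4]
  · have h6 : (lam ^ 2)⁻¹ * ‖a‖ ^ 2 ≤ c.G y a a := by nlinarith [h2.1]
    have h7 := mul_le_mul_of_nonneg_left h6 hl0.le
    rwa [← mul_assoc, h3, one_mul] at h7

/-- A truncated coordinate function is admissible. -/
theorem lip_of_compact [T2Space M] {c : Chart E M} (hc : c ∈ 𝒜.S) {C W : Set E}
    (hC : IsCompact C) (hW : IsOpen W) (hCW : C ⊆ W) (hWt : W ⊆ c.ψ.target) {g : E → ℝ} {δ : ℝ}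
    (hδ : ∀ y ∈ W, y ∉ C → g y = δ)
    (hg : ∀ y₀ ∈ C, ∀ lam > (1 : ℝ), ∀ᶠ y in 𝓝 y₀,
      |g y - g y₀| ≤ lam * Real.sqrt (c.G y₀ (y - y₀) (y - y₀))) :
    ∃ f ∈ 𝒜.Lip, (∀ y ∈ W, f (c.ψ.symm y) = g y) ∧
      ∀ m, ¬ (m ∈ c.ψ.source ∧ c.ψ m ∈ W) → f m = δ := by
  classical
  set f : M → ℝ := fun m => if m ∈ c.ψ.source ∧ c.ψ m ∈ W then g (c.ψ m) else δ with hf
  have h1 : ∀ y ∈ W, f (c.ψ.symm y) = g y := fun y hy => by
    have e := c.ψ.right_inv (hWt hy)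
    simp only [hf, e, c.ψ.map_target (hWt hy), hy, and_self, if_true]
  have hK : IsClosed (c.ψ.symm '' C) :=
    (hC.image_of_continuousOn (c.ψ.continuousOn_symm.mono (hCW.trans hWt))).isClosed
  have h2 : ∀ m, m ∉ c.ψ.symm '' C → f m = δ := fun m hm => by
    by_cases h : m ∈ c.ψ.source ∧ c.ψ m ∈ W
    · simp only [hf, if_pos h]
      exact hδ _ h.2 fun h' => hm ⟨_, h', c.ψ.left_inv h.1⟩
    · simp only [hf, if_neg h]
  refine ⟨f, fun m => ?_, h1, fun m hm => if_neg hm⟩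
  by_cases hm : m ∈ c.ψ.symm '' C
  · obtain ⟨y₀, hy₀, rfl⟩ := hm
    have ht := hWt (hCW hy₀)
    refine ⟨c, hc, c.ψ.map_target ht, fun lam hl => ?_⟩
    rw [c.ψ.right_inv ht, h1 y₀ (hCW hy₀)]
    filter_upwards [hg y₀ hy₀ lam hl, hW.mem_nhds (hCW hy₀)] with y a1 a2
    rwa [h1 y a2]
  · obtain ⟨c₀, hc₀, hm₀, -⟩ := 𝒜.norm m
    refine ⟨c₀, hc₀, Chart.lip_of_const hm₀ ?_⟩
    filter_upwards [hK.isOpen_compl.mem_nhds hm] with x hx
    rw [h2 x hx, h2 m hm]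

/-- Admissible functions are uniformly controlled near a point. -/
theorem Atlas.local_bound (𝒜 : Atlas E M) (m : M) {ε : ℝ} (hε : 0 < ε) :
    ∀ᶠ x in 𝓝 m, ∀ f ∈ 𝒜.Lip, f x - f m ≤ ε := by
  obtain ⟨c, hc, h⟩ := 𝒜.norm m
  obtain ⟨ρ, hρ, hb⟩ := h.exists_ball one_lt_two
  have ht : Tendsto c.ψ (𝓝 m) (𝓝 0) := h.2.1 ▸ (c.ψ.continuousAt h.1).tendsto
  filter_upwards [ht.eventually (closedBall_mem_nhds _ hρ),
    ht.eventually (closedBall_mem_nhds _ (half_pos hε)), c.ψ.open_source.mem_nhds h.1]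
    with x a1 a2 a3 f hf
  have key := Atlas.Lip.segment_le hf hc (y := 0) (z := c.ψ x) (lam := 2 * ‖c.ψ x - 0‖)
    (by positivity) fun w hw => by
      have := hb w ((convex_closedBall (0 : E) ρ).segment_subset (mem_closedBall_self hρ.le) a1 hw)
      exact ⟨this.1, (this.2 _).1⟩
  rw [c.ψ.left_inv a3, ← h.2.1, c.ψ.left_inv h.1, h.2.1, ← dist_eq_norm] at key
  have := mem_closedBall.1 a2
  linarith

variable [PreconnectedSpace M]

theorem Atlas.d_set_bdd (𝒜 : Atlas E M) (a b : M) : BddAbove {r | ∃ f ∈ 𝒜.Lip, r = f b - f a} := by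
  have key := PreconnectedSpace.induction₂' (fun x y : M => ∃ K, ∀ f ∈ 𝒜.Lip, f y - f x ≤ K)
    (fun x => (𝒜.local_bound x one_pos).mono fun y hy => ⟨⟨1, hy⟩, 1, fun f hf => by
      have := hy _ (Atlas.Lip.neg hf)
      linarith⟩)
    ⟨fun x y z ⟨K, hK⟩ ⟨L, hL⟩ => ⟨K + L, fun f hf => by linarith [hK f hf, hL f hf]⟩⟩ a b
  obtain ⟨K, hK⟩ := key
  exact ⟨K, by rintro _ ⟨f, hf, rfl⟩; exact hK f hf⟩

theorem le_d {f : M → ℝ} (hf : f ∈ 𝒜.Lip) (a b : M) : f b - f a ≤ 𝒜.d a b := by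
  exact le_csSup (𝒜.d_set_bdd a b) ⟨f, hf, rfl⟩

theorem d_nonneg (a b : M) : 0 ≤ 𝒜.d a b := by
  simpa using le_d 𝒜.zero_mem_Lip a b

theorem d_self (a : M) : 𝒜.d a a = 0 := by
  refine le_antisymm (csSup_le (𝒜.d_set_nonempty _ _) ?_) (d_nonneg a a)
  rintro _ ⟨f, -, rfl⟩
  simp

theorem d_comm (a b : M) : 𝒜.d a b = 𝒜.d b a := by
  have key : ∀ a b : M, 𝒜.d a b ≤ 𝒜.d b a := fun a b => by
    refine csSup_le (𝒜.d_set_nonempty _ _) ?_
    rintro _ ⟨f, hf, rfl⟩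
    have := le_d (Atlas.Lip.neg hf) b a
    linarith
  exact le_antisymm (key a b) (key b a)

theorem d_triangle (a b c : M) : 𝒜.d a c ≤ 𝒜.d a b + 𝒜.d b c := by
  refine csSup_le (𝒜.d_set_nonempty _ _) ?_
  rintro _ ⟨f, hf, rfl⟩
  linarith [le_d hf a b, le_d hf b c]

theorem continuous_d (a : M) : Continuous (𝒜.d a) := by
  refine continuous_iff_continuousAt.2 fun m => Metric.tendsto_nhds.2 fun ε hε => ?_
  filter_upwards [𝒜.local_bound m (half_pos hε)] with x hx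
  have h1 : 𝒜.d m x ≤ ε / 2 := by
    refine csSup_le (𝒜.d_set_nonempty _ _) ?_
    rintro _ ⟨f, hf, rfl⟩
    exact hx f hf
  have h2 := d_triangle (𝒜 := 𝒜) a m x
  have h3 := d_triangle (𝒜 := 𝒜) a x m
  rw [d_comm x m] at h3
  rw [Real.dist_eq, abs_lt]
  constructor <;> linarith

/-- Small metric balls lie in any given neighbourhood. -/
theorem exists_d_ball [T2Space M] {m : M} {O : Set M} (hO : O ∈ 𝓝 m) :
    ∃ r > 0, ∀ m', 𝒜.d m m' ≤ r → m' ∈ O := by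
  obtain ⟨c, hc, h⟩ := 𝒜.norm m
  obtain ⟨ρ₁, hρ₁, hb⟩ := h.exists_ball one_lt_two
  have ht : Tendsto c.ψ.symm (𝓝 0) (𝓝 m) := h.2.1 ▸ c.ψ.tendsto_symm h.1
  obtain ⟨ρ₂, hρ₂, hb₂⟩ := nhds_basis_closedBall.mem_iff.1 (ht hO)
  set ρ := min ρ₁ ρ₂ with hρ
  have hρ0 : 0 < ρ := lt_min hρ₁ hρ₂
  have hs₁ : closedBall (0 : E) ρ ⊆ closedBall 0 ρ₁ := closedBall_subset_closedBall (min_le_left _ _)
  have hs₂ : closedBall (0 : E) ρ ⊆ closedBall 0 ρ₂ :=
    closedBall_subset_closedBall (min_le_right _ _)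
  obtain ⟨f, hf, f1, f2⟩ := lip_of_compact hc (isCompact_closedBall (0 : E) ρ) c.ψ.open_target
    (fun y hy => (hb y (hs₁ hy)).1) subset_rfl (g := fun y => min ‖y‖ ρ / 2) (δ := ρ / 2)
    (fun y _ hy => by
      rw [mem_closedBall_zero_iff, not_le] at hy
      rw [min_eq_right hy.le])
    fun y₀ hy₀ lam hl => Eventually.of_forall fun y => by
      have a1 := ((hb y₀ (hs₁ hy₀)).2 (y - y₀)).2
      have a2 : ‖y - y₀‖ / 2 ≤ Real.sqrt (c.G y₀ (y - y₀) (y - y₀)) :=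
        Real.le_sqrt_of_sq_le (by nlinarith)
      have a3 : |min ‖y‖ ρ - min ‖y₀‖ ρ| ≤ ‖y - y₀‖ :=
        (abs_min_sub_min_le_max _ _ _ _).trans
          (max_le (abs_norm_sub_norm_le _ _) (by simp))
      rw [← sub_div, abs_div, abs_two]
      have a4 := Real.sqrt_nonneg (c.G y₀ (y - y₀) (y - y₀))
      nlinarith
  refine ⟨ρ / 4, by positivity, fun m' hm' => ?_⟩
  have e0 : f m = 0 := by
    have := f1 _ (c.ψ.map_source h.1)
    rw [c.ψ.left_inv h.1, h.2.1, norm_zero, min_eq_left hρ0.le, zero_div] at this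
    exact this
  have e1 := le_d hf m m'
  have e2 : m' ∈ c.ψ.source := by
    by_contra hn
    have := f2 m' fun h' => hn h'.1
    linarith
  have e3 := f1 _ (c.ψ.map_source e2)
  rw [c.ψ.left_inv e2] at e3
  have e4 : ‖c.ψ m'‖ ≤ ρ := by
    by_contra hn
    rw [min_eq_right (not_le.1 hn).le] at e3
    linarith
  have := hb₂ (hs₂ (mem_closedBall_zero_iff.2 e4))
  rwa [mem_preimage, c.ψ.left_inv e2] at this

end Pool.Agent.MP_3fed84_gt
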