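import Mathlib

/-! Smooth local flows and uniqueness for autonomous ordinary differential equations. -/

open Set Metric Filter Topology
open scoped ContDiff

namespace Pool.Agent.MP_3fed84_gt

variable {X : Type} [NormedAddCommGroup X] [NormedSpace ℝ X]

section Nemytskii

variable {K : Type} [TopologicalSpace K] [CompactSpace K]

/-- Pointwise application of a continuous family of linear maps. -/
noncomputable def ptApp (K X Y : Type) [TopologicalSpace K] [CompactSpace K]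
    [NormedAddCommGroup X] [NormedSpace ℝ X] [NormedAddCommGroup Y] [NormedSpace ℝ Y] :
    C(K, X →L[ℝ] Y) →L[ℝ] (C(K, X) →L[ℝ] C(K, Y)) :=
  LinearMap.mkContinuous₂
    (LinearMap.mk₂ ℝ
      (fun (A : C(K, X →L[ℝ] Y)) (h : C(K, X)) =>
        (⟨fun t => A t (h t), A.continuous.clm_apply h.continuous⟩ : C(K, Y)))
      (fun A B h => by ext t; simp)
      (fun c A h => by ext t; simp)
      (fun A h k => by ext t; simp)
      (fun c A h => by ext t; simp)) 1
    (fun A h => by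
      rw [ContinuousMap.norm_le _ (by positivity)]
      intro t
      calc ‖A t (h t)‖ ≤ ‖A t‖ * ‖h t‖ := (A t).le_opNorm _
        _ ≤ ‖A‖ * ‖h‖ :=
          mul_le_mul (A.norm_coe_le_norm t) (h.norm_coe_le_norm t) (norm_nonneg _)
            ((norm_nonneg (A t)).trans (A.norm_coe_le_norm t))
        _ = 1 * ‖A‖ * ‖h‖ := by ring)

theorem ptApp_apply {Y : Type} [NormedAddCommGroup Y] [NormedSpace ℝ Y]
    (A : C(K, X →L[ℝ] Y)) (h : C(K, X)) (t : K) : ptApp K X Y A h t = A t (h t) := rfl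

omit [NormedSpace ℝ X] in
theorem unif_near {Z : Type} [NormedAddCommGroup Z] (D : C(X, Z)) (y : C(K, X)) {ε : ℝ}
    (hε : 0 < ε) : ∃ δ > 0, ∀ t : K, ∀ p ∈ ball (y t) δ, ‖D p - D (y t)‖ ≤ ε := by
  have hc : ContinuousAt (fun z : C(K, X) => D.comp z) y :=
    (ContinuousMap.continuous_postcomp D).continuousAt
  obtain ⟨δ, hδ, hδ'⟩ := Metric.continuousAt_iff.mp hc ε hε
  refine ⟨δ, hδ, fun t p hp => ?_⟩
  have h1 : dist (y + ContinuousMap.const K (p - y t)) y < δ := by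
    rw [dist_eq_norm, add_sub_cancel_left]
    refine lt_of_le_of_lt ?_ (mem_ball_iff_norm.mp hp)
    rw [ContinuousMap.norm_le _ (norm_nonneg _)]
    intro s
    simp
  have h2 := hδ' h1
  rw [dist_eq_norm] at h2
  have h3 := (D.comp (y + ContinuousMap.const K (p - y t)) - D.comp y).norm_coe_le_norm t
  have h4 : (D.comp (y + ContinuousMap.const K (p - y t)) - D.comp y) t = D p - D (y t) := by
    simp
  rw [h4] at h3
  exact h3.trans h2.le

theorem nemytskii_deriv {Y : Type} [NormedAddCommGroup Y] [NormedSpace ℝ Y]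
    (g : C(X, Y)) (D : C(X, X →L[ℝ] Y)) (hD : ∀ x, HasFDerivAt g (D x) x) (y : C(K, X)) :
    HasFDerivAt (fun z : C(K, X) => g.comp z) (ptApp K X Y (D.comp y)) y := by
  rw [hasFDerivAt_iff_isLittleO_nhds_zero, Asymptotics.isLittleO_iff]
  intro ε hε
  obtain ⟨δ, hδ, key⟩ := unif_near (Z := X →L[ℝ] Y) D y hε
  filter_upwards [ball_mem_nhds (0 : C(K, X)) hδ] with h hh
  rw [ContinuousMap.norm_le _ (by positivity)]
  intro t
  have hh' : ‖h t‖ < δ := lt_of_le_of_lt (h.norm_coe_le_norm t) (mem_ball_zero_iff.mp hh)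
  have hm : y t + h t ∈ ball (y t) δ := by
    rw [mem_ball_iff_norm, add_sub_cancel_left]; exact hh'
  have h5 := (convex_ball (y t) δ).norm_image_sub_le_of_norm_hasFDerivWithin_le'
    (f := g) (f' := D) (φ := D (y t)) (C := ε) (fun x _ => (hD x).hasFDerivWithinAt)
    (key t) (mem_ball_self hδ) hm
  rw [add_sub_cancel_left] at h5
  have h6 : (g.comp (y + h) - g.comp y - ptApp K X Y (D.comp y) h) t
      = g (y t + h t) - g (y t) - D (y t) (h t) := by
    simp [ptApp_apply]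
  rw [h6]
  exact h5.trans (mul_le_mul_of_nonneg_left (h.norm_coe_le_norm t) hε.le)

theorem nemytskii_nat (n : ℕ) : ∀ (Y : Type) [NormedAddCommGroup Y] [NormedSpace ℝ Y]
    (g : C(X, Y)), ContDiff ℝ n g → ContDiff ℝ n (fun z : C(K, X) => g.comp z) := by
  induction n with
  | zero =>
    intro Y _ _ g _
    exact contDiff_zero.mpr (ContinuousMap.continuous_postcomp g)
  | succ n ih =>
    intro Y _ _ g hg
    have hg' : ContDiff ℝ ((n : WithTop ℕ∞) + 1) g := by exact_mod_cast hg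
    obtain ⟨D, hD, hD'⟩ := contDiff_succ_iff_hasFDerivAt.mp hg'
    have h1 : ContDiff ℝ ((n : WithTop ℕ∞) + 1) (fun z : C(K, X) => g.comp z) := by
      refine contDiff_succ_iff_hasFDerivAt.mpr
        ⟨fun y => ptApp K X Y ((⟨D, hD.continuous⟩ : C(X, X →L[ℝ] Y)).comp y), ?_, ?_⟩
      · exact (ptApp K X Y).contDiff.comp (ih _ ⟨D, hD.continuous⟩ hD)
      · intro y
        exact nemytskii_deriv g ⟨D, hD.continuous⟩ hD' y
    exact_mod_cast h1

theorem nemytskii {Y : Type} [NormedAddCommGroup Y] [NormedSpace ℝ Y]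
    (g : C(X, Y)) (hg : ContDiff ℝ ∞ g) : ContDiff ℝ ∞ (fun z : C(K, X) => g.comp z) :=
  contDiff_infty.mpr fun n => nemytskii_nat n Y g (contDiff_infty.mp hg n)

end Nemytskii

section Integration

variable [CompleteSpace X]

omit [NormedSpace ℝ X] [CompleteSpace X] in
theorem ext_cont (y : C(Icc (0 : ℝ) 1, X)) :
    Continuous (fun s : ℝ => y (projIcc 0 1 zero_le_one s)) :=
  y.continuous.comp continuous_projIcc

theorem prim_hasDerivAt (y : C(Icc (0 : ℝ) 1, X)) (t : ℝ) :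
    HasDerivAt (fun u : ℝ => ∫ s in (0 : ℝ)..u, y (projIcc 0 1 zero_le_one s))
      (y (projIcc 0 1 zero_le_one t)) t :=
  ((ext_cont y).integral_hasStrictDerivAt 0 t).hasDerivAt

/-- Integration from zero, as an operator on continuous curves. -/
noncomputable def primOp (X : Type) [NormedAddCommGroup X] [NormedSpace ℝ X] [CompleteSpace X] :
    C(Icc (0 : ℝ) 1, X) →L[ℝ] C(Icc (0 : ℝ) 1, X) :=
  LinearMap.mkContinuous
    { toFun := fun y => ⟨fun t => ∫ s in (0 : ℝ)..(t : ℝ), y (projIcc 0 1 zero_le_one s),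
        (continuous_iff_continuousAt.mpr fun t => (prim_hasDerivAt y t).continuousAt).comp
          continuous_subtype_val⟩
      map_add' := fun y z => by
        ext t
        simp only [ContinuousMap.coe_mk, ContinuousMap.add_apply]
        exact intervalIntegral.integral_add ((ext_cont y).intervalIntegrable _ _)
          ((ext_cont z).intervalIntegrable _ _)
      map_smul' := fun c y => by
        ext t
        simp only [ContinuousMap.coe_mk, ContinuousMap.smul_apply, RingHom.id_apply]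
        exact intervalIntegral.integral_smul _ _ } 1
    (fun y => by
      rw [ContinuousMap.norm_le _ (by positivity)]
      intro t
      have h1 := intervalIntegral.norm_integral_le_of_norm_le_const (a := 0) (b := (t : ℝ))
        (C := ‖y‖) (f := fun s => y (projIcc 0 1 zero_le_one s))
        (fun s _ => y.norm_coe_le_norm _)
      have h2 : |(t : ℝ) - 0| ≤ 1 := by
        rw [sub_zero, abs_of_nonneg t.2.1]; exact t.2.2
      calc _ ≤ ‖y‖ * |(t : ℝ) - 0| := h1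
        _ ≤ ‖y‖ * 1 := mul_le_mul_of_nonneg_left h2 (norm_nonneg _)
        _ = 1 * ‖y‖ := by ring)

theorem primOp_apply (y : C(Icc (0 : ℝ) 1, X)) (t : Icc (0 : ℝ) 1) :
    primOp X y t = ∫ s in (0 : ℝ)..(t : ℝ), y (projIcc 0 1 zero_le_one s) := rfl

/-- The solution of the integral equation depends smoothly on the parameters. -/
theorem exists_sol (g : C(X, X)) (hg : ContDiff ℝ ∞ g) (x₀ : X) :
    ∃ W ∈ 𝓝 ((0 : ℝ), x₀), ∃ Y : ℝ × X → C(Icc (0 : ℝ) 1, X), ContDiffOn ℝ ∞ Y W ∧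
      ContinuousAt Y (0, x₀) ∧ Y (0, x₀) = ContinuousMap.const _ x₀ ∧
      ∀ p ∈ W, Y p - p.1 • primOp X (g.comp (Y p)) = ContinuousMap.const _ p.2 := by
  set N : C(Icc (0 : ℝ) 1, X) → C(Icc (0 : ℝ) 1, X) := fun z => primOp X (g.comp z) with hN
  have hNs : ContDiff ℝ ∞ N := (primOp X).contDiff.comp (nemytskii g hg)
  set Ψ : ℝ × C(Icc (0 : ℝ) 1, X) → ℝ × C(Icc (0 : ℝ) 1, X) :=
    fun q => (q.1, q.2 - q.1 • N q.2) with hΨ
  have hΨs : ContDiff ℝ ∞ Ψ :=
    contDiff_fst.prodMk (contDiff_snd.sub (contDiff_fst.smul (hNs.comp contDiff_snd)))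
  set y₀ : C(Icc (0 : ℝ) 1, X) := ContinuousMap.const _ x₀ with hy₀
  set L : (ℝ × C(Icc (0 : ℝ) 1, X)) ≃L[ℝ] (ℝ × C(Icc (0 : ℝ) 1, X)) :=
    (ContinuousLinearEquiv.refl ℝ ℝ).skewProd (ContinuousLinearEquiv.refl ℝ _)
      (-(ContinuousLinearMap.id ℝ ℝ).smulRight (N y₀)) with hL
  have hd : HasFDerivAt Ψ (L : _ →L[ℝ] _) ((0 : ℝ), y₀) := by
    have h1 : HasFDerivAt N (fderiv ℝ N y₀) y₀ :=
      (hNs.differentiable (by simp) y₀).hasFDerivAt
    have h2 : HasFDerivAt (fun q : ℝ × C(Icc (0 : ℝ) 1, X) => N q.2)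
        ((fderiv ℝ N y₀).comp (ContinuousLinearMap.snd ℝ ℝ _)) ((0 : ℝ), y₀) :=
      HasFDerivAt.comp ((0 : ℝ), y₀) (g := N) (f := Prod.snd) h1 hasFDerivAt_snd
    have h3 := (hasFDerivAt_fst (𝕜 := ℝ) (p := ((0 : ℝ), y₀))).prodMk
      ((hasFDerivAt_snd (𝕜 := ℝ) (p := ((0 : ℝ), y₀))).sub
        ((hasFDerivAt_fst (𝕜 := ℝ) (p := ((0 : ℝ), y₀))).smul h2))
    refine h3.congr_fderiv ?_
    refine ContinuousLinearMap.ext fun q => ?_
    simp [hL, sub_eq_add_neg]
  set e := (hΨs.contDiffAt (x := ((0 : ℝ), y₀))).toOpenPartialHomeomorph Ψ hd (by simp) with he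
  have hec : (e : _ → _) = Ψ := ContDiffAt.toOpenPartialHomeomorph_coe _ _ _
  have hsrc : ((0 : ℝ), y₀) ∈ e.source := ContDiffAt.mem_toOpenPartialHomeomorph_source _ _ _
  have hΨ0 : Ψ ((0 : ℝ), y₀) = ((0 : ℝ), y₀) := by simp [hΨ]
  have htgt : ((0 : ℝ), y₀) ∈ e.target := by
    have := e.map_source hsrc
    rwa [hec, hΨ0] at this
  have hsymm : e.symm ((0 : ℝ), y₀) = ((0 : ℝ), y₀) := by
    have := e.left_inv hsrc
    rwa [hec, hΨ0] at this
  have hcs : ContinuousAt e.symm ((0 : ℝ), y₀) := e.continuousAt_symm htgt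
  set ι : ℝ × X → ℝ × C(Icc (0 : ℝ) 1, X) := fun p => (p.1, ContinuousMap.const _ p.2) with hι
  have hιs : ContDiff ℝ ∞ ι :=
    contDiff_fst.prodMk
      ((ContinuousLinearMap.const ℝ (Icc (0 : ℝ) 1) : X →L[ℝ] _).contDiff.comp contDiff_snd)
  have hι0 : ι (0, x₀) = ((0 : ℝ), y₀) := rfl
  have hcomp : ContinuousAt (fun p => e.symm (ι p)) (0, x₀) :=
    ContinuousAt.comp_of_eq hcs hιs.continuous.continuousAt hι0
  have hev1 : ∀ᶠ p in 𝓝 ((0 : ℝ), x₀), ι p ∈ e.target :=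
    hιs.continuous.continuousAt.eventually (by rw [hι0]; exact e.open_target.mem_nhds htgt)
  have hev2 : ∀ᶠ p in 𝓝 ((0 : ℝ), x₀), fderiv ℝ Ψ (e.symm (ι p)) ∈
      range ((↑) : ((ℝ × C(Icc (0 : ℝ) 1, X)) ≃L[ℝ] (ℝ × C(Icc (0 : ℝ) 1, X))) → _ →L[ℝ] _) := by
    have h1 : ContinuousAt (fun p => fderiv ℝ Ψ (e.symm (ι p))) (0, x₀) :=
      (hΨs.continuous_fderiv (by simp)).continuousAt.comp hcomp
    refine h1.eventually (ContinuousLinearEquiv.isOpen.mem_nhds ?_)
    refine ⟨L, ?_⟩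
    show _ = fderiv ℝ Ψ (e.symm (ι (0, x₀)))
    rw [hι0, hsymm, hd.fderiv]
  refine ⟨_, hev1.and hev2, fun p => (e.symm (ι p)).2, ?_, hcomp.snd, ?_, ?_⟩
  · rintro p ⟨hp1, L', hp2⟩
    have h1 : HasFDerivAt e (L' : _ →L[ℝ] _) (e.symm (ι p)) := by
      rw [hec, hp2]
      exact (hΨs.differentiable (by simp) _).hasFDerivAt
    have h2 : ContDiffAt ℝ ∞ e.symm (ι p) :=
      e.contDiffAt_symm hp1 h1 (by rw [hec]; exact hΨs.contDiffAt)
    exact ((h2.comp p hιs.contDiffAt).snd).contDiffWithinAt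
  · show (e.symm (ι (0, x₀))).2 = _
    rw [hι0, hsymm]
  · rintro p ⟨hp1, -⟩
    have h1 := e.right_inv hp1
    rw [hec] at h1
    have h2 : (e.symm (ι p)).1 = p.1 := congrArg Prod.fst h1
    have h3 : (e.symm (ι p)).2 - (e.symm (ι p)).1 • N (e.symm (ι p)).2
        = ContinuousMap.const _ p.2 := congrArg Prod.snd h1
    rw [h2] at h3
    exact h3

/-- A solution of the integral equation is a rescaled integral curve. -/
theorem sol_eq (g : C(X, X)) {C : NNReal} (hC : LipschitzWith C g) {τ η : ℝ} {x : X}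
    {y : C(Icc (0 : ℝ) 1, X)} (hy : y - τ • primOp X (g.comp y) = ContinuousMap.const _ x)
    {α : ℝ → X} (h0 : α 0 = x) (hα : ∀ t ∈ Ioo (0 - η) (0 + η), HasDerivAt α (g (α t)) t)
    (hτ : |τ| < η) : y ⟨1, by simp⟩ = α τ := by
  set w : ℝ → X := fun u => x + τ • ∫ s in (0 : ℝ)..u, (g.comp y) (projIcc 0 1 zero_le_one s)
    with hw
  have hwy : ∀ t : Icc (0 : ℝ) 1, w t = y t := by
    intro t
    have h1 := congrArg (fun z : C(Icc (0 : ℝ) 1, X) => z t) hy
    simp only [ContinuousMap.sub_apply, ContinuousMap.smul_apply, primOp_apply,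
      ContinuousMap.const_apply] at h1
    rw [hw, ← h1]
    simp
  have hwd : ∀ t ∈ Icc (0 : ℝ) 1, HasDerivAt w (τ • g (w t)) t := by
    intro t ht
    have h1 := ((prim_hasDerivAt (g.comp y) t).const_smul τ).const_add x
    have h2 : (g.comp y) (projIcc 0 1 zero_le_one t) = g (w t) := by
      rw [projIcc_of_mem _ ht, ContinuousMap.comp_apply, ← hwy]
    rw [h2] at h1
    exact h1
  have hvd : ∀ t ∈ Icc (0 : ℝ) 1, HasDerivAt (fun u => α (τ * u)) (τ • g (α (τ * t))) t := by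
    intro t ht
    have h1 : |τ * t| < η := by
      rw [abs_mul, abs_of_nonneg ht.1]
      exact lt_of_le_of_lt (mul_le_of_le_one_right (abs_nonneg _) ht.2) hτ
    have h2 : τ * t ∈ Ioo (0 - η) (0 + η) := by
      rw [abs_lt] at h1
      constructor <;> linarith [h1.1, h1.2]
    have h3 : HasDerivAt (fun u : ℝ => τ * u) τ t := by
      simpa using (hasDerivAt_id t).const_mul τ
    exact (hα _ h2).scomp t h3
  have hL : ∀ _ : ℝ, LipschitzWith (‖τ‖₊ * C) (fun z => τ • g z) := fun _ =>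
    (lipschitzWith_smul τ).comp hC
  have huniq := ODE_solution_unique (v := fun _ z => τ • g z) (a := 0) (b := 1) hL
    (f := w) (g := fun u => α (τ * u))
    (fun t ht => (hwd t ht).continuousAt.continuousWithinAt)
    (fun t ht => (hwd t (Ico_subset_Icc_self ht)).hasDerivWithinAt)
    (fun t ht => (hvd t ht).continuousAt.continuousWithinAt)
    (fun t ht => (hvd t (Ico_subset_Icc_self ht)).hasDerivWithinAt)
    (by simp [hw, h0])
  have h1 := huniq (show (1 : ℝ) ∈ Icc (0 : ℝ) 1 by simp)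
  rw [← hwy]
  simpa using h1

end Integration

/-- A smooth vector field has a jointly smooth local flow. -/
theorem exists_flow [FiniteDimensional ℝ X] {f : X → X} {U : Set X} (hU : IsOpen U)
    (hf : ContDiffOn ℝ ∞ f U) {x₀ : X} (hx : x₀ ∈ U) :
    ∃ δ > 0, ∃ φ : ℝ × X → X, ContDiffOn ℝ ∞ φ (ball (0 : ℝ) δ ×ˢ ball x₀ δ) ∧
      ∀ x ∈ ball x₀ δ, φ (0, x) = x ∧ ∀ t ∈ ball (0 : ℝ) δ, φ (t, x) ∈ U ∧
        HasDerivAt (fun s => φ (s, x)) (f (φ (t, x))) t := by
  have : CompleteSpace X := FiniteDimensional.complete ℝ X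
  obtain ⟨R, hR, hRU⟩ := Metric.nhds_basis_closedBall.mem_iff.mp (hU.mem_nhds hx)
  let b : ContDiffBump x₀ := ⟨R / 2, R, by positivity, by linarith⟩
  have hbs : tsupport b = closedBall x₀ R := b.tsupport_eq
  have hgs : ContDiff ℝ ∞ (fun x => b x • f x) := by
    refine contDiff_iff_contDiffAt.mpr fun x => ?_
    by_cases hxU : x ∈ U
    · exact b.contDiff.contDiffAt.smul (hf.contDiffAt (hU.mem_nhds hxU))
    · have h1 : x ∉ tsupport b := fun h => hxU (hRU (hbs ▸ h))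
      have h2 : (fun x => b x • f x) =ᶠ[𝓝 x] fun _ => 0 := by
        filter_upwards [notMem_tsupport_iff_eventuallyEq.mp h1] with z hz
        simp [hz]
      exact contDiffAt_const.congr_of_eventuallyEq h2
  have hgc : HasCompactSupport (fun x => b x • f x) := b.hasCompactSupport.smul_right
  obtain ⟨C, hC⟩ := hgs.lipschitzWith_of_hasCompactSupport hgc (by simp)
  let g : C(X, X) := ⟨fun x => b x • f x, hgs.continuous⟩
  have hgf : ∀ x ∈ ball x₀ (R / 2), g x = f x := by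
    intro x hx
    show b x • f x = f x
    rw [b.one_of_mem_closedBall (ball_subset_closedBall hx), one_smul]
  obtain ⟨W, hW, Y, hYs, hYc, hY0, hYe⟩ := exists_sol g hgs x₀
  have hg1 : ContDiffAt ℝ 1 g x₀ := (hgs.of_le (by simp)).contDiffAt
  obtain ⟨r, hr, η, hη, hsol⟩ :=
    hg1.exists_forall_mem_closedBall_exists_eq_forall_mem_Ioo_hasDerivAt 0
  set one : Icc (0 : ℝ) 1 := ⟨1, by simp⟩ with hone
  have hφc : ContinuousAt (fun p => Y p one) (0, x₀) :=
    (ContinuousMap.evalCLM ℝ one).continuous.continuousAt.comp hYc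
  have hev : ∀ᶠ p in 𝓝 ((0 : ℝ), x₀), Y p one ∈ ball x₀ (R / 2) := by
    refine hφc.eventually (isOpen_ball.mem_nhds ?_)
    show Y (0, x₀) one ∈ _
    rw [hY0]
    exact mem_ball_self (by positivity)
  obtain ⟨ρ, hρ, hρW⟩ := Metric.mem_nhds_iff.mp (inter_mem hW hev)
  set δ := min ρ (min r η) with hδ
  have hδρ : δ ≤ ρ := min_le_left _ _
  have hδr : δ ≤ r := (min_le_right _ _).trans (min_le_left _ _)
  have hδη : δ ≤ η := (min_le_right _ _).trans (min_le_right _ _)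
  have hδ0 : 0 < δ := lt_min hρ (lt_min hr hη)
  have hsub : ball (0 : ℝ) δ ×ˢ ball x₀ δ ⊆ ball ((0 : ℝ), x₀) ρ := by
    rw [ball_prod_same]
    exact ball_subset_ball hδρ
  refine ⟨δ, hδ0, fun p => Y p one, ?_, ?_⟩
  · exact (ContinuousMap.evalCLM ℝ one).contDiff.comp_contDiffOn
      (hYs.mono fun p hp => (hρW (hsub hp)).1)
  · intro x hxδ
    obtain ⟨α, hα0, hα⟩ := hsol x (ball_subset_closedBall (ball_subset_ball hδr hxδ))
    have heq : ∀ t ∈ ball (0 : ℝ) δ, Y (t, x) one = α t := by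
      intro t ht
      have h1 : |t| < η := by
        have := mem_ball_zero_iff.mp ht
        rw [Real.norm_eq_abs] at this
        exact lt_of_lt_of_le this hδη
      exact sol_eq g hC (hYe (t, x) (hρW (hsub ⟨ht, hxδ⟩)).1) hα0 hα h1
    refine ⟨?_, fun t ht => ?_⟩
    · show Y (0, x) one = x
      rw [heq 0 (mem_ball_self hδ0), hα0]
    · have hb : Y (t, x) one ∈ ball x₀ (R / 2) := (hρW (hsub ⟨ht, hxδ⟩)).2
      refine ⟨hRU (ball_subset_closedBall (ball_subset_ball (by linarith) hb)), ?_⟩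
      show HasDerivAt (fun s => Y (s, x) one) (f (Y (t, x) one)) t
      rw [← hgf _ hb, heq t ht]
      have h1 : t ∈ Ioo (0 - η) (0 + η) := by
        have := mem_ball_zero_iff.mp ht
        rw [Real.norm_eq_abs, abs_lt] at this
        constructor <;> linarith [this.1, this.2]
      refine (hα t h1).congr_of_eventuallyEq ?_
      filter_upwards [isOpen_ball.mem_nhds ht] with s hs
      exact heq s hs

theorem ode_unique_nhds {f : X → X} {y₁ y₂ : ℝ → X} {t₀ : ℝ} (hf : ContDiffAt ℝ 1 f (y₁ t₀))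
    (h₁ : ∀ᶠ t in 𝓝 t₀, HasDerivAt y₁ (f (y₁ t)) t)
    (h₂ : ∀ᶠ t in 𝓝 t₀, HasDerivAt y₂ (f (y₂ t)) t) (h : y₁ t₀ = y₂ t₀) :
    y₁ =ᶠ[𝓝 t₀] y₂ := by
  obtain ⟨K, s, hs, hK⟩ := hf.exists_lipschitzOnWith
  have c₁ : ∀ᶠ t in 𝓝 t₀, y₁ t ∈ s := h₁.self_of_nhds.continuousAt.eventually hs
  have c₂ : ∀ᶠ t in 𝓝 t₀, y₂ t ∈ s :=
    h₂.self_of_nhds.continuousAt.eventually (by rw [← h]; exact hs)
  exact ODE_solution_unique_of_eventually (v := fun _ => f) (s := fun _ => s) (K := K)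
    (Eventually.of_forall fun _ => hK) (h₁.and c₁) (h₂.and c₂) h

theorem ode_unique_on {f : X → X} {U : Set X} (hU : IsOpen U) (hf : ContDiffOn ℝ 1 f U)
    {y₁ y₂ : ℝ → X} {s : Set ℝ} (hs : IsPreconnected s) (hso : IsOpen s)
    (h₁ : ∀ t ∈ s, y₁ t ∈ U ∧ HasDerivAt y₁ (f (y₁ t)) t)
    (h₂ : ∀ t ∈ s, HasDerivAt y₂ (f (y₂ t)) t) {t₀ : ℝ} (ht₀ : t₀ ∈ s) (h : y₁ t₀ = y₂ t₀) :
    EqOn y₁ y₂ s := by
  have loc : ∀ t ∈ s, y₁ t = y₂ t → y₁ =ᶠ[𝓝 t] y₂ := by
    intro t ht hte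
    refine ode_unique_nhds (hf.contDiffAt (hU.mem_nhds (h₁ t ht).1)) ?_ ?_ hte
    · filter_upwards [hso.mem_nhds ht] with u hu using (h₁ u hu).2
    · filter_upwards [hso.mem_nhds ht] with u hu using h₂ u hu
  have hsub : s ⊆ {t | y₁ =ᶠ[𝓝 t] y₂} := by
    refine hs.subset_of_closure_inter_subset isOpen_setOfPred_eventually_nhds
      ⟨t₀, ht₀, loc t₀ ht₀ h⟩ ?_
    rintro t ⟨htc, ht⟩
    refine loc t ht ?_
    have hfr : ∃ᶠ u in 𝓝 t, y₁ u = y₂ u :=
      (mem_closure_iff_frequently.mp htc).mono fun u hu => hu.eq_of_nhds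
    exact tendsto_nhds_unique_of_frequently_eq (h₁ t ht).2.continuousAt (h₂ t ht).continuousAt hfr
  exact fun t ht => (hsub ht).eq_of_nhds

end Pool.Agent.MP_3fed84_gt
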