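import Mathlib

/-! A path lifting lemma for separated local homeomorphisms. -/

open Set Filter Topology

namespace Pool.Agent.MP_3fed84_gt

variable {X Y : Type} [TopologicalSpace X] [TopologicalSpace Y]

theorem lift_extend {e : OpenPartialHomeomorph Y X} {c : ℝ → X} (hc : ContinuousOn c (Icc 0 1))
    {Γ : ℝ → Y} {s t : ℝ} (h0 : 0 ≤ s) (hst : s ≤ t) (ht : t ≤ 1) (hΓ : ContinuousOn Γ (Icc 0 s))
    (hl : ∀ u ∈ Icc 0 s, e (Γ u) = c u) (hs : Γ s ∈ e.source) (htg : ∀ u ∈ Icc s t, c u ∈ e.target) :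
    ∃ Γ' : ℝ → Y, ContinuousOn Γ' (Icc 0 t) ∧ (∀ u ∈ Icc 0 t, e (Γ' u) = c u) ∧
      (∀ u ≤ s, Γ' u = Γ u) ∧ ∀ u ∈ Icc s t, Γ' u = e.symm (c u) := by
  have h1 : ∀ u ∈ Icc s t, (if u ≤ s then Γ u else e.symm (c u)) = e.symm (c u) := by
    intro u hu
    split_ifs with h
    · obtain rfl := le_antisymm h hu.1
      rw [← hl u ⟨h0, le_rfl⟩, e.left_inv hs]
    · rfl
  refine ⟨fun u => if u ≤ s then Γ u else e.symm (c u), ?_, fun u hu => ?_,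
    fun u hu => if_pos hu, h1⟩
  · rw [← Icc_union_Icc_eq_Icc h0 hst]
    refine ContinuousOn.union_of_isClosed (hΓ.congr fun u hu => if_pos hu.2)
      (ContinuousOn.congr ?_ h1) isClosed_Icc isClosed_Icc
    exact e.continuousOn_symm.comp (hc.mono (Icc_subset_Icc h0 ht)) htg
  · dsimp only
    split_ifs with h
    · exact hl u ⟨hu.1, h⟩
    · exact e.right_inv (htg u ⟨(not_le.1 h).le, hu.2⟩)

theorem exists_lift {p : Y → X} (hp : IsLocalHomeomorph p) (hsep : IsSeparatedMap p)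
    {c : ℝ → X} (hc : ContinuousOn c (Icc 0 1)) {Q : ℝ → Y → Prop} {y₀ : Y} (h0 : p y₀ = c 0)
    (hQ0 : Q 0 y₀)
    (hcl : ∀ t ∈ Ioc (0 : ℝ) 1, ∀ Γ : ℝ → Y, ContinuousOn Γ (Ico 0 t) →
      (∀ s ∈ Ico 0 t, p (Γ s) = c s ∧ Q s (Γ s)) →
      ∃ y, p y = c t ∧ Q t y ∧ MapClusterPt y (𝓝[<] t) Γ)
    (hop : ∀ t ∈ Ico (0 : ℝ) 1, ∀ y, p y = c t → Q t y →
      ∀ᶠ z in 𝓝[>] t ×ˢ 𝓝 y, p z.2 = c z.1 → Q z.1 z.2) :
    ∃ Γ : ℝ → Y, ContinuousOn Γ (Icc 0 1) ∧ Γ 0 = y₀ ∧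
      ∀ t ∈ Icc (0 : ℝ) 1, p (Γ t) = c t ∧ Q t (Γ t) := by
  let L : Set ℝ := {t | ∃ Γ : ℝ → Y, ContinuousOn Γ (Icc 0 t) ∧ Γ 0 = y₀ ∧
    ∀ s ∈ Icc (0 : ℝ) t, p (Γ s) = c s ∧ Q s (Γ s)}
  have huniq : ∀ (t : ℝ) (Γ Γ' : ℝ → Y), ContinuousOn Γ (Icc 0 t) → ContinuousOn Γ' (Icc 0 t) →
      Γ 0 = Γ' 0 → (∀ s ∈ Icc (0 : ℝ) t, p (Γ s) = c s) → (∀ s ∈ Icc (0 : ℝ) t, p (Γ' s) = c s) →
      ∀ s ∈ Icc (0 : ℝ) t, Γ s = Γ' s := fun t Γ Γ' h1 h2 h3 h4 h5 s hs =>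
    hsep.eqOn_of_comp_eqOn hp.isLocallyInjective isPreconnected_Icc h1 h2
      (fun u hu => (h4 u hu).trans (h5 u hu).symm) ⟨le_rfl, hs.1.trans hs.2⟩ h3 hs
  have hL0 : (0 : ℝ) ∈ L := ⟨fun _ => y₀, continuousOn_const, rfl, fun s hs => by
    obtain rfl := le_antisymm hs.2 hs.1
    exact ⟨h0, hQ0⟩⟩
  have hlim : ∀ t ∈ Ioc (0 : ℝ) 1, (∀ s ∈ Ico 0 t, s ∈ L) → t ∈ L := by
    intro t ht h
    have : Nonempty Y := ⟨y₀⟩
    choose! G hG1 hG2 hG3 using h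
    have hGG : ∀ s ∈ Ico 0 t, ∀ u ∈ Icc 0 s, G u u = G s u := fun s hs u hu =>
      have hu' : u ∈ Ico 0 t := ⟨hu.1, hu.2.trans_lt hs.2⟩
      huniq u _ _ (hG1 u hu') ((hG1 s hs).mono (Icc_subset_Icc_right hu.2))
        ((hG2 u hu').trans (hG2 s hs).symm) (fun v hv => (hG3 u hu' v hv).1)
        (fun v hv => (hG3 s hs v ⟨hv.1, hv.2.trans hu.2⟩).1) u ⟨hu.1, le_rfl⟩
    have hcont : ContinuousOn (fun u => G u u) (Ico 0 t) := by
      intro u hu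
      obtain ⟨s, hs1, hs2⟩ := exists_between hu.2
      have hs : s ∈ Ico 0 t := ⟨hu.1.trans hs1.le, hs2⟩
      refine ((hG1 s hs).congr (hGG s hs) u ⟨hu.1, hs1.le⟩).mono_of_mem_nhdsWithin ?_
      exact mem_of_superset (inter_mem_nhdsWithin _ (Iio_mem_nhds hs1))
        fun v hv => ⟨hv.1.1, le_of_lt hv.2⟩
    obtain ⟨y, hy1, hy2, hy3⟩ := hcl t ht _ hcont fun s hs => hG3 s hs s ⟨hs.1, le_rfl⟩
    obtain ⟨e, hye, rfl⟩ := hp y
    have h1 : ∀ᶠ u in 𝓝[<] t, c u ∈ e.target :=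
      ((hc t ⟨ht.1.le, ht.2⟩).mono_of_mem_nhdsWithin
        (mem_of_superset (Ioo_mem_nhdsLT ht.1) fun v hv => ⟨hv.1.le, hv.2.le.trans ht.2⟩)).tendsto
        (e.open_target.mem_nhds (hy1 ▸ e.map_source hye))
    obtain ⟨s1, hs1, h2⟩ := (mem_nhdsLT_iff_exists_mem_Ico_Ioo_subset ht.1).1 h1
    obtain ⟨s, hs, hs'⟩ := ((mapClusterPt_iff_frequently.1 hy3 _
      (e.open_source.mem_nhds hye)).and_eventually (Ioo_mem_nhdsLT hs1.2)).exists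
    have hs0 : s ∈ Ico 0 t := ⟨hs1.1.trans hs'.1.le, hs'.2⟩
    obtain ⟨Γ, h3, h4, h5, h6⟩ := lift_extend hc hs0.1 hs'.2.le ht.2 (hG1 s hs0)
      (fun u hu => (hG3 s hs0 u hu).1) hs (fun u hu => by
        rcases hu.2.lt_or_eq with h | rfl
        · exact h2 ⟨hs'.1.trans_le hu.1, h⟩
        · exact hy1 ▸ e.map_source hye)
    have h7 : Γ 0 = y₀ := (h5 0 hs0.1).trans (hG2 s hs0)
    refine ⟨Γ, h3, h7, fun u hu => ⟨h4 u hu, ?_⟩⟩
    rcases hu.2.lt_or_eq with h | rfl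
    · have hu' : u ∈ Ico 0 t := ⟨hu.1, h⟩
      rw [huniq u Γ (G u) (h3.mono (Icc_subset_Icc_right hu.2)) (hG1 u hu')
        (h7.trans (hG2 u hu').symm) (fun v hv => h4 v ⟨hv.1, hv.2.trans hu.2⟩)
        (fun v hv => (hG3 u hu' v hv).1) u ⟨hu.1, le_rfl⟩]
      exact (hG3 u hu' u ⟨hu.1, le_rfl⟩).2
    · rw [h6 u ⟨hs'.2.le, le_rfl⟩, ← hy1, e.left_inv hye]
      exact hy2
  refine IsClosed.mem_of_ge_of_forall_exists_gt (s := L) ?_ hL0 zero_le_one ?_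
  · refine isClosed_of_closure_subset fun t ht => ?_
    have ht' : t ∈ Icc (0 : ℝ) 1 := closure_minimal inter_subset_right isClosed_Icc ht
    refine ⟨?_, ht'⟩
    rcases ht'.1.lt_or_eq with h | rfl
    · refine hlim t ⟨h, ht'.2⟩ fun s hs => ?_
      obtain ⟨u, hu, ⟨Γ, h1, h2, h3⟩, -⟩ := mem_closure_iff_nhds.1 ht _ (Ioi_mem_nhds hs.2)
      exact ⟨Γ, h1.mono (Icc_subset_Icc_right (le_of_lt hu)), h2,
        fun v hv => h3 v ⟨hv.1, hv.2.trans (le_of_lt hu)⟩⟩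
    · exact hL0
  · rintro t ⟨⟨Γ, h1, h2, h3⟩, ht⟩
    obtain ⟨h4, h5⟩ := h3 t ⟨ht.1, le_rfl⟩
    obtain ⟨e, hye, rfl⟩ := hp (Γ t)
    have h6 : Tendsto c (𝓝[>] t) (𝓝 (e (Γ t))) := by
      rw [h4]
      exact ((hc t ⟨ht.1, ht.2.le⟩).mono_of_mem_nhdsWithin
        (mem_of_superset (Ioo_mem_nhdsGT ht.2) fun v hv => ⟨ht.1.trans hv.1.le, hv.2.le⟩)).tendsto
    have h7 : Tendsto (fun u => (u, e.symm (c u))) (𝓝[>] t) (𝓝[>] t ×ˢ 𝓝 (Γ t)) :=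
      tendsto_id.prodMk ((e.tendsto_symm hye).comp h6)
    have h8 := (h6.eventually (e.open_target.mem_nhds (e.map_source hye))).and
      ((h7.eventually (hop t ht _ h4 h5)).and (Ioo_mem_nhdsGT ht.2))
    obtain ⟨u, hu, h9⟩ := mem_nhdsGT_iff_exists_Ioc_subset.1 h8
    have hu1 : u ≤ 1 := (h9 ⟨hu, le_rfl⟩).2.2.2.le
    obtain ⟨Γ', a1, a2, a3, a4⟩ := lift_extend hc ht.1 (le_of_lt hu) hu1 h1
      (fun v hv => (h3 v hv).1) hye (fun v hv => by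
        rcases hv.1.lt_or_eq with h | rfl
        · exact (h9 ⟨h, hv.2⟩).1
        · exact h4 ▸ e.map_source hye)
    refine ⟨u, ⟨Γ', a1, (a3 0 ht.1).trans h2, fun v hv => ⟨a2 v hv, ?_⟩⟩, hu, hu1⟩
    rcases le_or_gt v t with h | h
    · rw [a3 v h]; exact (h3 v ⟨hv.1, h⟩).2
    · rw [a4 v ⟨h.le, hv.2⟩]
      exact (h9 ⟨h, hv.2⟩).2.1 (e.right_inv (h9 ⟨h, hv.2⟩).1)

/-- A separated local homeomorphism over a simply connected space along which all paths from the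
base point lift has a continuous section. -/
theorem exists_section [SimplyConnectedSpace X] [LocallyPathConnectedSpace X] {p : Y → X}
    (hp : IsLocalHomeomorph p) (hsep : IsSeparatedMap p) (y₀ : Y)
    (hl : ∀ c : ℝ → X, ContinuousOn c (Icc 0 1) → c 0 = p y₀ →
      ∃ Γ : ℝ → Y, ContinuousOn Γ (Icc 0 1) ∧ Γ 0 = y₀ ∧ ∀ t ∈ Icc (0 : ℝ) 1, p (Γ t) = c t) :
    ∃ s : X → Y, Continuous s ∧ s (p y₀) = y₀ ∧ ∀ x, p (s x) = x := by
  have ex : ∀ γ : C(unitInterval, X), γ 0 = p y₀ →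
      ∃ Γ : C(unitInterval, Y), Γ 0 = y₀ ∧ ∀ t, p (Γ t) = γ t := by
    intro γ h
    obtain ⟨Γ, h1, h2, h3⟩ := hl (fun t => γ (projIcc 0 1 zero_le_one t))
      (γ.continuous.comp continuous_projIcc).continuousOn (by simpa using h)
    exact ⟨⟨fun t => Γ t, h1.domRestrict⟩, h2, fun t => by simpa using h3 t t.2⟩
  obtain ⟨F, ⟨h1, h2⟩, -⟩ := hp.existsUnique_continuousMap_lifts (ContinuousMap.id X) (p y₀) y₀ rfl
    (fun γ h => by
      obtain ⟨Γ, h1, h2⟩ := ex γ h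
      exact ⟨Γ, h1, funext h2⟩)
    (fun γ γ' Γ Γ' a1 a2 a3 a4 a5 a6 a7 => by
      let pγ : Path (p y₀) (γ 1) := ⟨γ, a1, rfl⟩
      let pγ' : Path (p y₀) (γ 1) := ⟨γ', a2, a7.symm⟩
      obtain ⟨H⟩ := SimplyConnectedSpace.paths_homotopic pγ pγ'
      choose G b1 b2 using fun t : unitInterval =>
        ex (H.toHomotopy.curry t) ((H.eq_fst t (Or.inl rfl)).trans a1)
      have h := hp.monodromy_theorem hsep H G (fun t s => b2 t s)
        (fun t => (b1 t).trans (b1 0).symm) 1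
      have c1 := hsep.eq_of_comp_eq hp.isLocallyInjective Γ.continuous (G 0).continuous
        (a5.trans (funext fun s => ((b2 0 s).trans (H.apply_zero s)).symm)) 0
        (a3.trans (b1 0).symm)
      have c2 := hsep.eq_of_comp_eq hp.isLocallyInjective Γ'.continuous (G 1).continuous
        (a6.trans (funext fun s => ((b2 1 s).trans (H.apply_one s)).symm)) 0
        (a4.trans (b1 1).symm)
      rw [congrFun c1 1, congrFun c2 1, h])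
  exact ⟨F, F.continuous, h1, congrFun h2⟩

/-- Lifts of the radial segments of a ball assemble to a continuous section. -/
theorem exists_section_ball {E : Type} [NormedAddCommGroup E] [NormedSpace ℝ E] {p : Y → X}
    (hp : IsLocalHomeomorph p) (hsep : IsSeparatedMap p) {f : E → X} {r : ℝ}
    (hf : ContinuousOn f (Metric.ball 0 r)) {w : E} (hw : w ∈ Metric.ball (0 : E) r) {y₀ : Y}
    {Q : Y → Prop}
    (hl : ∀ z ∈ Metric.ball (0 : E) r, ∃ Γ : ℝ → Y, ContinuousOn Γ (Icc 0 1) ∧ Γ 0 = y₀ ∧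
      Q (Γ 1) ∧ ∀ t ∈ Icc (0 : ℝ) 1, p (Γ t) = f (w + t • (z - w))) :
    ∃ s : E → Y, ContinuousOn s (Metric.ball 0 r) ∧ s w = y₀ ∧
      ∀ z ∈ Metric.ball (0 : E) r, p (s z) = f z ∧ Q (s z) := by
  have : Nonempty Y := ⟨y₀⟩
  choose! G h1 h2 h3 h4 using hl
  have hmem : ∀ (t : unitInterval) (z : Metric.ball (0 : E) r),
      w + (t : ℝ) • ((z : E) - w) ∈ Metric.ball (0 : E) r := fun t z =>
    (convex_ball (0 : E) r).add_smul_sub_mem hw z.2 t.2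
  have hc := hp.continuous_lift hsep (A := Metric.ball (0 : E) r)
    ⟨fun q => f (w + (q.1 : ℝ) • ((q.2 : E) - w)),
      hf.comp_continuous (by fun_prop) fun q => hmem q.1 q.2⟩
    (g := fun q => G q.2 q.1) (funext fun q => h4 _ q.2.2 _ q.1.2)
    (by
      have : (fun z : Metric.ball (0 : E) r => G z 0) = fun _ => y₀ := funext fun z => h2 _ z.2
      exact this ▸ continuous_const)
    fun z => (h1 _ z.2).domRestrict
  refine ⟨fun z => G z 1, continuousOn_iff_continuous_domRestrict.2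
    (hc.comp (Continuous.prodMk_right 1)), ?_, fun z hz => ⟨?_, h3 z hz⟩⟩
  · have := hsep.constOn_of_comp hp.isLocallyInjective isPreconnected_Icc (h1 w hw)
      (fun a ha b hb => by rw [h4 w hw a ha, h4 w hw b hb]; simp)
      (a := 1) (a' := 0) ⟨zero_le_one, le_rfl⟩ ⟨le_rfl, zero_le_one⟩
    exact this.trans (h2 w hw)
  · simpa using h4 z hz 1 ⟨zero_le_one, le_rfl⟩

end Pool.Agent.MP_3fed84_gt
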