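import Pool.Agent.MP_3fed84_gt.Pair
import Pool.Agent.MP_3fed84_gt.Lift

/-! The space of germs of local isometries. -/

open Set Metric Filter Topology
open scoped ContDiff RealInnerProductSpace

namespace Pool.Agent.MP_3fed84_gt

variable {E : Type} [NormedAddCommGroup E] [InnerProductSpace ℝ E] [FiniteDimensional ℝ E]
  {M N : Type} [TopologicalSpace M] [TopologicalSpace N]

/-- The germ of F at m, coded as the image of the neighbourhood filter under the graph map. -/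
def gf (F : M → N) (m : M) : Filter (M × N) := map (fun x => (x, F x)) (𝓝 m)

omit [TopologicalSpace N] in
theorem gf_eq_iff {F F' : M → N} {m : M} : gf F m = gf F' m ↔ F =ᶠ[𝓝 m] F' := by
  constructor
  · intro h
    have h1 : {z : M × N | z.2 = F' z.1} ∈ gf F' m := by
      simp [gf, mem_map]
    rw [← h] at h1
    exact h1
  · intro h
    exact map_congr (h.mono fun x hx => by simp [hx])

/-- Germs of local isometries. -/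
structure Gm (𝒜 : Atlas E M) (ℬ : Atlas E N) where
  pt : M
  fl : Filter (M × N)
  ex : ∃ F, LI 𝒜 ℬ F pt ∧ fl = gf F pt

variable {𝒜 : Atlas E M} {ℬ : Atlas E N}

/-- F represents the germ ξ. -/
def Gm.Rep (ξ : Gm 𝒜 ℬ) (F : M → N) : Prop := ξ.fl = gf F ξ.pt

def Gm.mk' (F : M → N) (m : M) (h : LI 𝒜 ℬ F m) : Gm 𝒜 ℬ := ⟨m, gf F m, F, h, rfl⟩

noncomputable def Gm.fn (ξ : Gm 𝒜 ℬ) : M → N := ξ.ex.choose

theorem Gm.rep_fn (ξ : Gm 𝒜 ℬ) : ξ.Rep ξ.fn := ξ.ex.choose_spec.2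

theorem Gm.Rep.eq {ξ : Gm 𝒜 ℬ} {F F' : M → N} (h : ξ.Rep F) (h' : ξ.Rep F') :
    F =ᶠ[𝓝 ξ.pt] F' := gf_eq_iff.1 (h.symm.trans h')

theorem Gm.Rep.li {ξ : Gm 𝒜 ℬ} {F : M → N} (h : ξ.Rep F) : LI 𝒜 ℬ F ξ.pt :=
  ξ.ex.choose_spec.1.congr (ξ.rep_fn.eq h)

theorem Gm.Rep.congr {ξ : Gm 𝒜 ℬ} {F F' : M → N} (h : ξ.Rep F) (h' : F =ᶠ[𝓝 ξ.pt] F') :
    ξ.Rep F' := h.trans (gf_eq_iff.2 h')

theorem Gm.ext' {ξ ξ' : Gm 𝒜 ℬ} {F : M → N} (h : ξ.Rep F) (h' : ξ'.Rep F) (hp : ξ.pt = ξ'.pt) :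
    ξ = ξ' := by
  obtain ⟨m, f, hf⟩ := ξ
  obtain ⟨m', f', hf'⟩ := ξ'
  simp only [Gm.Rep] at h h' hp
  subst hp h h'
  rfl

/-- The value of the germ. -/
noncomputable def Gm.ev (ξ : Gm 𝒜 ℬ) : N := ξ.fn ξ.pt

theorem Gm.Rep.ev {ξ : Gm 𝒜 ℬ} {F : M → N} (h : ξ.Rep F) : ξ.ev = F ξ.pt :=
  (ξ.rep_fn.eq h).eq_of_nhds

instance : TopologicalSpace (Gm 𝒜 ℬ) where
  IsOpen U := ∀ ξ ∈ U, ∀ F, ξ.Rep F → ∀ᶠ m in 𝓝 ξ.pt, ∀ ξ' : Gm 𝒜 ℬ, ξ'.pt = m → ξ'.Rep F → ξ' ∈ U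
  isOpen_univ := fun _ _ _ _ => Eventually.of_forall fun _ _ _ _ => trivial
  isOpen_inter := fun _ _ hs ht ξ hξ F hF =>
    ((hs ξ hξ.1 F hF).and (ht ξ hξ.2 F hF)).mono fun _ hm ξ' h1 h2 => ⟨hm.1 ξ' h1 h2, hm.2 ξ' h1 h2⟩
  isOpen_sUnion := fun _ hs ξ ⟨t, ht, hξ⟩ F hF =>
    (hs t ht ξ hξ F hF).mono fun _ hm ξ' h1 h2 => ⟨t, ht, hm ξ' h1 h2⟩

/-- Neighbourhoods in the germ space. -/
theorem Gm.eventually_iff {ξ : Gm 𝒜 ℬ} {F : M → N} (h : ξ.Rep F) {P : Gm 𝒜 ℬ → Prop} :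
    (∀ᶠ ξ' in 𝓝 ξ, P ξ') ↔ ∀ᶠ m in 𝓝 ξ.pt, ∀ ξ' : Gm 𝒜 ℬ, ξ'.pt = m → ξ'.Rep F → P ξ' := by
  constructor
  · intro hP
    obtain ⟨U, hU, hUo, hξ⟩ := mem_nhds_iff.1 hP
    exact (hUo ξ hξ F h).mono fun m hm ξ' h1 h2 => hU (hm ξ' h1 h2)
  · intro hP
    obtain ⟨O, hO, hOo, hξ⟩ := mem_nhds_iff.1 hP
    refine mem_nhds_iff.2 ⟨{ξ' | ξ'.pt ∈ O ∧ ξ'.Rep F}, fun ξ' h' => hO h'.1 ξ' rfl h'.2, ?_, hξ, h⟩
    intro ξ₁ h₁ F₁ hF₁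
    have e1 : F₁ =ᶠ[𝓝 ξ₁.pt] F := hF₁.eq h₁.2
    filter_upwards [hOo.mem_nhds h₁.1, e1.eventuallyEq_nhds] with m hm1 hm2 ξ' h1 h2
    subst h1
    exact ⟨hm1, h2.congr hm2⟩

theorem Gm.Rep.eventually {ξ : Gm 𝒜 ℬ} {F : M → N} (h : ξ.Rep F) : ∀ᶠ ξ' in 𝓝 ξ, ξ'.Rep F :=
  (Gm.eventually_iff h).2 (Eventually.of_forall fun _ _ _ h => h)

theorem Gm.continuous_pt : Continuous (Gm.pt : Gm 𝒜 ℬ → M) := by
  refine continuous_iff_continuousAt.2 fun ξ s hs => ?_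
  refine (Gm.eventually_iff ξ.rep_fn (P := fun ξ' => ξ'.pt ∈ s)).2 ?_
  filter_upwards [hs] with m hm ξ' h1 _
  exact h1 ▸ hm

theorem Gm.continuous_ev : Continuous (Gm.ev : Gm 𝒜 ℬ → N) := by
  refine continuous_iff_continuousAt.2 fun ξ => ?_
  have h1 : ContinuousAt (fun ξ' : Gm 𝒜 ℬ => ξ.fn ξ'.pt) ξ :=
    ContinuousAt.comp (f := Gm.pt) ξ.rep_fn.li.continuousAt Gm.continuous_pt.continuousAt
  refine h1.congr ?_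
  filter_upwards [ξ.rep_fn.eventually] with ξ' h'
  exact h'.ev.symm

/-- A map into the germ space that is eventually represented by one map is continuous. -/
theorem Gm.tendsto {α : Type} {l : Filter α} {g : α → Gm 𝒜 ℬ} {ξ : Gm 𝒜 ℬ} {F : M → N}
    (h : ξ.Rep F) (h1 : Tendsto (fun a => (g a).pt) l (𝓝 ξ.pt)) (h2 : ∀ᶠ a in l, (g a).Rep F) :
    Tendsto g l (𝓝 ξ) := by
  intro s hs
  have h3 := h1.eventually ((Gm.eventually_iff h (P := fun ξ' => ξ' ∈ s)).1 hs)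
  rw [mem_map]
  filter_upwards [h3, h2] with a ha1 ha2
  exact ha1 (g a) rfl ha2

theorem Gm.isLocalHomeomorph : IsLocalHomeomorph (Gm.pt : Gm 𝒜 ℬ → M) := by
  have ho : IsOpenMap (Gm.pt : Gm 𝒜 ℬ → M) := by
    refine isOpenMap_iff_nhds_le.2 fun ξ s hs => ?_
    have h1 := (Gm.eventually_iff ξ.rep_fn (P := fun ξ' => ξ'.pt ∈ s)).1 hs
    filter_upwards [h1, ξ.rep_fn.li.eventually] with m hm1 hm2
    exact hm1 (Gm.mk' ξ.fn m hm2) rfl rfl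
  intro ξ
  have hU : IsOpen {ξ' : Gm 𝒜 ℬ | ξ'.Rep ξ.fn} :=
    isOpen_iff_mem_nhds.2 fun ξ' h' => Gm.Rep.eventually h'
  have hi : InjOn Gm.pt {ξ' : Gm 𝒜 ℬ | ξ'.Rep ξ.fn} := fun a ha b hb hab => Gm.ext' ha hb hab
  have : Nonempty (Gm 𝒜 ℬ) := ⟨ξ⟩
  exact ⟨OpenPartialHomeomorph.ofContinuousOpen (hi.toPartialEquiv _ _)
    Gm.continuous_pt.continuousOn ho hU, ξ.rep_fn, rfl⟩

/-- Near a germ that is not represented by a local isometry F no germ is represented by F. -/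
theorem Gm.eventually_not_rep [T2Space N] {ξ : Gm 𝒜 ℬ} {F : M → N} (hF : LI 𝒜 ℬ F ξ.pt)
    (h : ¬ ξ.Rep F) : ∀ᶠ ξ' in 𝓝 ξ, ¬ ξ'.Rep F := by
  have h1 : ¬ ∃ᶠ m' in 𝓝 ξ.pt, ξ.fn =ᶠ[𝓝 m'] F := fun hfr =>
    h (ξ.rep_fn.congr (ξ.rep_fn.li.eq_of_frequently hF hfr))
  rw [not_frequently] at h1
  refine (Gm.eventually_iff ξ.rep_fn).2 ?_
  filter_upwards [h1] with m hm ξ' h2 h3 h4
  subst h2
  exact hm (h3.eq h4)

theorem Gm.isSeparatedMap [T2Space N] : IsSeparatedMap (Gm.pt : Gm 𝒜 ℬ → M) := by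
  refine isSeparatedMap_iff_disjoint_nhds.2 fun ξ₁ ξ₂ hp hne => ?_
  have h1 : LI 𝒜 ℬ ξ₂.fn ξ₁.pt := hp ▸ ξ₂.rep_fn.li
  have h2 : ¬ ξ₁.Rep ξ₂.fn := fun h => hne (Gm.ext' h ξ₂.rep_fn hp)
  exact disjoint_of_disjoint_of_mem (disjoint_compl_left (a := {ξ' : Gm 𝒜 ℬ | ξ'.Rep ξ₂.fn}))
    (Gm.eventually_not_rep h1 h2) ξ₂.rep_fn.eventually

/-- A connected set of germs over the domain of a local isometry F that meets the sheet of F lies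
in that sheet. -/
theorem Gm.rep_of_preconnected [T2Space N] {S : Set (Gm 𝒜 ℬ)} (hS : IsPreconnected S) {F : M → N}
    (hF : ∀ ξ ∈ S, LI 𝒜 ℬ F ξ.pt) {ξ₀ : Gm 𝒜 ℬ} (h₀ : ξ₀ ∈ S) (hr : ξ₀.Rep F) :
    ∀ ξ ∈ S, ξ.Rep F := by
  have hU : IsOpen {ξ' : Gm 𝒜 ℬ | ξ'.Rep F} :=
    isOpen_iff_mem_nhds.2 fun ξ' h' => Gm.Rep.eventually h'
  have hV : IsOpen {ξ' : Gm 𝒜 ℬ | LI 𝒜 ℬ F ξ'.pt ∧ ¬ ξ'.Rep F} :=
    isOpen_iff_mem_nhds.2 fun ξ' h' =>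
      (Gm.continuous_pt.continuousAt.eventually h'.1.eventually).and
        (Gm.eventually_not_rep h'.1 h'.2)
  refine hS.subset_left_of_subset_union hU hV ?_ ?_ ⟨ξ₀, h₀, hr⟩
  · exact Set.disjoint_left.2 fun a ha hb => hb.2 ha
  · intro ξ hξ
    by_cases h : ξ.Rep F
    · exact Or.inl h
    · exact Or.inr ⟨hF ξ hξ, h⟩

/-- The 1-jet of a germ in a pair of charts. -/
noncomputable def Gm.jet (c : Chart E M) (c' : Chart E N) (ξ : Gm 𝒜 ℬ) : E × (E →L[ℝ] E) :=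
  (c'.ψ ξ.ev, fderiv ℝ (c.ex c' ξ.fn) (c.ψ ξ.pt))

theorem Gm.Rep.jet {ξ : Gm 𝒜 ℬ} {F : M → N} (h : ξ.Rep F) {c : Chart E M} (c' : Chart E N)
    (hm : ξ.pt ∈ c.ψ.source) :
    ξ.jet c c' = (c.ex c' F (c.ψ ξ.pt), fderiv ℝ (c.ex c' F) (c.ψ ξ.pt)) := by
  have h1 : Tendsto c.ψ.symm (𝓝 (c.ψ ξ.pt)) (𝓝 ξ.pt) := by
    have := c.ψ.continuousAt_symm (c.ψ.map_source hm)
    rwa [ContinuousAt, c.ψ.left_inv hm] at this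
  have h2 : c.ex c' ξ.fn =ᶠ[𝓝 (c.ψ ξ.pt)] c.ex c' F :=
    ((ξ.rep_fn.eq h).comp_tendsto h1).fun_comp c'.ψ
  refine Prod.ext ?_ h2.fderiv_eq
  simp only [Gm.jet, Chart.ex, Function.comp_apply, c.ψ.left_inv hm, h.ev]

/-- Near a germ the jets are those of one representative. -/
theorem Gm.eventually_jet {c : Chart E M} (c' : Chart E N) {ξ : Gm 𝒜 ℬ}
    (hm : ξ.pt ∈ c.ψ.source) : ∀ᶠ ξ' in 𝓝 ξ, Gm.jet c c' ξ' =
      (c.ex c' ξ.fn (c.ψ ξ'.pt), fderiv ℝ (c.ex c' ξ.fn) (c.ψ ξ'.pt)) := by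
  filter_upwards [ξ.rep_fn.eventually,
    Gm.continuous_pt.continuousAt.eventually (c.ψ.open_source.mem_nhds hm)] with ξ' h1 h2
  exact h1.jet c' h2

theorem Gm.hasFDerivAt_jet {c : Chart E M} (hc : c ∈ 𝒜.S) {c' : Chart E N} (hc' : c' ∈ ℬ.S)
    {ξ : Gm 𝒜 ℬ} (hm : ξ.pt ∈ c.ψ.source) (hm' : ξ.ev ∈ c'.ψ.source) :
    HasFDerivAt (fun z => (c.ex c' ξ.fn z, fderiv ℝ (c.ex c' ξ.fn) z))
      (rol c.Γ c'.Γ (c.ψ ξ.pt, ξ.jet c c')) (c.ψ ξ.pt) := by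
  have h1 := ξ.rep_fn.li.coord hc hc' hm hm'
  have h2 := h1.self_of_nhds
  rw [ξ.rep_fn.jet c' hm]
  exact jet_hasFDerivAt c.chr c'.chr h2.1 h2.2.1 (h2.2.2.1.of_le (by norm_cast))
    (h1.mono fun z hz => hz.2.2.2)

theorem Gm.continuousAt_jet {c : Chart E M} (hc : c ∈ 𝒜.S) {c' : Chart E N} (hc' : c' ∈ ℬ.S)
    {ξ : Gm 𝒜 ℬ} (hm : ξ.pt ∈ c.ψ.source) (hm' : ξ.ev ∈ c'.ψ.source) :
    ContinuousAt (Gm.jet c c') ξ := by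
  have h1 : ContinuousAt (fun ξ' : Gm 𝒜 ℬ => c.ψ ξ'.pt) ξ :=
    ContinuousAt.comp (f := Gm.pt) (c.ψ.continuousAt hm) Gm.continuous_pt.continuousAt
  have h2 := ContinuousAt.comp (f := fun ξ' : Gm 𝒜 ℬ => c.ψ ξ'.pt)
    (Gm.hasFDerivAt_jet hc hc' hm hm').continuousAt h1
  refine h2.congr ?_
  filter_upwards [Gm.eventually_jet c' hm] with ξ' h'
  exact h'.symm

/-- Jets along a continuous curve of germs are horizontal. -/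
theorem Gm.hasDerivAt_jet {c : Chart E M} (hc : c ∈ 𝒜.S) {c' : Chart E N} (hc' : c' ∈ ℬ.S)
    {Γ : ℝ → Gm 𝒜 ℬ} {t : ℝ} (hΓ : ContinuousAt Γ t) (hm : (Γ t).pt ∈ c.ψ.source)
    (hm' : (Γ t).ev ∈ c'.ψ.source) {v : E} (hv : HasDerivAt (fun s => c.ψ (Γ s).pt) v t) :
    HasDerivAt (fun s => (c.ψ (Γ s).pt, (Γ s).jet c c'))
      (v, rol c.Γ c'.Γ (c.ψ (Γ t).pt, (Γ t).jet c c') v) t := by
  have h1 := HasFDerivAt.comp_hasDerivAt (f := fun s => c.ψ (Γ s).pt) t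
    (Gm.hasFDerivAt_jet hc hc' hm hm') hv
  refine hv.prodMk (h1.congr_of_eventuallyEq ?_)
  filter_upwards [hΓ.eventually (Gm.eventually_jet c' hm)] with s hs
  exact hs

/-- The values along a continuous curve of germs move no faster than the base points. -/
theorem Gm.speedLe_ev {Γ : ℝ → Gm 𝒜 ℬ} {t lam : ℝ} (hΓ : ContinuousWithinAt Γ (Ici t) t)
    (h : SpeedLe 𝒜 (fun s => (Γ s).pt) t lam) : SpeedLe ℬ (fun s => (Γ s).ev) t lam := by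
  obtain ⟨c, hc, hm, v, hv, hG⟩ := h
  obtain ⟨c', hc', hm', -⟩ := ℬ.norm (Γ t).ev
  have h1 := ((Γ t).rep_fn.li.coord hc hc' hm hm').self_of_nhds
  have hd : DifferentiableAt ℝ (c.ex c' (Γ t).fn) (c.ψ (Γ t).pt) :=
    h1.2.2.1.differentiableAt (by simp)
  have h2 := HasFDerivAt.comp_hasDerivWithinAt (f := c.ψ ∘ fun s => (Γ s).pt) t hd.hasFDerivAt hv
  have h3 : ∀ᶠ s in 𝓝[Ici t] t, c'.ψ (Γ s).ev = c.ex c' (Γ t).fn (c.ψ (Γ s).pt) := by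
    filter_upwards [hΓ.eventually (Gm.eventually_jet c' hm)] with s hs
    exact congrArg Prod.fst hs
  have h4 : c'.ψ (Γ t).ev = c.ex c' (Γ t).fn (c.ψ (Γ t).pt) :=
    congrArg Prod.fst ((Γ t).rep_fn.jet c' hm)
  refine ⟨c', hc', hm', _, h2.congr_of_eventuallyEq h3 h4, ?_⟩
  rw [h4, h1.2.2.2 v v]
  exact hG

variable {e₁ : E → M} {e₂ : E → N}

open Classical in
/-- The germ of the intertwining isometry at a good point. -/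
noncomputable def Pair.φ (h : Pair 𝒜 ℬ e₁ e₂) (x : E) : Gm 𝒜 ℬ :=
  if hx : Good 𝒜 ℬ e₁ e₂ x then Gm.mk' hx.choose (e₁ x) hx.choose_spec.1
  else Gm.mk' h.good_zero.choose (e₁ 0) h.good_zero.choose_spec.1

theorem Pair.φ_pt (h : Pair 𝒜 ℬ e₁ e₂) {x : E} (hx : Good 𝒜 ℬ e₁ e₂ x) : (h.φ x).pt = e₁ x := by
  simp [Pair.φ, hx, Gm.mk']

theorem Pair.φ_rep_choose (h : Pair 𝒜 ℬ e₁ e₂) {x : E} (hx : Good 𝒜 ℬ e₁ e₂ x) :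
    (h.φ x).Rep hx.choose := by
  simp [Pair.φ, hx, Gm.mk', Gm.Rep]

theorem Pair.φ_rep [T2Space N] (h : Pair 𝒜 ℬ e₁ e₂) {x : E} {F : M → N} (hF : LI 𝒜 ℬ F (e₁ x))
    (ha : Agree e₁ e₂ F x) : (h.φ x).Rep F := by
  have hx : Good 𝒜 ℬ e₁ e₂ x := ⟨F, hF, ha⟩
  refine (h.φ_rep_choose hx).congr ?_
  rw [h.φ_pt hx]
  exact h.germ_unique hx.choose_spec.1 hF hx.choose_spec.2 ha

theorem Pair.agree_of_rep (h : Pair 𝒜 ℬ e₁ e₂) {x : E} (hx : Good 𝒜 ℬ e₁ e₂ x) {F : M → N}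
    (hF : (h.φ x).Rep F) : Agree e₁ e₂ F x := by
  have h1 := hF.eq (h.φ_rep_choose hx)
  rw [h.φ_pt hx] at h1
  exact (h1.comp_tendsto h.ex₁.cont.continuousAt).trans hx.choose_spec.2

theorem Pair.φ_ev (h : Pair 𝒜 ℬ e₁ e₂) {x : E} (hx : Good 𝒜 ℬ e₁ e₂ x) : (h.φ x).ev = e₂ x := by
  rw [(h.φ_rep_choose hx).ev, h.φ_pt hx]
  exact hx.choose_spec.2.eq

theorem Good.eventually (h : Pair 𝒜 ℬ e₁ e₂) {x : E} (hx : Good 𝒜 ℬ e₁ e₂ x) :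
    ∀ᶠ y in 𝓝 x, Good 𝒜 ℬ e₁ e₂ y := by
  obtain ⟨F, hF, ha⟩ := hx
  filter_upwards [h.ex₁.cont.continuousAt.eventually hF.eventually, ha.eventually] with y h1 h2
  exact ⟨F, h1, h2⟩

theorem Pair.continuousAt_φ [T2Space N] (h : Pair 𝒜 ℬ e₁ e₂) {x : E} (hx : Good 𝒜 ℬ e₁ e₂ x) :
    ContinuousAt h.φ x := by
  obtain ⟨F, hF, ha⟩ := id hx
  refine Gm.tendsto (h.φ_rep hF ha) ?_ ?_
  · rw [h.φ_pt hx]
    refine h.ex₁.cont.continuousAt.congr' ?_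
    filter_upwards [hx.eventually h] with y hy
    exact (h.φ_pt hy).symm
  · filter_upwards [h.ex₁.cont.continuousAt.eventually hF.eventually, ha.eventually] with y h1 h2
    exact h.φ_rep h1 h2

end Pool.Agent.MP_3fed84_gt
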