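import Pool.Agent.MP_3fed84_gt.LemM

/-! The data attached to a point on the critical sphere, and the limit set K. -/

open Set Metric Filter Topology
open scoped ContDiff RealInnerProductSpace

set_option linter.unusedSectionVars false

namespace Pool.Agent.MP_3fed84_gt

variable {E : Type} [NormedAddCommGroup E] [InnerProductSpace ℝ E] [FiniteDimensional ℝ E]
  {M N : Type} [TopologicalSpace M] [TopologicalSpace N] [T2Space M] [T2Space N]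
  [PreconnectedSpace M] {𝒜 : Atlas E M} {ℬ : Atlas E N} {e₁ : E → M} {e₂ : E → N}

/-- The coordinate ball of radius r. -/
def Chart.bl (c : Chart E M) (r : ℝ) : Set M := c.ψ.source ∩ c.ψ ⁻¹' ball 0 r

omit [T2Space M] [PreconnectedSpace M] in
theorem Chart.isOpen_bl (c : Chart E M) (r : ℝ) : IsOpen (c.bl r) :=
  c.ψ.continuousOn.isOpen_inter_preimage c.ψ.open_source isOpen_ball

omit [T2Space M] [PreconnectedSpace M] in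
theorem Chart.NormAt.mem_bl {c : Chart E M} {m : M} (h : c.NormAt m) {r : ℝ} (hr : 0 < r) :
    m ∈ c.bl r := ⟨h.1, by rw [mem_preimage, h.2.1]; exact mem_ball_self hr⟩

theorem Pair.exists_W (h : Pair 𝒜 ℬ e₁ e₂) {R : ℝ} (hR : 0 < R)
    (hLL : ∀ y, ‖y‖ < R → LL 𝒜 ℬ e₁ e₂ y) {x₀ : E} (hx₀ : ‖x₀‖ = R) {c : Chart E M}
    (hn : c.NormAt (e₁ x₀)) :
    ∃ W : ℝ → Set (Gm 𝒜 ℬ), (∀ r, h.Sat R (c.bl r) (W r)) ∧ (∀ r, IsPreconnected (W r)) ∧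
      (∀ r, W r ⊆ h.Over R (c.bl r)) ∧ (∀ r r', r ≤ r' → W r ⊆ W r') ∧
      ∀ r > 0, ∀ᶠ t in 𝓝[<] (1 : ℝ), h.φ (t • x₀) ∈ W r := by
  set V : ℝ → ℝ → Prop := fun r t => t ∈ Ico (0 : ℝ) 1 ∧ ∀ t' ∈ Icc t 1, e₁ (t' • x₀) ∈ c.bl r
    with hV
  have hnorm : ∀ t ∈ Ico (0 : ℝ) 1, ‖t • x₀‖ < R := by
    intro t ht
    rw [norm_smul, hx₀, Real.norm_eq_abs, abs_of_nonneg ht.1]
    nlinarith [ht.2]
  have hmem : ∀ r t, V r t → h.φ (t • x₀) ∈ h.Over R (c.bl r) := by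
    intro r t ht
    refine ⟨?_, _, hnorm t ht.1, rfl⟩
    rw [h.φ_pt (hLL _ (hnorm t ht.1)).good]
    exact ht.2 t ⟨le_rfl, ht.1.2.le⟩
  have hsat : ∀ (r t : ℝ), h.Sat R (c.bl r) (connectedComponentIn (h.Over R (c.bl r)) (h.φ (t • x₀))) := by
    rintro r t S hS hSO ⟨ξ, hξS, hξ⟩
    rw [connectedComponentIn_eq hξ]
    exact hS.subset_connectedComponentIn hξS hSO
  have heq : ∀ r t t', V r t → V r t' → connectedComponentIn (h.Over R (c.bl r)) (h.φ (t • x₀))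
      = connectedComponentIn (h.Over R (c.bl r)) (h.φ (t' • x₀)) := by
    intro r t t' ht ht'
    refine connectedComponentIn_eq ((hsat r t).ray hLL (s := t) (mem_connectedComponentIn
      (hmem r t ht)) ?_)
    intro s hs
    rcases le_total t t' with h1 | h1
    · rw [uIcc_of_le h1] at hs
      exact ⟨hnorm s ⟨ht.1.1.trans hs.1, hs.2.trans_lt ht'.1.2⟩,
        ht.2 s ⟨hs.1, hs.2.trans ht'.1.2.le⟩⟩
    · rw [uIcc_of_ge h1] at hs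
      exact ⟨hnorm s ⟨ht'.1.1.trans hs.1, hs.2.trans_lt ht.1.2⟩,
        ht'.2 s ⟨hs.1, hs.2.trans ht.1.2.le⟩⟩
  refine ⟨fun r => {ξ | ∃ t, V r t ∧
    ξ ∈ connectedComponentIn (h.Over R (c.bl r)) (h.φ (t • x₀))}, ?_, ?_, ?_, ?_, ?_⟩
  · rintro r S hS hSO ⟨ξ, hξS, t, ht, hξ⟩ ξ' hξ'
    exact ⟨t, ht, hsat r t S hS hSO ⟨ξ, hξS, hξ⟩ hξ'⟩
  · intro r
    by_cases hex : ∃ t, V r t
    · obtain ⟨t, ht⟩ := hex
      have : {ξ | ∃ t, V r t ∧ ξ ∈ connectedComponentIn (h.Over R (c.bl r)) (h.φ (t • x₀))}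
          = connectedComponentIn (h.Over R (c.bl r)) (h.φ (t • x₀)) := by
        ext ξ
        constructor
        · rintro ⟨t', ht', hξ⟩
          rwa [heq r t t' ht ht']
        · exact fun hξ => ⟨t, ht, hξ⟩
      simp only [this]
      exact isPreconnected_connectedComponentIn
    · have : {ξ | ∃ t, V r t ∧ ξ ∈ connectedComponentIn (h.Over R (c.bl r)) (h.φ (t • x₀))}
          = ∅ := by
        ext ξ
        simp only [mem_ofPred_eq, mem_empty_iff_false, iff_false]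
        rintro ⟨t, ht, -⟩
        exact hex ⟨t, ht⟩
      simp only [this]
      exact isPreconnected_empty
  · rintro r ξ ⟨t, -, hξ⟩
    exact connectedComponentIn_subset _ _ hξ
  · rintro r r' hrr ξ ⟨t, ht, hξ⟩
    have hsub : c.bl r ⊆ c.bl r' := fun m hm => ⟨hm.1, ball_subset_ball hrr hm.2⟩
    refine ⟨t, ⟨ht.1, fun t' ht' => hsub (ht.2 t' ht')⟩, connectedComponentIn_mono _ ?_ hξ⟩
    exact fun ζ hζ => ⟨hsub hζ.1, hζ.2⟩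
  · intro r hr
    have h1 : ∀ᶠ t in 𝓝 (1 : ℝ), e₁ (t • x₀) ∈ c.bl r := by
      have hc : ContinuousAt (fun t : ℝ => e₁ (t • x₀)) 1 :=
        (h.ex₁.cont.comp (by fun_prop)).continuousAt
      refine hc.eventually ((c.isOpen_bl r).mem_nhds ?_)
      simpa using hn.mem_bl hr
    obtain ⟨η, hη, hb⟩ := Metric.eventually_nhds_iff_ball.1 h1
    have h2 : ∀ᶠ t in 𝓝[<] (1 : ℝ), t ∈ Ioo (max 0 (1 - η)) 1 :=
      Ioo_mem_nhdsLT (max_lt one_pos (by linarith))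
    filter_upwards [h2] with t ht
    rw [mem_Ioo, max_lt_iff] at ht
    have hVt : V r t := by
      refine ⟨⟨ht.1.1.le, ht.2⟩, fun t' ht' => hb t' ?_⟩
      rw [mem_ball, Real.dist_eq, abs_lt]
      constructor <;> linarith [ht'.1, ht'.2, ht.1.2]
    exact ⟨t, hVt, mem_connectedComponentIn (hmem r t hVt)⟩

/-- All the data attached to a point x₀ of the critical sphere. -/
structure Ctx (𝒜 : Atlas E M) (ℬ : Atlas E N) (e₁ : E → M) (e₂ : E → N) where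
  h : Pair 𝒜 ℬ e₁ e₂
  R : ℝ
  hR : 0 < R
  hLL : ∀ y, ‖y‖ < R → LL 𝒜 ℬ e₁ e₂ y
  x₀ : E
  hx₀ : ‖x₀‖ = R
  c : Chart E M
  hc : c ∈ 𝒜.S
  hn : c.NormAt (e₁ x₀)
  c' : Chart E N
  hc' : c' ∈ ℬ.S
  hn' : c'.NormAt (e₂ x₀)
  A : E → E →L[ℝ] E
  hA : ∀ x, x ≠ 0 → e₁ x ∈ c.ψ.source → e₂ x ∈ c'.ψ.source →
    (∀ a b, c'.G (c'.ψ (e₂ x)) (A x a) (A x b) = c.G (c.ψ (e₁ x)) a b) ∧
    (c.ψ (e₁ x), (c'.ψ (e₂ x), A x)) ∈
      closure (Leaf (rol c.Γ c'.Γ) ∩ c.ψ.target ×ˢ (c'.ψ.target ×ˢ univ)) ∧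
    ∀ F, LI 𝒜 ℬ F (e₁ x) → Agree e₁ e₂ F x → A x = fderiv ℝ (c.ex c' F) (c.ψ (e₁ x))
  hA' : ∀ (θ : E) (t : ℝ), t • θ ≠ 0 → e₁ (t • θ) ∈ c.ψ.source → e₂ (t • θ) ∈ c'.ψ.source →
    HasDerivAt (fun s : ℝ => (c.ψ (e₁ (s • θ)), (c'.ψ (e₂ (s • θ)), A (s • θ))))
      (fderiv ℝ (c.ψ ∘ e₁) (t • θ) θ,
        rol c.Γ c'.Γ (c.ψ (e₁ (t • θ)), (c'.ψ (e₂ (t • θ)), A (t • θ)))
          (fderiv ℝ (c.ψ ∘ e₁) (t • θ) θ)) t
  ρ : ℝ
  hρ : 0 < ρ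
  hρb : ∀ y ∈ closedBall (0 : E) ρ, y ∈ c.ψ.target ∧
    ∀ a, c.G y a a ≤ (101 / 100 * ‖a‖) ^ 2 ∧ ‖a‖ ^ 2 ≤ (101 / 100) ^ 2 * c.G y a a
  β : ℝ
  hβ : 0 < β
  hβb : ∀ y ∈ closedBall (0 : E) β, y ∈ c'.ψ.target ∧
    ∀ a, c'.G y a a ≤ (101 / 100 * ‖a‖) ^ 2 ∧ ‖a‖ ^ 2 ≤ (101 / 100) ^ 2 * c'.G y a a
  W : ℝ → Set (Gm 𝒜 ℬ)
  hWs : ∀ r, h.Sat R (c.bl r) (W r)
  hWc : ∀ r, IsPreconnected (W r)
  hWo : ∀ r, W r ⊆ h.Over R (c.bl r)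
  hWm : ∀ r r', r ≤ r' → W r ⊆ W r'
  hWt : ∀ r > 0, ∀ᶠ t in 𝓝[<] (1 : ℝ), h.φ (t • x₀) ∈ W r

theorem Pair.exists_ctx (h : Pair 𝒜 ℬ e₁ e₂) {R : ℝ} (hR : 0 < R)
    (hLL : ∀ y, ‖y‖ < R → LL 𝒜 ℬ e₁ e₂ y) {x₀ : E} (hx₀ : ‖x₀‖ = R) :
    ∃ X : Ctx 𝒜 ℬ e₁ e₂, X.x₀ = x₀ := by
  obtain ⟨c, hc, hn⟩ := 𝒜.norm (e₁ x₀)
  obtain ⟨c', hc', hn'⟩ := ℬ.norm (e₂ x₀)
  obtain ⟨A, hA, hA'⟩ := h.crossing hc hc'
  obtain ⟨ρ, hρ, hρb⟩ := hn.exists_ball (lam := 101 / 100) (by norm_num)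
  obtain ⟨β, hβ, hβb⟩ := hn'.exists_ball (lam := 101 / 100) (by norm_num)
  obtain ⟨W, h1, h2, h3, h4, h5⟩ := h.exists_W hR hLL hx₀ hn
  exact ⟨⟨h, R, hR, hLL, x₀, hx₀, c, hc, hn, c', hc', hn', A, hA, hA', ρ, hρ, hρb, β, hβ, hβb,
    W, h1, h2, h3, h4, h5⟩, rfl⟩

namespace Ctx

variable (X : Ctx 𝒜 ℬ e₁ e₂)

def Y (r : ℝ) : Set E := {y | ‖y‖ < X.R ∧ X.h.φ y ∈ X.W r}

def K : Set E := {x | ∀ r > 0, x ∈ closure (X.Y r)}

theorem nest {V : Set E} (hV : ∀ r > 0, (X.Y r ∩ V).Nonempty) :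
    ∃ x, ∀ r > 0, x ∈ closure (X.Y r ∩ V) := by
  have h1 : ∀ n : ℕ, ∃ y, y ∈ X.Y (1 / ((n : ℝ) + 1)) ∩ V := fun n => hV _ (by positivity)
  choose y hy using h1
  obtain ⟨x, -, φ, hφ, hlim⟩ := (isCompact_closedBall (0 : E) X.R).tendsto_subseq (x := y)
    (fun n => by simpa using (hy n).1.1.le)
  refine ⟨x, fun r hr => mem_closure_of_tendsto hlim ?_⟩
  have h2 : ∀ᶠ n : ℕ in atTop, 1 / ((n : ℝ) + 1) < r :=
    tendsto_one_div_add_atTop_nhds_zero_nat.eventually (gt_mem_nhds hr)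
  filter_upwards [hφ.tendsto_atTop.eventually h2] with n hn
  exact ⟨⟨(hy _).1.1, X.hWm _ _ hn.le (hy _).1.2⟩, (hy _).2⟩

theorem Y_bl {r : ℝ} {y : E} (hy : y ∈ X.Y r) : e₁ y ∈ X.c.bl r := by
  have := (X.hWo r hy.2).1
  rwa [X.h.φ_pt (X.hLL y hy.1).good] at this

theorem norm_le_of_K {x : E} (hx : x ∈ X.K) : ‖x‖ ≤ X.R := by
  have : IsClosed {y : E | ‖y‖ ≤ X.R} := isClosed_le continuous_norm continuous_const
  exact this.closure_subset_iff.2 (fun y hy => hy.1.le) (hx 1 one_pos)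

theorem isCompact_K : IsCompact X.K := by
  refine (isCompact_closedBall (0 : E) X.R).of_isClosed_subset ?_
    (fun x hx => by simpa using X.norm_le_of_K hx)
  have : X.K = ⋂ r, ⋂ (_ : r > 0), closure (X.Y r) := by
    ext x; simp [K]
  rw [this]
  exact isClosed_iInter fun r => isClosed_iInter fun _ => isClosed_closure

theorem tendsto_tail : Tendsto (fun t : ℝ => t • X.x₀) (𝓝[<] 1) (𝓝 X.x₀) := by
  have : ContinuousAt (fun t : ℝ => t • X.x₀) 1 := by fun_prop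
  simpa using this.tendsto.mono_left nhdsWithin_le_nhds

theorem tail_mem {r : ℝ} (hr : 0 < r) : ∀ᶠ t in 𝓝[<] (1 : ℝ), t • X.x₀ ∈ X.Y r := by
  filter_upwards [X.hWt r hr, Ioo_mem_nhdsLT (zero_lt_one' ℝ)] with t h1 h2
  refine ⟨?_, h1⟩
  rw [norm_smul, X.hx₀, Real.norm_eq_abs, abs_of_pos h2.1]
  nlinarith [h2.2, X.hR]

theorem x₀_mem_K : X.x₀ ∈ X.K := fun _ hr =>
  mem_closure_of_tendsto X.tendsto_tail (X.tail_mem hr)

theorem e₁_of_K {x : E} (hx : x ∈ X.K) : e₁ x = e₁ X.x₀ := by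
  have h1 : ∀ r, 0 < r → r ≤ X.ρ → e₁ x ∈ X.c.ψ.symm '' closedBall 0 r := by
    intro r hr hrρ
    have hcp : IsCompact (X.c.ψ.symm '' closedBall 0 r) :=
      (isCompact_closedBall _ _).image_of_continuousOn (X.c.ψ.continuousOn_symm.mono
        fun y hy => (X.hρb y (closedBall_subset_closedBall hrρ hy)).1)
    refine (hcp.isClosed.preimage X.h.ex₁.cont).closure_subset_iff.2 ?_ (hx r hr)
    intro y hy
    have := X.Y_bl hy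
    exact ⟨_, ball_subset_closedBall this.2, X.c.ψ.left_inv this.1⟩
  obtain ⟨z, hz, hze⟩ := h1 X.ρ X.hρ le_rfl
  have hzt := (X.hρb z hz).1
  have h2 : ‖z‖ ≤ 0 := by
    refine le_of_forall_pos_le_add fun ε hε => ?_
    obtain ⟨z', hz', hze'⟩ := h1 (min ε X.ρ) (lt_min hε X.hρ) (min_le_right _ _)
    have hzt' := (X.hρb z' (closedBall_subset_closedBall (min_le_right _ _) hz')).1
    have : z = z' := X.c.ψ.symm.injOn hzt hzt' (hze.trans hze'.symm)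
    rw [this, zero_add]
    exact (mem_closedBall_zero_iff.1 hz').trans (min_le_left _ _)
  rw [← hze, norm_le_zero_iff.1 h2, ← X.hn.2.1, X.c.ψ.left_inv X.hn.1]

theorem near_K {η : ℝ} (hη : 0 < η) : ∃ r > 0, ∀ y ∈ X.Y r, ∃ x ∈ X.K, ‖y - x‖ < η := by
  by_contra hcon
  push Not at hcon
  obtain ⟨x, hx⟩ := X.nest (V := {y | ∀ x ∈ X.K, η ≤ ‖y - x‖}) (fun r hr => by
    obtain ⟨y, hy, hy'⟩ := hcon r hr
    exact ⟨y, hy, hy'⟩)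
  have hxK : x ∈ X.K := fun r hr => closure_mono inter_subset_left (hx r hr)
  obtain ⟨y, hy1, hy2⟩ := mem_closure_iff_nhds.1 (hx 1 one_pos) _ (ball_mem_nhds x hη)
  have := hy2.2 x hxK
  rw [mem_ball, dist_eq_norm] at hy1
  linarith

/-- A local isometry that intertwines at points of the tail close to x₀ makes x₀ good. -/
theorem good_of_tail {F : M → N} (hF : LI 𝒜 ℬ F (e₁ X.x₀))
    (ha : ∀ᶠ t in 𝓝[<] (1 : ℝ), Agree e₁ e₂ F (t • X.x₀)) : Good 𝒜 ℬ e₁ e₂ X.x₀ := by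
  have h1 : ∀ᶠ t in 𝓝 (1 : ℝ), LI 𝒜 ℬ F (e₁ (t • X.x₀)) := by
    have hc : ContinuousAt (fun t : ℝ => e₁ (t • X.x₀)) 1 :=
      (X.h.ex₁.cont.comp (by fun_prop)).continuousAt
    refine hc.eventually ?_
    simpa using hF.eventually
  obtain ⟨η, hη, hb⟩ := Metric.eventually_nhds_iff_ball.1 h1
  obtain ⟨t, ht1, ht2⟩ := (ha.and (Ioo_mem_nhdsLT (show 1 - η < 1 by linarith))).exists
  refine ⟨F, hF, X.h.agree_ray ht2.2.le ht1 fun s hs => hb s ?_⟩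
  rw [mem_ball, Real.dist_eq, abs_lt]
  constructor <;> linarith [hs.1, hs.2, ht2.1]

theorem good_of_inner {x : E} (hx : x ∈ X.K) (hxR : ‖x‖ < X.R) : Good 𝒜 ℬ e₁ e₂ X.x₀ := by
  obtain ⟨F, hF, ha⟩ := (X.hLL x hxR).good
  rw [X.e₁_of_K hx] at hF
  have h1 : ∀ᶠ z in 𝓝 (0 : E), LI 𝒜 ℬ F (X.c.ψ.symm z) := by
    have hc : ContinuousAt X.c.ψ.symm 0 :=
      X.c.ψ.continuousAt_symm (X.hρb 0 (mem_closedBall_self X.hρ.le)).1
    refine hc.eventually ?_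
    rw [← X.hn.2.1, X.c.ψ.left_inv X.hn.1]
    exact hF.eventually
  obtain ⟨r, hr, hb⟩ := Metric.eventually_nhds_iff_ball.1 h1
  have h2 : ∀ m ∈ X.c.bl r, LI 𝒜 ℬ F m := fun m hm => by
    have := hb _ hm.2
    rwa [X.c.ψ.left_inv hm.1] at this
  obtain ⟨y, hy1, hy2⟩ := mem_closure_iff_nhds.1 (hx r hr) _ ha.eventually
  have h3 := Gm.rep_of_preconnected (X.hWc r) (fun ξ hξ => h2 _ (X.hWo r hξ).1) hy2.2
    (X.h.φ_rep (h2 _ (X.Y_bl hy2)) hy1)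
  refine X.good_of_tail hF ?_
  filter_upwards [X.tail_mem hr] with t ht
  exact X.h.agree_of_rep (X.hLL _ ht.1).good (h3 _ ht.2)

end Ctx

end Pool.Agent.MP_3fed84_gt
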