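import Pool.Agent.MP_3fed84_gt.Key1

/-! The jets are constant on the limit set K. -/

open Set Metric Filter Topology
open scoped ContDiff RealInnerProductSpace NNReal ENNReal

set_option linter.unusedSectionVars false

namespace Pool.Agent.MP_3fed84_gt

variable {E : Type} [NormedAddCommGroup E] [InnerProductSpace ℝ E] [FiniteDimensional ℝ E]
  {M N : Type} [TopologicalSpace M] [TopologicalSpace N] [T2Space M] [T2Space N]
  [PreconnectedSpace M] {𝒜 : Atlas E M} {ℬ : Atlas E N} {e₁ : E → M} {e₂ : E → N}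

namespace Ctx

variable (X : Ctx 𝒜 ℬ e₁ e₂)

def B : E → E := X.c.ψ ∘ e₁

def q (x : E) : E × (E →L[ℝ] E) := (X.c'.ψ (e₂ x), X.A x)

noncomputable def w : E × (E × (E →L[ℝ] E)) → E →L[ℝ] (E × (E →L[ℝ] E)) := rol X.c.Γ X.c'.Γ

def O : Set (E × (E × (E →L[ℝ] E))) := X.c.ψ.target ×ˢ (X.c'.ψ.target ×ˢ univ)

def Q : Set (E × (E →L[ℝ] E)) := closedBall 0 X.β ×ˢ closedBall 0 3

def D : Set E := {x | x ≠ 0 ∧ e₁ x ∈ X.c.bl X.ρ ∧ e₂ x ∈ X.c'.bl X.β}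

theorem isOpen_D : IsOpen X.D :=
  isOpen_ne.inter (((X.c.isOpen_bl _).preimage X.h.ex₁.cont).inter
    ((X.c'.isOpen_bl _).preimage X.h.ex₂.cont))

theorem isOpen_O : IsOpen X.O := X.c.ψ.open_target.prod (X.c'.ψ.open_target.prod isOpen_univ)

theorem w_smooth : ContDiffOn ℝ ∞ X.w X.O := rol_smooth X.c.chr X.c'.chr

theorem isCompact_Q : IsCompact X.Q := (isCompact_closedBall _ _).prod (isCompact_closedBall _ _)

theorem convex_Q : Convex ℝ X.Q := (convex_closedBall _ _).prod (convex_closedBall _ _)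

theorem Z_subset : closedBall (0 : E) X.ρ ×ˢ X.Q ⊆ X.O := fun _ hp =>
  ⟨(X.hρb _ hp.1).1, (X.hβb _ hp.2.1).1, trivial⟩

theorem x₀_ne : X.x₀ ≠ 0 := by
  rw [← norm_pos_iff, X.hx₀]; exact X.hR

theorem x₀_mem_D : X.x₀ ∈ X.D := ⟨X.x₀_ne, X.hn.mem_bl X.hρ, X.hn'.mem_bl X.hβ⟩

theorem B_of_K {x : E} (hx : x ∈ X.K) : X.B x = 0 := by
  simp only [B, Function.comp_apply]
  rw [X.e₁_of_K hx, X.hn.2.1]

/-- A linear isometry between the two coordinate metrics has norm at most two. -/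
theorem norm_le_two {z n : E} (hz : z ∈ closedBall (0 : E) X.ρ) (hn : n ∈ closedBall (0 : E) X.β)
    {A : E →L[ℝ] E} (hA : ∀ a b, X.c'.G n (A a) (A b) = X.c.G z a b) : ‖A‖ ≤ 2 := by
  refine ContinuousLinearMap.opNorm_le_bound _ zero_le_two fun a => ?_
  have h1 := ((X.hβb n hn).2 (A a)).2
  have h2 := ((X.hρb z hz).2 a).1
  rw [hA] at h1
  have h3 : ‖A a‖ ^ 2 ≤ (2 * ‖a‖) ^ 2 := by nlinarith [sq_nonneg ‖a‖]
  exact (pow_le_pow_iff_left₀ (norm_nonneg _) (by positivity) two_ne_zero).1 h3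

theorem norm_A {x : E} (hx : x ∈ X.D) : ‖X.A x‖ ≤ 2 :=
  X.norm_le_two (ball_subset_closedBall hx.2.1.2) (ball_subset_closedBall hx.2.2.2)
    (X.hA x hx.1 hx.2.1.1 hx.2.2.1).1

theorem Q_mem_nhds {x : E} (hx : x ∈ X.D) : X.Q ∈ 𝓝 (X.q x) := by
  refine prod_mem_nhds (mem_of_superset (isOpen_ball.mem_nhds hx.2.2.2) ball_subset_closedBall)
    (mem_of_superset (isOpen_ball.mem_nhds ?_) ball_subset_closedBall)
  rw [mem_ball_zero_iff]
  exact (X.norm_A hx).trans_lt (by norm_num)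

theorem q_mem {x : E} (hx : x ∈ X.D) : X.q x ∈ X.Q := mem_of_mem_nhds (X.Q_mem_nhds hx)

theorem q_leaf {x : E} (hx : x ∈ X.D) : (X.B x, X.q x) ∈ closure (Leaf X.w ∩ X.O) :=
  (X.hA x hx.1 hx.2.1.1 hx.2.2.1).2.1

theorem B_smooth {x : E} (hx : x ∈ X.D) : ContDiffAt ℝ ∞ X.B x := X.h.ex₁.sm _ X.hc x hx.2.1.1

theorem q_eq {x : E} (hx : x ∈ X.D) {F : M → N} (hF : LI 𝒜 ℬ F (e₁ x)) (ha : Agree e₁ e₂ F x) :
    X.q x = (X.c.ex X.c' F (X.B x), fderiv ℝ (X.c.ex X.c' F) (X.B x)) := by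
  refine Prod.ext ?_ ((X.hA x hx.1 hx.2.1.1 hx.2.2.1).2.2 F hF ha)
  simp only [q, B, Chart.ex, Function.comp_apply]
  rw [X.c.ψ.left_inv hx.2.1.1, ha.eq]

theorem jet_φ {x : E} (hx : x ∈ X.D) (hg : Good 𝒜 ℬ e₁ e₂ x) : (X.h.φ x).jet X.c X.c' = X.q x := by
  obtain ⟨F, hF, ha⟩ := hg
  rw [(X.h.φ_rep hF ha).jet X.c' (by rw [X.h.φ_pt ⟨F, hF, ha⟩]; exact hx.2.1.1),
    X.h.φ_pt ⟨F, hF, ha⟩, X.q_eq hx hF ha]
  rfl

theorem hasFDerivAt_q {x : E} (hx : x ∈ X.D) (hg : Good 𝒜 ℬ e₁ e₂ x) :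
    HasFDerivAt X.q ((X.w (X.B x, X.q x)).comp (fderiv ℝ X.B x)) x := by
  obtain ⟨F, hF, ha⟩ := hg
  have hsrc' : F (e₁ x) ∈ X.c'.ψ.source := by rw [ha.eq]; exact hx.2.2.1
  have h1 := hF.coord X.hc X.hc' hx.2.1.1 hsrc'
  have h2 := h1.self_of_nhds
  have h3 := jet_hasFDerivAt X.c.chr X.c'.chr h2.1 h2.2.1 (h2.2.2.1.of_le (by norm_cast))
    (h1.mono fun z hz => hz.2.2.2)
  have h4 : HasFDerivAt X.B (fderiv ℝ X.B x) x :=
    ((X.B_smooth hx).differentiableAt (by simp)).hasFDerivAt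
  have h5 := HasFDerivAt.comp x (f := X.B) h3 h4
  rw [X.q_eq hx hF ha]
  refine h5.congr_of_eventuallyEq ?_
  filter_upwards [X.isOpen_D.mem_nhds hx, ha.eventually,
    X.h.ex₁.cont.continuousAt.eventually hF.eventually] with y hy1 hy2 hy3
  exact X.q_eq hy1 hy3 hy2

theorem hasDerivAt_ray {θ : E} {t : ℝ} (hx : t • θ ∈ X.D) :
    HasDerivAt (fun s : ℝ => (X.B (s • θ), X.q (s • θ)))
      (fderiv ℝ X.B (t • θ) θ, X.w (X.B (t • θ), X.q (t • θ)) (fderiv ℝ X.B (t • θ) θ)) t :=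
  X.hA' θ t hx.1 hx.2.1.1 hx.2.2.1

theorem tendsto_q_ray {x : E} (hx : x ∈ X.D) :
    Tendsto (fun t : ℝ => X.q (t • x)) (𝓝[<] 1) (𝓝 (X.q x)) := by
  have h1 := (X.hasDerivAt_ray (θ := x) (t := 1) (by rwa [one_smul])).continuousAt.snd.tendsto
  simp only [one_smul] at h1
  exact h1.mono_left nhdsWithin_le_nhds

theorem exists_ball_D {x : E} (hx : x ∈ X.D) : ∃ η > 0, ∃ C ≥ 0, ∀ y ∈ ball x η,
    y ∈ X.D ∧ ‖fderiv ℝ X.B y‖ ≤ C := by
  have h1 : ContinuousAt (fderiv ℝ X.B) x :=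
    ((X.B_smooth hx).fderiv_right (m := 0) (by norm_cast)).continuousAt
  have h2 : ∀ᶠ y in 𝓝 x, ‖fderiv ℝ X.B y‖ < ‖fderiv ℝ X.B x‖ + 1 :=
    h1.norm.eventually (gt_mem_nhds (by simp))
  obtain ⟨η, hη, hb⟩ := Metric.eventually_nhds_iff_ball.1
    (Eventually.and (X.isOpen_D.mem_nhds hx) h2)
  exact ⟨η, hη, ‖fderiv ℝ X.B x‖ + 1, by positivity, fun y hy => ⟨(hb y hy).1, (hb y hy).2.le⟩⟩

theorem exists_w_bound : ∃ C ≥ 0, ∀ p ∈ closedBall (0 : E) X.ρ ×ˢ X.Q, ‖X.w p‖ ≤ C := by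
  have h1 : ContinuousOn X.w (closedBall (0 : E) X.ρ ×ˢ X.Q) :=
    X.w_smooth.continuousOn.mono X.Z_subset
  obtain ⟨C, hC⟩ :=
    ((isCompact_closedBall (0 : E) X.ρ).prod X.isCompact_Q).exists_bound_of_continuousOn
      (f := X.w) h1
  exact ⟨max C 0, le_max_right _ _, fun p hp => (hC p hp).trans (le_max_left _ _)⟩

theorem q_lipschitz {x : E} (hx : x ∈ X.D) : ∃ η > 0, ∃ C ≥ 0, ∀ y ∈ ball x η, ‖y‖ ≤ X.R →
    ∀ y' ∈ ball x η, ‖y'‖ ≤ X.R → ‖X.q y' - X.q y‖ ≤ C * ‖y' - y‖ := by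
  obtain ⟨η, hη, C, hC, hb⟩ := X.exists_ball_D hx
  obtain ⟨Cw, hCw, hw⟩ := X.exists_w_bound
  have hin : ∀ y ∈ ball x η ∩ ball 0 X.R, ∀ y' ∈ ball x η ∩ ball 0 X.R,
      ‖X.q y' - X.q y‖ ≤ Cw * C * ‖y' - y‖ := by
    intro y hy y' hy'
    refine ((convex_ball x η).inter (convex_ball 0 X.R)).norm_image_sub_le_of_norm_hasFDerivWithin_le
      (f' := fun z => (X.w (X.B z, X.q z)).comp (fderiv ℝ X.B z)) (fun z hz => ?_)
      (fun z hz => ?_) hy hy'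
    · exact (X.hasFDerivAt_q (hb z hz.1).1 (X.hLL z (by simpa using hz.2)).good).hasFDerivWithinAt
    · refine (ContinuousLinearMap.opNorm_comp_le _ _).trans (mul_le_mul (hw _ ⟨?_, ?_⟩)
        (hb z hz.1).2 (norm_nonneg _) hCw)
      · exact ball_subset_closedBall (hb z hz.1).1.2.1.2
      · exact X.q_mem (hb z hz.1).1
  refine ⟨η, hη, Cw * C, by positivity, fun y hy hyR y' hy' hy'R => ?_⟩
  have hev : ∀ z ∈ ball x η, ‖z‖ ≤ X.R → ∀ᶠ t in 𝓝[<] (1 : ℝ), t • z ∈ ball x η ∩ ball 0 X.R := by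
    intro z hz hzR
    have h1 : ContinuousAt (fun t : ℝ => t • z) 1 := by fun_prop
    have h2 : ∀ᶠ t in 𝓝 (1 : ℝ), t • z ∈ ball x η :=
      h1.eventually (isOpen_ball.mem_nhds (by simpa using hz))
    filter_upwards [h2.filter_mono nhdsWithin_le_nhds, Ioo_mem_nhdsLT (zero_lt_one' ℝ)]
      with t h3 h4
    refine ⟨h3, ?_⟩
    rw [mem_ball_zero_iff, norm_smul, Real.norm_eq_abs, abs_of_pos h4.1]
    nlinarith [h4.1, h4.2, X.hR, norm_nonneg z]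
  have h1 := ((X.tendsto_q_ray (hb y' hy').1).sub (X.tendsto_q_ray (hb y hy).1)).norm
  have h2 : Tendsto (fun t : ℝ => Cw * C * ‖t • y' - t • y‖) (𝓝[<] 1) (𝓝 (Cw * C * ‖y' - y‖)) := by
    have : ContinuousAt (fun t : ℝ => Cw * C * ‖t • y' - t • y‖) 1 := by fun_prop
    simpa using this.tendsto.mono_left nhdsWithin_le_nhds
  refine le_of_tendsto_of_tendsto h1 h2 ?_
  filter_upwards [hev y hy hyR, hev y' hy' hy'R] with t h3 h4 using hin _ h3 _ h4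

theorem continuousOn_q : ContinuousOn X.q (X.D ∩ closedBall 0 X.R) := by
  intro x hx
  obtain ⟨η, hη, C, hC, hb⟩ := X.q_lipschitz hx.1
  rw [ContinuousWithinAt, tendsto_iff_norm_sub_tendsto_zero]
  have h1 : Tendsto (fun y => C * ‖y - x‖) (𝓝[X.D ∩ closedBall 0 X.R] x) (𝓝 0) := by
    have : ContinuousAt (fun y => C * ‖y - x‖) x := by fun_prop
    simpa using this.tendsto.mono_left nhdsWithin_le_nhds
  refine squeeze_zero' (Eventually.of_forall fun _ => norm_nonneg _) ?_ h1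
  filter_upwards [self_mem_nhdsWithin, nhdsWithin_le_nhds (ball_mem_nhds x hη)] with y h2 h3
  exact hb x (mem_ball_self hη) (by simpa using hx.2) y h3 (by simpa using h2.2)

/-- A segment in the closed ball gives a horizontal arc. -/
theorem conn_seg {U : Set E} {p₀ : E × (E × (E →L[ℝ] E))} {l lam : ℝ} (hlam : 0 ≤ lam) {a b : E}
    (ha : ‖a‖ ≤ X.R) (hb : ‖b‖ ≤ X.R)
    (hs : ∀ t ∈ Icc (0 : ℝ) 1, a + t • (b - a) ∈ X.D ∧ X.B (a + t • (b - a)) ∈ U ∧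
      ‖fderiv ℝ X.B (a + t • (b - a)) (b - a)‖ ≤ lam)
    (h : Conn X.w (U ×ˢ X.Q) p₀ l (X.B a, X.q a)) :
    Conn X.w (U ×ˢ X.Q) p₀ (l + lam) (X.B b, X.q b) := by
  have hcb : ∀ t ∈ Icc (0 : ℝ) 1, a + t • (b - a) ∈ closedBall (0 : E) X.R := fun t ht =>
    (convex_closedBall (0 : E) X.R).add_smul_sub_mem (by simpa using ha) (by simpa using hb) ht
  have h1 := Conn.step h (fun t => (X.B (a + t • (b - a)), X.q (a + t • (b - a)))) 0 1 lam
    zero_le_one hlam ?_ (by simp) (fun t ht => ⟨(hs t ht).2.1, X.q_mem (hs t ht).1⟩) ?_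
  · simpa using h1
  · refine ContinuousOn.prodMk (fun t ht => ?_) ?_
    · exact (ContinuousAt.comp (f := fun t : ℝ => a + t • (b - a))
        (X.B_smooth (hs t ht).1).continuousAt (by fun_prop)).continuousWithinAt
    · exact X.continuousOn_q.comp (by fun_prop) fun t ht => ⟨(hs t ht).1, hcb t ht⟩
  · intro t ht
    have ht' := Ioo_subset_Icc_self ht
    refine ⟨_, (hs t ht').2.2, ?_⟩
    by_cases hab : a = b
    · subst hab
      simp only [sub_self, smul_zero, add_zero, map_zero]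
      exact hasDerivAt_const t (X.B a, X.q a)
    have hlt : ‖a + t • (b - a)‖ < X.R := by
      have := norm_combo_lt_of_ne ha hb hab (a := 1 - t) (b := t) (by linarith [ht.2]) ht.1
        (by ring)
      rwa [show (1 - t) • a + t • b = a + t • (b - a) by rw [sub_smul, smul_sub, one_smul]; abel]
        at this
    have hl : HasDerivAt (fun t : ℝ => a + t • (b - a)) (b - a) t := by
      simpa using ((hasDerivAt_id t).smul_const (b - a)).const_add a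
    have h2 := (X.hasFDerivAt_q (hs t ht').1 (X.hLL _ hlt).good).comp_hasDerivAt t hl
    have h3 := ((X.B_smooth (hs t ht').1).differentiableAt (by simp)).hasFDerivAt.comp_hasDerivAt
      t hl
    exact h3.prodMk h2

theorem holder_K (n : ℕ) {x : E} (hx : x ∈ X.K ∩ X.D) : ∃ η > 0, ∃ C ≥ 0,
    ∀ y ∈ X.K ∩ X.D ∩ ball x η, ∀ y' ∈ X.K ∩ X.D ∩ ball x η,
      ‖X.q y' - X.q y‖ ≤ C * ‖y' - y‖ ^ (n + 1) := by
  obtain ⟨δ, hδ, C, hC, hh⟩ := hold X.isOpen_O X.w_smooth X.isCompact_Q X.convex_Q X.hρ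
    X.Z_subset (X.Q_mem_nhds hx.2) n
  obtain ⟨η, hη, C₁, hC₁, hb⟩ := X.exists_ball_D hx.2
  have h1 := X.continuousOn_q x ⟨hx.2, by simpa using X.norm_le_of_K hx.1⟩
  obtain ⟨η₂, hη₂, hb₂⟩ := Metric.continuousWithinAt_iff.1 h1 δ hδ
  set η₃ := min (min η η₂) (min δ 1 / (2 * C₁ + 1)) with hη₃
  have hη₃0 : 0 < η₃ := lt_min (lt_min hη hη₂) (by have := lt_min hδ one_pos; positivity)
  have hη₃1 : η₃ ≤ η := (min_le_left _ _).trans (min_le_left _ _)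
  have hη₃2 : η₃ ≤ η₂ := (min_le_left _ _).trans (min_le_right _ _)
  have hη₃3 : η₃ * (2 * C₁ + 1) ≤ min δ 1 := by
    have := min_le_right (min η η₂) (min δ 1 / (2 * C₁ + 1))
    rwa [← hη₃, le_div_iff₀ (by positivity)] at this
  refine ⟨η₃, hη₃0, C * C₁ ^ (n + 1), by positivity, fun y hy y' hy' => ?_⟩
  have hyb : y ∈ ball x η := ball_subset_ball hη₃1 hy.2
  have hy'b : y' ∈ ball x η := ball_subset_ball hη₃1 hy'.2
  have hd : ‖y' - y‖ ≤ 2 * η₃ := by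
    have h2 := hy.2
    have h3 := hy'.2
    rw [mem_ball, dist_eq_norm] at h2 h3
    have := norm_sub_le (y' - x) (y - x)
    rw [sub_sub_sub_cancel_right] at this
    linarith
  have hr : C₁ * ‖y' - y‖ ≤ min δ 1 := by nlinarith
  have hcon := X.conn_seg (U := closedBall 0 (C₁ * ‖y' - y‖)) (p₀ := (0, X.q y)) (l := 0)
    (lam := C₁ * ‖y' - y‖) (by positivity) (X.norm_le_of_K hy.1.1) (X.norm_le_of_K hy'.1.1)
    (fun t ht => by
      have h2 : y + t • (y' - y) ∈ ball x η := (convex_ball x η).add_smul_sub_mem hyb hy'b ht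
      refine ⟨(hb _ h2).1, ?_, ((fderiv ℝ X.B _).le_opNorm _).trans
        (mul_le_mul_of_nonneg_right (hb _ h2).2 (norm_nonneg _))⟩
      have h3 := (convex_ball x η).norm_image_sub_le_of_norm_fderiv_le (f := X.B)
        (fun z hz => (X.B_smooth (hb z hz).1).differentiableAt (by simp))
        (fun z hz => (hb z hz).2) hyb h2
      rw [X.B_of_K hy.1.1, sub_zero, add_sub_cancel_left, norm_smul, Real.norm_eq_abs,
        abs_of_nonneg ht.1] at h3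
      rw [mem_closedBall_zero_iff]
      refine h3.trans (mul_le_mul_of_nonneg_left ?_ hC₁)
      nlinarith [ht.2, norm_nonneg (y' - y)])
    (by rw [X.B_of_K hy.1.1]; exact Conn.base)
  rw [X.B_of_K hy'.1.1, zero_add] at hcon
  have h4 := hh (X.q y) (hb₂ ⟨hy.1.2, by simpa using X.norm_le_of_K hy.1.1⟩
      (ball_subset_ball hη₃2 hy.2))
    (by have := X.q_leaf hy.1.2; rwa [X.B_of_K hy.1.1] at this) _ _ _ (by positivity)
    (hr.trans (min_le_left _ _)) (hr.trans (min_le_right _ _)) hcon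
  refine h4.trans (le_of_eq ?_)
  ring

theorem exists_missed {ε : ℝ} (hε : 0 < ε) :
    ∃ s ∈ Ioo 0 ε, ∀ x ∈ X.K ∩ X.D, ‖X.q x - X.q X.x₀‖ ≠ s := by
  set n := Module.finrank ℝ E with hn
  set f : E → ℝ := fun x => ‖X.q x - X.q X.x₀‖ with hf
  have h1 : dimH (f '' (X.K ∩ X.D)) ≤ dimH (X.K ∩ X.D) / ((n + 1 : ℕ) : ℝ≥0) := by
    refine dimH_image_le_of_locally_holder_on (by positivity) fun x hx => ?_
    obtain ⟨η, hη, C, hC, hh⟩ := X.holder_K n hx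
    refine ⟨C.toNNReal, X.K ∩ X.D ∩ ball x η, inter_mem_nhdsWithin _ (ball_mem_nhds x hη), ?_⟩
    intro y hy y' hy'
    have h2 : dist (f y) (f y') ≤ C * dist y y' ^ (n + 1) := by
      rw [dist_eq_norm y y']
      refine le_trans ?_ (hh y' hy' y hy)
      have := abs_norm_sub_norm_le (X.q y - X.q X.x₀) (X.q y' - X.q X.x₀)
      rwa [sub_sub_sub_cancel_right] at this
    rw [edist_dist, edist_dist, NNReal.coe_natCast, ENNReal.rpow_natCast,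
      ← ENNReal.ofReal_pow dist_nonneg, ENNReal.coe_nnreal_eq, Real.coe_toNNReal _ hC,
      ← ENNReal.ofReal_mul hC]
    exact ENNReal.ofReal_le_ofReal h2
  have h2 : dimH (X.K ∩ X.D) ≤ n := by
    rw [hn, ← Real.dimH_univ_eq_finrank E]
    exact dimH_mono (subset_univ _)
  have h3 : dimH (f '' (X.K ∩ X.D)) < Module.finrank ℝ ℝ := by
    refine h1.trans_lt ?_
    rw [Module.finrank_self, Nat.cast_one, ENNReal.div_lt_iff (by simp) (by simp), one_mul]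
    refine h2.trans_lt ?_
    norm_cast
    exact Nat.lt_succ_self n
  obtain ⟨s, hs1, hs2⟩ := (dense_compl_of_dimH_lt_finrank h3).inter_open_nonempty (Ioo 0 ε)
    isOpen_Ioo (nonempty_Ioo.2 hε)
  exact ⟨s, hs1, fun x hx h => hs2 ⟨x, hx, h⟩⟩

theorem closed_chart {s : ℝ} (hs : s < X.β) :
    IsClosed {n : N | n ∈ X.c'.ψ.source ∧ ‖X.c'.ψ n‖ ≤ s} := by
  have h1 : {n : N | n ∈ X.c'.ψ.source ∧ ‖X.c'.ψ n‖ ≤ s} = X.c'.ψ.symm '' closedBall 0 s := by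
    ext n
    constructor
    · rintro ⟨h1, h2⟩
      exact ⟨_, by simpa using h2, X.c'.ψ.left_inv h1⟩
    · rintro ⟨z, hz, rfl⟩
      have hzt := (X.hβb z (closedBall_subset_closedBall hs.le hz)).1
      exact ⟨X.c'.ψ.map_target hzt, by rw [X.c'.ψ.right_inv hzt]; simpa using hz⟩
  rw [h1]
  exact ((isCompact_closedBall _ _).image_of_continuousOn (X.c'.ψ.continuousOn_symm.mono
    fun y hy => (X.hβb y (closedBall_subset_closedBall hs.le hy)).1)).isClosed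

theorem fst_le (p : E × (E →L[ℝ] E)) : ‖p.1‖ ≤ ‖p - X.q X.x₀‖ := by
  have h1 : (X.q X.x₀).1 = 0 := X.hn'.2.1
  have h2 := norm_fst_le (p - X.q X.x₀)
  rwa [Prod.fst_sub, h1, sub_zero] at h2

/-- Limits of points of D with jets in a closed set of small jets. -/
theorem limit_mem (hK : ∀ x ∈ X.K, ‖x‖ = X.R) {s : ℝ} (hs : s < X.β) {T : Set ℝ}
    (hT : IsClosed T) (hTs : ∀ t ∈ T, t ≤ s) {x : E} (hx : x ∈ X.K)
    (hc : x ∈ closure {y | ‖y‖ < X.R ∧ y ∈ X.D ∧ ‖X.q y - X.q X.x₀‖ ∈ T}) :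
    x ∈ X.D ∧ ‖X.q x - X.q X.x₀‖ ∈ T := by
  have h1 : e₂ x ∈ {n : N | n ∈ X.c'.ψ.source ∧ ‖X.c'.ψ n‖ ≤ s} := by
    refine ((X.closed_chart hs).preimage X.h.ex₂.cont).closure_subset_iff.2 ?_ hc
    intro y hy
    exact ⟨hy.2.1.2.2.1, (X.fst_le (X.q y)).trans (hTs _ hy.2.2)⟩
  have hxD : x ∈ X.D := by
    refine ⟨?_, ?_, h1.1, ?_⟩
    · rw [← norm_pos_iff, hK x hx]; exact X.hR
    · rw [X.e₁_of_K hx]; exact X.hn.mem_bl X.hρ
    · rw [mem_preimage, mem_ball_zero_iff]; exact h1.2.trans_lt hs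
  refine ⟨hxD, ?_⟩
  have h2 := X.continuousOn_q x ⟨hxD, by simpa using (hK x hx).le⟩
  have h3 : ContinuousWithinAt (fun y => ‖X.q y - X.q X.x₀‖)
      {y | ‖y‖ < X.R ∧ y ∈ X.D ∧ ‖X.q y - X.q X.x₀‖ ∈ T} x :=
    ((h2.mono fun y hy => ⟨hy.2.1, by simpa using hy.1.le⟩).sub continuousWithinAt_const).norm
  have h4 := h3.mem_closure hc (t := T) fun y hy => hy.2.2
  rwa [hT.closure_eq] at h4

theorem K_const (hK : ∀ x ∈ X.K, ‖x‖ = X.R) {x : E} (hx : x ∈ X.K) :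
    x ∈ X.D ∧ X.q x = X.q X.x₀ := by
  have key : ∀ ε, 0 < ε → ε ≤ X.β → x ∈ X.D ∧ ‖X.q x - X.q X.x₀‖ ≤ ε := by
    intro ε hε hεβ
    obtain ⟨s, hs, hmiss⟩ := X.exists_missed hε
    have hsβ : s < X.β := hs.2.trans_le hεβ
    -- for small r the value s is not taken on Y r
    obtain ⟨r, hr, hrs⟩ : ∃ r > 0, ∀ y ∈ X.Y r, y ∈ X.D → y ≠ 0 ∧ ‖X.q y - X.q X.x₀‖ ≠ s := by
      by_contra hcon
      push Not at hcon
      obtain ⟨z, hz⟩ := X.nest (V := {y | y ∈ X.D ∧ ‖X.q y - X.q X.x₀‖ = s}) (fun r hr => by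
        obtain ⟨y, h1, h2, h3⟩ := hcon r hr
        exact ⟨y, h1, h2, h3 h2.1⟩)
      have hzK : z ∈ X.K := fun r hr => closure_mono inter_subset_left (hz r hr)
      have := X.limit_mem hK hsβ (T := {s}) isClosed_singleton (fun t ht => le_of_eq ht) hzK
        (closure_mono (fun y hy => And.intro hy.1.1 (And.intro hy.2.1 hy.2.2)) (hz 1 one_pos))
      exact hmiss z ⟨hzK, this.1⟩ this.2
    obtain ⟨r₂, hr₂, hnear⟩ := X.near_K X.hR
    set r' := min (min r r₂) X.ρ with hr'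
    have hr'0 : 0 < r' := lt_min (lt_min hr hr₂) X.hρ
    have hYr : X.Y r' ⊆ X.Y r := fun y hy =>
      ⟨hy.1, X.hWm _ _ ((min_le_left _ _).trans (min_le_left _ _)) hy.2⟩
    have hY0 : ∀ y ∈ X.Y r', y ≠ 0 := by
      rintro y hy rfl
      obtain ⟨z, hz, hlt⟩ := hnear 0
        ⟨hy.1, X.hWm _ _ ((min_le_left _ _).trans (min_le_right _ _)) hy.2⟩
      rw [zero_sub, norm_neg, hK z hz] at hlt
      exact lt_irrefl _ hlt
    have hYρ : ∀ y ∈ X.Y r', e₁ y ∈ X.c.bl X.ρ := fun y hy =>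
      ⟨(X.Y_bl hy).1, ball_subset_ball (min_le_right _ _) (X.Y_bl hy).2⟩
    set U₁ : Set (Gm 𝒜 ℬ) := {ξ | ξ.pt ∈ X.c.ψ.source ∧ ξ.ev ∈ X.c'.ψ.source ∧
      ‖ξ.jet X.c X.c' - X.q X.x₀‖ < s} with hU₁
    set U₂ : Set (Gm 𝒜 ℬ) := {ξ | ξ.pt ∈ X.c.ψ.source ∧ ¬ (ξ.ev ∈ X.c'.ψ.source ∧
      ‖ξ.jet X.c X.c' - X.q X.x₀‖ ≤ s)} with hU₂
    have hpt : ∀ ξ : Gm 𝒜 ℬ, ξ.pt ∈ X.c.ψ.source → ∀ᶠ ζ in 𝓝 ξ, ζ.pt ∈ X.c.ψ.source :=
      fun ξ hξ => Gm.continuous_pt.continuousAt.eventually (X.c.ψ.open_source.mem_nhds hξ)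
    have hev : ∀ ξ : Gm 𝒜 ℬ, ξ.ev ∈ X.c'.ψ.source → ∀ᶠ ζ in 𝓝 ξ, ζ.ev ∈ X.c'.ψ.source :=
      fun ξ hξ => Gm.continuous_ev.continuousAt.eventually (X.c'.ψ.open_source.mem_nhds hξ)
    have hcj : ∀ ξ : Gm 𝒜 ℬ, ξ.pt ∈ X.c.ψ.source → ξ.ev ∈ X.c'.ψ.source →
        ContinuousAt (fun ζ : Gm 𝒜 ℬ => ‖ζ.jet X.c X.c' - X.q X.x₀‖) ξ := fun ξ h1 h2 =>
      ((Gm.continuousAt_jet X.hc X.hc' h1 h2).sub continuousAt_const).norm
    have hU₁o : IsOpen U₁ := isOpen_iff_mem_nhds.2 fun ξ hξ =>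
      (hpt ξ hξ.1).and ((hev ξ hξ.2.1).and ((hcj ξ hξ.1 hξ.2.1).eventually (gt_mem_nhds hξ.2.2)))
    have hU₂o : IsOpen U₂ := by
      refine isOpen_iff_mem_nhds.2 fun ξ hξ => (hpt ξ hξ.1).and ?_
      by_cases h1 : ξ.ev ∈ X.c'.ψ.source
      · have h2 : s < ‖ξ.jet X.c X.c' - X.q X.x₀‖ := not_le.1 fun h => hξ.2 ⟨h1, h⟩
        filter_upwards [(hcj ξ hξ.1 h1).eventually (lt_mem_nhds h2)] with ζ hζ h3
        exact absurd h3.2 (not_le.2 hζ)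
      · have h2 := Gm.continuous_ev.continuousAt.eventually
          ((X.closed_chart hsβ).isOpen_compl.mem_nhds (x := ξ.ev) fun h => h1 h.1)
        filter_upwards [h2] with ζ hζ h3
        exact hζ ⟨h3.1, (X.fst_le (ζ.jet X.c X.c')).trans h3.2⟩
    have hD : ∀ y ∈ X.Y r', (X.h.φ y).ev ∈ X.c'.ψ.source →
        ‖(X.h.φ y).jet X.c X.c' - X.q X.x₀‖ ≤ s → y ∈ X.D := by
      intro y hy h1 h2
      have hg := (X.hLL y hy.1).good
      have h3 := (X.fst_le ((X.h.φ y).jet X.c X.c')).trans h2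
      simp only [Gm.jet] at h3
      rw [X.h.φ_ev hg] at h1 h3
      exact ⟨hY0 y hy, hYρ y hy, h1, by rw [mem_preimage, mem_ball_zero_iff]; linarith⟩
    have hsub : X.W r' ⊆ U₁ := by
      refine (X.hWc r').subset_left_of_subset_union hU₁o hU₂o ?_ ?_ ?_
      · rw [Set.disjoint_left]
        exact fun ξ h1 h2 => h2.2 ⟨h1.2.1, h1.2.2.le⟩
      · intro ξ hξ
        obtain ⟨h1, y, hy, rfl⟩ := X.hWo r' hξ
        by_cases h2 : (X.h.φ y).ev ∈ X.c'.ψ.source ∧ ‖(X.h.φ y).jet X.c X.c' - X.q X.x₀‖ ≤ s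
        · left
          have hyD := hD y ⟨hy, hξ⟩ h2.1 h2.2
          refine ⟨h1.1, h2.1, lt_of_le_of_ne h2.2 ?_⟩
          rw [X.jet_φ hyD (X.hLL y hy).good]
          exact (hrs y (hYr ⟨hy, hξ⟩) hyD).2
        · exact Or.inr ⟨h1.1, h2⟩
      · have h1 := ((X.tendsto_q_ray X.x₀_mem_D).sub_const (X.q X.x₀)).norm
        rw [sub_self, norm_zero] at h1
        obtain ⟨t, ⟨h2, h3⟩, h4⟩ := (((X.tail_mem hr'0).and (h1.eventually (gt_mem_nhds hs.1))).and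
          (X.tendsto_tail.eventually (X.isOpen_D.mem_nhds X.x₀_mem_D))).exists
        have hg := (X.hLL _ h2.1).good
        refine ⟨_, h2.2, ?_, ?_, ?_⟩
        · rw [X.h.φ_pt hg]; exact h4.2.1.1
        · rw [X.h.φ_ev hg]; exact h4.2.2.1
        · rw [X.jet_φ h4 hg]; exact h3
    have := X.limit_mem hK hsβ (T := Iic s) isClosed_Iic (fun t ht => ht) hx
      (closure_mono (fun y hy => by
        have h1 := hsub hy.2
        have hyD := hD y hy h1.2.1 h1.2.2.le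
        refine ⟨hy.1, hyD, ?_⟩
        rw [← X.jet_φ hyD (X.hLL y hy.1).good]
        exact h1.2.2.le) (hx r' hr'0))
    exact ⟨this.1, this.2.trans hs.2.le⟩
  refine ⟨(key X.β X.hβ le_rfl).1, ?_⟩
  rw [← sub_eq_zero, ← norm_le_zero_iff]
  refine le_of_forall_pos_le_add fun ε hε => ?_
  rw [zero_add]
  exact (key (min ε X.β) (lt_min hε X.hβ) (min_le_right _ _)).2.trans (min_le_left _ _)

end Ctx

end Pool.Agent.MP_3fed84_gt
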