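import Pool.Agent.MP_3fed84_gt.Germ

/-! Lifting of Lipschitz paths and the minimisation lemma. -/

open Set Metric Filter Topology
open scoped ContDiff RealInnerProductSpace

namespace Pool.Agent.MP_3fed84_gt

variable {E : Type} [NormedAddCommGroup E] [InnerProductSpace ℝ E] [FiniteDimensional ℝ E]
  {M N : Type} [TopologicalSpace M] [TopologicalSpace N] [T2Space M] [T2Space N]
  [PreconnectedSpace M] {𝒜 : Atlas E M} {ℬ : Atlas E N} {e₁ : E → M} {e₂ : E → N}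

/-- The local Hopf-Rinow property at y. -/
def LL (𝒜 : Atlas E M) (ℬ : Atlas E N) (e₁ : E → M) (e₂ : E → N) (y : E) : Prop :=
  ∃ F, LI 𝒜 ℬ F (e₁ y) ∧ Agree e₁ e₂ F y ∧ ∀ᶠ m in 𝓝 (e₁ y), ∃ y',
    ‖y'‖ ≤ ‖y‖ + 𝒜.d (e₁ y) m ∧ e₁ y' = m ∧ Agree e₁ e₂ F y'

omit [T2Space M] [T2Space N] [PreconnectedSpace M] [FiniteDimensional ℝ E] in
theorem LL.good {y : E} (h : LL 𝒜 ℬ e₁ e₂ y) : Good 𝒜 ℬ e₁ e₂ y :=
  let ⟨F, h1, h2, _⟩ := h; ⟨F, h1, h2⟩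

theorem Pair.lift_path (h : Pair 𝒜 ℬ e₁ e₂) {R : ℝ} (hLL : ∀ y, ‖y‖ < R → LL 𝒜 ℬ e₁ e₂ y)
    {y : E} {c : ℝ → M} {lam : ℝ} (hlam : 0 ≤ lam) (hc : ContinuousOn c (Icc 0 1))
    (h0 : c 0 = e₁ y)
    (hl : ∀ t ∈ Icc (0 : ℝ) 1, ∀ t' ∈ Icc (0 : ℝ) 1, t ≤ t' → 𝒜.d (c t) (c t') ≤ lam * (t' - t))
    (hR : ‖y‖ + lam < R) :
    ∃ Γ : ℝ → Gm 𝒜 ℬ, ContinuousOn Γ (Icc 0 1) ∧ Γ 0 = h.φ y ∧ ∀ t ∈ Icc (0 : ℝ) 1,
      (Γ t).pt = c t ∧ ∃ y', ‖y'‖ ≤ ‖y‖ + lam * t ∧ h.φ y' = Γ t := by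
  have hg : ∀ y', ‖y'‖ < R → Good 𝒜 ℬ e₁ e₂ y' := fun y' hy' => (hLL y' hy').good
  have hb : ∀ t ∈ Icc (0 : ℝ) 1, ∀ y' : E, ‖y'‖ ≤ ‖y‖ + lam * t → ‖y'‖ < R := by
    intro t ht y' hy'
    have : lam * t ≤ lam := by nlinarith [ht.2]
    linarith
  refine exists_lift (Q := fun t ξ => ∃ y', ‖y'‖ ≤ ‖y‖ + lam * t ∧ h.φ y' = ξ)
    Gm.isLocalHomeomorph Gm.isSeparatedMap hc ?_ ⟨y, by simp, rfl⟩ ?_ ?_
  · rw [h.φ_pt (hg y (by linarith)), h0]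
  · intro t ht Γ _ hΓ
    have hch : ∀ s, ∃ y' : E, s ∈ Ico 0 t → ‖y'‖ ≤ ‖y‖ + lam * s ∧ h.φ y' = Γ s := by
      intro s
      by_cases hs : s ∈ Ico 0 t
      · obtain ⟨y', hy'⟩ := (hΓ s hs).2
        exact ⟨y', fun _ => hy'⟩
      · exact ⟨0, fun h => absurd h hs⟩
    choose ys hys using hch
    have hev : ∀ᶠ s in 𝓝[<] t, s ∈ Ico 0 t := Ico_mem_nhdsLT ht.1
    have hcp : IsCompact (closedBall (0 : E) (‖y‖ + lam * t)) := isCompact_closedBall _ _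
    obtain ⟨z, hz, hzc⟩ := hcp.exists_mapClusterPt (f := 𝓝[<] t) (u := ys) (by
      rw [le_principal_iff, mem_map]
      filter_upwards [hev] with s hs
      simp only [mem_preimage, mem_closedBall, dist_zero_right]
      have := (hys s hs).1
      nlinarith [hs.2.le])
    rw [mem_closedBall, dist_zero_right] at hz
    have hzg : Good 𝒜 ℬ e₁ e₂ z := hg z (hb t ⟨ht.1.le, ht.2⟩ z hz)
    have h1 : MapClusterPt (h.φ z) (𝓝[<] t) Γ := by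
      have h2 := hzc.continuousAt_comp (h.continuousAt_φ hzg)
      refine (MapClusterPt.congrFun ?_ h2)
      filter_upwards [hev] with s hs using (hys s hs).2
    refine ⟨h.φ z, ?_, ⟨z, hz, rfl⟩, h1⟩
    have h3 := h1.continuousAt_comp (Gm.continuous_pt.continuousAt)
    have h4 : Tendsto (Gm.pt ∘ Γ) (𝓝[<] t) (𝓝 (c t)) := by
      have h5 : Tendsto c (𝓝[<] t) (𝓝 (c t)) := by
        refine (hc t ⟨ht.1.le, ht.2⟩).tendsto.mono_left ?_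
        rw [nhdsWithin, nhdsWithin, le_inf_iff]
        refine ⟨inf_le_left, ?_⟩
        rw [le_principal_iff]
        filter_upwards [hev] with s hs using ⟨hs.1, hs.2.le.trans ht.2⟩
      refine h5.congr' ?_
      filter_upwards [hev] with s hs using (hΓ s hs).1.symm
    exact eq_of_nhds_neBot (h3.clusterPt.mono h4)
  · rintro t ht ξ hξ ⟨y', hy', rfl⟩
    have hy'R := hb t ⟨ht.1, ht.2.le⟩ y' hy'
    obtain ⟨F, hF, ha, hev⟩ := hLL y' hy'R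
    have hrep := h.φ_rep hF ha
    have hpt : e₁ y' = c t := by rw [← hξ, h.φ_pt (hg y' hy'R)]
    have hI : ∀ᶠ s in 𝓝[>] t, s ∈ Ioc t 1 := Ioc_mem_nhdsGT ht.2
    have h5 : Tendsto c (𝓝[>] t) (𝓝 (e₁ y')) := by
      rw [hpt]
      refine (hc t ⟨ht.1, ht.2.le⟩).tendsto.mono_left ?_
      rw [nhdsWithin, nhdsWithin, le_inf_iff]
      refine ⟨inf_le_left, ?_⟩
      rw [le_principal_iff]
      filter_upwards [hI] with s hs using ⟨ht.1.trans hs.1.le, hs.2⟩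
    have h6 := (hI.and (h5.eventually (hev.and hF.eventually))).prod_mk hrep.eventually
    filter_upwards [h6] with z hz hp
    obtain ⟨⟨hs, ⟨y'', hn, he, ha'⟩, hli⟩, hr⟩ := hz
    refine ⟨y'', ?_, ?_⟩
    · have := hl t ⟨ht.1, ht.2.le⟩ z.1 ⟨ht.1.trans hs.1.le, hs.2⟩ hs.1.le
      rw [hpt] at hn
      linarith
    · have hli' : LI 𝒜 ℬ F (e₁ y'') := by rw [he]; exact hli
      refine Gm.ext' (h.φ_rep hli' ha') hr ?_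
      rw [h.φ_pt ⟨F, hli', ha'⟩, he, hp]


/-- Realised germs over O. -/
def Pair.Over (h : Pair 𝒜 ℬ e₁ e₂) (R : ℝ) (O : Set M) : Set (Gm 𝒜 ℬ) :=
  {ξ | ξ.pt ∈ O ∧ ∃ y, ‖y‖ < R ∧ h.φ y = ξ}

/-- W is a union of components of the set of realised germs over O. -/
def Pair.Sat (h : Pair 𝒜 ℬ e₁ e₂) (R : ℝ) (O : Set M) (W : Set (Gm 𝒜 ℬ)) : Prop :=
  ∀ S, IsPreconnected S → S ⊆ h.Over R O → (S ∩ W).Nonempty → S ⊆ W

/-- The ray to x has a tail in O that starts in W. -/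
def Pair.Tl (h : Pair 𝒜 ℬ e₁ e₂) (R : ℝ) (O : Set M) (W : Set (Gm 𝒜 ℬ)) (x : E) : Prop :=
  ∃ t₀ ∈ Icc (0 : ℝ) 1, ‖t₀ • x‖ < R ∧ h.φ (t₀ • x) ∈ W ∧ ∀ t ∈ Icc t₀ 1, e₁ (t • x) ∈ O

/-- Moving along a ray inside O and inside the ball keeps the germ in W. -/
theorem Pair.Sat.ray {h : Pair 𝒜 ℬ e₁ e₂} {R : ℝ} (hLL : ∀ y, ‖y‖ < R → LL 𝒜 ℬ e₁ e₂ y)
    {O : Set M} {W : Set (Gm 𝒜 ℬ)} (hW : h.Sat R O W) {x : E} {s t : ℝ}
    (hs : h.φ (s • x) ∈ W) (hst : ∀ r ∈ uIcc s t, ‖r • x‖ < R ∧ e₁ (r • x) ∈ O) :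
    h.φ (t • x) ∈ W := by
  have hc : ContinuousOn (fun r : ℝ => h.φ (r • x)) (uIcc s t) := by
    intro r hr
    have h1 : ContinuousAt (fun r : ℝ => r • x) r := by fun_prop
    exact (ContinuousAt.comp (f := fun r : ℝ => r • x)
      (h.continuousAt_φ (hLL _ (hst r hr).1).good) h1).continuousWithinAt
  refine hW _ (isPreconnected_uIcc.image _ hc) ?_ ⟨_, ⟨s, left_mem_uIcc, rfl⟩, hs⟩
    ⟨t, right_mem_uIcc, rfl⟩
  rintro _ ⟨r, hr, rfl⟩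
  refine ⟨?_, _, (hst r hr).1, rfl⟩
  rw [h.φ_pt (hLL _ (hst r hr).1).good]
  exact (hst r hr).2


omit [T2Space M] [T2Space N] in
theorem Ex.d_back (h : Ex 𝒜 e₁) (z : M) (x : E) {r : ℝ} (hr : r ≤ 1) :
    𝒜.d z (e₁ (r • x)) ≤ 𝒜.d z (e₁ x) + ‖x‖ * (1 - r) := by
  have h1 := h.d_ray x hr
  rw [one_smul] at h1
  have h2 := d_triangle (𝒜 := 𝒜) z (e₁ x) (e₁ (r • x))
  rw [d_comm (e₁ x)] at h2
  linarith

/-- Normalisation: move back along the ray into the compact set. -/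
theorem Pair.nrm (h : Pair 𝒜 ℬ e₁ e₂) {R b : ℝ} (hb : 0 < b) (hbR : b < R)
    (hLL : ∀ y, ‖y‖ < R → LL 𝒜 ℬ e₁ e₂ y) {O : Set M} {W : Set (Gm 𝒜 ℬ)} (hW : h.Sat R O W)
    {z : M} (hz : ∀ m, 𝒜.d z m ≤ 2 * b → m ∈ O) {x : E} (hx : h.Tl R O W x)
    (hd : 𝒜.d z (e₁ x) ≤ 2 * b) (hv : ‖x‖ + 𝒜.d z (e₁ x) ≤ R + b) :
    ∃ y, (‖y‖ ≤ R - b ∧ h.φ y ∈ W ∧ 𝒜.d z (e₁ y) ≤ 2 * b) ∧
      ‖y‖ + 𝒜.d z (e₁ y) ≤ ‖x‖ + 𝒜.d z (e₁ x) := by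
  obtain ⟨t₀, ht₀, hn, hw, hO⟩ := hx
  by_cases hxn : ‖x‖ ≤ R - b
  · refine ⟨x, ⟨hxn, ?_, hd⟩, le_rfl⟩
    have := hW.ray hLL (t := 1) hw (by
      intro r hr
      rw [uIcc_of_le ht₀.2] at hr
      refine ⟨?_, hO r hr⟩
      rw [norm_smul, Real.norm_eq_abs, abs_of_nonneg (ht₀.1.trans hr.1)]
      nlinarith [hr.2, norm_nonneg x])
    rwa [one_smul] at this
  · push Not at hxn
    have hx0 : 0 < ‖x‖ := by linarith
    set t₁ := (R - b) / ‖x‖ with ht₁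
    have ht₁x : t₁ * ‖x‖ = R - b := by rw [ht₁]; field_simp
    have ht₁0 : 0 ≤ t₁ := div_nonneg (by linarith) hx0.le
    have ht₁1 : t₁ ≤ 1 := by rw [ht₁, div_le_one hx0]; linarith
    have hdr : ∀ r, t₁ ≤ r → r ≤ 1 → 𝒜.d z (e₁ (r • x)) ≤ 2 * b := by
      intro r h1 h2
      have := h.ex₁.d_back z x h2
      nlinarith
    have hnrm : ‖t₁ • x‖ = R - b := by
      rw [norm_smul, Real.norm_eq_abs, abs_of_nonneg ht₁0, ht₁x]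
    refine ⟨t₁ • x, ⟨hnrm.le, ?_, hdr t₁ le_rfl ht₁1⟩, ?_⟩
    · refine hW.ray hLL hw ?_
      intro r hr
      rcases le_total t₀ t₁ with h01 | h01
      · rw [uIcc_of_le h01] at hr
        refine ⟨?_, hO r ⟨hr.1, hr.2.trans ht₁1⟩⟩
        rw [norm_smul, Real.norm_eq_abs, abs_of_nonneg (ht₀.1.trans hr.1)]
        nlinarith [hr.2]
      · rw [uIcc_of_ge h01] at hr
        refine ⟨?_, hz _ (hdr r hr.1 (hr.2.trans ht₀.2))⟩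
        rw [norm_smul, Real.norm_eq_abs, abs_of_nonneg ht₀.1] at hn
        rw [norm_smul, Real.norm_eq_abs, abs_of_nonneg (ht₁0.trans hr.1)]
        nlinarith [hr.2]
    · have := h.ex₁.d_back z x ht₁1
      rw [hnrm]
      nlinarith

omit [T2Space M] in
theorem Pair.isCompact_adm (h : Pair 𝒜 ℬ e₁ e₂) {R b : ℝ} (hb : 0 < b)
    (hLL : ∀ y, ‖y‖ < R → LL 𝒜 ℬ e₁ e₂ y) {O : Set M} (hO : IsOpen O) {W : Set (Gm 𝒜 ℬ)}
    (hW : h.Sat R O W) {z : M} (hz : ∀ m, 𝒜.d z m ≤ 2 * b → m ∈ O) :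
    IsCompact {y : E | ‖y‖ ≤ R - b ∧ h.φ y ∈ W ∧ 𝒜.d z (e₁ y) ≤ 2 * b} := by
  refine (isCompact_closedBall (0 : E) (R - b)).of_isClosed_subset ?_ ?_
  swap
  · intro y hy
    simpa using hy.1
  refine isClosed_of_closure_subset ?_
  intro y hy
  have h1 : ‖y‖ ≤ R - b := by
    have : IsClosed {y : E | ‖y‖ ≤ R - b} := isClosed_le continuous_norm continuous_const
    exact this.closure_subset_iff.2 (fun y hy => hy.1) hy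
  have h2 : 𝒜.d z (e₁ y) ≤ 2 * b := by
    have : IsClosed {y : E | 𝒜.d z (e₁ y) ≤ 2 * b} :=
      isClosed_le ((continuous_d z).comp h.ex₁.cont) continuous_const
    exact this.closure_subset_iff.2 (fun y hy => hy.2.2) hy
  refine ⟨h1, ?_, h2⟩
  have h3 : ∀ᶠ y' in 𝓝 y, ‖y'‖ < R ∧ e₁ y' ∈ O := by
    refine Eventually.and ?_ (h.ex₁.cont.continuousAt.eventually (hO.mem_nhds (hz _ h2)))
    exact continuous_norm.continuousAt.eventually (gt_mem_nhds (by linarith))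
  obtain ⟨η, hη, hball⟩ := Metric.eventually_nhds_iff_ball.1 h3
  obtain ⟨y', hy'1, hy'2⟩ := mem_closure_iff_nhds.1 hy _ (ball_mem_nhds y hη)
  have hc : ContinuousOn h.φ (ball y η) := fun y'' hy'' =>
    (h.continuousAt_φ (hLL _ (hball _ hy'').1).good).continuousWithinAt
  refine hW _ ((convex_ball y η).isPreconnected.image _ hc) ?_ ⟨_, ⟨y', hy'1, rfl⟩, hy'2.2.1⟩
    ⟨y, mem_ball_self hη, rfl⟩
  rintro _ ⟨y'', hy'', rfl⟩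
  refine ⟨?_, _, (hball _ hy'').1, rfl⟩
  rw [h.φ_pt (hLL _ (hball _ hy'').1).good]
  exact (hball _ hy'').2

/-- The minimisation lemma. -/
theorem Pair.minimise (h : Pair 𝒜 ℬ e₁ e₂) {R : ℝ} (hR : 0 < R)
    (hLL : ∀ y, ‖y‖ < R → LL 𝒜 ℬ e₁ e₂ y) {m₀ : M} {O : Set M} (hO : IsOpen O) (hm₀ : m₀ ∈ O) :
    ∃ b > 0, ∀ W, h.Sat R O W → ∀ x z, h.Tl R O W x → 𝒜.d m₀ (e₁ x) ≤ b → 𝒜.d m₀ z ≤ b →
      ‖x‖ + 𝒜.d (e₁ x) z ≤ R + b →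
      ∃ x', h.Tl R O W x' ∧ e₁ x' = z ∧ ‖x'‖ ≤ ‖x‖ + 𝒜.d (e₁ x) z := by
  obtain ⟨O₁, hO₁, hmin⟩ := exists_minimising 𝒜 m₀
  obtain ⟨ρ, hρ, hρO⟩ := exists_d_ball (𝒜 := 𝒜) (inter_mem (hO.mem_nhds hm₀) hO₁)
  set b := min (ρ / 5) (R / 2) with hbdef
  have hb : 0 < b := lt_min (by linarith) (by linarith)
  have hbρ : 5 * b ≤ ρ := by have := min_le_left (ρ / 5) (R / 2); linarith
  have hbR : b < R := by have := min_le_right (ρ / 5) (R / 2); linarith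
  refine ⟨b, hb, ?_⟩
  intro W hW x z hx hdx hdz hv
  have hz3 : ∀ m, 𝒜.d z m ≤ 3 * b → m ∈ O ∩ O₁ := by
    intro m hm
    have := d_triangle (𝒜 := 𝒜) m₀ z m
    exact hρO m (by linarith)
  have hz : ∀ m, 𝒜.d z m ≤ 2 * b → m ∈ O := fun m hm => (hz3 m (by linarith)).1
  rw [d_comm (e₁ x) z] at hv ⊢
  have hd : 𝒜.d z (e₁ x) ≤ 2 * b := by
    have := d_triangle (𝒜 := 𝒜) z m₀ (e₁ x)
    rw [d_comm z m₀] at this
    linarith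
  obtain ⟨y₁, hy₁, hy₁v⟩ := h.nrm hb hbR hLL hW hz hx hd hv
  have hcv : Continuous fun y : E => ‖y‖ + 𝒜.d z (e₁ y) :=
    continuous_norm.add ((continuous_d z).comp h.ex₁.cont)
  obtain ⟨y, ⟨hyn, hyW, hyd⟩, hymin⟩ :=
    (h.isCompact_adm hb hLL hO hW hz).exists_isMinOn ⟨y₁, hy₁⟩ hcv.continuousOn
  have hyv : ‖y‖ + 𝒜.d z (e₁ y) ≤ ‖x‖ + 𝒜.d z (e₁ x) := (hymin hy₁).trans hy₁v
  by_cases hyz : e₁ y = z
  · refine ⟨y, ⟨1, ⟨zero_le_one, le_rfl⟩, ?_, ?_, ?_⟩, hyz, ?_⟩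
    · rw [one_smul]; linarith
    · rwa [one_smul]
    · intro t ht
      rw [le_antisymm ht.2 ht.1, one_smul]
      exact hz _ hyd
    · have := d_nonneg (𝒜 := 𝒜) z (e₁ y)
      linarith
  have hzO : z ∈ O₁ := (hz3 z (by rw [d_self]; linarith)).2
  obtain ⟨hl, γ, hγ0, hγ1, hγ⟩ := hmin (e₁ y) (hz3 _ (by linarith)).2 z hzO hyz
  set l := 𝒜.d (e₁ y) z with hldef
  have hlz : 𝒜.d z (e₁ y) = l := d_comm _ _
  have hγd : ∀ t ∈ Icc 0 l, 𝒜.d z (γ t) ≤ l - t := by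
    intro t ht
    have := d_le_of_unit (𝒜 := 𝒜) (γ := γ) ht.2 (fun s hs => hγ s ⟨ht.1.trans hs.1, hs.2⟩)
    rwa [hγ1, d_comm] at this
  have hγO : ∀ t ∈ Icc 0 l, γ t ∈ O := fun t ht => hz _ (by have := hγd t ht; linarith [ht.1])
  -- the conclusion when γ continues the ray through y
  have fin : ∀ θ : E, ‖θ‖ = 1 → y = ‖y‖ • θ → (∀ t ∈ Icc 0 l, γ t = e₁ ((‖y‖ + t) • θ)) →
      ∃ x', h.Tl R O W x' ∧ e₁ x' = z ∧ ‖x'‖ ≤ ‖x‖ + 𝒜.d z (e₁ x) := by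
    intro θ hθ hyθ hγθ
    have hpos : 0 < ‖y‖ + l := by positivity
    have hsm : (‖y‖ / (‖y‖ + l)) • ((‖y‖ + l) • θ) = y := by
      rw [smul_smul, div_mul_cancel₀ _ hpos.ne', ← hyθ]
    refine ⟨(‖y‖ + l) • θ, ⟨‖y‖ / (‖y‖ + l), ⟨by positivity, ?_⟩, ?_, ?_, ?_⟩, ?_, ?_⟩
    · rw [div_le_one hpos]; linarith
    · rw [hsm]; linarith
    · rw [hsm]; exact hyW
    · intro t ht
      have h1 : ‖y‖ ≤ t * (‖y‖ + l) := by
        have := ht.1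
        rwa [div_le_iff₀ hpos] at this
      have h2 : t * (‖y‖ + l) ≤ ‖y‖ + l := by nlinarith [ht.2]
      have h3 := hγθ (t * (‖y‖ + l) - ‖y‖) ⟨by linarith, by linarith⟩
      rw [smul_smul, show t * (‖y‖ + l) = ‖y‖ + (t * (‖y‖ + l) - ‖y‖) by ring, ← h3]
      exact hγO _ ⟨by linarith, by linarith⟩
    · rw [← hγθ l ⟨hl.le, le_rfl⟩, hγ1]
    · rw [norm_smul, hθ, Real.norm_eq_abs, abs_of_pos hpos]
      linarith
  by_cases hy0 : y = 0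
  · obtain ⟨θ, hθ, hθγ⟩ := h.ex₁.ray_of_geo hl.le (by rw [hγ0, hy0]) hγ
    refine fin θ hθ (by simp [hy0]) ?_
    intro t ht
    rw [hθγ t ht, hy0, norm_zero, zero_add]
  have hypos : 0 < ‖y‖ := norm_pos_iff.2 hy0
  set θ : E := ‖y‖⁻¹ • y with hθdef
  have hθ : ‖θ‖ = 1 := by rw [hθdef, norm_smul, norm_inv, norm_norm, inv_mul_cancel₀ hypos.ne']
  have hyθ : y = ‖y‖ • θ := by rw [hθdef, smul_smul, mul_inv_cancel₀ hypos.ne', one_smul]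
  obtain ⟨c, hc, hn⟩ := 𝒜.norm (e₁ y)
  set γ₁ : ℝ → M := fun s => e₁ ((1 * s + ‖y‖) • θ) with hγ₁
  have hγ₁0 : γ₁ 0 = e₁ y := by simp only [hγ₁, mul_zero, zero_add]; rw [← hyθ]
  have hγ₁g : ∀ t, GeoAt 𝒜 γ₁ t := fun t =>
    GeoAt.affine (γ := fun s : ℝ => e₁ (s • θ)) (h.ex₁.geo θ _)
  have hsrc : e₁ (‖y‖ • θ) ∈ c.ψ.source := by rw [← hyθ]; exact hn.1
  set v₁ := fderiv ℝ (c.ψ ∘ e₁) (‖y‖ • θ) θ with hv₁
  have hd₁ : HasDerivAt (c.ψ ∘ γ₁) v₁ 0 := by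
    have h1 := h.ex₁.hasDerivAt_ray hc hsrc
    have h2 : HasDerivAt (fun s : ℝ => 1 * s + ‖y‖) 1 0 := by
      simpa using ((hasDerivAt_id (0 : ℝ)).add_const ‖y‖)
    have h3 := HasDerivAt.scomp (h := fun s : ℝ => 1 * s + ‖y‖) (0 : ℝ)
      (by simpa using h1) h2
    rw [one_smul] at h3
    exact h3
  have hn₁ : ‖v₁‖ = 1 := by
    have h1 := h.ex₁.speed hc hsrc
    rw [← hyθ, hn.2.1, hn.2.2, hθ, real_inner_self_eq_norm_sq, hyθ] at h1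
    have h2 : ‖v₁‖ ^ 2 = 1 ^ 2 := by rw [hv₁]; convert h1 using 4
    exact (pow_left_inj₀ (norm_nonneg _) zero_le_one two_ne_zero).1 h2
  obtain ⟨v₂, hd₂, hv₂⟩ := (hγ 0 ⟨le_rfl, hl.le⟩).2 c hc (by rw [hγ0]; exact hn.1)
  have hn₂ : ‖v₂‖ = 1 := by
    rw [hγ0, hn.2.1, hn.2.2, real_inner_self_eq_norm_sq] at hv₂
    have h2 : ‖v₂‖ ^ 2 = 1 ^ 2 := by rw [hv₂]; norm_num
    exact (pow_left_inj₀ (norm_nonneg _) zero_le_one two_ne_zero).1 h2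
  by_cases hvv : v₁ = v₂
  · have h1 : γ₁ =ᶠ[𝓝 0] γ := GeoAt.unique_nhds (hγ₁g 0) (hγ 0 ⟨le_rfl, hl.le⟩).1 hc
      (by rw [hγ₁0]; exact hn.1) (by rw [hγ₁0, hγ0]) hd₁ (hvv ▸ hd₂)
    have h2 := GeoAt.unique isPreconnected_Icc (fun t _ => hγ₁g t) (fun t ht => (hγ t ht).1)
      ⟨le_rfl, hl.le⟩ h1
    refine fin θ hθ hyθ ?_
    intro t ht
    rw [← (h2 t ht).eq_of_nhds]
    simp only [hγ₁]
    rw [one_mul, add_comm]
  exfalso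
  obtain ⟨κ, hκ, hev⟩ := shortcut hc hn hγ₁0 hγ0 (hγ₁g 0).continuousAt
    (hγ 0 ⟨le_rfl, hl.le⟩).1.continuousAt hd₁ hd₂ hn₁ hn₂ hvv
    (hO.mem_nhds (hz _ hyd))
  have hsm : ∀ᶠ s in 𝓝[>] (0 : ℝ), s ∈ Ioo 0 (min l (min ‖y‖ (b / 2))) :=
    Ioo_mem_nhdsGT (lt_min hl (lt_min hypos (by linarith)))
  obtain ⟨s, ⟨σ, hσc, hσ0, hσ1, hσO, hσd⟩, hs0, hs1⟩ := (hev.and hsm).exists
  simp only [lt_min_iff] at hs1
  obtain ⟨hsl, hsy, hsb⟩ := hs1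
  have hlam : 0 ≤ (2 - κ) * s := by
    have h1 := hσd 0 ⟨le_rfl, zero_le_one⟩ 1 ⟨zero_le_one, le_rfl⟩ zero_le_one
    have h2 := d_nonneg (𝒜 := 𝒜) (σ 0) (σ 1)
    linarith
  have hns : ‖(‖y‖ - s) • θ‖ = ‖y‖ - s := by
    rw [norm_smul, hθ, Real.norm_eq_abs, abs_of_pos (by linarith), mul_one]
  have hks : 0 < κ * s := mul_pos hκ hs0
  have hRs : ‖(‖y‖ - s) • θ‖ + (2 - κ) * s < R := by rw [hns]; linarith
  obtain ⟨Γ, hΓc, hΓ0, hΓ⟩ := h.lift_path hLL (y := (‖y‖ - s) • θ) hlam hσc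
    (by rw [hσ0]; simp only [hγ₁]; congr 2; ring) hσd hRs
  have hΓ0W : Γ 0 ∈ W := by
    rw [hΓ0]
    refine hW.ray hLL (x := θ) (s := ‖y‖) (by rw [← hyθ]; exact hyW) ?_
    intro r hr
    rw [uIcc_of_ge (by linarith)] at hr
    refine ⟨?_, (hz3 _ ?_).1⟩
    · rw [norm_smul, hθ, Real.norm_eq_abs, abs_of_pos (by linarith [hr.1]), mul_one]
      linarith [hr.2]
    · have h1 := h.ex₁.d_ray θ hr.2
      rw [← hyθ, hθ, d_comm] at h1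
      have h2 := d_triangle (𝒜 := 𝒜) z (e₁ y) (e₁ (r • θ))
      linarith [hr.1]
  have hΓ1W : Γ 1 ∈ W := by
    refine hW _ (isPreconnected_Icc.image _ hΓc) ?_ ⟨_, ⟨0, ⟨le_rfl, zero_le_one⟩, rfl⟩, hΓ0W⟩
      ⟨1, ⟨zero_le_one, le_rfl⟩, rfl⟩
    rintro _ ⟨t, ht, rfl⟩
    obtain ⟨h1, y', h2, h3⟩ := hΓ t ht
    refine ⟨h1 ▸ hσO t ht, y', ?_, h3⟩
    nlinarith [ht.2]
  obtain ⟨h1, y', h2, h3⟩ := hΓ 1 ⟨zero_le_one, le_rfl⟩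
  rw [hns, mul_one] at h2
  have hy'R : ‖y'‖ < R := by rw [hns] at hRs; linarith
  have hy'e : e₁ y' = γ s := by rw [← h.φ_pt (hLL _ hy'R).good, h3, h1, hσ1]
  have hy'd : 𝒜.d z (e₁ y') ≤ l - s := by rw [hy'e]; exact hγd s ⟨hs0.le, hsl.le⟩
  obtain ⟨y₄, hy₄, hy₄v⟩ := h.nrm hb hbR hLL hW hz (x := y')
    ⟨1, ⟨zero_le_one, le_rfl⟩, by rwa [one_smul], by rw [one_smul, h3]; exact hΓ1W, by
      intro t ht
      rw [le_antisymm ht.2 ht.1, one_smul]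
      exact hz _ (by linarith)⟩ (by linarith) (by linarith)
  have h5 : ‖y‖ + 𝒜.d z (e₁ y) ≤ ‖y₄‖ + 𝒜.d z (e₁ y₄) := hymin hy₄
  linarith


theorem Pair.ll_near_zero (h : Pair 𝒜 ℬ e₁ e₂) : ∀ᶠ y in 𝓝 (0 : E), LL 𝒜 ℬ e₁ e₂ y := by
  obtain ⟨F, hF, ha⟩ := h.good_zero
  obtain ⟨O₁, hO₁, hmin⟩ := exists_minimising 𝒜 (e₁ 0)
  obtain ⟨η, hη, hball⟩ := Metric.eventually_nhds_iff_ball.1 ha.eventually
  have hsm : ∀ᶠ m in 𝓝 (e₁ 0), m ∈ O₁ ∧ 𝒜.d (e₁ 0) m < η := by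
    refine Eventually.and hO₁ ?_
    refine (continuous_d (e₁ 0)).continuousAt.eventually (gt_mem_nhds ?_)
    rw [d_self]; exact hη
  have hc : ContinuousAt e₁ 0 := h.ex₁.cont.continuousAt
  filter_upwards [hc.eventually hF.eventually, ha.eventually,
    hc.eventually (eventually_eventually_nhds.2 hsm)] with y h1 h2 h3
  refine ⟨F, h1, h2, ?_⟩
  filter_upwards [h3] with m hm
  have hdy : 𝒜.d (e₁ 0) (e₁ y) ≤ ‖y‖ := by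
    have := h.ex₁.d_ray y (zero_le_one)
    simpa using this
  have htri := d_triangle (𝒜 := 𝒜) (e₁ 0) (e₁ y) m
  by_cases hm0 : e₁ 0 = m
  · refine ⟨0, ?_, hm0, ha⟩
    have := d_nonneg (𝒜 := 𝒜) (e₁ y) m
    rw [norm_zero]; positivity
  obtain ⟨hl, γ, hγ0, hγ1, hγ⟩ := hmin (e₁ 0) (mem_of_mem_nhds hO₁) m hm.1 hm0
  obtain ⟨θ, hθ, hθγ⟩ := h.ex₁.ray_of_geo hl.le hγ0 hγ
  have hn : ‖𝒜.d (e₁ 0) m • θ‖ = 𝒜.d (e₁ 0) m := by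
    rw [norm_smul, hθ, Real.norm_eq_abs, abs_of_pos hl, mul_one]
  refine ⟨𝒜.d (e₁ 0) m • θ, by rw [hn]; linarith, ?_, hball _ ?_⟩
  · rw [← hθγ _ ⟨hl.le, le_rfl⟩, hγ1]
  · rw [mem_ball, dist_zero_right, hn]; exact hm.2


theorem Pair.ll_near (h : Pair 𝒜 ℬ e₁ e₂) {R : ℝ} (hR : 0 < R)
    (hLL : ∀ y, ‖y‖ < R → LL 𝒜 ℬ e₁ e₂ y) {x : E} (hx : ‖x‖ = R) (hg : Good 𝒜 ℬ e₁ e₂ x) :
    ∀ᶠ y in 𝓝 x, LL 𝒜 ℬ e₁ e₂ y := by
  obtain ⟨F, hF, ha⟩ := hg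
  set O : Set M := {m | LI 𝒜 ℬ F m} with hOdef
  have hO : IsOpen O := isOpen_iff_mem_nhds.2 fun m hm => LI.eventually hm
  obtain ⟨b, hb, hmin⟩ := h.minimise hR hLL hO (m₀ := e₁ x) hF
  set W : Set (Gm 𝒜 ℬ) := {ξ | ξ.Rep F} with hWdef
  have hW : h.Sat R O W := by
    rintro S hS hSO ⟨ξ, hξS, hξW⟩ ξ' hξ'
    exact Gm.rep_of_preconnected hS (fun ζ hζ => (hSO hζ).1) hξS hξW ξ' hξ'
  have hc : ContinuousAt e₁ x := h.ex₁.cont.continuousAt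
  obtain ⟨η, hη, hball⟩ := Metric.eventually_nhds_iff_ball.1
    (ha.eventually.and (hc.eventually hF.eventually))
  set κ := min (η / (4 * R)) 1 with hκ
  have hκ0 : 0 < κ := lt_min (by positivity) one_pos
  have hκ1 : κ ≤ 1 := min_le_right _ _
  have hκ2 : κ * R ≤ η / 4 := by
    have := min_le_left (η / (4 * R)) 1
    rw [← hκ, le_div_iff₀ (by positivity)] at this
    linarith
  have hsm : ∀ᶠ m in 𝓝 (e₁ x), 𝒜.d (e₁ x) m < b := by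
    refine (continuous_d (e₁ x)).continuousAt.eventually (gt_mem_nhds ?_)
    rw [d_self]; exact hb
  have hy1 : ∀ᶠ y in 𝓝 x, ‖y - x‖ < min (min (η / 4) (κ * R)) (b / 2) := by
    have : ∀ᶠ y in 𝓝 x, y ∈ ball x (min (min (η / 4) (κ * R)) (b / 2)) :=
      ball_mem_nhds x (lt_min (lt_min (by positivity) (by positivity)) (by positivity))
    filter_upwards [this] with y hy using by rwa [mem_ball, dist_eq_norm] at hy
  filter_upwards [hy1, hc.eventually (eventually_eventually_nhds.2 hsm)] with y hy hyb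
  simp only [lt_min_iff] at hy
  obtain ⟨⟨hy1, hy2⟩, hy3⟩ := hy
  have hyn : ‖y‖ ≤ R + ‖y - x‖ := by
    have := norm_add_le x (y - x)
    rw [add_sub_cancel, hx] at this
    exact this
  have hin : ∀ t ∈ Icc (1 - κ) 1, t • y ∈ ball x η := by
    intro t ht
    rw [mem_ball, dist_eq_norm]
    have h1 : t • y - x = t • (y - x) - (1 - t) • x := by
      rw [smul_sub, sub_smul, one_smul]; abel
    have ht0 : 0 ≤ t := by linarith [ht.1]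
    rw [h1]
    refine (norm_sub_le _ _).trans_lt ?_
    rw [norm_smul, norm_smul, Real.norm_eq_abs, Real.norm_eq_abs, abs_of_nonneg ht0,
      abs_of_nonneg (by linarith [ht.2]), hx]
    nlinarith [ht.1, ht.2, norm_nonneg (y - x)]
  have hy0 := hball y (by simpa using hin 1 ⟨by linarith, le_rfl⟩)
  have hTl : h.Tl R O W y := by
    have h1 := hball _ (hin (1 - κ) ⟨le_rfl, by linarith⟩)
    refine ⟨1 - κ, ⟨by linarith, by linarith⟩, ?_, h.φ_rep h1.2 h1.1,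
      fun t ht => (hball _ (hin t ht)).2⟩
    rw [norm_smul, Real.norm_eq_abs, abs_of_nonneg (by linarith)]
    nlinarith [norm_nonneg (y - x), norm_nonneg y]
  refine ⟨F, hy0.2, hy0.1, ?_⟩
  have hsm2 : ∀ᶠ m in 𝓝 (e₁ y), 𝒜.d (e₁ y) m < b / 2 := by
    refine (continuous_d (e₁ y)).continuousAt.eventually (gt_mem_nhds ?_)
    rw [d_self]; positivity
  filter_upwards [hyb, hsm2] with m hm1 hm2
  obtain ⟨x', ⟨t₀, ht₀, hn, hw, hO'⟩, he, hx'⟩ :=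
    hmin W hW y m hTl hyb.self_of_nhds.le hm1.le (by linarith)
  exact ⟨x', hx', he, h.agree_ray ht₀.2 (h.agree_of_rep (hLL _ hn).good hw) hO'⟩


end Pool.Agent.MP_3fed84_gt
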