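import Pool.Agent.MP_3fed84_gt.Dist

/-! The Gauss lemma and local existence of minimising geodesics. -/

open Set Metric Filter Topology
open scoped ContDiff RealInnerProductSpace

namespace Pool.Agent.MP_3fed84_gt

variable {E : Type} [NormedAddCommGroup E] [InnerProductSpace ℝ E] [FiniteDimensional ℝ E]

omit [FiniteDimensional ℝ E] in
/-- The pulled back form along a map whose rays are geodesics satisfies the radial identity. -/
theorem radial_identity {U : Set E} {G : E → E →L[ℝ] E →L[ℝ] ℝ} {Γ : E → E →L[ℝ] E →L[ℝ] E}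
    (h : Chr U G Γ) {B : E → E} {x : E} (hB : ContDiffAt ℝ 2 B x) (hx : B x ∈ U) {u : ℝ → E}
    (hg : CGeo Γ (fun s : ℝ => B (s • x)) u 1) (η : E) :
    fderiv ℝ (fun z => G (B z) (fderiv ℝ B z x) (fderiv ℝ B z η)) x x
      = (1 / 2) * fderiv ℝ (fun z => G (B z) (fderiv ℝ B z x) (fderiv ℝ B z x)) x η := by
  have hB1 : ∀ᶠ z in 𝓝 x, DifferentiableAt ℝ B z :=
    (hB.eventually (by simp)).mono (fun z hz => hz.differentiableAt (by simp))
  have hD : HasFDerivAt (fderiv ℝ B) (fderiv ℝ (fderiv ℝ B) x) x :=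
    ((hB.fderiv_right (m := 1) (by norm_num)).differentiableAt (by simp)).hasFDerivAt
  have hsym := (hB.isSymmSndFDerivAt (by simp)).eq
  have hG : HasFDerivAt (fun z => G (B z)) ((fderiv ℝ G (B x)).comp (fderiv ℝ B x)) x :=
    ((h.smG.contDiffAt (h.opn.mem_nhds hx)).differentiableAt (by simp)).hasFDerivAt.comp x
      hB1.self_of_nhds.hasFDerivAt
  have key : ∀ a b ζ : E, fderiv ℝ (fun z => G (B z) (fderiv ℝ B z a) (fderiv ℝ B z b)) x ζ =
      fderiv ℝ G (B x) (fderiv ℝ B x ζ) (fderiv ℝ B x a) (fderiv ℝ B x b) +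
        G (B x) (fderiv ℝ (fderiv ℝ B) x ζ a) (fderiv ℝ B x b) +
        G (B x) (fderiv ℝ B x a) (fderiv ℝ (fderiv ℝ B) x ζ b) := by
    intro a b ζ
    rw [((hG.clm_apply (hD.clm_apply (hasFDerivAt_const a x))).clm_apply
      (hD.clm_apply (hasFDerivAt_const b x))).fderiv]
    simp
    ring
  have hray : ∀ s : ℝ, HasDerivAt (fun s : ℝ => s • x) x s := fun s => by
    simpa using (hasDerivAt_id s).smul_const x
  have h1 : u =ᶠ[𝓝 1] fun s : ℝ => fderiv ℝ B (s • x) x := by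
    have ht : Tendsto (fun s : ℝ => s • x) (𝓝 1) (𝓝 x) := by
      simpa using (hray 1).continuousAt.tendsto
    filter_upwards [hg, ht.eventually hB1] with s hs hs'
    exact hs.1.unique (hs'.hasFDerivAt.comp_hasDerivAt s (hray s))
  have h2 : HasDerivAt (fun s : ℝ => fderiv ℝ B (s • x) x) (fderiv ℝ (fderiv ℝ B) x x x) 1 := by
    have h3 := hD.clm_apply (hasFDerivAt_const x x)
    have h5 := h3.comp_hasDerivAt_of_eq (1 : ℝ) (hray 1) (one_smul ℝ x).symm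
    refine h5.congr_deriv ?_
    simp only [ContinuousLinearMap.comp_zero, zero_add, ContinuousLinearMap.flip_apply]
  have h4 := (hg.self_of_nhds.2.congr_of_eventuallyEq h1.symm).unique h2
  rw [h1.self_of_nhds] at h4
  simp only [one_smul] at h4
  rw [key, key, ← h4, h.compat _ hx, h.compat _ hx, hsym η x,
    h.symΓ _ hx (fderiv ℝ B x η) (fderiv ℝ B x x),
    h.symm _ hx (Γ (B x) (fderiv ℝ B x x) (fderiv ℝ B x η)),
    h.symm _ hx (fderiv ℝ (fderiv ℝ B) x x η)]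
  simp only [map_neg, neg_apply]
  ring

omit [FiniteDimensional ℝ E] in
/-- The Gauss lemma for an abstract family of symmetric forms on a star-shaped open set. -/
theorem gauss_abstract {D : Set E} (hD : IsOpen D) (hst : ∀ x ∈ D, ∀ s ∈ Icc (0 : ℝ) 1, s • x ∈ D)
    {h : E → E →L[ℝ] E →L[ℝ] ℝ} (hd : ∀ x ∈ D, DifferentiableAt ℝ h x)
    (hs : ∀ x ∈ D, ∀ a b, h x a b = h x b a)
    (hr : ∀ x ∈ D, ∀ η, fderiv ℝ (fun z => h z x η) x x = (1 / 2) * fderiv ℝ (fun z => h z x x) x η)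
    {x : E} (hx : x ∈ D) (η : E) : h x x η = h 0 x η := by
  have hfd : ∀ y ∈ D, ∀ a b ζ : E, fderiv ℝ (fun z => h z a b) y ζ = fderiv ℝ h y ζ a b := by
    intro y hy a b ζ
    rw [(((hd y hy).hasFDerivAt.clm_apply (hasFDerivAt_const a y)).clm_apply
      (hasFDerivAt_const b y)).fderiv]
    simp
  have hr' : ∀ y ∈ D, ∀ ζ, fderiv ℝ h y y y ζ = (1 / 2) * fderiv ℝ h y ζ y y := by
    intro y hy ζ
    rw [← hfd y hy, ← hfd y hy]; exact hr y hy ζ
  have hray : ∀ (y : E) (s : ℝ), HasDerivAt (fun s : ℝ => s • y) y s := fun y s => by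
    simpa using (hasDerivAt_id s).smul_const y
  have hder : ∀ y ∈ D, ∀ a b : E, ∀ s ∈ Icc (0 : ℝ) 1,
      HasDerivAt (fun s : ℝ => h (s • y) a b) (fderiv ℝ h (s • y) y a b) s := by
    intro y hy a b s hs'
    have h1 : DifferentiableAt ℝ (fun z => h z a b) (s • y) :=
      ((hd _ (hst y hy s hs')).clm_apply (differentiableAt_const a)).clm_apply
        (differentiableAt_const b)
    rw [← hfd _ (hst y hy s hs')]
    exact h1.hasFDerivAt.comp_hasDerivAt s (hray y s)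
  have h1 : ∀ y ∈ D, h y y y = h 0 y y := by
    intro y hy
    obtain ⟨c, hc, hc'⟩ := exists_hasDerivAt_eq_slope (fun s : ℝ => h (s • y) y y)
      (fun s => fderiv ℝ h (s • y) y y y) zero_lt_one
      (fun s hs' => (hder y hy y y s hs').continuousAt.continuousWithinAt)
      (fun s hs' => hder y hy y y s (Ioo_subset_Icc_self hs'))
    have h2 := hr' _ (hst y hy c (Ioo_subset_Icc_self hc)) (c • y)
    simp only [map_smul, smul_apply, smul_eq_mul] at h2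
    have h3 : c * c * c * fderiv ℝ h (c • y) y y y = 0 := by linarith
    have h4 := (mul_eq_zero.1 h3).resolve_left
      (mul_ne_zero (mul_ne_zero hc.1.ne' hc.1.ne') hc.1.ne')
    rw [h4] at hc'
    simp only [one_smul, zero_smul, sub_zero, div_one] at hc'
    linarith
  have h2 : ∀ y ∈ D, fderiv ℝ h y y y η + h y y η = h 0 y η := by
    intro y hy
    have h0 : (0 : E) ∈ D := by simpa using hst y hy 0 ⟨le_rfl, zero_le_one⟩
    have a1 := (((hd y hy).hasFDerivAt.clm_apply (hasFDerivAt_id y)).clm_apply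
      (hasFDerivAt_id y))
    have a2 := (((hasFDerivAt_const (h 0) y).clm_apply (hasFDerivAt_id y)).clm_apply
      (hasFDerivAt_id y))
    have a3 := congrArg (fun L => L η) (a1.unique (a2.congr_of_eventuallyEq
      (Filter.mem_of_superset (hD.mem_nhds hy) (fun z hz => h1 z hz))))
    simp at a3
    have a4 := hr' y hy η
    have a5 := hs y hy η y
    have a6 := hs 0 h0 η y
    linarith
  obtain ⟨c, hc, hc'⟩ := exists_hasDerivAt_eq_slope (fun s : ℝ => s * h (s • x) x η)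
    (fun s => 1 * h (s • x) x η + s * fderiv ℝ h (s • x) x x η) zero_lt_one
    (fun s hs' => ((hasDerivAt_id s).mul (hder x hx x η s hs')).continuousAt.continuousWithinAt)
    (fun s hs' => (hasDerivAt_id s).mul (hder x hx x η s (Ioo_subset_Icc_self hs')))
  have h3 := h2 _ (hst x hx c (Ioo_subset_Icc_self hc))
  simp only [map_smul, smul_apply, smul_eq_mul] at h3
  simp only [one_smul, one_mul, zero_mul, sub_zero, div_one] at hc'
  rw [← hc']
  apply mul_left_cancel₀ hc.1.ne'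
  linarith

/-- The local exponential map of a coordinate metric, jointly smooth in point and vector. -/
theorem exists_exp {U : Set E} {G : E → E →L[ℝ] E →L[ℝ] ℝ} {Γ : E → E →L[ℝ] E →L[ℝ] E}
    (h : Chr U G Γ) {w₀ : E} (hw₀ : w₀ ∈ U) :
    ∃ δ > 0, ∃ X : E × E → E, ContDiffOn ℝ ∞ X (ball w₀ δ ×ˢ ball 0 δ) ∧
      ∀ w ∈ ball w₀ δ, X (w, 0) = w ∧ HasFDerivAt (fun v => X (w, v)) (ContinuousLinearMap.id ℝ E) 0 ∧
        ∀ v ∈ ball (0 : E) δ, X (w, v) ∈ U ∧ ∀ t : ℝ, t • v ∈ ball (0 : E) δ →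
          ∃ u, CGeo Γ (fun s : ℝ => X (w, s • v)) u t := by
  let f : E × E → E × E := fun p => (p.2, -(Γ p.1 p.2 p.2))
  have hO : IsOpen (U ×ˢ (univ : Set E)) := h.opn.prod isOpen_univ
  have hf : ContDiffOn ℝ ∞ f (U ×ˢ univ) := by
    have h1 : ContDiffOn ℝ ∞ (fun p : E × E => Γ p.1) (U ×ˢ univ) :=
      h.smΓ.comp contDiffOn_fst (fun p hp => hp.1)
    exact contDiffOn_snd.prodMk ((h1.clm_apply contDiffOn_snd).clm_apply contDiffOn_snd).neg
  obtain ⟨δ₀, hδ₀, φ, hφ, hφ'⟩ := exists_flow hO hf (x₀ := (w₀, 0)) ⟨hw₀, mem_univ _⟩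
  rw [← ball_prod_same] at hφ hφ'
  set τ := δ₀ / 2 with hτ
  have hτ0 : 0 < τ := by positivity
  have hτb : τ ∈ ball (0 : ℝ) δ₀ := by
    rw [mem_ball_zero_iff, Real.norm_eq_abs, abs_of_pos hτ0]; linarith
  have hsc : ∀ v ∈ ball (0 : E) (min δ₀ (τ * δ₀)), τ⁻¹ • v ∈ ball (0 : E) δ₀ := by
    intro v hv
    rw [mem_ball_zero_iff] at hv ⊢
    rw [norm_smul, Real.norm_eq_abs, abs_of_pos (inv_pos.2 hτ0), inv_mul_lt_iff₀ hτ0]
    exact hv.trans_le (min_le_right _ _)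
  have d1 : ∀ p ∈ ball w₀ δ₀ ×ˢ ball (0 : E) δ₀, ∀ t ∈ ball (0 : ℝ) δ₀,
      HasDerivAt (fun s => (φ (s, p)).1) (φ (t, p)).2 t ∧
      HasDerivAt (fun s => (φ (s, p)).2) (-(Γ (φ (t, p)).1 (φ (t, p)).2 (φ (t, p)).2)) t :=
    fun p hp t ht => ⟨((hφ' p hp).2 t ht).2.fst, ((hφ' p hp).2 t ht).2.snd⟩
  have hom : ∀ w ∈ ball w₀ δ₀, ∀ v ∈ ball (0 : E) δ₀, ∀ s : ℝ, s • v ∈ ball (0 : E) δ₀ →
      s * τ ∈ ball (0 : ℝ) δ₀ → (φ (τ, (w, s • v))).1 = (φ (s * τ, (w, v))).1 := by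
    intro w hw v hv s hsv hs
    have hcv : Convex ℝ (ball (0 : ℝ) δ₀ ∩ (fun t => s * t) ⁻¹' ball (0 : ℝ) δ₀) :=
      (convex_ball _ _).inter ((convex_ball _ _).linear_preimage (LinearMap.mul ℝ ℝ s))
    have := ode_unique_on hO (hf.of_le (by simp))
      (y₁ := fun t => φ (t, (w, s • v)))
      (y₂ := fun t => ((φ (s * t, (w, v))).1, s • (φ (s * t, (w, v))).2))
      hcv.isPreconnected (isOpen_ball.inter (isOpen_ball.preimage (by fun_prop)))
      (fun t ht => (hφ' (w, s • v) ⟨hw, hsv⟩).2 t ht.1) (fun t ht => ?_) (t₀ := 0)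
      ⟨mem_ball_self hδ₀, by simpa using hδ₀⟩ ?_
    · have h2 := congrArg Prod.fst (this ⟨hτb, hs⟩)
      exact h2
    · have hm : HasDerivAt (fun t : ℝ => s * t) s t := by
        simpa using (hasDerivAt_id t).const_mul s
      have a1 := (d1 (w, v) ⟨hw, hv⟩ (s * t) ht.2).1.scomp t hm
      have a2 := ((d1 (w, v) ⟨hw, hv⟩ (s * t) ht.2).2.scomp t hm).const_smul s
      refine (a1.prodMk a2).congr_deriv ?_
      simp [f]
    · simp [(hφ' (w, s • v) ⟨hw, hsv⟩).1, (hφ' (w, v) ⟨hw, hv⟩).1]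
  have hle : min δ₀ (τ * δ₀) ≤ δ₀ := min_le_left _ _
  have hδ : 0 < min δ₀ (τ * δ₀) := lt_min hδ₀ (by positivity)
  have hX : ContDiffOn ℝ ∞ (fun p : E × E => (φ (τ, (p.1, τ⁻¹ • p.2))).1)
      (ball w₀ (min δ₀ (τ * δ₀)) ×ˢ ball 0 (min δ₀ (τ * δ₀))) := by
    refine (hφ.comp (f := fun p : E × E => (τ, (p.1, τ⁻¹ • p.2))) (by fun_prop) ?_).fst
    exact fun p hp => ⟨hτb, ball_subset_ball hle hp.1, hsc _ hp.2⟩
  refine ⟨min δ₀ (τ * δ₀), hδ, fun p => (φ (τ, (p.1, τ⁻¹ • p.2))).1, hX, fun w hw => ?_⟩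
  have hw' := ball_subset_ball hle hw
  have geo : ∀ v ∈ ball (0 : E) (min δ₀ (τ * δ₀)), ∀ lam t : ℝ, |t * lam| ≤ 1 →
      CGeo Γ (fun s : ℝ => (φ (τ, (w, τ⁻¹ • s • lam • v))).1)
        (fun s => (lam * τ) • (φ (s * lam * τ, (w, τ⁻¹ • v))).2) t := by
    intro v hv lam t ht
    have e1 : ∀ᶠ s in 𝓝 t, s * lam * τ ∈ ball (0 : ℝ) δ₀ ∧
        (s * lam) • τ⁻¹ • v ∈ ball (0 : E) δ₀ := by
      refine Filter.Eventually.and ?_ ?_
      · refine ContinuousAt.eventually_mem (f := fun s : ℝ => s * lam * τ) (by fun_prop)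
          (isOpen_ball.mem_nhds ?_)
        rw [mem_ball_zero_iff, Real.norm_eq_abs, abs_mul, abs_of_pos hτ0]
        nlinarith
      · refine ContinuousAt.eventually_mem (f := fun s : ℝ => (s * lam) • τ⁻¹ • v) (by fun_prop)
          (isOpen_ball.mem_nhds ?_)
        have := mem_ball_zero_iff.1 (hsc v hv)
        rw [mem_ball_zero_iff, norm_smul, Real.norm_eq_abs]
        nlinarith [norm_nonneg (τ⁻¹ • v), abs_nonneg (t * lam)]
    filter_upwards [e1.eventually_nhds] with s hs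
    have hm : HasDerivAt (fun s : ℝ => s * lam * τ) (lam * τ) s := by
      simpa using ((hasDerivAt_id s).mul_const lam).mul_const τ
    have e2 : (fun s : ℝ => (φ (τ, (w, τ⁻¹ • s • lam • v))).1) =ᶠ[𝓝 s]
        fun s => (φ (s * lam * τ, (w, τ⁻¹ • v))).1 := by
      filter_upwards [hs] with r hr
      rw [← hom w hw' _ (hsc v hv) _ hr.2 hr.1, smul_smul r, smul_comm]
    have a1 := (d1 (w, τ⁻¹ • v) ⟨hw', hsc v hv⟩ (s * lam * τ) hs.self_of_nhds.1).1.scomp s hm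
    have a2 := ((d1 (w, τ⁻¹ • v) ⟨hw', hsc v hv⟩ (s * lam * τ) hs.self_of_nhds.1).2.scomp s hm).const_smul (lam * τ)
    refine ⟨a1.congr_of_eventuallyEq e2, a2.congr_deriv ?_⟩
    have e3 : (φ (τ, (w, τ⁻¹ • s • lam • v))).1 = (φ (s * lam * τ, (w, τ⁻¹ • v))).1 :=
      e2.self_of_nhds
    rw [e3]
    simp
  have h0 : (φ (τ, (w, τ⁻¹ • (0 : E)))).1 = w := by
    have := hom w hw' 0 (mem_ball_self hδ₀) 0 (by simpa using hδ₀) (by simpa using hδ₀)
    simp only [smul_zero, zero_mul] at this ⊢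
    rw [this, (hφ' (w, 0) ⟨hw', mem_ball_self hδ₀⟩).1]
  refine ⟨h0, ?_, fun v hv => ⟨((hφ' (w, τ⁻¹ • v) ⟨hw', hsc v hv⟩).2 τ hτb).1.1, fun t ht => ?_⟩⟩
  · have a1 : DifferentiableAt ℝ (fun v : E => (φ (τ, (w, τ⁻¹ • v))).1) 0 :=
      ((hX.contDiffAt ((isOpen_ball.prod isOpen_ball).mem_nhds
        (show (w, (0 : E)) ∈ _ from ⟨hw, mem_ball_self hδ⟩))).differentiableAt (by simp)).comp
        (0 : E) (by fun_prop : DifferentiableAt ℝ (fun v : E => (w, v)) 0)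
    have a2 : ∀ v ∈ ball (0 : E) (min δ₀ (τ * δ₀)),
        fderiv ℝ (fun v : E => (φ (τ, (w, τ⁻¹ • v))).1) 0 v = v := by
      intro v hv
      have b1 := (geo v hv 1 0 (by simp)).self_of_nhds.1
      simp only [one_smul, one_mul, zero_mul, (hφ' (w, τ⁻¹ • v) ⟨hw', hsc v hv⟩).1,
        smul_inv_smul₀ hτ0.ne'] at b1
      have b2 : HasDerivAt (fun s : ℝ => s • v) v 0 := by
        simpa using (hasDerivAt_id (0 : ℝ)).smul_const v
      have b3 : HasFDerivAt (fun v : E => (φ (τ, (w, τ⁻¹ • v))).1)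
          (fderiv ℝ (fun v : E => (φ (τ, (w, τ⁻¹ • v))).1) 0) ((0 : ℝ) • v) := by
        rw [zero_smul]; exact a1.hasFDerivAt
      have b4 := b3.comp_hasDerivAt (0 : ℝ) b2
      exact b4.unique b1
    have a3 : fderiv ℝ (fun v : E => (φ (τ, (w, τ⁻¹ • v))).1) 0 = ContinuousLinearMap.id ℝ E := by
      ext v
      obtain ⟨c, hc, hcv⟩ : ∃ c : ℝ, c ≠ 0 ∧ c • v ∈ ball (0 : E) (min δ₀ (τ * δ₀)) := by
        have : ∀ᶠ c in 𝓝 (0 : ℝ), c • v ∈ ball (0 : E) (min δ₀ (τ * δ₀)) :=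
          ContinuousAt.eventually_mem (f := fun c : ℝ => c • v) (by fun_prop)
            (isOpen_ball.mem_nhds (by simpa using hδ))
        exact ((eventually_mem_nhdsWithin (a := (0 : ℝ)) (s := {0}ᶜ)).and
          (this.filter_mono nhdsWithin_le_nhds)).exists
      have := a2 _ hcv
      rw [map_smul] at this
      exact smul_right_injective E hc this
    rw [← a3]; exact a1.hasFDerivAt
  · by_cases ht0 : t = 0
    · exact ⟨_, by simpa using geo v hv 1 t (by simp [ht0])⟩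
    · exact ⟨_, by simpa [inv_smul_smul₀ ht0] using geo _ ht t⁻¹ t (by simp [ht0])⟩

theorem abs_sub_le_add_abs_sub' {a b c : ℝ} (x y : ℝ) (h1 : |a - b - c| ≤ y) (h2 : |c| ≤ x) :
    |a - b| ≤ x + y := by
  have := abs_add_le c (a - b - c)
  rw [add_sub_cancel] at this
  linarith

/-- The Gauss lemma for a map whose rays are geodesics. -/
theorem gauss_exp {U : Set E} {G : E → E →L[ℝ] E →L[ℝ] ℝ} {Γ : E → E →L[ℝ] E →L[ℝ] E}
    (h : Chr U G Γ) {B : E → E} {δ : ℝ} (hB : ContDiffOn ℝ ∞ B (ball 0 δ))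
    (hU : ∀ v ∈ ball (0 : E) δ, B v ∈ U)
    (hg : ∀ v ∈ ball (0 : E) δ, ∃ u, CGeo Γ (fun s : ℝ => B (s • v)) u 1) {v : E}
    (hv : v ∈ ball (0 : E) δ) (η : E) :
    G (B v) (fderiv ℝ B v v) (fderiv ℝ B v η) = G (B 0) (fderiv ℝ B 0 v) (fderiv ℝ B 0 η) := by
  have h0 : (0 : E) ∈ ball (0 : E) δ := mem_ball_self (pos_of_mem_ball hv)
  have hD : ContDiffOn ℝ 1 (fderiv ℝ B) (ball 0 δ) := hB.fderiv_of_isOpen isOpen_ball
    (by rw [one_add_one_eq_two]; exact WithTop.coe_le_coe.2 (le_top (a := (2 : ℕ∞))))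
  have hG : ContDiffOn ℝ 1 (fun z => G (B z)) (ball 0 δ) :=
    (h.smG.comp hB hU).of_le (by simp)
  have hh : ContDiffOn ℝ 1 (fun z => (G (B z)).bilinearComp (fderiv ℝ B z) (fderiv ℝ B z))
      (ball 0 δ) := by
    rw [contDiffOn_clm_apply]
    intro a
    rw [contDiffOn_clm_apply]
    intro b
    exact (hG.clm_apply (hD.clm_apply contDiffOn_const)).clm_apply (hD.clm_apply contDiffOn_const)
  exact gauss_abstract (h := fun z => (G (B z)).bilinearComp (fderiv ℝ B z) (fderiv ℝ B z))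
    isOpen_ball (fun x hx s hs => (convex_ball (0 : E) δ).smul_mem_of_zero_mem h0 hx hs)
    (fun x hx => (hh.contDiffAt (isOpen_ball.mem_nhds hx)).differentiableAt (by simp))
    (fun x hx a b => h.symm _ (hU x hx) _ _)
    (fun x hx ζ => by
      obtain ⟨u, hu⟩ := hg x hx
      exact radial_identity h ((hB.contDiffAt (isOpen_ball.mem_nhds hx)).of_le
        (WithTop.coe_le_coe.2 (le_top (a := (2 : ℕ∞))))) (hU x hx) hu ζ) hv η

/-- The joint local inverse of the exponential map. -/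
theorem exists_log {δ : ℝ} (hδ : 0 < δ) {X : E × E → E}
    (hX : ContDiffOn ℝ ∞ X (ball 0 δ ×ˢ ball 0 δ)) (h0 : ∀ w ∈ ball (0 : E) δ, X (w, 0) = w)
    (h1 : HasFDerivAt (fun v => X (0, v)) (ContinuousLinearMap.id ℝ E) 0) :
    ∃ T : OpenPartialHomeomorph (E × E) (E × E), (∀ p, T p = (p.1, X p)) ∧ (0, 0) ∈ T.source ∧
      ∀ᶠ q in 𝓝 (T (0, 0)), DifferentiableAt ℝ T.symm q := by
  have hXa : ContDiffAt ℝ 1 X (0, 0) := (hX.contDiffAt ((isOpen_ball.prod isOpen_ball).mem_nhds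
    (show ((0 : E), (0 : E)) ∈ _ from ⟨mem_ball_self hδ, mem_ball_self hδ⟩))).of_le (by simp)
  have hL := (hXa.differentiableAt (by simp)).hasFDerivAt
  have a1 : (fderiv ℝ X (0, 0)).comp (ContinuousLinearMap.inl ℝ E E) =
      ContinuousLinearMap.id ℝ E :=
    (hL.comp (f := fun w : E => (w, (0 : E))) (0 : E)
      (hasFDerivAt_prodMk_left (0 : E) (0 : E))).unique
      ((hasFDerivAt_id (0 : E)).congr_of_eventuallyEq
        (Filter.mem_of_superset (ball_mem_nhds _ hδ) h0))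
  have a2 : (fderiv ℝ X (0, 0)).comp (ContinuousLinearMap.inr ℝ E E) =
      ContinuousLinearMap.id ℝ E :=
    (hL.comp (0 : E) (hasFDerivAt_prodMk_right (0 : E) (0 : E))).unique h1
  let e : (E × E) ≃L[ℝ] (E × E) := (ContinuousLinearEquiv.refl ℝ E).skewProd
    (ContinuousLinearEquiv.refl ℝ E) (ContinuousLinearMap.id ℝ E)
  have hΘ : ContDiffAt ℝ 1 (fun p : E × E => (p.1, X p)) (0, 0) := contDiffAt_fst.prodMk hXa
  have hΘ' : HasFDerivAt (fun p : E × E => (p.1, X p)) (e : E × E →L[ℝ] E × E) (0, 0) := by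
    refine (hasFDerivAt_fst.prodMk hL).congr_fderiv ?_
    refine ContinuousLinearMap.ext (fun p => Prod.ext (by simp [e]) ?_)
    have b1 := congrArg (fun L => L p.1) a1
    have b2 := congrArg (fun L => L p.2) a2
    simp only [ContinuousLinearMap.comp_apply, ContinuousLinearMap.inl_apply,
      ContinuousLinearMap.inr_apply, ContinuousLinearMap.id_apply] at b1 b2
    have b3 : p = (p.1, 0) + (0, p.2) := by simp
    show fderiv ℝ X (0, 0) p = _
    conv_lhs => rw [b3, map_add, b1, b2]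
    simp [e, add_comm]
  refine ⟨hΘ.toOpenPartialHomeomorph _ hΘ' one_ne_zero, fun p => rfl,
    hΘ.mem_toOpenPartialHomeomorph_source hΘ' one_ne_zero, ?_⟩
  exact ((hΘ.to_localInverse hΘ' one_ne_zero).eventually (by simp)).mono
    (fun q hq => hq.differentiableAt one_ne_zero)

/-- The radial function has pointwise Lipschitz constant at most one. -/
theorem log_lip {Q : E →L[ℝ] E →L[ℝ] ℝ} {B L : E → E} (J : E ≃L[ℝ] E) {z : E}
    (hs : ∀ a b, Q a b = Q b a) (hp : ∀ a, a ≠ 0 → 0 < Q a a)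
    (hQ : ∀ a, ‖a‖ ^ 2 ≤ 2 ^ 2 * Q a a) (hL : DifferentiableAt ℝ L (B z)) (hz : L (B z) = z)
    (hB : DifferentiableAt ℝ B z) (hinv : ∀ᶠ y in 𝓝 (B z), B (L y) = y)
    (hg : ∀ η, Q (fderiv ℝ B z z) (fderiv ℝ B z η) = ⟪J z, J η⟫)
    (h0 : z = 0 → ∀ η, Q (fderiv ℝ B z η) (fderiv ℝ B z η) = ‖J η‖ ^ 2) {lam : ℝ}
    (hlam : 1 < lam) :
    ∀ᶠ y in 𝓝 (B z), |‖J (L y)‖ - ‖J z‖| ≤ lam * Real.sqrt (Q (y - B z) (y - B z)) := by
  obtain ⟨K, hK⟩ := exists_normalize Q hs hp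
  have hK' : ∀ a b, Q a b = ⟪K.symm a, K.symm b⟫ := fun a b => by
    rw [← hK, K.apply_symm_apply, K.apply_symm_apply]
  have hsq : ∀ a, Real.sqrt (Q a a) = ‖K.symm a‖ := fun a => by
    rw [hK', real_inner_self_eq_norm_sq, Real.sqrt_sq (norm_nonneg _)]
  have hN : ∀ a, ‖a‖ ≤ 2 * ‖K.symm a‖ := fun a => by
    have := hQ a
    rw [hK', real_inner_self_eq_norm_sq, ← mul_pow] at this
    exact (pow_le_pow_iff_left₀ (by positivity) (by positivity) two_ne_zero).1 this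
  have hAL : ∀ a, fderiv ℝ B z (fderiv ℝ L (B z) a) = a := by
    have a1 : HasFDerivAt B (fderiv ℝ B z) (L (B z)) := by rw [hz]; exact hB.hasFDerivAt
    have a2 := (a1.comp (B z) hL.hasFDerivAt).unique
      ((hasFDerivAt_id (B z)).congr_of_eventuallyEq hinv)
    exact fun a => congrArg (fun L => L a) a2
  have hJL : HasFDerivAt (fun y => J (L y)) ((J : E →L[ℝ] E).comp (fderiv ℝ L (B z))) (B z) :=
    (J : E →L[ℝ] E).hasFDerivAt.comp (B z) hL.hasFDerivAt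
  have hε : 0 < (lam - 1) / 2 := by linarith
  suffices H : ∀ᶠ y in 𝓝 (B z),
      |‖J (L y)‖ - ‖J z‖| ≤ ‖K.symm (y - B z)‖ + (lam - 1) / 2 * ‖y - B z‖ by
    filter_upwards [H] with y hy
    rw [hsq]
    have := mul_le_mul_of_nonneg_left (hN (y - B z)) hε.le
    linarith
  by_cases hz0 : z = 0
  · filter_upwards [hJL.isLittleO.def hε] with y hy
    have a1 := h0 hz0 (fderiv ℝ L (B z) (y - B z))
    rw [hAL, hK', real_inner_self_eq_norm_sq, sq_eq_sq₀ (norm_nonneg _) (norm_nonneg _)] at a1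
    rw [hz] at hy
    have a2 : J z = 0 := by rw [hz0, map_zero]
    rw [a2, sub_zero] at hy
    rw [a2, norm_zero, sub_zero, abs_norm, a1]
    have a3 := norm_add_le (J (fderiv ℝ L (B z) (y - B z)))
      (J (L y) - J (fderiv ℝ L (B z) (y - B z)))
    rw [add_sub_cancel] at a3
    exact a3.trans (add_le_add le_rfl hy)
  · have hJz : J z ≠ 0 := by simpa using hz0
    have hn0 : 0 < ‖J z‖ := norm_pos_iff.2 hJz
    have a1 := hJL.norm_sq.sqrt (by rw [hz]; positivity)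
    simp only [Real.sqrt_sq (norm_nonneg _), hz] at a1
    filter_upwards [a1.isLittleO.def hε] with y hy
    rw [hz, Real.norm_eq_abs] at hy
    refine (abs_sub_le_add_abs_sub' _ _ hy ?_)
    simp only [smul_apply, ContinuousLinearMap.comp_apply, innerSL_apply_apply, smul_eq_mul,
      nsmul_eq_mul, ContinuousLinearEquiv.coe_coe, Nat.cast_ofNat]
    rw [← hg, hAL, hK']
    have a2 := abs_real_inner_le_norm (K.symm (fderiv ℝ B z z)) (K.symm (y - B z))
    have a3 := hg z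
    rw [hK', real_inner_self_eq_norm_sq, real_inner_self_eq_norm_sq,
      sq_eq_sq₀ (norm_nonneg _) (norm_nonneg _)] at a3
    rw [a3] at a2
    rw [abs_mul, abs_mul, abs_of_pos (by positivity : 0 < 1 / (2 * ‖J z‖)), abs_two, one_div,
      inv_mul_le_iff₀ (by positivity)]
    linarith

variable {M : Type} [TopologicalSpace M] [T2Space M] [PreconnectedSpace M] {𝒜 : Atlas E M}

/-- γ has unit speed at time t. -/
def UnitAt (𝒜 : Atlas E M) (γ : ℝ → M) (t : ℝ) : Prop :=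
  ∀ c ∈ 𝒜.S, γ t ∈ c.ψ.source → ∃ v, HasDerivAt (c.ψ ∘ γ) v t ∧ c.G (c.ψ (γ t)) v v = 1

omit [FiniteDimensional ℝ E] [T2Space M] [PreconnectedSpace M] in
theorem unit_of_coord {c : Chart E M} (hc : c ∈ 𝒜.S) {y : ℝ → E} {v : E} {t : ℝ}
    (hy : HasDerivAt y v t) (ht : y t ∈ c.ψ.target) (hv : c.G (y t) v v = 1) :
    UnitAt 𝒜 (c.ψ.symm ∘ y) t := by
  intro c' hc' h'
  have h1 := 𝒜.compat c hc c' hc' _ (c.ψ.map_target ht) h'
  rw [LocIso, c.ψ.right_inv ht] at h1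
  refine ⟨_, (h1.1.differentiableAt (by simp)).hasFDerivAt.comp_hasDerivAt t hy, ?_⟩
  exact (h1.2 v v).trans hv

omit [T2Space M] [PreconnectedSpace M] in
/-- Unit speed geodesics are 1-Lipschitz. -/
theorem d_le_of_unit {γ : ℝ → M} {a b : ℝ} (hab : a ≤ b)
    (h : ∀ t ∈ Icc a b, GeoAt 𝒜 γ t ∧ UnitAt 𝒜 γ t) : 𝒜.d (γ a) (γ b) ≤ b - a := by
  have := d_le_of_curve (𝒜 := 𝒜) hab zero_le_one
    (fun t ht => (h t ht).1.continuousAt.continuousWithinAt) (fun t ht => by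
      obtain ⟨⟨c, hc, u, h1, -⟩, h2⟩ := h t (Ico_subset_Icc_self ht)
      obtain ⟨v, hv, hv'⟩ := h2 c hc h1.self_of_nhds.2
      exact ⟨c, hc, h1.self_of_nhds.2, v, hv.hasDerivWithinAt, by rw [hv']; norm_num⟩)
  rwa [one_mul] at this

/-- Nearby points are joined by a unit speed geodesic whose length is their distance. -/
theorem exists_minimising (𝒜 : Atlas E M) (m₀ : M) : ∃ O ∈ 𝓝 m₀, ∀ a ∈ O, ∀ b ∈ O, a ≠ b →
    0 < 𝒜.d a b ∧ ∃ γ : ℝ → M, γ 0 = a ∧ γ (𝒜.d a b) = b ∧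
      ∀ t ∈ Icc 0 (𝒜.d a b), GeoAt 𝒜 γ t ∧ UnitAt 𝒜 γ t := by
  obtain ⟨c, hc, hn⟩ := 𝒜.norm m₀
  have h0U : (0 : E) ∈ c.ψ.target := hn.2.1 ▸ c.ψ.map_source hn.1
  obtain ⟨δ, hδ, X, hX, hX'⟩ := exists_exp c.chr h0U
  obtain ⟨ρ, hρ, hball⟩ := hn.exists_ball (lam := 2) (by norm_num)
  obtain ⟨T, hT, hT0, hTs⟩ := exists_log hδ hX (fun w hw => (hX' w hw).1)
    (hX' 0 (mem_ball_self hδ)).2.1
  have hX00 : X (0, 0) = 0 := (hX' 0 (mem_ball_self hδ)).1
  have hT00 : T (0, 0) = (0, 0) := by rw [hT, hX00]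
  have hop : IsOpen (ball (0 : E) δ ×ˢ ball (0 : E) δ) := isOpen_ball.prod isOpen_ball
  have hm0 : ((0 : E), (0 : E)) ∈ ball (0 : E) δ ×ˢ ball (0 : E) δ :=
    ⟨mem_ball_self hδ, mem_ball_self hδ⟩
  have hXc : ContinuousAt X (0, 0) := (hX.contDiffAt (hop.mem_nhds hm0)).continuousAt
  have hTc : ContinuousAt T (0, 0) := T.continuousAt hT0
  have ev1 : ∀ᶠ p in 𝓝 ((0 : E), (0 : E)), p ∈ T.source ∧ p ∈ ball (0 : E) δ ×ˢ ball (0 : E) δ ∧
      DifferentiableAt ℝ T.symm (T p) ∧ X p ∈ closedBall (0 : E) ρ ∧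
      p.1 ∈ closedBall (0 : E) ρ := by
    refine Filter.Eventually.and (T.open_source.mem_nhds hT0)
      (Filter.Eventually.and (hop.mem_nhds hm0) ((hTc.eventually hTs).and
        ((hXc.eventually_mem ?_).and (continuousAt_fst.eventually_mem ?_))))
    · rw [hX00]; exact closedBall_mem_nhds _ hρ
    · exact closedBall_mem_nhds _ hρ
  obtain ⟨ε₁, hε₁, h1⟩ := nhds_basis_closedBall.eventually_iff.1 ev1
  have hT0' : ((0 : E), (0 : E)) ∈ T.target := hT00 ▸ T.map_source hT0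
  have hS00 : T.symm (0, 0) = (0, 0) := by rw [← hT00, T.left_inv hT0, hT00]
  have ev2 : ∀ᶠ q in 𝓝 ((0 : E), (0 : E)), q ∈ T.target ∧ (T.symm q).2 ∈ ball (0 : E) (ε₁ / 4) ∧
      q.1 ∈ closedBall (0 : E) ε₁ := by
    refine Filter.Eventually.and (T.open_target.mem_nhds hT0')
      (((T.continuousAt_symm hT0').snd.eventually_mem ?_).and (continuousAt_fst.eventually_mem ?_))
    · rw [hS00]; exact ball_mem_nhds _ (by positivity)
    · exact closedBall_mem_nhds _ hε₁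
  obtain ⟨ε₂, hε₂, h2⟩ := nhds_basis_closedBall.eventually_iff.1 ev2
  rw [← closedBall_prod_same] at h1 h2
  refine ⟨c.ψ.source ∩ c.ψ ⁻¹' closedBall 0 ε₂, inter_mem (c.ψ.open_source.mem_nhds hn.1)
    ((c.ψ.continuousAt hn.1).preimage_mem_nhds (by rw [hn.2.1]; exact closedBall_mem_nhds _ hε₂)),
    fun a ha b hb hab => ?_⟩
  set w := c.ψ a with hw
  set y := c.ψ b with hy
  obtain ⟨q1, q2, q3⟩ := h2 (show (w, y) ∈ _ from ⟨ha.2, hb.2⟩)
  have hw0 := h1 (show (w, (0 : E)) ∈ _ from ⟨q3, mem_closedBall_self hε₁.le⟩)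
  have hwδ : w ∈ ball (0 : E) δ := hw0.2.1.1
  have hwρ := hball w hw0.2.2.2.2
  obtain ⟨e0, e1, e2⟩ := hX' w hwδ
  have hlog : ∀ z, (w, z) ∈ T.target → X (w, (T.symm (w, z)).2) = z := by
    intro z hz
    have a1 := T.right_inv hz
    rw [hT] at a1
    have a2 : (T.symm (w, z)).1 = w := congrArg Prod.fst a1
    have a3 : X (T.symm (w, z)) = z := congrArg Prod.snd a1
    have a4 : (w, (T.symm (w, z)).2) = T.symm (w, z) := Prod.ext a2.symm rfl
    rw [a4, a3]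
  have hlog' : ∀ v, (w, v) ∈ T.source → T.symm (w, X (w, v)) = (w, v) := by
    intro v hv
    have := T.left_inv hv
    rwa [hT] at this
  obtain ⟨J, hJ⟩ := exists_normalize (c.G w) (c.chr.symm w hwρ.1) (c.chr.pos w hwρ.1)
  have hJ' : ∀ a b, c.G w a b = ⟪J.symm a, J.symm b⟫ := fun a b => by
    rw [← hJ, J.apply_symm_apply, J.apply_symm_apply]
  have hN1 : ∀ v, ‖J.symm v‖ ≤ 2 * ‖v‖ := fun v => by
    have := (hwρ.2 v).1
    rw [hJ', real_inner_self_eq_norm_sq] at this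
    exact (pow_le_pow_iff_left₀ (by positivity) (by positivity) two_ne_zero).1 this
  have hN2 : ∀ v, ‖v‖ ≤ 2 * ‖J.symm v‖ := fun v => by
    have := (hwρ.2 v).2
    rw [hJ', real_inner_self_eq_norm_sq, ← mul_pow] at this
    exact (pow_le_pow_iff_left₀ (by positivity) (by positivity) two_ne_zero).1 this
  have hB : ContDiffOn ℝ ∞ (fun v => X (w, v)) (ball 0 δ) :=
    hX.comp (f := fun v => (w, v)) (by fun_prop) (fun v hv => ⟨hwδ, hv⟩)
  have gauss : ∀ v ∈ ball (0 : E) δ, ∀ η,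
      c.G (X (w, v)) (fderiv ℝ (fun v => X (w, v)) v v) (fderiv ℝ (fun v => X (w, v)) v η) =
        ⟪J.symm v, J.symm η⟫ := by
    intro v hv η
    rw [gauss_exp c.chr hB (fun v hv => (e2 v hv).1)
      (fun v hv => (e2 v hv).2 1 (by rwa [one_smul])) hv η, e1.fderiv, ← hJ']
    simp only [e0, ContinuousLinearMap.id_apply]
  set v := (T.symm (w, y)).2 with hv
  have hXv : X (w, v) = y := hlog y q1
  have hv0 : v ≠ 0 := by
    intro h0
    rw [h0, e0] at hXv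
    exact hab (c.ψ.injOn ha.1 hb.1 hXv)
  set l := ‖J.symm v‖ with hl
  have hl0 : 0 < l := norm_pos_iff.2 (by simpa using hv0)
  have hvn := mem_ball_zero_iff.1 q2
  have hlδ : l ≤ ε₁ / 2 := by have := hN1 v; linarith
  have hsv : ∀ s ∈ Icc (0 : ℝ) 1, s • v ∈ ball (0 : E) δ := by
    intro s hs
    have a1 : v ∈ ball (0 : E) δ :=
      (h1 (show (w, v) ∈ _ from ⟨q3, mem_closedBall_zero_iff.2 (by linarith)⟩)).2.1.2
    exact (convex_ball (0 : E) δ).smul_mem_of_zero_mem (mem_ball_self hδ) a1 hs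
  have hvδ : v ∈ ball (0 : E) δ := by simpa using hsv 1 ⟨zero_le_one, le_rfl⟩
  let γ : ℝ → M := fun t => c.ψ.symm (X (w, (l⁻¹ * t + 0) • v))
  have hγ0 : γ 0 = a := by
    simp only [γ, mul_zero, add_zero, zero_smul, e0]
    exact c.ψ.left_inv ha.1
  have hγ1 : γ l = b := by
    simp only [γ, add_zero, inv_mul_cancel₀ hl0.ne', one_smul, hXv]
    exact c.ψ.left_inv hb.1
  have hγ : ∀ t ∈ Icc 0 l, GeoAt 𝒜 γ t ∧ UnitAt 𝒜 γ t := by
    intro t ht
    have hs : l⁻¹ * t + 0 ∈ Icc (0 : ℝ) 1 := by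
      rw [add_zero]
      exact ⟨mul_nonneg (inv_pos.2 hl0).le ht.1, by rw [inv_mul_le_iff₀ hl0, mul_one]; exact ht.2⟩
    have hsb := hsv _ hs
    obtain ⟨u, hu⟩ := (e2 v hvδ).2 _ hsb
    refine ⟨(GeoAt.of_coord hc hu (e2 _ hsb).1).affine, ?_⟩
    have a1 : HasDerivAt (fun t : ℝ => (l⁻¹ * t + 0) • v) (l⁻¹ • v) t := by
      simpa using (((hasDerivAt_id t).const_mul l⁻¹).add_const 0).smul_const v
    have a2 := ((hB.contDiffAt (isOpen_ball.mem_nhds hsb)).differentiableAt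
      (by simp)).hasFDerivAt.comp_hasDerivAt t a1
    refine unit_of_coord hc a2 (e2 _ hsb).1 ?_
    show c.G (X (w, (l⁻¹ * t + 0) • v)) _ _ = 1
    have a3 : c.G (X (w, (l⁻¹ * t + 0) • v))
        (fderiv ℝ (fun v => X (w, v)) ((l⁻¹ * t + 0) • v) v)
        (fderiv ℝ (fun v => X (w, v)) ((l⁻¹ * t + 0) • v) v) = l ^ 2 := by
      by_cases h0 : l⁻¹ * t + 0 = 0
      · rw [h0, zero_smul, e1.fderiv, e0, ContinuousLinearMap.id_apply, hJ',
          real_inner_self_eq_norm_sq]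
      · have := gauss _ hsb v
        simp only [map_smul, smul_apply, smul_eq_mul, real_inner_smul_left,
          real_inner_self_eq_norm_sq] at this
        exact mul_left_cancel₀ h0 this
    simp only [map_smul, smul_apply, smul_eq_mul, a3]
    field_simp
  have hup : 𝒜.d a b ≤ l := by
    have := d_le_of_unit hl0.le hγ
    rwa [hγ0, hγ1, sub_zero] at this
  have hK : ∀ z, ‖J.symm z‖ ≤ ε₁ / 2 → (w, z) ∈ closedBall (0 : E) ε₁ ×ˢ closedBall (0 : E) ε₁ :=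
    fun z hz => ⟨q3, mem_closedBall_zero_iff.2 (by have := hN2 z; linarith)⟩
  have hKc : IsCompact {z : E | ‖J.symm z‖ ≤ ε₁ / 2} :=
    (isCompact_closedBall (0 : E) ε₁).of_isClosed_subset
      (isClosed_le (by fun_prop) continuous_const) (fun z hz => (hK z hz).2)
  have hWo : IsOpen ((fun z => (w, z)) ⁻¹' T.target ∩ c.ψ.target) :=
    (T.open_target.preimage (by fun_prop)).inter c.ψ.open_target
  have hCW : (fun z => X (w, z)) '' {z : E | ‖J.symm z‖ ≤ ε₁ / 2} ⊆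
      (fun z => (w, z)) ⁻¹' T.target ∩ c.ψ.target := by
    rintro _ ⟨z, hz, rfl⟩
    have a1 := h1 (hK z hz)
    have a2 := T.map_source a1.1
    rw [hT] at a2
    exact ⟨a2, (e2 z a1.2.1.2).1⟩
  obtain ⟨f, hf, hf1, -⟩ := lip_of_compact hc
    (hKc.image_of_continuousOn (hB.continuousOn.mono (fun z hz => (h1 (hK z hz)).2.1.2)))
    hWo hCW inter_subset_right (g := fun z => min ‖J.symm (T.symm (w, z)).2‖ (ε₁ / 2))
    (δ := ε₁ / 2) (fun z hz hz' => min_eq_right (le_of_not_ge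
      (fun h => hz' ⟨_, h, hlog z hz.1⟩))) (by
      rintro _ ⟨z, hz, rfl⟩ lam hlam
      have a1 := h1 (hK z hz)
      have a2 := hball _ a1.2.2.2.1
      have a3 : DifferentiableAt ℝ (fun z => (T.symm (w, z)).2) (X (w, z)) := by
        have b1 := a1.2.2.1
        rw [hT] at b1
        exact (b1.comp (X (w, z)) (by fun_prop : DifferentiableAt ℝ (fun z : E => (w, z)) _)).snd
      have a4 : (T.symm (w, X (w, z))).2 = z := by rw [hlog' z a1.1]
      have a5 := log_lip (Q := c.G (X (w, z))) (B := fun v => X (w, v)) J.symm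
        (c.chr.symm _ a2.1) (c.chr.pos _ a2.1) (fun a => (a2.2 a).2) a3 a4
        ((hB.contDiffAt (isOpen_ball.mem_nhds a1.2.1.2)).differentiableAt (by simp))
        (Filter.mem_of_superset (hWo.mem_nhds (hCW ⟨z, hz, rfl⟩)) (fun z' hz' => hlog z' hz'.1))
        (gauss z a1.2.1.2) (fun h0 η => by
          subst h0
          rw [e1.fderiv, e0, ContinuousLinearMap.id_apply, hJ', real_inner_self_eq_norm_sq])
        hlam
      filter_upwards [a5] with z' hz'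
      refine le_trans ?_ hz'
      rw [a4]
      refine (abs_min_sub_min_le_max _ _ _ _).trans (max_le le_rfl ?_)
      simp)
  have hlow : l ≤ 𝒜.d a b := by
    have a1 := le_d hf a b
    have a2 := hf1 y ⟨q1, c.ψ.map_source hb.1⟩
    have a3 := hf1 _ (hCW ⟨0, by simp; positivity, rfl⟩)
    simp only [hlog' 0 hw0.1, map_zero, norm_zero] at a3
    rw [e0, hw, c.ψ.left_inv ha.1, min_eq_left (by positivity)] at a3
    rw [hy, c.ψ.left_inv hb.1, ← hy, min_eq_left hlδ] at a2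
    linarith
  rw [le_antisymm hup hlow]
  exact ⟨hl0, γ, hγ0, hγ1, hγ⟩

omit [T2Space M] [PreconnectedSpace M] in
/-- A corner can be cut: the chart segment from γ₁(-s) to γ₂(s) is shorter than 2s. -/
theorem shortcut {γ₁ γ₂ : ℝ → M} {m : M} {c : Chart E M} (hc : c ∈ 𝒜.S) (hn : c.NormAt m)
    (h₁ : γ₁ 0 = m) (h₂ : γ₂ 0 = m) (hc₁ : ContinuousAt γ₁ 0) (hc₂ : ContinuousAt γ₂ 0)
    {v₁ v₂ : E} (hv₁ : HasDerivAt (c.ψ ∘ γ₁) v₁ 0) (hv₂ : HasDerivAt (c.ψ ∘ γ₂) v₂ 0)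
    (hn₁ : ‖v₁‖ = 1) (hn₂ : ‖v₂‖ = 1) (hne : v₁ ≠ v₂) {O : Set M} (hO : O ∈ 𝓝 m) :
    ∃ κ > 0, ∀ᶠ s in 𝓝[>] (0 : ℝ), ∃ σ : ℝ → M, ContinuousOn σ (Icc 0 1) ∧ σ 0 = γ₁ (-s) ∧
      σ 1 = γ₂ s ∧ (∀ t ∈ Icc (0 : ℝ) 1, σ t ∈ O) ∧
      ∀ t ∈ Icc (0 : ℝ) 1, ∀ t' ∈ Icc (0 : ℝ) 1, t ≤ t' →
        𝒜.d (σ t) (σ t') ≤ (2 - κ) * s * (t' - t) := by
  have hθ : ‖v₂ + v₁‖ < 2 := by
    have := norm_add_lt_of_not_sameRay (x := v₂) (y := v₁) (fun h => hne
      (by rw [sameRay_iff_of_norm_eq (hn₂.trans hn₁.symm)] at h; exact h.symm))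
    linarith
  set η := 2 - ‖v₂ + v₁‖ with hη
  have hη0 : 0 < η := by linarith
  obtain ⟨ρ, hρ, hball⟩ := hn.exists_ball (lam := 1 + η / 8) (by linarith)
  have h0U : (0 : E) ∈ c.ψ.target := hn.2.1 ▸ c.ψ.map_source hn.1
  have hsm : c.ψ.symm 0 = m := by rw [← hn.2.1, c.ψ.left_inv hn.1]
  obtain ⟨r, hr, hrb⟩ := nhds_basis_closedBall.mem_iff.1 (inter_mem (closedBall_mem_nhds (0 : E) hρ)
    ((c.ψ.continuousAt_symm h0U).preimage_mem_nhds (hsm ▸ hO)))
  have hneg : HasDerivAt (fun s : ℝ => -s) (-1) 0 := hasDerivAt_neg 0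
  have d1 : HasDerivAt (fun s => c.ψ (γ₁ (-s))) ((-1 : ℝ) • v₁) 0 :=
    (show HasDerivAt (c.ψ ∘ γ₁) v₁ (-0) by rwa [neg_zero]).scomp (0 : ℝ) hneg
  have d2 : HasDerivAt (fun s => c.ψ (γ₂ s) - c.ψ (γ₁ (-s))) (v₂ + v₁) 0 := by
    refine (hv₂.sub d1).congr_deriv ?_
    simp
  have c1 : ContinuousAt (fun s : ℝ => γ₁ (-s)) 0 :=
    ContinuousAt.comp (f := fun s : ℝ => -s) (by rwa [neg_zero]) (by fun_prop)
  have ev : ∀ᶠ s in 𝓝 (0 : ℝ), γ₁ (-s) ∈ c.ψ.source ∧ γ₂ s ∈ c.ψ.source ∧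
      c.ψ (γ₁ (-s)) ∈ closedBall (0 : E) r ∧ c.ψ (γ₂ s) ∈ closedBall (0 : E) r ∧
      ‖c.ψ (γ₂ s) - c.ψ (γ₁ (-s)) - s • (v₂ + v₁)‖ ≤ η / 2 * ‖s‖ := by
    refine (c1.eventually_mem ?_).and ((hc₂.eventually_mem ?_).and
      ((d1.continuousAt.eventually_mem ?_).and ((hv₂.continuousAt.eventually_mem ?_).and ?_)))
    · rw [neg_zero, h₁]; exact c.ψ.open_source.mem_nhds hn.1
    · rw [h₂]; exact c.ψ.open_source.mem_nhds hn.1
    · rw [neg_zero, h₁, hn.2.1]; exact closedBall_mem_nhds _ hr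
    · rw [Function.comp_apply, h₂, hn.2.1]; exact closedBall_mem_nhds _ hr
    · simpa [h₁, h₂] using d2.isLittleO.def (show 0 < η / 2 by positivity)
  refine ⟨η / 4, by positivity, ?_⟩
  filter_upwards [ev.filter_mono nhdsWithin_le_nhds, self_mem_nhdsWithin] with s hs hs0
  obtain ⟨s1, s2, s3, s4, s5⟩ := hs
  have hs0' : 0 < s := hs0
  set y₁ := c.ψ (γ₁ (-s))
  set y₂ := c.ψ (γ₂ s)
  have hin : ∀ t ∈ Icc (0 : ℝ) 1, y₁ + t • (y₂ - y₁) ∈ closedBall (0 : E) r := fun t ht =>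
    (convex_closedBall (0 : E) r).add_smul_sub_mem s3 s4 ht
  have hlen : ‖y₂ - y₁‖ ≤ (2 - η / 2) * s := by
    have a1 := norm_add_le (y₂ - y₁ - s • (v₂ + v₁)) (s • (v₂ + v₁))
    rw [sub_add_cancel, norm_smul, Real.norm_eq_abs, abs_of_pos hs0'] at a1
    rw [Real.norm_eq_abs, abs_of_pos hs0'] at s5
    have a2 : ‖v₂ + v₁‖ = 2 - η := by linarith
    rw [a2] at a1
    linarith
  refine ⟨fun t => c.ψ.symm (y₁ + t • (y₂ - y₁)), ?_, ?_, ?_, fun t ht => (hrb (hin t ht)).2,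
    fun t ht t' ht' htt => ?_⟩
  · exact c.ψ.continuousOn_symm.comp (by fun_prop) (fun t ht => (hball _ (hrb (hin t ht)).1).1)
  · simp only [zero_smul, add_zero]; exact c.ψ.left_inv s1
  · simp only [one_smul, add_sub_cancel]; exact c.ψ.left_inv s2
  have hη2 : η ≤ 2 := by have := norm_nonneg (v₂ + v₁); linarith
  refine d_le_of_segment hc (mul_nonneg (mul_nonneg (by linarith) hs0'.le) (by linarith))
    (fun x hx => ?_)
  have hx' := hball x (hrb ((convex_closedBall (0 : E) r).segment_subset (hin t ht) (hin t' ht') hx)).1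
  refine ⟨hx'.1, (hx'.2 _).1.trans (pow_le_pow_left₀ (by positivity) ?_ 2)⟩
  rw [add_sub_add_left_eq_sub, ← sub_smul, norm_smul, Real.norm_eq_abs,
    abs_of_nonneg (by linarith)]
  have a1 : (1 + η / 8) * ‖y₂ - y₁‖ ≤ (2 - η / 4) * s := by
    refine (mul_le_mul_of_nonneg_left hlen (by positivity)).trans ?_
    rw [← mul_assoc]
    exact mul_le_mul_of_nonneg_right (by nlinarith) hs0'.le
  nlinarith [sub_nonneg.2 htt]

end Pool.Agent.MP_3fed84_gt
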