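import Pool.Agent.MP_3fed84_gt.RayAux

/-! Exponential maps: Gauss lemma, isolated conjugate times, rays. -/

open Set Metric Filter Topology
open scoped ContDiff RealInnerProductSpace

namespace Pool.Agent.MP_3fed84_gt

variable {E : Type} [NormedAddCommGroup E] [InnerProductSpace ℝ E] [FiniteDimensional ℝ E]
  {M : Type} [TopologicalSpace M]

/-- e is a smooth map whose rays are geodesics and whose differential at 0 is an isometry. -/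
structure Ex (𝒜 : Atlas E M) (e : E → M) : Prop where
  cont : Continuous e
  sm : ∀ c ∈ 𝒜.S, ∀ x, e x ∈ c.ψ.source → ContDiffAt ℝ ∞ (c.ψ ∘ e) x
  geo : ∀ (x : E) (t : ℝ), GeoAt 𝒜 (fun s : ℝ => e (s • x)) t
  iso0 : ∀ c ∈ 𝒜.S, e 0 ∈ c.ψ.source → ∀ a b,
    c.G (c.ψ (e 0)) (fderiv ℝ (c.ψ ∘ e) 0 a) (fderiv ℝ (c.ψ ∘ e) 0 b) = ⟪a, b⟫

variable {𝒜 : Atlas E M} {e : E → M}

omit [FiniteDimensional ℝ E] in
theorem ex_id_apply {c : Chart E M} (c' : Chart E M) {m : M} (hm : m ∈ c.ψ.source) :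
    c.ex c' id (c.ψ m) = c'.ψ m := by
  simp only [Chart.ex, Function.comp_apply, id, c.ψ.left_inv hm]

omit [FiniteDimensional ℝ E] in
theorem chart_change {X : Type} [TopologicalSpace X] {g : X → M} {x : X} (hg : ContinuousAt g x)
    {c : Chart E M} (c' : Chart E M) (hx : g x ∈ c.ψ.source) :
    c'.ψ ∘ g =ᶠ[𝓝 x] c.ex c' id ∘ (c.ψ ∘ g) :=
  (hg.eventually (c.ψ.open_source.mem_nhds hx)).mono fun _ hy => (ex_id_apply c' hy).symm

omit [FiniteDimensional ℝ E] in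
theorem fderiv_change {x : E} (hg : ContinuousAt e x) {c c' : Chart E M} (hc : c ∈ 𝒜.S)
    (hc' : c' ∈ 𝒜.S) (hx : e x ∈ c.ψ.source) (hx' : e x ∈ c'.ψ.source)
    (hs : ContDiffAt ℝ ∞ (c.ψ ∘ e) x) (a : E) :
    fderiv ℝ (c'.ψ ∘ e) x a = fderiv ℝ (c.ex c' id) (c.ψ (e x)) (fderiv ℝ (c.ψ ∘ e) x a) := by
  have h1 := HasFDerivAt.comp (g := c.ex c' id) (f := c.ψ ∘ e) x
    (cda_hasF (𝒜.compat c hc c' hc' _ hx hx').1) (cda_hasF hs)
  rw [(h1.congr_of_eventuallyEq (chart_change hg c' hx)).fderiv]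
  rfl

omit [FiniteDimensional ℝ E] in
theorem form_change {x : E} (hg : ContinuousAt e x) {c c' : Chart E M} (hc : c ∈ 𝒜.S)
    (hc' : c' ∈ 𝒜.S) (hx : e x ∈ c.ψ.source) (hx' : e x ∈ c'.ψ.source)
    (hs : ContDiffAt ℝ ∞ (c.ψ ∘ e) x) (a b : E) :
    c'.G (c'.ψ (e x)) (fderiv ℝ (c'.ψ ∘ e) x a) (fderiv ℝ (c'.ψ ∘ e) x b)
      = c.G (c.ψ (e x)) (fderiv ℝ (c.ψ ∘ e) x a) (fderiv ℝ (c.ψ ∘ e) x b) := by
  rw [fderiv_change hg hc hc' hx hx' hs, fderiv_change hg hc hc' hx hx' hs b,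
    ← (𝒜.compat c hc c' hc' _ hx hx').2, ex_id_apply c' hx]

/-- Chart position and chart velocity of the ray of x at time t. -/
noncomputable def state (c : Chart E M) (e : E → M) (t : ℝ) (x : E) : E × E :=
  (c.ψ (e (t • x)), deriv (c.ψ ∘ fun s : ℝ => e (s • x)) t)

/-- The time t point and velocity of rays depend smoothly on the direction near x. -/
def Reg (𝒜 : Atlas E M) (e : E → M) (x : E) (t : ℝ) : Prop :=
  ContinuousAt (fun y : E => e (t • y)) x ∧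
    ∀ c ∈ 𝒜.S, e (t • x) ∈ c.ψ.source → ContDiffAt ℝ ∞ (state c e t) x

theorem reg_of_chart (geo : ∀ (x : E) (t : ℝ), GeoAt 𝒜 (fun s : ℝ => e (s • x)) t) {x : E}
    {t : ℝ} (h1 : ContinuousAt (fun y : E => e (t • y)) x) {c : Chart E M} (hc : c ∈ 𝒜.S)
    (hx : e (t • x) ∈ c.ψ.source) (h2 : ContDiffAt ℝ ∞ (state c e t) x) : Reg 𝒜 e x t := by
  refine ⟨h1, fun c' hc' hx' => ?_⟩
  have hf : ContDiffAt ℝ ∞ (c.ex c' id) (state c e t x).1 := (𝒜.compat c hc c' hc' _ hx hx').1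
  have h3 : ContDiffAt ℝ ∞ (fun y => (c.ex c' id (state c e t y).1,
      fderiv ℝ (c.ex c' id) (state c e t y).1 (state c e t y).2)) x :=
    (ContDiffAt.comp (f := fun y => (state c e t y).1) x hf h2.fst).prodMk
      ((ContDiffAt.comp (f := fun y => (state c e t y).1) x (cda_fderiv hf) h2.fst).clm_apply
        h2.snd)
  refine h3.congr_of_eventuallyEq ?_
  filter_upwards [h1.eventually (c.ψ.open_source.mem_nhds hx),
    h1.eventually (c'.ψ.open_source.mem_nhds hx')] with y hy hy'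
  obtain ⟨u, hu⟩ := (geo y t).chart hc hy
  have h4 := HasFDerivAt.comp_hasDerivAt (l := c.ex c' id)
    (f := c.ψ ∘ fun s : ℝ => e (s • y)) t (cda_hasF (𝒜.compat c hc c' hc' _ hy hy').1)
    hu.hasDerivAt
  have h5 := (h4.congr_of_eventuallyEq (chart_change (geo y t).continuousAt c' hy)).deriv
  exact Prod.ext (ex_id_apply c' hy).symm h5

theorem reg_step [T2Space M] (geo : ∀ (x : E) (t : ℝ), GeoAt 𝒜 (fun s : ℝ => e (s • x)) t)
    (x : E) (t₀ : ℝ) : ∃ N ∈ 𝓝 t₀, ∀ t₁ ∈ N, ∀ t₂ ∈ N, Reg 𝒜 e x t₁ → Reg 𝒜 e x t₂ := by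
  obtain ⟨c, hc, hx, -⟩ := 𝒜.norm (e (t₀ • x))
  obtain ⟨δ, hδ, φ, hφ, hφ'⟩ := exists_flow (f := fld c.Γ) (U := c.ψ.target ×ˢ univ)
    (c.ψ.open_target.prod isOpen_univ)
    (fun p hp => (fld_smooth c.chr hp.1).contDiffWithinAt) (x₀ := state c e t₀ x)
    ⟨c.ψ.map_source hx, mem_univ _⟩
  obtain ⟨u, hu⟩ := (geo x t₀).chart hc hx
  have hst : ContinuousAt (fun t => state c e t x) t₀ := hu.continuousAt_state
  refine ⟨{t | e (t • x) ∈ c.ψ.source ∧ state c e t x ∈ ball (state c e t₀ x) δ ∧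
    t ∈ ball t₀ (δ / 2)}, ?_, fun t₁ h₁ t₂ h₂ hR => ?_⟩
  · exact ((geo x t₀).continuousAt.eventually (c.ψ.open_source.mem_nhds hx)).and
      ((hst.eventually (ball_mem_nhds _ hδ)).and (ball_mem_nhds _ (half_pos hδ)))
  have h12 : t₂ ∈ ball t₁ δ := by
    have a1 := h₁.2.2
    have a2 := h₂.2.2
    rw [mem_ball] at a1 a2 ⊢
    linarith [dist_triangle_right t₂ t₁ t₀]
  have h0 : ∀ t ∈ ball t₁ δ, t - t₁ ∈ ball (0 : ℝ) δ := fun t ht => by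
    simpa [Real.dist_eq] using ht
  have hs := hR.2 c hc h₁.1
  have key : ∀ᶠ y in 𝓝 x, e (t₂ • y) = c.ψ.symm (φ (t₂ - t₁, state c e t₁ y)).1 ∧
      state c e t₂ y = φ (t₂ - t₁, state c e t₁ y) := by
    filter_upwards [hR.1.eventually (c.ψ.open_source.mem_nhds h₁.1),
      hs.continuousAt.eventually (isOpen_ball.mem_nhds h₁.2.1)] with y hy hy'
    obtain ⟨g0, g1⟩ := hφ' _ hy'
    have hg : ∀ t ∈ ball t₁ δ, CGeo c.Γ (fun s => (φ (s - t₁, state c e t₁ y)).1)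
        (fun s => (φ (s - t₁, state c e t₁ y)).2) t := fun t ht =>
      cgeo_of_flow (y := fun s => φ (s, state c e t₁ y)) (fun τ hτ => (g1 τ hτ).2) ht
    have ht : ∀ t ∈ ball t₁ δ, (φ (t - t₁, state c e t₁ y)).1 ∈ c.ψ.target := fun t ht =>
      (g1 _ (h0 t ht)).1.1
    have hσ : ∀ t ∈ ball t₁ δ,
        GeoAt 𝒜 (c.ψ.symm ∘ fun s => (φ (s - t₁, state c e t₁ y)).1) t := fun t h =>
      GeoAt.of_coord hc (hg t h) (ht t h)
    have hψ : ∀ t ∈ ball t₁ δ, (c.ψ ∘ c.ψ.symm ∘ fun s => (φ (s - t₁, state c e t₁ y)).1) =ᶠ[𝓝 t]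
        fun s => (φ (s - t₁, state c e t₁ y)).1 := fun t h =>
      (isOpen_ball.eventually_mem h).mono fun s hs => c.ψ.right_inv (ht s hs)
    have m1 : t₁ ∈ ball t₁ δ := mem_ball_self hδ
    obtain ⟨v, hv⟩ := (geo y t₁).chart hc hy
    have d1 := ((hg t₁ m1).self_of_nhds.1).congr_of_eventuallyEq (hψ t₁ m1)
    simp only [sub_self, g0] at d1
    have e1 := GeoAt.unique_nhds (geo y t₁) (hσ t₁ m1) hc hy
      (by simp only [Function.comp_apply, sub_self, g0]; exact (c.ψ.left_inv hy).symm)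
      hv.hasDerivAt d1
    have e2 := GeoAt.unique (convex_ball t₁ δ).isPreconnected (fun t _ => geo y t) hσ m1 e1 t₂ h12
    have e3 : (c.ψ ∘ fun s : ℝ => e (s • y)) =ᶠ[𝓝 t₂] fun s => (φ (s - t₁, state c e t₁ y)).1 :=
      (e2.fun_comp c.ψ).trans (hψ t₂ h12)
    exact ⟨e2.eq_of_nhds, Prod.ext e3.eq_of_nhds
      (e3.deriv_eq.trans (hg t₂ h12).self_of_nhds.1.deriv)⟩
  have hsm : ContDiffAt ℝ ∞ (fun y => φ (t₂ - t₁, state c e t₁ y)) x :=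
    ContDiffAt.comp (g := φ) (f := fun y => (t₂ - t₁, state c e t₁ y)) x
      (hφ.contDiffAt ((isOpen_ball.prod isOpen_ball).mem_nhds ⟨h0 _ h12, h₁.2.1⟩))
      (contDiffAt_const.prodMk hs)
  refine reg_of_chart geo ?_ hc h₂.1 (hsm.congr_of_eventuallyEq (key.mono fun _ h => h.2))
  refine ContinuousAt.congr ?_ (key.mono fun _ h => h.1.symm)
  exact ContinuousAt.comp (g := c.ψ.symm) (f := fun y => (φ (t₂ - t₁, state c e t₁ y)).1)
    (c.ψ.continuousAt_symm ((hφ' _ h₁.2.1).2 _ (h0 _ h12)).1.1) hsm.continuousAt.fst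

theorem forall_of_clopen {P : ℝ → Prop} {t₀ : ℝ} (h0 : P t₀) (ho : ∀ t, P t → ∀ᶠ s in 𝓝 t, P s)
    (hc : ∀ t, (∃ᶠ s in 𝓝 t, P s) → P t) (t : ℝ) : P t := by
  have h : IsClopen {t | P t} :=
    ⟨isClosed_iff_frequently.2 hc, isOpen_iff_mem_nhds.2 ho⟩
  have := h.eq_univ ⟨t₀, h0⟩
  exact (this ▸ mem_univ t : t ∈ {t | P t})

/-- Smoothness of the exponential map follows from the geodesic property of its rays. -/
theorem ex_of_rays [T2Space M] (geo : ∀ (x : E) (t : ℝ), GeoAt 𝒜 (fun s : ℝ => e (s • x)) t)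
    {c : Chart E M} (hc : c ∈ 𝒜.S) (h0 : e 0 ∈ c.ψ.source) (J : E →L[ℝ] E)
    (hJ : ∀ a b, c.G (c.ψ (e 0)) (J a) (J b) = ⟪a, b⟫)
    (hv : ∀ x : E, HasDerivAt (fun s : ℝ => c.ψ (e (s • x))) (J x) 0) : Ex 𝒜 e := by
  have hR : ∀ x, Reg 𝒜 e x 1 := fun x => by
    refine forall_of_clopen (P := Reg 𝒜 e x) (t₀ := 0) ?_ (fun t ht => ?_) (fun t ht => ?_) 1
    · refine reg_of_chart geo (by simp only [zero_smul]; exact continuousAt_const) hc
        (by rwa [zero_smul]) ?_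
      have : state c e 0 = fun y => (c.ψ (e 0), J y) := funext fun y =>
        Prod.ext (by simp only [state, zero_smul]) (hv y).deriv
      rw [this]
      exact contDiffAt_const.prodMk J.contDiff.contDiffAt
    · obtain ⟨N, hN, h⟩ := reg_step geo x t
      exact mem_of_superset hN fun s hs => h t (mem_of_mem_nhds hN) s hs ht
    · obtain ⟨N, hN, h⟩ := reg_step geo x t
      obtain ⟨s, h1, h2⟩ := (ht.and_eventually hN).exists
      exact h s h2 t (mem_of_mem_nhds hN) h1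
  have hcont : Continuous e := continuous_iff_continuousAt.2 fun x => by
    simpa only [one_smul] using (hR x).1
  have hsm : ∀ c ∈ 𝒜.S, ∀ x, e x ∈ c.ψ.source → ContDiffAt ℝ ∞ (c.ψ ∘ e) x := fun c hc x hx => by
    have := ((hR x).2 c hc (by rwa [one_smul])).fst
    simp only [state, one_smul] at this
    exact this
  refine ⟨hcont, hsm, geo, fun c' hc' h0' a b => ?_⟩
  have hD : ∀ x, fderiv ℝ (c.ψ ∘ e) 0 x = J x := fun x => by
    have h1 : HasFDerivAt (c.ψ ∘ e) (fderiv ℝ (c.ψ ∘ e) 0) ((0 : ℝ) • x) := by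
      rw [zero_smul]; exact cda_hasF (hsm c hc 0 h0)
    exact (HasFDerivAt.comp_hasDerivAt (l := c.ψ ∘ e) (f := fun s : ℝ => s • x) 0 h1
      (hasDerivAt_line x 0)).unique (hv x)
  rw [form_change hcont.continuousAt hc hc' h0 h0' (hsm c hc 0 h0), hD, hD, hJ]

omit [FiniteDimensional ℝ E] in
theorem Ex.hasDerivAt_ray (h : Ex 𝒜 e) {c : Chart E M} (hc : c ∈ 𝒜.S) {θ : E} {t : ℝ}
    (ht : e (t • θ) ∈ c.ψ.source) :
    HasDerivAt (c.ψ ∘ fun s : ℝ => e (s • θ)) (fderiv ℝ (c.ψ ∘ e) (t • θ) θ) t :=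
  HasFDerivAt.comp_hasDerivAt (l := c.ψ ∘ e) (f := fun s : ℝ => s • θ) t
    (cda_hasF (h.sm c hc _ ht)) (hasDerivAt_line θ t)

omit [FiniteDimensional ℝ E] in
theorem Chart.diff_G (c : Chart E M) {m : M} (hm : m ∈ c.ψ.source) :
    DifferentiableAt ℝ c.G (c.ψ m) :=
  (c.chr.smG.contDiffAt (c.ψ.open_target.mem_nhds (c.ψ.map_source hm))).differentiableAt
    top_ne_zero'

/-- The Gauss lemma. -/
theorem Ex.gauss (h : Ex 𝒜 e) {c : Chart E M} (hc : c ∈ 𝒜.S) {x : E} (hx : e x ∈ c.ψ.source)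
    (η : E) : c.G (c.ψ (e x)) (fderiv ℝ (c.ψ ∘ e) x x) (fderiv ℝ (c.ψ ∘ e) x η) = ⟪x, η⟫ := by
  choose k hk hk' using fun y => 𝒜.norm (e y)
  let H : E → E →L[ℝ] E →L[ℝ] ℝ := fun y =>
    pb ((k y).G ((k y).ψ (e y))) (fderiv ℝ ((k y).ψ ∘ e) y)
  have hH : ∀ c ∈ 𝒜.S, ∀ y, e y ∈ c.ψ.source → ∀ a b, H y a b =
      c.G (c.ψ (e y)) (fderiv ℝ (c.ψ ∘ e) y a) (fderiv ℝ (c.ψ ∘ e) y b) := fun c hc y hy a b =>
    form_change h.cont.continuousAt hc (hk y) hy (hk' y).1 (h.sm c hc y hy) a b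
  have hev : ∀ y, ∀ᶠ z in 𝓝 y, e z ∈ (k y).ψ.source := fun y =>
    h.cont.continuousAt.eventually ((k y).ψ.open_source.mem_nhds (hk' y).1)
  have key := gauss_abstract (D := univ) isOpen_univ (fun _ _ _ _ => mem_univ _) (h := H)
    (fun y _ => ?_) (fun y _ a b => ?_) (fun y _ ζ => ?_) (mem_univ x) η
  · rw [← hH c hc x hx, key, hH (k 0) (hk 0) 0 (hk' 0).1, h.iso0 _ (hk 0) (hk' 0).1]
  · have hs := h.sm _ (hk y) y (hk' y).1
    have h1 : DifferentiableAt ℝ (fun z => (k y).G ((k y).ψ (e z))) y :=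
      DifferentiableAt.comp (G := E →L[ℝ] E →L[ℝ] ℝ) (g := (k y).G) (f := (k y).ψ ∘ e) y
        ((k y).diff_G (hk' y).1) (hs.differentiableAt top_ne_zero')
    refine (pb_diff h1 ((cda_fderiv hs).differentiableAt top_ne_zero')).congr_of_eventuallyEq ?_
    filter_upwards [hev y] with z hz
    ext a b
    exact hH _ (hk y) z hz a b
  · exact (k y).chr.symm _ ((k y).ψ.map_source (hk' y).1) _ _
  · obtain ⟨u, hu⟩ := (h.geo y 1).chart (hk y) (by simpa only [one_smul] using (hk' y).1)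
    have h1 := radial_identity (k y).chr (cda_two (h.sm _ (hk y) y (hk' y).1))
      ((k y).ψ.map_source (hk' y).1) hu ζ
    have h2 : ∀ b, (fun z => H z y b) =ᶠ[𝓝 y] fun z => (k y).G (((k y).ψ ∘ e) z)
        (fderiv ℝ ((k y).ψ ∘ e) z y) (fderiv ℝ ((k y).ψ ∘ e) z b) := fun b =>
      (hev y).mono fun z hz => hH _ (hk y) z hz y b
    rw [(h2 ζ).fderiv_eq, (h2 y).fderiv_eq]
    exact h1

/-- Rays have constant speed. -/
theorem Ex.speed (h : Ex 𝒜 e) {c : Chart E M} (hc : c ∈ 𝒜.S) {θ : E} {t : ℝ}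
    (ht : e (t • θ) ∈ c.ψ.source) :
    c.G (c.ψ (e (t • θ))) (fderiv ℝ (c.ψ ∘ e) (t • θ) θ) (fderiv ℝ (c.ψ ∘ e) (t • θ) θ)
      = ‖θ‖ ^ 2 := by
  by_cases h0 : t = 0
  · subst h0
    rw [zero_smul] at ht ⊢
    rw [h.iso0 c hc ht, real_inner_self_eq_norm_sq]
  · have h1 := h.gauss hc ht θ
    rw [map_smul, map_smul, smul_apply, smul_eq_mul, real_inner_smul_left,
      real_inner_self_eq_norm_sq] at h1
    exact mul_left_cancel₀ h0 h1

theorem Ex.d_ray (h : Ex 𝒜 e) (θ : E) {s t : ℝ} (hst : s ≤ t) :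
    𝒜.d (e (s • θ)) (e (t • θ)) ≤ ‖θ‖ * (t - s) := by
  refine d_le_of_curve (γ := fun s : ℝ => e (s • θ)) hst (norm_nonneg θ)
    (h.cont.comp (continuous_id.smul continuous_const)).continuousOn fun r _ => ?_
  obtain ⟨c, hc, hx, -⟩ := 𝒜.norm (e (r • θ))
  exact ⟨c, hc, hx, _, (h.hasDerivAt_ray hc hx).hasDerivWithinAt, (h.speed hc hx).le⟩

theorem Ex.jacobi_local (h : Ex 𝒜 e) {c : Chart E M} (hc : c ∈ 𝒜.S) {x ξ : E} {T : ℝ}
    (hx : e (T • x) ∈ c.ψ.source) (hV : fderiv ℝ (raySt (c.ψ ∘ e)) (T, x) (0, ξ) = 0) :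
    ∀ᶠ t in 𝓝 T, ∀ c' ∈ 𝒜.S, e (t • x) ∈ c'.ψ.source →
      fderiv ℝ (c'.ψ ∘ e) (t • x) (t • ξ) = 0 := by
  have hm : Continuous fun p : ℝ × E => e (p.1 • p.2) :=
    h.cont.comp (continuous_fst.smul continuous_snd)
  have h1 := variation_zero (f := fld c.Γ) (Z := raySt (c.ψ ∘ e)) (T := T) (x := x) (ξ := ξ)
    (cda_two (fld_smooth c.chr (c.ψ.map_source hx)))
    (cda_two (raySt_smooth (p := (T, x)) (h.sm c hc _ hx))) ?_ hV
  · filter_upwards [h1, (h.geo x T).continuousAt.eventually (c.ψ.open_source.mem_nhds hx)]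
      with t h2 ht c' hc' ht'
    rw [fderiv_raySt (p := (t, x)) (h.sm c hc _ ht)] at h2
    have h3 := congrArg Prod.fst h2
    simp only [zero_smul, add_zero, Prod.fst_zero] at h3
    rw [fderiv_change h.cont.continuousAt hc hc' ht ht' (h.sm c hc _ ht), h3, map_zero]
  · filter_upwards [(hm.continuousAt (x := (T, x))).eventually (c.ψ.open_source.mem_nhds hx)]
      with p hp
    obtain ⟨u, hu⟩ := (h.geo p.2 p.1).chart hc hp
    rw [fderiv_raySt (h.sm c hc _ hp)]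
    simp only [smul_zero, one_smul, zero_add, map_zero]
    exact Prod.ext rfl (CGeo.ray_eq (h.sm c hc _ hp) hu)

theorem Ex.jacobi_back (h : Ex 𝒜 e) {c : Chart E M} (hc : c ∈ 𝒜.S) {x ξ : E} {T : ℝ}
    (hx : e (T • x) ∈ c.ψ.source)
    (hP : ∀ᶠ t in 𝓝 T, ∀ c' ∈ 𝒜.S, e (t • x) ∈ c'.ψ.source →
      fderiv ℝ (c'.ψ ∘ e) (t • x) (t • ξ) = 0) :
    fderiv ℝ (raySt (c.ψ ∘ e)) (T, x) (0, ξ) = 0 := by
  have hs := h.sm c hc _ hx
  have h1 : (fun t : ℝ => fderiv ℝ (c.ψ ∘ e) (t • x) (t • ξ)) =ᶠ[𝓝 T] fun _ => 0 := by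
    filter_upwards [hP, (h.geo x T).continuousAt.eventually (c.ψ.open_source.mem_nhds hx)]
      with t h1 h2 using h1 c hc h2
  have h2 : HasDerivAt (fun s : ℝ => fderiv ℝ (c.ψ ∘ e) (s • x))
      (fderiv ℝ (fderiv ℝ (c.ψ ∘ e)) (T • x) x) T :=
    HasFDerivAt.comp_hasDerivAt (l := fderiv ℝ (c.ψ ∘ e)) T (cda_hasF (cda_fderiv hs))
      (hasDerivAt_line x T)
  have h3 := (h2.clm_apply (hasDerivAt_line ξ T)).unique
    ((hasDerivAt_const T (0 : E)).congr_of_eventuallyEq h1)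
  rw [fderiv_raySt (p := (T, x)) hs]
  simp only [zero_smul, add_zero]
  refine Prod.ext h1.eq_of_nhds ?_
  rw [cda_symm (cda_two hs), add_comm] at h3
  exact h3

/-- A Jacobi field vanishing to second order vanishes. -/
theorem Ex.jacobi (h : Ex 𝒜 e) {c : Chart E M} (hc : c ∈ 𝒜.S) {x : E} (hx : e x ∈ c.ψ.source)
    {ξ : E} (h0 : fderiv ℝ (c.ψ ∘ e) x ξ = 0) (h1 : fderiv ℝ (fderiv ℝ (c.ψ ∘ e)) x x ξ = 0) :
    ξ = 0 := by
  have key := forall_of_clopen (P := fun T : ℝ => ∀ᶠ t in 𝓝 T, ∀ c' ∈ 𝒜.S,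
    e (t • x) ∈ c'.ψ.source → fderiv ℝ (c'.ψ ∘ e) (t • x) (t • ξ) = 0) (t₀ := 1) ?_
    (fun t ht => ht.eventually_nhds) (fun T hT => ?_) 0
  · obtain ⟨c₀, hc₀, hx₀, -⟩ := 𝒜.norm (e 0)
    have hx₁ : e ((0 : ℝ) • x) ∈ c₀.ψ.source := by rwa [zero_smul]
    have h2 := h.jacobi_back hc₀ hx₁ key
    rw [fderiv_raySt (p := ((0 : ℝ), x)) (h.sm c₀ hc₀ _ hx₁)] at h2
    have h3 := congrArg Prod.snd h2
    simp only [zero_smul, add_zero, map_zero, zero_apply, Prod.snd_zero] at h3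
    have h4 := h.iso0 c₀ hc₀ hx₀ ξ ξ
    rw [h3, map_zero] at h4
    exact inner_self_eq_zero.1 h4.symm
  · have hx₁ : e ((1 : ℝ) • x) ∈ c.ψ.source := by rwa [one_smul]
    refine h.jacobi_local hc hx₁ ?_
    rw [fderiv_raySt (p := ((1 : ℝ), x)) (h.sm c hc _ hx₁)]
    simp only [one_smul, zero_smul, add_zero]
    rw [cda_symm (cda_two (h.sm c hc _ hx)), h0, h1, add_zero]
    rfl
  · obtain ⟨c₁, hc₁, hx₁, -⟩ := 𝒜.norm (e (T • x))
    refine h.jacobi_local hc₁ hx₁ ?_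
    have h2 : ContinuousAt (fun t : ℝ => fderiv ℝ (raySt (c₁.ψ ∘ e)) (t, x) (0, ξ)) T := by
      have h3 := (cda_fderiv (raySt_smooth (p := (T, x)) (h.sm c₁ hc₁ _ hx₁))).continuousAt
      exact (ContinuousAt.comp (f := fun t : ℝ => (t, x)) h3 (by fun_prop)).clm_apply
        continuousAt_const
    have h4 : ∃ᶠ t in 𝓝 T, fderiv ℝ (raySt (c₁.ψ ∘ e)) (t, x) (0, ξ) = 0 :=
      (hT.and_eventually ((h.geo x T).continuousAt.eventually
        (c₁.ψ.open_source.mem_nhds hx₁))).mono fun t ht => h.jacobi_back hc₁ ht.2 ht.1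
    exact tendsto_nhds_unique_of_frequently_eq h2 tendsto_const_nhds h4

/-- Quantitative isolation of degenerate times for a curve of operators. -/
theorem lower_bound_of_transversal {B : ℝ → E →L[ℝ] E} {B' : E →L[ℝ] E} {t₀ : ℝ}
    (hB : HasDerivAt B B' t₀) (h : ∀ η ζ, B t₀ η = 0 → B' η = B t₀ ζ → η = 0) :
    ∃ κ > 0, ∀ᶠ t in 𝓝 t₀, ∀ η, κ * |t - t₀| * ‖η‖ ≤ ‖B t η‖ := by
  by_contra hcon
  have h1 : ∀ n : ℕ, ∃ t, ∃ η ∈ sphere (0 : E) 1, t ≠ t₀ ∧ |t - t₀| < 1 / ((n : ℝ) + 1) ∧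
      ‖(t - t₀)⁻¹ • B t η‖ ≤ 1 / ((n : ℝ) + 1) := fun n => by
    have hp : (0 : ℝ) < 1 / ((n : ℝ) + 1) := Nat.one_div_pos_of_nat
    have h2 : ∃ᶠ t in 𝓝 t₀, ¬ ∀ η, 1 / ((n : ℝ) + 1) * |t - t₀| * ‖η‖ ≤ ‖B t η‖ :=
      not_eventually.1 fun h3 => hcon ⟨_, hp, h3⟩
    obtain ⟨t, h3, h4⟩ := (h2.and_eventually (ball_mem_nhds t₀ hp)).exists
    obtain ⟨η, h5⟩ := not_forall.1 h3
    rw [not_le] at h5
    have h6 : 0 < 1 / ((n : ℝ) + 1) * |t - t₀| * ‖η‖ := (norm_nonneg _).trans_lt h5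
    have h7 : 0 < ‖η‖ := (norm_nonneg η).lt_of_ne fun h => by rw [← h] at h6; simp at h6
    have h8 : 0 < |t - t₀| := (abs_nonneg _).lt_of_ne fun h => by rw [← h] at h6; simp at h6
    refine ⟨t, ‖η‖⁻¹ • η, ?_, sub_ne_zero.1 (abs_pos.1 h8), by simpa [Real.dist_eq] using h4, ?_⟩
    · rw [mem_sphere_zero_iff_norm, norm_smul, norm_inv, norm_norm, inv_mul_cancel₀ h7.ne']
    · rw [map_smul, norm_smul, norm_smul, norm_inv, norm_inv, norm_norm, Real.norm_eq_abs,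
        inv_mul_le_iff₀ h8, inv_mul_le_iff₀ h7]
      linarith
  choose t η hη ht hd hb using h1
  obtain ⟨η₀, hη₀, φ, hφ, hlim⟩ := (isCompact_sphere (0 : E) 1).tendsto_subseq hη
  have hz : Tendsto (fun n => 1 / (((φ n : ℕ) : ℝ) + 1)) atTop (𝓝 0) :=
    tendsto_one_div_add_atTop_nhds_zero_nat.comp hφ.tendsto_atTop
  have hs : Tendsto (fun n => t (φ n) - t₀) atTop (𝓝 0) :=
    squeeze_zero_norm (fun n => (hd (φ n)).le) hz
  have ht₀ : Tendsto (fun n => t (φ n)) atTop (𝓝 t₀) := by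
    simpa using hs.add_const t₀
  have ht₁ : Tendsto (fun n => t (φ n)) atTop (𝓝[≠] t₀) :=
    tendsto_nhdsWithin_iff.2 ⟨ht₀, Eventually.of_forall fun n => ht (φ n)⟩
  have hq : Tendsto (fun n => (t (φ n) - t₀)⁻¹ • B (t (φ n)) (η (φ n))) atTop (𝓝 0) :=
    squeeze_zero_norm (fun n => hb (φ n)) hz
  have hap : ∀ {L : ℕ → E →L[ℝ] E} {L₀ : E →L[ℝ] E}, Tendsto L atTop (𝓝 L₀) →
      Tendsto (fun n => L n (η (φ n))) atTop (𝓝 (L₀ η₀)) := fun {L L₀} hL =>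
    ((isBoundedBilinearMap_apply (𝕜 := ℝ) (E := E) (F := E)).continuous.tendsto (L₀, η₀)).comp
      (hL.prodMk_nhds hlim)
  have k1 : B t₀ η₀ = 0 := by
    have a1 := hap (hB.continuousAt.tendsto.comp ht₀)
    have a2 := hs.smul hq
    rw [smul_zero] at a2
    refine tendsto_nhds_unique a1 (a2.congr fun n => ?_)
    rw [smul_inv_smul₀ (sub_ne_zero.2 (ht (φ n)))]
    rfl
  have k2 : B' η₀ ∈ (B t₀).range := by
    have a1 := (hap ((hasDerivAt_iff_tendsto_slope.1 hB).comp ht₁)).sub hq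
    rw [sub_zero] at a1
    refine (B t₀).range.closed_of_finiteDimensional.mem_of_tendsto a1
      (Eventually.of_forall fun n => ⟨-((t (φ n) - t₀)⁻¹ • η (φ n)), ?_⟩)
    simp [slope, smul_sub]
  obtain ⟨ζ, hζ⟩ := k2
  have k3 := h η₀ ζ k1 hζ.symm
  rw [k3] at hη₀
  simp at hη₀

/-- Conjugate times are isolated, with a linear lower bound. -/
theorem Ex.lower (h : Ex 𝒜 e) {c : Chart E M} (hc : c ∈ 𝒜.S) {θ : E} {t₀ : ℝ}
    (hx : e (t₀ • θ) ∈ c.ψ.source) (hθ : θ ≠ 0) :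
    ∃ κ > 0, ∀ᶠ t in 𝓝 t₀, ∀ η, κ * |t - t₀| * ‖η‖ ≤ ‖fderiv ℝ (c.ψ ∘ e) (t • θ) η‖ := by
  have _ := hθ
  have hs := h.sm c hc _ hx
  have h2 : HasDerivAt (fun s : ℝ => fderiv ℝ (c.ψ ∘ e) (s • θ))
      (fderiv ℝ (fderiv ℝ (c.ψ ∘ e)) (t₀ • θ) θ) t₀ :=
    HasFDerivAt.comp_hasDerivAt (l := fderiv ℝ (c.ψ ∘ e)) t₀ (cda_hasF (cda_fderiv hs))
      (hasDerivAt_line θ t₀)
  refine lower_bound_of_transversal h2 fun η ζ hη hζ => ?_
  by_cases h0 : t₀ = 0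
  · subst h0
    simp only [zero_smul] at hx hη
    have h4 := h.iso0 c hc hx η η
    rw [hη, map_zero] at h4
    exact inner_self_eq_zero.1 h4.symm
  have hg : ∀ b, ∀ᶠ y in 𝓝 (t₀ • θ), c.G ((c.ψ ∘ e) y) (fderiv ℝ (c.ψ ∘ e) y y)
      (fderiv ℝ (c.ψ ∘ e) y b) = ⟪y, b⟫ := fun b =>
    (h.cont.continuousAt.eventually (c.ψ.open_source.mem_nhds hx)).mono fun y hy =>
      h.gauss hc hy b
  have g1 := gauss_deriv (c.diff_G hx) hs ζ (hg ζ) η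
  have g2 := gauss_deriv (c.diff_G hx) hs η (hg η) ζ
  have g3 : fderiv ℝ (fderiv ℝ (c.ψ ∘ e)) (t₀ • θ) (t₀ • θ) η
      = t₀ • fderiv ℝ (c.ψ ∘ e) (t₀ • θ) ζ := by
    rw [map_smul, smul_apply, hζ]
  simp only [hη, map_zero, zero_apply, add_zero, zero_add] at g1 g2
  rw [cda_symm (cda_two hs) η (t₀ • θ), g3, cda_symm (cda_two hs) η ζ, g2, real_inner_comm,
    map_smul, smul_apply, smul_eq_mul, add_eq_left, mul_eq_zero] at g1
  have g4 : fderiv ℝ (c.ψ ∘ e) (t₀ • θ) ζ = 0 := by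
    by_contra hne
    exact (c.chr.pos _ (c.ψ.map_source hx) _ hne).ne' (g1.resolve_left h0)
  exact h.jacobi hc hx hη (by rw [g3, g4, smul_zero])

/-- A unit speed geodesic starting at e 0 is a ray. -/
theorem Ex.ray_of_geo [T2Space M] (h : Ex 𝒜 e) {γ : ℝ → M} {l : ℝ} (hl : 0 ≤ l)
    (h0 : γ 0 = e 0) (hγ : ∀ t ∈ Icc 0 l, GeoAt 𝒜 γ t ∧ UnitAt 𝒜 γ t) :
    ∃ θ : E, ‖θ‖ = 1 ∧ ∀ t ∈ Icc 0 l, γ t = e (t • θ) := by
  obtain ⟨c, hc, hx, -⟩ := 𝒜.norm (e 0)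
  have hz : (0 : ℝ) ∈ Icc 0 l := left_mem_Icc.2 hl
  have hx' : γ 0 ∈ c.ψ.source := h0 ▸ hx
  obtain ⟨v, hv, hv'⟩ := (hγ 0 hz).2 c hc hx'
  have hinj : Function.Injective (fderiv ℝ (c.ψ ∘ e) 0).toLinearMap := by
    refine (injective_iff_map_eq_zero _).2 fun a ha => ?_
    have h4 := h.iso0 c hc hx a a
    have ha' : fderiv ℝ (c.ψ ∘ e) 0 a = 0 := ha
    rw [ha', map_zero] at h4
    exact inner_self_eq_zero.1 h4.symm
  obtain ⟨θ, hθ⟩ := LinearMap.surjective_of_injective hinj v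
  have hθ' : fderiv ℝ (c.ψ ∘ e) 0 θ = v := hθ
  have h1 := h.iso0 c hc hx θ θ
  rw [hθ', ← h0, hv', real_inner_self_eq_norm_sq] at h1
  have h2 := h.hasDerivAt_ray hc (θ := θ) (t := 0) (by rwa [zero_smul])
  rw [zero_smul, hθ'] at h2
  have h3 := GeoAt.unique_nhds (hγ 0 hz).1 (h.geo θ 0) hc hx' (by rw [h0, zero_smul]) hv h2
  refine ⟨θ, ?_, fun t ht => (GeoAt.unique isPreconnected_Icc (fun t ht => (hγ t ht).1)
    (fun t _ => h.geo θ t) hz h3 t ht).eq_of_nhds⟩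
  exact (pow_eq_one_iff_of_nonneg (norm_nonneg θ) two_ne_zero).1 h1.symm

end Pool.Agent.MP_3fed84_gt
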