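import Pool.Agent.MP_3fed84_gt.Normal

/-! Calculus lemmas for exponential maps. -/

open Set Metric Filter Topology
open scoped ContDiff RealInnerProductSpace

namespace Pool.Agent.MP_3fed84_gt

theorem top_ne_zero' : (∞ : WithTop ℕ∞) ≠ 0 := by simp

theorem nat_le_top' (n : ℕ) : (n : WithTop ℕ∞) ≤ ∞ := by exact_mod_cast le_top

section General

variable {X Y : Type} [NormedAddCommGroup X] [NormedSpace ℝ X] [NormedAddCommGroup Y]
  [NormedSpace ℝ Y]

theorem cda_two {f : X → Y} {x : X} (h : ContDiffAt ℝ ∞ f x) : ContDiffAt ℝ 2 f x :=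
  h.of_le (nat_le_top' 2)

theorem cda_fderiv {f : X → Y} {x : X} (h : ContDiffAt ℝ ∞ f x) :
    ContDiffAt ℝ ∞ (fderiv ℝ f) x := h.fderiv_right (by simp)

theorem cda_hasF {f : X → Y} {x : X} (h : ContDiffAt ℝ ∞ f x) :
    HasFDerivAt f (fderiv ℝ f x) x := (h.differentiableAt top_ne_zero').hasFDerivAt

theorem cda_symm {f : X → Y} {x : X} (h : ContDiffAt ℝ 2 f x) (a b : X) :
    fderiv ℝ (fderiv ℝ f) x a b = fderiv ℝ (fderiv ℝ f) x b a :=
  (h.isSymmSndFDerivAt (by simp)).eq a b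

theorem hasDerivAt_line (θ : X) (t : ℝ) : HasDerivAt (fun s : ℝ => s • θ) θ t := by
  simpa using (hasDerivAt_id t).smul_const θ

/-- The variation of a family of solutions vanishes near a time where it vanishes. -/
theorem variation_zero {P : Type} [NormedAddCommGroup P] [NormedSpace ℝ P] {f : X → X}
    {Z : ℝ × P → X} {T : ℝ} {x ξ : P} (hf : ContDiffAt ℝ 2 f (Z (T, x)))
    (hZ : ContDiffAt ℝ 2 Z (T, x)) (hode : ∀ᶠ p in 𝓝 (T, x), fderiv ℝ Z p (1, 0) = f (Z p))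
    (hV : fderiv ℝ Z (T, x) (0, ξ) = 0) : ∀ᶠ t in 𝓝 T, fderiv ℝ Z (t, x) (0, ξ) = 0 := by
  have hc : ContinuousAt (fun t : ℝ => (t, x)) T := by fun_prop
  have hl : ∀ t : ℝ, HasDerivAt (fun t : ℝ => (t, x)) ((1 : ℝ), (0 : P)) t := fun t =>
    (hasDerivAt_id t).prodMk (hasDerivAt_const t x)
  have e1 : ∀ᶠ p in 𝓝 (T, x), ContDiffAt ℝ 2 Z p := hZ.eventually (by simp)
  have e2 : ∀ᶠ p in 𝓝 (T, x), ContDiffAt ℝ 2 f (Z p) :=
    hZ.continuousAt.eventually (hf.eventually (by simp))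
  have key : ∀ᶠ t in 𝓝 T, HasDerivAt (fun t => Z (t, x)) (f (Z (t, x))) t ∧
      HasDerivAt (fun t => fderiv ℝ Z (t, x) (0, ξ))
        (fderiv ℝ f (Z (t, x)) (fderiv ℝ Z (t, x) (0, ξ))) t := by
    filter_upwards [hc.eventually e1, hc.eventually e2, hc.eventually hode.eventually_nhds]
      with t h1 h2 h3
    have d1 : HasFDerivAt Z (fderiv ℝ Z (t, x)) (t, x) :=
      (h1.differentiableAt (by simp)).hasFDerivAt
    have d2 : HasFDerivAt (fderiv ℝ Z) (fderiv ℝ (fderiv ℝ Z) (t, x)) (t, x) :=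
      ((h1.fderiv_right (m := 1) (by norm_num)).differentiableAt (by simp)).hasFDerivAt
    have d3 : HasFDerivAt f (fderiv ℝ f (Z (t, x))) (Z (t, x)) :=
      (h2.differentiableAt (by simp)).hasFDerivAt
    constructor
    · have : HasDerivAt (fun t : ℝ => Z (t, x)) (fderiv ℝ Z (t, x) ((1 : ℝ), (0 : P))) t :=
        HasFDerivAt.comp_hasDerivAt (l := Z) (f := fun t : ℝ => (t, x)) t d1 (hl t)
      rw [h3.self_of_nhds] at this
      exact this
    · have h8 : HasDerivAt (fun t : ℝ => fderiv ℝ Z (t, x))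
          (fderiv ℝ (fderiv ℝ Z) (t, x) ((1 : ℝ), (0 : P))) t :=
        HasFDerivAt.comp_hasDerivAt (l := fderiv ℝ Z) (f := fun t : ℝ => (t, x)) t d2 (hl t)
      have h4 := h8.clm_apply (hasDerivAt_const t ((0 : ℝ), ξ))
      have h5 := d2.clm_apply (hasFDerivAt_const ((1 : ℝ), (0 : P)) (t, x))
      have h3' : (fun p => fderiv ℝ Z p (1, 0)) =ᶠ[𝓝 (t, x)] f ∘ Z := h3
      have h6 := (d3.comp (t, x) d1).congr_of_eventuallyEq h3'
      have h7 := congrArg (fun L => L ((0 : ℝ), ξ)) (h5.unique h6)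
      simp only [ContinuousLinearMap.comp_zero, zero_add, ContinuousLinearMap.flip_apply,
        ContinuousLinearMap.comp_apply] at h7
      simp only [map_zero, add_zero] at h4
      rw [cda_symm h1, h7] at h4
      exact h4
  have hF : ContDiffAt ℝ 1 (fun q : X × X => (f q.1, fderiv ℝ f q.1 q.2))
      (Z (T, x), fderiv ℝ Z (T, x) (0, ξ)) :=
    (ContDiffAt.comp (f := Prod.fst) _ (hf.of_le (by norm_num)) contDiffAt_fst).prodMk
      ((ContDiffAt.comp (f := Prod.fst) _ (hf.fderiv_right (m := 1) (by norm_num))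
        contDiffAt_fst).clm_apply contDiffAt_snd)
  have := ode_unique_nhds (f := fun q : X × X => (f q.1, fderiv ℝ f q.1 q.2))
    (y₁ := fun t => (Z (t, x), fderiv ℝ Z (t, x) (0, ξ))) (y₂ := fun t => (Z (t, x), 0)) (t₀ := T)
    hF (key.mono fun t ht => ht.1.prodMk ht.2)
    (key.mono fun t ht => by simpa using ht.1.prodMk (hasDerivAt_const t (0 : X)))
    (by simp only [hV])
  exact this.mono fun t ht => congrArg Prod.snd ht

/-- Position and velocity along the rays of B. -/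
noncomputable def raySt (B : X → Y) (p : ℝ × X) : Y × Y :=
  (B (p.1 • p.2), fderiv ℝ B (p.1 • p.2) p.2)

theorem raySt_smooth {B : X → Y} {p : ℝ × X} (h : ContDiffAt ℝ ∞ B (p.1 • p.2)) :
    ContDiffAt ℝ ∞ (raySt B) p := by
  have hm : ContDiffAt ℝ ∞ (fun q : ℝ × X => q.1 • q.2) p := contDiffAt_fst.smul contDiffAt_snd
  exact (h.comp p hm).prodMk (((cda_fderiv h).comp p hm).clm_apply contDiffAt_snd)

theorem fderiv_raySt {B : X → Y} {p : ℝ × X} (h : ContDiffAt ℝ ∞ B (p.1 • p.2)) (q : ℝ × X) :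
    fderiv ℝ (raySt B) p q = (fderiv ℝ B (p.1 • p.2) (p.1 • q.2 + q.1 • p.2),
      fderiv ℝ B (p.1 • p.2) q.2
        + fderiv ℝ (fderiv ℝ B) (p.1 • p.2) (p.1 • q.2 + q.1 • p.2) p.2) := by
  have hm := (hasFDerivAt_fst (𝕜 := ℝ) (p := p)).smul (hasFDerivAt_snd (𝕜 := ℝ) (p := p))
  have h1 := (cda_hasF h).comp p hm
  have h2 := ((cda_hasF (cda_fderiv h)).comp p hm).clm_apply (hasFDerivAt_snd (𝕜 := ℝ) (p := p))
  have h3 : HasFDerivAt (raySt B) _ p := h1.prodMk h2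
  rw [h3.fderiv]
  simp

end General

variable {E : Type} [NormedAddCommGroup E] [InnerProductSpace ℝ E]

/-- The geodesic vector field. -/
noncomputable def fld (Γ : E → E →L[ℝ] E →L[ℝ] E) (p : E × E) : E × E :=
  (p.2, -(Γ p.1 p.2 p.2))

theorem fld_smooth {U : Set E} {G : E → E →L[ℝ] E →L[ℝ] ℝ} {Γ : E → E →L[ℝ] E →L[ℝ] E}
    (h : Chr U G Γ) {p : E × E} (hp : p.1 ∈ U) : ContDiffAt ℝ ∞ (fld Γ) p :=
  contDiffAt_snd.prodMk (((((h.smΓ.contDiffAt (h.opn.mem_nhds hp)).comp p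
    contDiffAt_fst).clm_apply contDiffAt_snd).clm_apply contDiffAt_snd).neg)

theorem CGeo.deriv_eq {Γ : E → E →L[ℝ] E →L[ℝ] E} {c u : ℝ → E} {t : ℝ} (h : CGeo Γ c u t) :
    deriv c =ᶠ[𝓝 t] u := h.mono fun _ hs => hs.1.deriv

theorem CGeo.hasDerivAt {Γ : E → E →L[ℝ] E →L[ℝ] E} {c u : ℝ → E} {t : ℝ} (h : CGeo Γ c u t) :
    HasDerivAt c (deriv c t) t := h.self_of_nhds.1.differentiableAt.hasDerivAt

theorem CGeo.continuousAt_state {Γ : E → E →L[ℝ] E →L[ℝ] E} {c u : ℝ → E} {t : ℝ}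
    (h : CGeo Γ c u t) : ContinuousAt (fun s => (c s, deriv c s)) t :=
  h.self_of_nhds.1.continuousAt.prodMk
    (h.self_of_nhds.2.continuousAt.congr h.deriv_eq.symm)

/-- The geodesic equation along a ray of a smooth map. -/
theorem CGeo.ray_eq {Γ : E → E →L[ℝ] E →L[ℝ] E} {B : E → E} {w : E} {u : ℝ → E} {t : ℝ}
    (hB : ContDiffAt ℝ ∞ B (t • w)) (h : CGeo Γ (fun s : ℝ => B (s • w)) u t) :
    fderiv ℝ (fderiv ℝ B) (t • w) w w =
      -(Γ (B (t • w)) (fderiv ℝ B (t • w) w) (fderiv ℝ B (t • w) w)) := by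
  have e1 : ∀ᶠ s in 𝓝 t, ContDiffAt ℝ 2 B (s • w) :=
    (hasDerivAt_line w t).continuousAt.eventually ((cda_two hB).eventually (by simp))
  have e2 : (fun s : ℝ => fderiv ℝ B (s • w) w) =ᶠ[𝓝 t] u := by
    filter_upwards [e1, h] with s h1 h2
    have h6 : HasDerivAt (fun s : ℝ => B (s • w)) (fderiv ℝ B (s • w) w) s :=
      HasFDerivAt.comp_hasDerivAt (l := B) s (h1.differentiableAt (by simp)).hasFDerivAt
        (hasDerivAt_line w s)
    exact h6.unique h2.1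
  have h2 : HasDerivAt (fun s : ℝ => fderiv ℝ B (s • w)) (fderiv ℝ (fderiv ℝ B) (t • w) w) t :=
    HasFDerivAt.comp_hasDerivAt (l := fderiv ℝ B) t (cda_hasF (cda_fderiv hB))
      (hasDerivAt_line w t)
  have h3 := h2.clm_apply (hasDerivAt_const t w)
  have h4 := h.self_of_nhds.2.congr_of_eventuallyEq e2
  have h5 := h3.unique h4
  rw [← e2.eq_of_nhds] at h5
  simpa using h5

/-- The flow of the geodesic vector field consists of geodesics. -/
theorem cgeo_of_flow {Γ : E → E →L[ℝ] E →L[ℝ] E} {y : ℝ → E × E} {δ t₁ t : ℝ}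
    (h : ∀ τ ∈ ball (0 : ℝ) δ, HasDerivAt y (fld Γ (y τ)) τ) (ht : t ∈ ball t₁ δ) :
    CGeo Γ (fun s => (y (s - t₁)).1) (fun s => (y (s - t₁)).2) t := by
  filter_upwards [isOpen_ball.mem_nhds ht] with s hs
  have h1 : s - t₁ ∈ ball (0 : ℝ) δ := by simpa [Real.dist_eq] using hs
  have h2 : HasDerivAt (fun s => y (s - t₁)) (fld Γ (y (s - t₁))) s :=
    (h _ h1).comp_sub_const s t₁
  exact ⟨(ContinuousLinearMap.fst ℝ E E).hasFDerivAt.comp_hasDerivAt s h2,
    (ContinuousLinearMap.snd ℝ E E).hasFDerivAt.comp_hasDerivAt s h2⟩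

/-- The pulled back bilinear form. -/
noncomputable def pb (A : E →L[ℝ] E →L[ℝ] ℝ) (L : E →L[ℝ] E) : E →L[ℝ] E →L[ℝ] ℝ :=
  ((ContinuousLinearMap.compL ℝ E E ℝ).flip L).comp (A.comp L)

theorem pb_apply (A : E →L[ℝ] E →L[ℝ] ℝ) (L : E →L[ℝ] E) (a b : E) :
    pb A L a b = A (L a) (L b) := rfl

theorem pb_diff {A : E → E →L[ℝ] E →L[ℝ] ℝ} {L : E → E →L[ℝ] E} {x : E}
    (hA : DifferentiableAt ℝ A x) (hL : DifferentiableAt ℝ L x) :
    DifferentiableAt ℝ (fun y => pb (A y) (L y)) x :=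
  (((ContinuousLinearMap.compL ℝ E E ℝ).flip.differentiableAt).comp x hL).clm_comp
    (hA.clm_comp hL)

/-- Derivative of the Gauss identity. -/
theorem gauss_deriv {G : E → E →L[ℝ] E →L[ℝ] ℝ} {B : E → E} {x : E}
    (hG : DifferentiableAt ℝ G (B x)) (hB : ContDiffAt ℝ ∞ B x) (b : E)
    (h : ∀ᶠ y in 𝓝 x, G (B y) (fderiv ℝ B y y) (fderiv ℝ B y b) = ⟪y, b⟫) (a : E) :
    G (B x) (fderiv ℝ B x x) (fderiv ℝ (fderiv ℝ B) x a b)
      + G (B x) (fderiv ℝ B x a + fderiv ℝ (fderiv ℝ B) x a x) (fderiv ℝ B x b)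
      + fderiv ℝ G (B x) (fderiv ℝ B x a) (fderiv ℝ B x x) (fderiv ℝ B x b) = ⟪a, b⟫ := by
  have d1 := HasFDerivAt.comp (G := E →L[ℝ] E →L[ℝ] ℝ) x hG.hasFDerivAt (cda_hasF hB)
  have d2 := cda_hasF (cda_fderiv hB)
  have d3 := (d1.clm_apply (d2.clm_apply (hasFDerivAt_id x))).clm_apply
    (d2.clm_apply (hasFDerivAt_const b x))
  have d4 : HasFDerivAt (fun y : E => ⟪y, b⟫) (innerSL ℝ b) x := by
    have := (innerSL ℝ b).hasFDerivAt (x := x)
    refine this.congr_of_eventuallyEq (Eventually.of_forall fun y => ?_)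
    simp [real_inner_comm]
  have h5 := congrArg (fun L => L a) (d3.unique (d4.congr_of_eventuallyEq h))
  simp only [add_apply, ContinuousLinearMap.comp_apply,
    ContinuousLinearMap.flip_apply, ContinuousLinearMap.comp_zero, zero_add, Function.comp_apply,
    id, ContinuousLinearMap.id_apply, innerSL_apply_apply, map_add] at h5
  rw [real_inner_comm, ← h5]
  simp only [map_add, add_apply]
  ring

end Pool.Agent.MP_3fed84_gt
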